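import Pool.Agent.P.MP_3c2f8c_gt.Ex.Lo.OpT1

/-! A subgroup with full tangent space has open closure. -/

namespace Pool.Agent.P.MP_3c2f8c_gt.Ex.Op

open Filter Topology T1Aux

variable {p : ℕ} [Fact p.Prime] {A : Type} [NormedRing A] [NormedAlgebra ℚ_[p] A]
  [IsUltrametricDist A] [ProperSpace A]

namespace T2Aux

theorem norm_p_pos : 0 < ‖(p : ℚ_[p])‖ := norm_pos_iff.2 p_ne

theorem uniform {Γ : Subgroup Aˣ} {L : Submodule ℚ_[p] A} (hL : IsClosed (L : Set A))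
    (h : ∀ X ∈ L, TanA p Γ X) : ∃ k₀ : ℕ, ∀ k, k₀ ≤ k → ∀ X ∈ Metric.closedBall (0 : A) 1 ∩ L,
      ∃ c ∈ Γ, ‖sc p k c.1 - X‖ ≤ ‖(p : ℚ_[p])‖ := by
  refine ((isCompact_closedBall (0 : A) 1).inter_right hL).induction_on
    (p := fun s => ∃ k₀ : ℕ, ∀ k, k₀ ≤ k → ∀ X ∈ s, ∃ c ∈ Γ, ‖sc p k c.1 - X‖ ≤ ‖(p : ℚ_[p])‖)
    ?_ ?_ ?_ ?_
  · exact ⟨0, fun _ _ _ hX => hX.elim⟩
  · rintro s t hst ⟨k₀, hk⟩
    exact ⟨k₀, fun k hk' X hX => hk k hk' X (hst hX)⟩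
  · rintro s t ⟨k₀, hk⟩ ⟨k₁, hk'⟩
    refine ⟨max k₀ k₁, fun k h' X hX => ?_⟩
    rcases hX with hX | hX
    · exact hk k (le_of_max_le_left h') X hX
    · exact hk' k (le_of_max_le_right h') X hX
  · intro X hX
    obtain ⟨k₀, hk⟩ := tan_iff.1 (h X hX.2) _ (norm_p_pos (p := p))
    refine ⟨Metric.closedBall X ‖(p : ℚ_[p])‖, mem_nhdsWithin_of_mem_nhds
      (Metric.closedBall_mem_nhds X norm_p_pos), k₀, fun k hk' Y hY => ?_⟩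
    obtain ⟨c, hc, hb⟩ := hk k hk'
    refine ⟨c, hc, ?_⟩
    rw [← sub_add_sub_cancel _ X]
    exact norm_add_le hb (by rwa [← dist_eq_norm, dist_comm])

omit [NormedAlgebra ℚ_[p] A] [ProperSpace A] in
theorem norm_inv_le [NormOneClass A] {c : Aˣ} (h : ‖c.1 - 1‖ < 1) : ‖(c⁻¹).1‖ ≤ 1 := by
  by_contra hc
  rw [not_le] at hc
  have e : (c⁻¹).1 = 1 + -((c⁻¹).1 * (c.1 - 1)) := by
    rw [mul_sub, Units.inv_mul, mul_one]
    abel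
  have h1 := IsUltrametricDist.norm_add_le_max (1 : A) (-((c⁻¹).1 * (c.1 - 1)))
  rw [← e, norm_one, norm_neg, le_max_iff] at h1
  rcases h1 with h1 | h1
  · exact absurd h1 (not_le.2 hc)
  · have h2 := h1.trans (_root_.norm_mul_le _ _)
    nlinarith [norm_nonneg (c.1 - 1)]

theorem step [NormOneClass A] {U Γ : Subgroup Aˣ} {L : Submodule ℚ_[p] A}
    (hc : IsClosed (L : Set A)) {C : ℝ}
    (hL : ∀ g ∈ U, ∀ r : ℝ, 0 ≤ r → r ≤ 1 → ‖g.1 - 1‖ ≤ r → ∃ Z ∈ L, ‖g.1 - 1 - Z‖ ≤ C * r ^ 2)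
    (h : ∀ X ∈ L, TanA p Γ X) :
    ∃ k₀ : ℕ, ∀ k, k₀ ≤ k → ∀ g ∈ U, ‖g.1 - 1‖ ≤ ‖(p : ℚ_[p])‖ ^ k →
      ∃ c ∈ Γ, ‖(c⁻¹ * g).1 - 1‖ ≤ ‖(p : ℚ_[p])‖ ^ (k + 1) := by
  obtain ⟨k₀, hk₀⟩ := uniform hc h
  obtain ⟨q, hq⟩ : ∃ q, q = ‖(p : ℚ_[p])‖ := ⟨_, rfl⟩
  have hq0 : 0 < q := hq ▸ norm_p_pos
  have hq1 : q < 1 := hq ▸ Padic.norm_p_lt_one
  have hlim : Tendsto (fun k : ℕ => C * q ^ k) atTop (𝓝 0) := by
    simpa using (tendsto_pow_atTop_nhds_zero_of_lt_one hq0.le hq1).const_mul C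
  obtain ⟨k₁, hk₁⟩ := eventually_atTop.1 (hlim.eventually (gt_mem_nhds hq0))
  rw [← hq] at hk₀ ⊢
  refine ⟨max (max k₀ k₁) 1, fun k hk g hU hg => ?_⟩
  have hqk : 0 < q ^ k := pow_pos hq0 k
  have hq2 : q ^ k < 1 := pow_lt_one₀ hq0.le hq1 (by omega)
  have hle : q ^ (k + 1) ≤ q ^ k := pow_le_pow_of_le_one hq0.le hq1.le (Nat.le_succ k)
  obtain ⟨Z, hZ, hb⟩ := hL g hU _ hqk.le hq2.le hg
  have b1 : ‖g.1 - 1 - Z‖ ≤ q ^ (k + 1) := by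
    refine hb.trans ?_
    rw [sq, ← mul_assoc, pow_succ']
    exact mul_le_mul_of_nonneg_right (hk₁ k (by omega)).le hqk.le
  have b2 : ‖Z‖ ≤ q ^ k := by
    have := norm_add_le hg (((norm_neg _).le.trans b1).trans hle)
    rwa [neg_sub, add_sub_cancel] at this
  have hn : ‖(p : ℚ_[p]) ^ k‖ = q ^ k := by rw [norm_pow, hq]
  obtain ⟨c, hc, hb'⟩ := hk₀ k (by omega) (((p : ℚ_[p]) ^ k)⁻¹ • Z) ⟨by
    rw [mem_closedBall_zero_iff, norm_smul, norm_inv, hn, inv_mul_le_iff₀ hqk, mul_one]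
    exact b2, L.smul_mem _ hZ⟩
  rw [sc, ← smul_sub, norm_smul, norm_inv, hn, inv_mul_le_iff₀ hqk, ← pow_succ] at hb'
  have hcg : ‖g.1 - c.1‖ ≤ q ^ (k + 1) := by
    have e : g.1 - c.1 = (g.1 - 1 - Z) + -(c.1 - 1 - Z) := by abel
    rw [e]
    exact norm_add_le b1 ((norm_neg _).le.trans hb')
  have hc1 : ‖c.1 - 1‖ ≤ q ^ k := by
    have := norm_add_le (hb'.trans hle) b2
    rwa [sub_add_cancel] at this
  refine ⟨c, hc, ?_⟩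
  have e : (c⁻¹ * g).1 - 1 = (c⁻¹).1 * (g.1 - c.1) := by
    rw [mul_sub, Units.inv_mul, Units.val_mul]
  rw [e]
  exact (_root_.norm_mul_le _ _).trans ((mul_le_of_le_one_left (norm_nonneg _)
    (norm_inv_le (hc1.trans_lt hq2))).trans hcg)

end T2Aux

open T2Aux in
theorem open_of_tanA [NormOneClass A] {U Γ : Subgroup Aˣ} (hΓ : Γ ≤ U) {L : Submodule ℚ_[p] A}
    (hc : IsClosed (L : Set A)) {C : ℝ}
    (hL : ∀ g ∈ U, ∀ r : ℝ, 0 ≤ r → r ≤ 1 → ‖g.1 - 1‖ ≤ r → ∃ Z ∈ L, ‖g.1 - 1 - Z‖ ≤ C * r ^ 2)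
    (h : ∀ X ∈ L, TanA p Γ X) : IsOpen ((Γ.subgroupOf U).topologicalClosure : Set U) := by
  obtain ⟨k₀, hk₀⟩ := T2Aux.step hc hL h
  have hind : IsInducing fun g : U => g.1.1 :=
    Units.isOpenEmbedding_val.isInducing.comp IsInducing.subtypeVal
  have hN : {g : U | ‖g.1.1 - 1‖ ≤ ‖(p : ℚ_[p])‖ ^ k₀} ∈ 𝓝 (1 : U) := by
    have h1 : Continuous fun g : U => ‖g.1.1 - 1‖ := (hind.continuous.sub continuous_const).norm
    refine mem_of_superset ((isOpen_lt h1 continuous_const).mem_nhds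
      (show ‖(1 : U).1.1 - 1‖ < ‖(p : ℚ_[p])‖ ^ k₀ from ?_))
      fun g hg => (show ‖g.1.1 - 1‖ < ‖(p : ℚ_[p])‖ ^ k₀ from hg).le
    simpa using pow_pos (norm_p_pos (p := p)) k₀
  refine Subgroup.isOpen_of_mem_nhds _ (g := 1) (mem_of_superset hN fun g hg => ?_)
  have key : ∀ j : ℕ, ∃ c : U, c.1 ∈ Γ ∧ ‖(c⁻¹ * g).1.1 - 1‖ ≤ ‖(p : ℚ_[p])‖ ^ (k₀ + j) := by
    intro j
    induction j with
    | zero => exact ⟨1, Γ.one_mem, by simpa using hg⟩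
    | succ j ih =>
      obtain ⟨c, hc, hb⟩ := ih
      obtain ⟨c', hc', hb'⟩ := hk₀ _ (Nat.le_add_right k₀ j) _ (c⁻¹ * g).2 hb
      refine ⟨c * ⟨c', hΓ hc'⟩, Γ.mul_mem hc hc', ?_⟩
      rw [_root_.mul_inv_rev, mul_assoc]
      exact hb'
  choose c hc hb using key
  have h1 : Tendsto (fun j => (c j)⁻¹ * g) atTop (𝓝 1) := by
    rw [hind.tendsto_nhds_iff, tendsto_iff_norm_sub_tendsto_zero]
    refine squeeze_zero (fun n => norm_nonneg _) (fun n => hb n) ?_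
    exact (tendsto_pow_atTop_nhds_zero_of_lt_one (norm_nonneg _) Padic.norm_p_lt_one).comp
      (tendsto_atTop_mono (fun n => Nat.le_add_left n k₀) tendsto_id)
  have h2 : Tendsto c atTop (𝓝 g) := by
    simpa using h1.inv.const_mul g
  exact mem_closure_of_tendsto h2 (Eventually.of_forall hc)

end Pool.Agent.P.MP_3c2f8c_gt.Ex.Op
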