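import Pool.Agent.P.MP_3c2f8c_gt.Ex.Lo.LDefs

/-! EXL-T1: topology of groups of matrices. -/

namespace Pool.Agent.P.MP_3c2f8c_gt.Ex

open Matrix

section Bd

variable {κ A : Type} [Fintype κ] [DecidableEq κ] [NormedCommRing A] [IsUltrametricDist A]
  {r s : ℝ} {X Y : Matrix κ κ A}

namespace T1Aux

theorem isClopen {Z : Type} [TopologicalSpace Z] {f : Z → Matrix κ κ A} (hf : Continuous f)
    {ρ : κ → κ → ℝ} (hρ : ∀ a b, 0 < ρ a b) : IsClopen {z | ∀ a b, ‖f z a b‖ ≤ ρ a b} := by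
  simp only [Set.ofPred_forall]
  refine isClopen_iInter_of_finite fun a => isClopen_iInter_of_finite fun b => ?_
  simpa only [Set.preimage, mem_closedBall_zero_iff] using
    (IsUltrametricDist.isClopen_closedBall (0 : A) (hρ a b).ne').preimage (hf.matrix_elem a b)

theorem wr_zero {p : ℕ} : Wr p 0 r X ↔ Bd r X := by
  simp [Wr, Bd]

theorem inv {p : ℕ} [Fact p.Prime] [NormOneClass A] {w : κ → ℝ} {g : GL κ A}
    (h : Wr p w r (g.1 - 1)) (h0 : 0 ≤ r) (hr : r < 1) :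
    Wr p w 1 (g⁻¹).1 ∧ Wr p w r ((g⁻¹).1 - 1) := by
  have hp : ∀ a b, 0 < (p : ℝ) ^ (w a - w b) := fun a b =>
    Real.rpow_pos_of_pos (Nat.cast_pos.2 (Fact.out : p.Prime).pos) _
  have mono : ∀ {s t : ℝ} {X : Matrix κ κ A}, Wr p w s X → s ≤ t → Wr p w t X := fun hX e a b =>
    (hX a b).trans (mul_le_mul_of_nonneg_right e (hp a b).le)
  have e : (g⁻¹).1 - 1 = -((g⁻¹).1 * (g.1 - 1)) := by
    rw [Matrix.mul_sub, Units.inv_mul, Matrix.mul_one, neg_sub]
  have step : ∀ s, 0 ≤ s → Wr p w s (g⁻¹).1 → Wr p w (s * r) ((g⁻¹).1 - 1) := fun s hs hg a b => by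
    rw [e, Matrix.neg_apply, norm_neg]
    exact hg.mul h hs h0 a b
  obtain ⟨N, hN⟩ :=
    (Set.finite_range fun t : κ × κ => ‖(g⁻¹).1 t.1 t.2‖ / (p : ℝ) ^ (w t.1 - w t.2)).bddAbove
  have it : ∀ n : ℕ, Wr p w (max 1 (max N 1 * r ^ n)) (g⁻¹).1 := fun n => by
    induction n with
    | zero =>
      exact mono (fun a b => (div_le_iff₀ (hp a b)).1 (hN ⟨(a, b), rfl⟩)) (by simp)
    | succ n ih =>
      have h1 : Wr p w (max 1 (max N 1 * r ^ (n + 1))) ((g⁻¹).1 - 1) :=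
        mono (step _ (by positivity) ih) (by
          rw [max_mul_of_nonneg _ _ h0, one_mul, mul_assoc, ← pow_succ]
          exact max_le_max hr.le le_rfl)
      intro a b
      rw [← sub_add_cancel (g⁻¹).1 1]
      exact (IsUltrametricDist.norm_add_le_max _ _).trans
        (max_le (h1 a b) (mono (wr_one w) (le_max_left _ _) a b))
  have h1 : 0 < max N 1 := by positivity
  obtain ⟨n, hn⟩ := exists_pow_lt_of_lt_one (inv_pos.2 h1) hr
  have h2 := mono (it n) (max_le le_rfl ((mul_le_mul_of_nonneg_left hn.le h1.le).trans_eq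
    (mul_inv_cancel₀ h1.ne')))
  exact ⟨h2, by simpa only [one_mul] using step 1 zero_le_one h2⟩

theorem mem_str {R : Type} [CommRing R] {n : T3 R} (h1 : n (.inl 0) (.inl 1) (.inl 2) = 1)
    (g : GL I R) : g ∈ Str n ↔ n.pull g.1 = nu n g.1 • n := by
  constructor
  · rintro ⟨ν, hν⟩
    rw [hν.nu_eq h1]
    exact sim_iff_pull.1 hν
  · intro h
    have hs := sim_iff_pull.2 h
    have e : ∀ x, g.1 *ᵥ ((g⁻¹).1 *ᵥ x) = x := fun x => by
      rw [mulVec_mulVec, ← Units.val_mul, mul_inv_cancel, Units.val_one, one_mulVec]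
    have h2 := hs ((g⁻¹).1 *ᵥ Pi.single (.inl 0) 1) ((g⁻¹).1 *ᵥ Pi.single (.inl 1) 1)
      ((g⁻¹).1 *ᵥ Pi.single (.inl 2) 1)
    rw [e, e, e, tri_single, h1] at h2
    obtain ⟨u, hu⟩ := IsUnit.of_mul_eq_one _ h2.symm
    exact ⟨u, hu ▸ hs⟩

end T1Aux

theorem Bd.mul (hX : Bd r X) (hY : Bd s Y) (hr : 0 ≤ r) (hs : 0 ≤ s) : Bd (r * s) (X * Y) :=
  fun i j => by
    rw [Matrix.mul_apply]
    refine IsUltrametricDist.norm_sum_le_of_forall_le_of_nonneg (mul_nonneg hr hs) fun k _ => ?_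
    exact (norm_mul_le _ _).trans (mul_le_mul (hX i k) (hY k j) (norm_nonneg _) hr)

theorem Bd.add (hX : Bd r X) (hY : Bd r Y) : Bd r (X + Y) :=
  fun i j => (IsUltrametricDist.norm_add_le_max _ _).trans (max_le (hX i j) (hY i j))

theorem Bd.neg (hX : Bd r X) : Bd r (-X) := fun i j => (norm_neg _).trans_le (hX i j)

theorem Bd.sub (hX : Bd r X) (hY : Bd r Y) : Bd r (X - Y) := by
  rw [sub_eq_add_neg]
  exact hX.add hY.neg

theorem Bd.mono (hX : Bd r X) (h : r ≤ s) : Bd s X := fun i j => (hX i j).trans h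

theorem Bd.smul {p : ℕ} [Fact p.Prime] [NormedAlgebra ℚ_[p] A] (hX : Bd r X) (c : ℚ_[p]) :
    Bd (‖c‖ * r) (c • X) := fun i j =>
  (norm_smul_le c (X i j)).trans (mul_le_mul_of_nonneg_left (hX i j) (norm_nonneg _))

theorem bd_one [NormOneClass A] : Bd 1 (1 : Matrix κ κ A) := fun i j => by
  rw [Matrix.one_apply]
  split_ifs <;> simp

theorem exists_bd (X : Matrix κ κ A) : ∃ r : ℝ, 0 < r ∧ Bd r X := by
  obtain ⟨r, hr⟩ := (Set.finite_range fun t : κ × κ => ‖X t.1 t.2‖).bddAbove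
  exact ⟨max r 1, lt_max_of_lt_right one_pos,
    fun i j => (hr ⟨(i, j), rfl⟩).trans (le_max_left _ _)⟩

theorem Bd.eq_zero (h : ∀ ε : ℝ, 0 < ε → Bd ε X) : X = 0 := by
  ext i j
  exact norm_le_zero_iff.1 (le_of_forall_pos_le_add fun ε hε => (h ε hε i j).trans_eq
    (zero_add ε).symm)

theorem isClopen_bd {Z : Type} [TopologicalSpace Z] {f : Z → Matrix κ κ A} (hf : Continuous f)
    (hr : 0 < r) : IsClopen {z | Bd r (f z)} := T1Aux.isClopen hf fun _ _ => hr

theorem isClopen_wr {p : ℕ} [Fact p.Prime] {Z : Type} [TopologicalSpace Z] {f : Z → Matrix κ κ A}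
    (hf : Continuous f) (w : κ → ℝ) (hr : 0 < r) : IsClopen {z | Wr p w r (f z)} :=
  T1Aux.isClopen hf fun _ _ =>
    mul_pos hr (Real.rpow_pos_of_pos (Nat.cast_pos.2 (Fact.out : p.Prime).pos) _)

theorem Wr.exists_bd (p : ℕ) (w : κ → ℝ) (r : ℝ) :
    ∃ R : ℝ, ∀ X : Matrix κ κ A, Wr p w r X → Bd R X := by
  obtain ⟨R, hR⟩ := (Set.finite_range fun t : κ × κ => r * (p : ℝ) ^ (w t.1 - w t.2)).bddAbove
  exact ⟨R, fun X hX i j => (hX i j).trans (hR ⟨(i, j), rfl⟩)⟩

theorem Bd.inv [NormOneClass A] {g : GL κ A} (h : Bd r (g.1 - 1)) (hr : r < 1) :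
    Bd 1 (g⁻¹).1 ∧ Bd r ((g⁻¹).1 - 1) := by
  rcases isEmpty_or_nonempty κ with e | ⟨⟨a⟩⟩
  · exact ⟨fun a => e.elim a, fun a => e.elim a⟩
  · simpa only [T1Aux.wr_zero] using T1Aux.inv (p := 2) (w := 0) (T1Aux.wr_zero.2 h)
      ((norm_nonneg _).trans (h a a)) hr

theorem Wr.inv {p : ℕ} [Fact p.Prime] [NormOneClass A] {w : κ → ℝ} {g : GL κ A}
    (h : Wr p w r (g.1 - 1)) (h0 : 0 ≤ r) (hr : r < 1) :
    Wr p w 1 (g⁻¹).1 ∧ Wr p w r ((g⁻¹).1 - 1) := T1Aux.inv h h0 hr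

theorem tendsto_one_of_bd [NormOneClass A] {c : ℕ → GL κ A} {ε : ℕ → ℝ}
    (hε : Filter.Tendsto ε Filter.atTop (nhds 0)) (h : ∀ j, Bd (ε j) ((c j).1 - 1)) :
    Filter.Tendsto c Filter.atTop (nhds 1) := by
  have key : ∀ X : ℕ → Matrix κ κ A, (∀ᶠ j in Filter.atTop, Bd (ε j) (X j - 1)) →
      Filter.Tendsto X Filter.atTop (nhds 1) := fun X hX =>
    tendsto_pi_nhds.2 fun a => tendsto_pi_nhds.2 fun b => tendsto_iff_norm_sub_tendsto_zero.2
      (squeeze_zero' (.of_forall fun _ => norm_nonneg _) (hX.mono fun j hj => hj a b) hε)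
  refine Units.isInducing_embedProduct.tendsto_nhds_iff.2 (Filter.Tendsto.prodMk_nhds
    (key _ (.of_forall h)) ((MulOpposite.continuous_op.tendsto _).comp ?_))
  rw [inv_one]
  exact key _ ((hε.eventually (gt_mem_nhds one_pos)).mono fun j hj => ((h j).inv hj).2)

theorem isCompact_bdd [ProperSpace A] {G : Subgroup (GL κ A)} (hG : IsClosed (G : Set (GL κ A)))
    (R : ℝ) : IsCompact {g : G | Bd R g.1.1 ∧ Bd R (g⁻¹).1.1} := by
  have h : IsCompact {X : Matrix κ κ A | ∀ i j, X i j ∈ Metric.closedBall (0 : A) R} :=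
    isCompact_pi_infinite (s := fun _ : κ => {v : κ → A | ∀ j, v j ∈ Metric.closedBall (0 : A) R})
      fun _ => isCompact_pi_infinite fun _ => isCompact_closedBall _ _
  simpa only [Set.mem_ofPred_eq, mem_closedBall_zero_iff, Bd] using TopAux.isCompact_units hG h h

theorem bounded_of_isCompact {G : Subgroup (GL κ A)} (N : Subgroup G) [N.Normal] {C : Set (G ⧸ N)}
    (hC : IsCompact C) :
    ∃ R : ℝ, ∀ γ ∈ C, ∃ g : G, QuotientGroup.mk g = γ ∧ Bd R g.1.1 ∧ Bd R (g⁻¹).1.1 := by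
  have h3 : Continuous fun g : G => g.1.1 := Units.continuous_val.comp continuous_subtype_val
  let U : ℕ → Set G := fun k => {g | Bd (k + 1) g.1.1 ∧ Bd (k + 1) (g⁻¹).1.1}
  have hm : Monotone fun k => (QuotientGroup.mk : G → G ⧸ N) '' U k := fun k l e =>
    have : (k : ℝ) + 1 ≤ l + 1 := by exact_mod_cast Nat.succ_le_succ e
    Set.image_mono fun g hg => ⟨hg.1.mono this, hg.2.mono this⟩
  obtain ⟨k, hk⟩ := hC.elim_directed_cover _
    (fun k => QuotientGroup.isOpenMap_coe (U k) ((isClopen_bd h3 k.cast_add_one_pos).2.inter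
      (isClopen_bd (h3.comp continuous_inv) k.cast_add_one_pos).2))
    (fun γ _ => by
      obtain ⟨g, rfl⟩ := QuotientGroup.mk_surjective γ
      obtain ⟨r, -, hr⟩ := exists_bd g.1.1
      obtain ⟨s, -, hs⟩ := exists_bd (g⁻¹).1.1
      obtain ⟨k, hk⟩ := exists_nat_ge (max r s)
      exact Set.mem_iUnion.2 ⟨k, g, ⟨hr.mono (by linarith [le_max_left r s]),
        hs.mono (by linarith [le_max_right r s])⟩, rfl⟩) hm.directed_le
  exact ⟨k + 1, fun γ hγ => (hk hγ).imp fun g hg => ⟨hg.2, hg.1⟩⟩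

theorem isClosed_Str {n : T3 A} (h : n (.inl 0) (.inl 1) (.inl 2) = 1) :
    IsClosed (Str n : Set (GL I A)) := by
  have hv : Continuous fun g : GL I A => g.1 := Units.continuous_val
  have c : ∀ a b c, Continuous fun g : GL I A => n.pull g.1 a b c := fun a b c => by
    unfold T3.pull tri
    refine continuous_finsetSum _ fun i _ => continuous_finsetSum _ fun j _ =>
      continuous_finsetSum _ fun k _ => continuous_const.mul ?_
    exact ((hv.matrix_elem i a).mul (hv.matrix_elem j b)).mul (hv.matrix_elem k c)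
  have e : (Str n : Set (GL I A)) = {g | n.pull g.1 = nu n g.1 • n} := Set.ext (T1Aux.mem_str h)
  rw [e]
  exact isClosed_eq (continuous_pi fun a => continuous_pi fun b => continuous_pi (c a b))
    (continuous_pi fun a => continuous_pi fun b => continuous_pi fun d =>
      (c _ _ _).mul continuous_const)

theorem isClosed_Gw {p : ℕ} [Fact p.Prime] [NormedAlgebra ℚ_[p] A] [FiniteDimensional ℚ_[p] A]
    {n : T3 A} (h : n (.inl 0) (.inl 1) (.inl 2) = 1) (φ : Matrix I I A) (σ : A ≃ₐ[ℚ_[p]] A) :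
    IsClosed (Gw n φ σ : Set (GL I A)) := by
  have hv : Continuous fun g : GL I A => g.1 := Units.continuous_val
  have hσ : Continuous σ := σ.toLinearMap.continuous_of_finiteDimensional
  exact (isClosed_Str h).inter
    (isClosed_eq (hv.mul continuous_const) (continuous_const.mul (hv.matrix_map hσ)))

end Bd

section Quot

variable {G G' : Type} [Group G] [Group G']

theorem fiRes_map (f : G →* G') {g : G} (h : g ∈ fiRes G) : f g ∈ fiRes G' :=
  TopAux.mem_fiRes.2 fun H _ => TopAux.mem_fiRes.1 h (H.comap f)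
    ⟨by rw [Subgroup.index_comap]; exact Subgroup.FiniteIndex.index_ne_zero⟩

variable [TopologicalSpace G] [IsTopologicalGroup G] [TopologicalSpace G'] [IsTopologicalGroup G']

theorem co_map_mk (N : Subgroup G) [N.Normal] {K : Subgroup G} (h : CO K) :
    CO (K.map (QuotientGroup.mk' N)) :=
  ⟨h.1.image QuotientGroup.continuous_mk, QuotientGroup.isOpenMap_coe _ h.2⟩

theorem exists_quot_equiv (e : G ≃ₜ* G') (N : Subgroup G) [N.Normal] (N' : Subgroup G') [N'.Normal]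
    (h : ∀ g, g ∈ N ↔ e g ∈ N') : ∃ e' : G ⧸ N ≃ₜ* G' ⧸ N',
      ∀ g : G, e' (QuotientGroup.mk g) = QuotientGroup.mk (e g) := by
  have he : N.map (e.toMulEquiv : G →* G') = N' := by
    ext g
    obtain ⟨g, rfl⟩ := e.toMulEquiv.surjective g
    exact (Subgroup.mem_map_iff_mem e.toMulEquiv.injective).trans (h g)
  refine ⟨{ QuotientGroup.congr N N' e.toMulEquiv he with
    continuous_toFun := (QuotientGroup.isQuotientMap_mk N).continuous_iff.2 ?_
    continuous_invFun := (QuotientGroup.isQuotientMap_mk N').continuous_iff.2 ?_ }, fun _ => rfl⟩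
  · exact QuotientGroup.continuous_mk.comp e.continuous_toFun
  · exact QuotientGroup.continuous_mk.comp e.continuous_invFun

theorem exists_conj_equiv (R : Type) {B : Type} [CommRing R] [CommRing B] [Algebra R B]
    [TopologicalSpace B] [IsTopologicalRing B] {H H' : Subgroup (GL I B)} (P : GL I B)
    (h : ∀ g, g ∈ H ↔ P * g * P⁻¹ ∈ H') : ∃ e : H ⧸ Scal R H ≃ₜ* H' ⧸ Scal R H',
      ∀ g : H, ∃ g' : H', e (QuotientGroup.mk g) = QuotientGroup.mk g' ∧
        g'.1 = P * g.1 * P⁻¹ := by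
  obtain ⟨e, he⟩ := TopAux.exists_conj_equiv (U := H) (V := H') P (fun g => (h g).1)
    fun g hg => (h _).2 (by simpa [mul_assoc] using hg)
  obtain ⟨e', he'⟩ := exists_quot_equiv e (Scal R H) (Scal R H') fun g => by
    refine exists_congr fun t => ?_
    rw [he, Units.val_mul, Units.val_mul, Units.mul_inv_eq_iff_eq_mul, Matrix.smul_mul,
      Matrix.one_mul, ← P.mul_right_inj, Matrix.mul_smul, Matrix.mul_one]
  exact ⟨e', fun g => ⟨e g, he' g, he g⟩⟩

end Quot

end Pool.Agent.P.MP_3c2f8c_gt.Ex
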