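import Pool.Agent.P.MP_3c2f8c_gt.Ex.Lo.T1
import Pool.Agent.P.MP_3c2f8c_gt.Ex.Al.Std

/-! EXL-UN1: the group generated by unipotent elements. -/

namespace Pool.Agent.P.MP_3c2f8c_gt.Ex

open Matrix

namespace UN1Aux

variable {B : Type} [Ring B]

theorem pow_comm {X Y φ : B} (h : X * φ = φ * Y) (i : ℕ) : X ^ i * φ = φ * Y ^ i := by
  induction i with
  | zero => rw [pow_zero, pow_zero, one_mul, mul_one]
  | succ i ih => rw [pow_succ, mul_assoc, h, ← mul_assoc, ih, mul_assoc, ← pow_succ]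

theorem conj_nil (g : Bˣ) {X : B} (h : IsNilpotent X) : IsNilpotent (g.1 * X * (g⁻¹).1) := by
  obtain ⟨m, hm⟩ := h
  exact ⟨m, by rw [Units.conj_pow, hm, mul_zero, zero_mul]⟩

variable [Algebra ℚ B]

theorem exp_comm {X Y φ : B} (hX : IsNilpotent X) (hY : IsNilpotent Y) (h : X * φ = φ * Y) :
    IsNilpotent.exp X * φ = φ * IsNilpotent.exp Y := by
  obtain ⟨a, ha⟩ := hX
  obtain ⟨b, hb⟩ := hY
  rw [IsNilpotent.exp_eq_sum (pow_eq_zero_of_le (le_max_left a b) ha),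
    IsNilpotent.exp_eq_sum (pow_eq_zero_of_le (le_max_right a b) hb), Finset.sum_mul,
    Finset.mul_sum]
  refine Finset.sum_congr rfl fun i _ => ?_
  rw [smul_mul_assoc, mul_smul_comm, pow_comm h]

theorem exp_nsmul {X : B} (h : IsNilpotent X) (m : ℕ) :
    IsNilpotent.exp (m • X) = IsNilpotent.exp X ^ m := by
  induction m with
  | zero => rw [zero_smul, pow_zero, IsNilpotent.exp_zero]
  | succ m ih =>
    rw [succ_nsmul, IsNilpotent.exp_add_of_commute ((Commute.refl X).smul_left m) (h.smul m) h, ih,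
      pow_succ]

theorem exp_sq {X : B} (h : X * X = 0) : IsNilpotent.exp X = 1 + X := by
  rw [IsNilpotent.exp_eq_sum (k := 2) (by rw [pow_two, h])]
  simp [Finset.sum_range_succ]

end UN1Aux

section General

variable {κ M : Type} [Fintype κ] [DecidableEq κ] [CommRing M] [Algebra ℚ M]
  {𝔤 : Set (Matrix κ κ M)}

theorem exists_exp {X : Matrix κ κ M} (h : IsNilpotent X) :
    ∃ u : GL κ M, u.1 = IsNilpotent.exp X ∧ (u⁻¹).1 = IsNilpotent.exp (-X) :=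
  ⟨⟨_, _, IsNilpotent.exp_mul_exp_neg_self h, IsNilpotent.exp_neg_mul_exp_self h⟩, rfl, rfl⟩

theorem mem_UN {X : Matrix κ κ M} (hX : X ∈ 𝔤) (h : IsNilpotent X) {u : GL κ M}
    (hu : u.1 = IsNilpotent.exp X) : u ∈ UN 𝔤 := Subgroup.subset_closure ⟨X, hX, h, hu⟩

theorem UN_le {G : Subgroup (GL κ M)}
    (h : ∀ X ∈ 𝔤, IsNilpotent X → ∀ u : GL κ M, u.1 = IsNilpotent.exp X → u ∈ G) : UN 𝔤 ≤ G :=
  (Subgroup.closure_le G).2 fun u ⟨X, hX, hn, hu⟩ => h X hX hn u hu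

theorem UN_fiRes (hq : ∀ q : ℚ, ∀ X ∈ 𝔤, q • X ∈ 𝔤) {G : Subgroup (GL κ M)} (hG : UN 𝔤 ≤ G)
    (u : G) (hu : u.1 ∈ UN 𝔤) : u ∈ fiRes G := by
  have key : UN 𝔤 ≤ (fiRes G).map G.subtype := by
    refine UN_le fun X hX hn v hv => ⟨⟨v, hG (mem_UN hX hn hv)⟩, mem_fiRes_of_root fun m hm => ?_, rfl⟩
    have hn' : IsNilpotent ((m : ℚ)⁻¹ • X) := hn.smul _
    obtain ⟨w, hw, -⟩ := exists_exp hn'
    refine ⟨⟨w, hG (mem_UN (hq _ X hX) hn' hw)⟩, Subtype.ext (Units.ext ?_)⟩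
    rw [Subgroup.coe_pow, Units.val_pow_eq_pow_val, hw, hv, ← UN1Aux.exp_nsmul hn',
      ← Nat.cast_smul_eq_nsmul ℚ, smul_smul, mul_inv_cancel₀ (Nat.cast_ne_zero.2 hm.ne'), one_smul]
  obtain ⟨v, hv, e⟩ := key hu
  exact (Subtype.ext e : v = u) ▸ hv

theorem UN_conj {g : GL κ M} (hg : ∀ X ∈ 𝔤, g.1 * X * (g⁻¹).1 ∈ 𝔤) {u : GL κ M} (hu : u ∈ UN 𝔤) :
    g * u * g⁻¹ ∈ UN 𝔤 := by
  have key : UN 𝔤 ≤ (UN 𝔤).comap (MulAut.conj g).toMonoidHom := by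
    refine UN_le fun X hX hn v hv => mem_UN (hg X hX) (UN1Aux.conj_nil g hn) ?_
    have e := UN1Aux.exp_comm (φ := g.1) (UN1Aux.conj_nil g hn) hn
      (by rw [Units.inv_mul_cancel_right])
    change g.1 * v.1 * (g⁻¹).1 = _
    rw [hv, ← e, Units.mul_inv_cancel_right]
  exact key hu

end General

section Twist

variable {k A : Type} [CommRing k] [CommRing A] [Algebra k A] {n : T3 A} {φ X Y : Matrix I I A}
  {σ : A ≃ₐ[k] A} {g u : GL I A}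

theorem Inv1_le_Str (n : T3 A) : Inv1 n ≤ Str n := fun _ hg => ⟨1, hg⟩

theorem D0_lie (hX : X ∈ D0 n) (hY : Y ∈ D0 n) : X * Y - Y * X ∈ D0 n := Der.lie hX hY

theorem D0_conj (hg : g ∈ Str n) (hX : X ∈ D0 n) : g.1 * X * (g⁻¹).1 ∈ D0 n := by
  obtain ⟨ν, hν⟩ := hg
  exact hν.conj_der hX

theorem Lt_lie (hX : X ∈ Lt n φ σ) (hY : Y ∈ Lt n φ σ) : X * Y - Y * X ∈ Lt n φ σ := by
  refine ⟨Der.lie hX.1 hY.1, ?_⟩
  rw [Matrix.map_sub _ (map_sub σ), Matrix.map_mul, Matrix.map_mul, sub_mul, mul_sub, mul_assoc,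
    hY.2, ← mul_assoc, hX.2, mul_assoc Y, hX.2, ← mul_assoc Y, hY.2, mul_assoc, mul_assoc]

theorem Lt_conj (hg : g ∈ Gw n φ σ) (hX : X ∈ Lt n φ σ) : g.1 * X * (g⁻¹).1 ∈ Lt n φ σ := by
  refine ⟨D0_conj hg.1 hX.1, ?_⟩
  rw [Matrix.map_mul, Matrix.map_mul, mul_assoc, (inv_mem hg).2, ← mul_assoc, mul_assoc g.1, hX.2,
    ← mul_assoc, hg.2]
  simp only [mul_assoc]

variable [Algebra ℚ A]

theorem Lt_qsmul (q : ℚ) (hX : X ∈ Lt n φ σ) : q • X ∈ Lt n φ σ := by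
  refine ⟨(D0 n).smul_of_tower_mem q hX.1, ?_⟩
  rw [Matrix.smul_mul, hX.2, ← Matrix.mul_smul, Matrix.map_smul _ _ (map_rat_smul σ q)]

theorem UN_Lt_le : UN (Lt n φ σ : Set (Matrix I I A)) ≤ Gw n φ σ ⊓ Inv1 n := by
  refine UN_le fun X hX hn u hu => ?_
  have h1 : u ∈ Inv1 n := by
    rw [mem_Inv1, hu]
    exact hX.1.sim_exp hn
  refine ⟨⟨Inv1_le_Str n h1, ?_⟩, h1⟩
  have e : (IsNilpotent.exp X).map σ = IsNilpotent.exp (X.map σ) :=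
    IsNilpotent.map_exp hn (σ : A →+* A).mapMatrix
  rw [hu, e]
  exact UN1Aux.exp_comm hn (hn.map (σ : A →+* A).mapMatrix) hX.2

theorem UN_Lt_fiRes (u : Gw n φ σ) (hu : u.1 ∈ UN (Lt n φ σ : Set (Matrix I I A))) :
    u ∈ fiRes (Gw n φ σ) :=
  UN_fiRes (fun q _ hX => Lt_qsmul q hX) (UN_Lt_le.trans inf_le_left) u hu

theorem EG_le : EG A ≤ Inv1 (nZ A) := by
  refine UN_le fun X hX hn u hu => ?_
  rw [mem_Inv1, hu]
  exact Der.sim_exp hX hn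

theorem EG_le_Str : EG A ≤ Str (nZ A) := EG_le.trans (Inv1_le_Str _)

theorem EG_conj (hg : g ∈ Str (nZ A)) (hu : u ∈ EG A) : g * u * g⁻¹ ∈ EG A :=
  UN_conj (fun _ hX => D0_conj hg hX) hu

theorem EG_fiRes (u : Str (nZ A)) (hu : u.1 ∈ EG A) : u ∈ fiRes (Str (nZ A)) :=
  UN_fiRes (fun q _ hX => (D0 (nZ A)).smul_of_tower_mem q hX) EG_le_Str u hu

theorem exists_root {e a : I} (h : Rt e a) (t : A) :
    ∃ u ∈ EG A, u.1 = 1 + t • Er A e a ∧ (u⁻¹).1 = 1 - t • Er A e a := by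
  have h2 : (t • Er A e a) * (t • Er A e a) = 0 := by
    rw [smul_mul_smul_comm, Er_mul_self h, smul_zero]
  have hn : IsNilpotent (t • Er A e a) := ⟨2, by rw [pow_two, h2]⟩
  obtain ⟨u, h3, h4⟩ := exists_exp hn
  refine ⟨u, mem_UN ((D0 (nZ A)).smul_mem t (der_Er h)) hn h3, ?_, ?_⟩
  · rw [h3, UN1Aux.exp_sq h2]
  · rw [h4, UN1Aux.exp_sq (by rw [neg_mul_neg, h2]), sub_eq_add_neg]

end Twist

end Pool.Agent.P.MP_3c2f8c_gt.Ex
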