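import Pool.Agent.P.MP_3c2f8c_gt.Ex.Lo.Rt2
import Pool.Agent.P.MP_3c2f8c_gt.Ex.Lo.UN1

/-! EXL-Nd: the trace form of the split Lie algebra. -/

namespace Pool.Agent.P.MP_3c2f8c_gt.Ex

open Matrix

namespace NdAux

theorem two_steps : ∀ u v : I, ∃ d, Rt d u ∧ Rt d v := by decide +kernel

theorem Er_sq {e a u v : I} (h : Rt e a) (huv : Er ℤ e a u v ≠ 0) :
    Er ℤ e a u v * Er ℤ e a u v = 1 := by
  rw [Er_apply h] at huv ⊢
  split_ifs at huv ⊢ with h1 h2
  · rfl
  · simp only [Int.cast_id]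
    linear_combination (sg a u * sg a u) * sg_sq e v + sg_sq a u
  · exact absurd rfl huv

theorem Er_cast (R : Type) [CommRing R] (e a u v : I) : Er R e a u v = (Er ℤ e a u v : R) := by
  rw [← Er_map (Int.castRingHom R) e a]
  rfl

end NdAux

theorem dgz_mem_D0 (R : Type) [CommRing R] {d : I → ℤ} (h : TS d 0) : dgz R d ∈ D0 (nZ R) :=
  mem_D0.2 (der_diagonal_iff.2 fun a b hab => by
    exact_mod_cast congrArg (Int.cast : ℤ → R) (h a b hab))

theorem trace_mul_Er {R : Type} [CommRing R] [Algebra ℚ R] {X : Matrix I I R} (hX : X ∈ D0 (nZ R))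
    {e a : I} (h : Rt e a) : (X * Er R e a).trace = 6 * X a e := by
  have key : ∀ w : I × I, Er R e a w.1 w.2 * X w.2 w.1 =
      if Er ℤ e a w.1 w.2 ≠ 0 then X a e else 0 := fun w => by
    rw [NdAux.Er_cast]
    split_ifs with h1
    · have h2 : Er ℤ a e w.2 w.1 = Er ℤ e a w.1 w.2 := by
        rw [← Er_transpose e a, transpose_apply]
      rw [Der.entry (mem_D0.1 hX) h.symm (h2 ▸ h1), h2, ← mul_assoc, ← Int.cast_mul,
        NdAux.Er_sq h h1, Int.cast_one, one_mul]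
    · rw [not_not.1 h1, Int.cast_zero, zero_mul]
  rw [trace_mul_comm]
  simp only [Matrix.trace, diag_apply, Matrix.mul_apply]
  rw [← Fintype.sum_prod_type' fun u v => Er R e a u v * X v u, Finset.sum_congr rfl
    fun w _ => key w, ← Finset.sum_filter, Finset.sum_const, card_Er h, nsmul_eq_mul,
    Nat.cast_ofNat]

theorem exists_entry_ne {R : Type} [CommRing R] [Algebra ℚ R] {X : Matrix I I R}
    (hX : X ∈ D0 (nZ R)) (h0 : X ≠ 0) : ∃ e a, Rt e a ∧ (X a e ≠ 0 ∨
      (X = diagonal (fun u => X u u) ∧ X e e ≠ X a a)) := by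
  by_contra hc
  push Not at hc
  have hd : X = diagonal fun u => X u u := by
    ext u v
    rw [diagonal_apply]
    split_ifs with h
    · rw [h]
    · by_cases h1 : Adj u v
      · exact Der.adj_eq_zero (mem_D0.1 hX) h1
      · exact (hc v u (Rt.symm ⟨h, h1⟩)).1
  have he : ∀ u v, X u u = X v v := fun u v => by
    obtain ⟨d, h1, h2⟩ := NdAux.two_steps u v
    rw [← (hc d u h1).2 hd, (hc d v h2).2 hd]
  have h3 := der_diagonal_iff.1 (Der.diag (mem_D0.1 hX)) (.inl 0) (.inl 1) (by decide +kernel)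
  refine h0 (hd.trans ?_)
  rw [← diagonal_zero]
  congr 1
  funext u
  rw [he _ u, he (.inl 1) u, he (thd _ _) u] at h3
  have h4 : algebraMap ℚ R (1 / 3) * 3 = 1 := by
    rw [← map_ofNat (algebraMap ℚ R) 3, ← map_mul]
    norm_num
  linear_combination algebraMap ℚ R (1 / 3) * h3 - X u u * h4

theorem D0_nondeg {K : Type} [Field K] [Algebra ℚ K] {X : Matrix I I K} (hX : X ∈ D0 (nZ K))
    (h0 : X ≠ 0) : ∃ Y ∈ D0 (nZ K), (X * Y).trace = 1 := by
  have := algebraRat.charZero K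
  obtain ⟨e, a, h, h1 | ⟨hd, h1⟩⟩ := exists_entry_ne hX h0
  · refine ⟨(6 * X a e)⁻¹ • Er K e a, Submodule.smul_mem _ _ (mem_D0.2 (der_Er h)), ?_⟩
    rw [Matrix.mul_smul, trace_smul, trace_mul_Er hX h, smul_eq_mul,
      inv_mul_cancel₀ (mul_ne_zero (by norm_num) h1)]
  · have ht : TS (fun u => X u u) 0 := der_diagonal_iff.1 (Der.diag (mem_D0.1 hX))
    have hs := ht.sum_cr h
    refine ⟨(6 * (X e e - X a a))⁻¹ • dgz K (cr e a),
      Submodule.smul_mem _ _ (dgz_mem_D0 K (ts_cr h)), ?_⟩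
    have h2 : (X * dgz K (cr e a)).trace = 6 * (X e e - X a a) := by
      simp only [zsmul_eq_mul, nsmul_eq_mul, Nat.cast_ofNat] at hs
      rw [← hs]
      simp only [Matrix.trace, diag_apply, dgz, mul_diagonal]
      exact Finset.sum_congr rfl fun u _ => mul_comm _ _
    rw [Matrix.mul_smul, trace_smul, h2, smul_eq_mul,
      inv_mul_cancel₀ (mul_ne_zero (by norm_num) (sub_ne_zero.2 h1))]

end Pool.Agent.P.MP_3c2f8c_gt.Ex
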