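import Pool.Agent.P.MP_3c2f8c_gt.Ex.Lo.Rt2
import Pool.Agent.P.MP_3c2f8c_gt.Ex.Lo.UN1

/-! EXL-Wr: monomial elements of the elementary group. -/

namespace Pool.Agent.P.MP_3c2f8c_gt.Ex

open Matrix

variable {K : Type} [CommRing K] {e a : I}

theorem sim_dlv (u : Kˣ) : Sim (nZ K) (nZ K) (dlv u).1 u := by
  refine sim_diagonal_iff.2 fun a b hab => ?_
  rw [← Units.val_mul, ← Units.val_mul, ← _root_.zpow_add, ← _root_.zpow_add,
    (lv_sum_iff a b _).2 ⟨hab, rfl⟩, zpow_one]

theorem Mono.mul {π π' : Equiv.Perm I} {m m' : Matrix I I K} (h : Mono π m) (h' : Mono π' m') :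
    Mono (π * π') (m * m') := fun a b hab => by
  rw [Matrix.mul_apply] at hab
  obtain ⟨c, -, hc⟩ := Finset.exists_ne_zero_of_sum_ne_zero hab
  rw [Equiv.Perm.mul_apply, ← h' c b (right_ne_zero_of_mul hc)]
  exact h a c (left_ne_zero_of_mul hc)

theorem Mono.eq_diagonal {m : Matrix I I K} (h : Mono 1 m) : m = diagonal fun u => m u u := by
  ext u v
  by_cases huv : u = v
  · rw [huv, diagonal_apply_eq]
  · rw [diagonal_apply_ne _ huv]
    by_contra hc
    exact huv (h u v hc)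

theorem Mono.isUnit {π : Equiv.Perm I} {g : GL I K} (h : Mono π g.1) (b : I) :
    IsUnit (g.1 (π b) b) := by
  have h1 : ((g⁻¹).1 * g.1) b b = 1 := by
    rw [← Units.val_mul, inv_mul_cancel, Units.val_one, one_apply_eq]
  rw [Matrix.mul_apply, Finset.sum_eq_single (π b) (fun c _ hc => by
    rw [not_not.1 fun h0 => hc (h c b h0), mul_zero]) (by simp)] at h1
  exact IsUnit.of_mul_eq_one_right _ h1

theorem Mono.ts [Nontrivial K] {π : Equiv.Perm I} {g : GL I K} (h : Mono π g.1)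
    (hg : g ∈ Str (nZ K)) : TS (fun u => lv (π u)) 1 := fun a b hab => by
  obtain ⟨ν, hν⟩ := hg
  have e1 : ∀ c, g.1 *ᵥ (Pi.single c 1 : I → K) =
      g.1 (π c) c • (Pi.single (π c) 1 : I → K) := fun c => by
    funext d
    rw [mulVec_single_one, col_apply, Pi.smul_apply, smul_eq_mul]
    by_cases hd : d = π c
    · rw [hd, Pi.single_eq_same, mul_one]
    · rw [Pi.single_eq_of_ne hd, mul_zero]
      exact not_not.1 fun h0 => hd (h d c h0)
  have h1 := hν (Pi.single a 1) (Pi.single b 1) (Pi.single (thd a b) 1)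
  rw [e1, e1, e1, tri_smul₁, tri_smul₂, tri_smul₃, tri_single, tri_single, nZ_eq, nZ_eq,
    if_pos (show Tr a b (thd a b) from ⟨hab, rfl⟩)] at h1
  refine (lv_sum_iff _ _ _).2 ?_
  by_contra hc
  rw [if_neg hc, mul_zero, mul_zero, mul_zero] at h1
  have h2 : (sg a b : K) * (sg a b : K) = 1 := by rw [← Int.cast_mul, sg_sq, Int.cast_one]
  exact (ν.isUnit.mul (IsUnit.of_mul_eq_one _ h2)).ne_zero h1.symm

namespace WrAux

/-- Matrices supported on the graph of the reflection. -/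
def rm (e a : I) (c : I → K) : Matrix I I K := Matrix.of fun u v => if v = rf e a u then c u else 0

theorem rm_mul (c : I → K) (M : Matrix I I K) (u v : I) :
    (rm e a c * M) u v = c u * M (rf e a u) v := by
  rw [Matrix.mul_apply, Finset.sum_eq_single (rf e a u) (fun d _ hd => by simp [rm, hd]) (by simp)]
  simp [rm]

/-- The coefficients of the Weyl element. -/
def cw (e a : I) (s : I → ℤˣ) (t t' : K) (u : I) : K :=
  if cr e a u = 0 then 1 else if cr e a u = 1 then ((s u : ℤ) : K) * t else -(((s u : ℤ) : K) * t')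

theorem sq (s : ℤˣ) : ((s : ℤ) : K) * ((s : ℤ) : K) = 1 := by
  rw [← Int.cast_mul, ← Units.val_mul, Int.units_mul_self, Units.val_one, Int.cast_one]

theorem prod_eq (h : Rt e a) {s : I → ℤˣ} (hs : ∀ u, s (rf e a u) = s u) {t t' : K}
    (ht : t * t' = 1) :
    (1 + t • rm e a fun u => if cr e a u = 1 then ((s u : ℤ) : K) else 0) *
      ((1 + (-t') • rm e a fun u => if cr e a u = -1 then ((s u : ℤ) : K) else 0) *
        (1 + t • rm e a fun u => if cr e a u = 1 then ((s u : ℤ) : K) else 0)) =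
      rm e a (cw e a s t t') := by
  ext u v
  have h2 := sq (K := K) (s u)
  simp only [Matrix.add_mul, Matrix.one_mul, Matrix.smul_mul, Matrix.add_apply, Matrix.smul_apply,
    rm_mul, smul_eq_mul, rf_rf h, cr_rf h, hs]
  simp only [rm, cw, of_apply, rf_rf h, cr_rf h, hs, one_apply]
  rcases cr_cases e a u with h1 | h1 | h1
  · have h3 : rf e a u ≠ u := fun h0 => by simp [(cr_eq_zero_iff h).2 h0] at h1
    by_cases hv : v = u
    · subst hv
      simp [h1, h3, h3.symm]
      linear_combination (-(t * t')) * h2 - ht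
    · by_cases hv' : v = rf e a u
      · subst hv'
        simp [h1, h3, h3.symm]
        linear_combination (-(t * t * t' * ((s u : ℤ) : K))) * h2 - (t * ((s u : ℤ) : K)) * ht
      · simp [h1, hv, hv', Ne.symm hv, Ne.symm hv']
  · have h3 : rf e a u = u := (cr_eq_zero_iff h).1 h1
    simp [h1, h3, eq_comm]
  · have h3 : rf e a u ≠ u := fun h0 => by simp [(cr_eq_zero_iff h).2 h0] at h1
    by_cases hv : v = u
    · subst hv
      simp [h1, h3, h3.symm]
      linear_combination (-(t * t')) * h2 - ht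
    · by_cases hv' : v = rf e a u
      · subst hv'
        simp [h1, h3, h3.symm]
        ring
      · simp [h1, hv, hv', Ne.symm hv, Ne.symm hv']

theorem exists_w [Algebra ℚ K] (h : Rt e a) : ∃ s : I → ℤˣ, (∀ u, s (rf e a u) = s u) ∧
    ∀ t : Kˣ, ∃ w ∈ EG K, w.1 = rm e a (cw e a s (t : K) (t⁻¹ : Kˣ)) ∧
      (w⁻¹).1 = rm e a (cw e a s (-t : K) (-(t⁻¹ : Kˣ))) := by
  obtain ⟨s, hs, h1, h2⟩ := Er_sign h
  have e1 : Er K e a = rm e a fun u => if cr e a u = 1 then ((s u : ℤ) : K) else 0 := by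
    ext u v
    rw [← Er_map (Int.castRingHom K), map_apply, h1]
    by_cases h3 : cr e a u = 1 <;> by_cases h4 : v = rf e a u <;> simp [rm, h3, h4]
  have e2 : Er K a e = rm e a fun u => if cr e a u = -1 then ((s u : ℤ) : K) else 0 := by
    ext u v
    rw [← Er_map (Int.castRingHom K), map_apply, h2]
    by_cases h3 : cr e a u = -1 <;> by_cases h4 : v = rf e a u <;> simp [rm, h3, h4]
  refine ⟨s, hs, fun t => ?_⟩
  obtain ⟨x, hx, x1, x2⟩ := exists_root (A := K) h (t : K)
  obtain ⟨y, hy, y1, y2⟩ := exists_root (A := K) h.symm (-((t⁻¹ : Kˣ) : K))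
  refine ⟨x * (y * x), mul_mem hx (mul_mem hy hx), ?_, ?_⟩
  · rw [Units.val_mul, Units.val_mul, x1, y1, e1, e2]
    exact prod_eq h hs t.mul_inv
  · rw [_root_.mul_inv_rev, _root_.mul_inv_rev, mul_assoc, Units.val_mul, Units.val_mul, x2, y2,
      e1, e2, sub_eq_add_neg, sub_eq_add_neg, ← neg_smul, ← neg_smul]
    exact prod_eq h hs (by rw [neg_mul_neg, t.mul_inv])

end WrAux

variable [Algebra ℚ K]

theorem exists_wr (h : Rt e a) (t : Kˣ) : ∃ w ∈ EG K, ∃ s s' : I → ℤˣ,
    (∀ u v, w.1 u v = if v = rf e a u then ((s u : ℤ) : K) * (t ^ cr e a u : Kˣ) else 0) ∧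
    ∀ u v, (w⁻¹).1 u v = if v = rf e a u then ((s' u : ℤ) : K) * (t ^ cr e a u : Kˣ) else 0 := by
  obtain ⟨s, -, hw⟩ := WrAux.exists_w (K := K) h
  obtain ⟨w, hw, h1, h2⟩ := hw t
  refine ⟨w, hw, fun u => if cr e a u = 0 then 1 else if cr e a u = 1 then s u else -s u,
    fun u => if cr e a u = 0 then 1 else if cr e a u = 1 then -s u else s u,
    fun u v => ?_, fun u v => ?_⟩
  · rw [h1]
    rcases cr_cases e a u with h3 | h3 | h3 <;> simp [WrAux.rm, WrAux.cw, h3]
  · rw [h2]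
    rcases cr_cases e a u with h3 | h3 | h3 <;> simp [WrAux.rm, WrAux.cw, h3]

theorem exists_hr (h : Rt e a) (t : Kˣ) :
    ∃ w ∈ EG K, w.1 = diagonal fun u => ((t ^ cr e a u : Kˣ) : K) := by
  obtain ⟨s, hs, hw⟩ := WrAux.exists_w (K := K) h
  obtain ⟨w, hw1, h1, -⟩ := hw t
  obtain ⟨w', hw2, -, h2⟩ := hw 1
  refine ⟨w * w'⁻¹, mul_mem hw1 (inv_mem hw2), ?_⟩
  ext u v
  have h4 := WrAux.sq (K := K) (s u)
  rw [Units.val_mul, h1, h2, WrAux.rm_mul, diagonal_apply]
  simp only [WrAux.rm, WrAux.cw, of_apply, rf_rf h, cr_rf h, hs]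
  by_cases hv : u = v
  · subst hv
    rcases cr_cases e a u with h3 | h3 | h3
    · simp [h3]
      linear_combination (t : K) * h4
    · simp [h3]
    · simp [h3]
      linear_combination ((t⁻¹ : Kˣ) : K) * h4
  · simp [hv, Ne.symm hv]

theorem diagonal_mem_EG {g : GL I K} {δ : I → K} (hg : g.1 = diagonal δ)
    (h : Sim (nZ K) (nZ K) g.1 1) : g ∈ EG K := by
  have hm : Mono 1 g.1 := fun u v huv => by
    by_contra hc
    exact huv (by rw [hg]; exact diagonal_apply_ne _ hc)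
  have hu : ∀ u, IsUnit (δ u) := fun u => by simpa [hg] using hm.isUnit u
  have hv : TS (fun u => Additive.ofMul (hu u).unit) (0 : Additive Kˣ) := fun a b hab => by
    rw [← ofMul_mul, ← ofMul_mul, ← ofMul_one]
    congr 1
    ext
    rw [hg] at h
    simpa using sim_diagonal_iff.1 h a b hab
  obtain ⟨w, hw, h1⟩ := TS.induction
    (fun v : I → Additive Kˣ => ∃ w ∈ EG K, w.1 = diagonal fun u => (((v u).toMul : Kˣ) : K))
    (by
      rintro v v' ⟨w, hw, h1⟩ ⟨w', hw', h2⟩
      refine ⟨w * w', mul_mem hw hw', ?_⟩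
      rw [Units.val_mul, h1, h2, diagonal_mul_diagonal]
      rfl)
    (fun e a hr c => exists_hr hr c.toMul) hv
  rwa [show g = w from Units.ext (hg.trans h1.symm)]

end Pool.Agent.P.MP_3c2f8c_gt.Ex
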