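import Pool.Agent.P.MP_3c2f8c_gt.Ex.Lo.AB3
import Pool.Agent.P.MP_3c2f8c_gt.Ex.Lo.Wr
import Pool.Agent.P.MP_3c2f8c_gt.Ex.Lo.Nd

/-! EXL-Gen: the split group is generated by unipotent elements. -/

namespace Pool.Agent.P.MP_3c2f8c_gt.Ex

open Matrix

namespace GenAux

theorem sameV_inj {d d' : I → ℤ} (hd : Function.Injective d) (h : SameV d d') :
    Function.Injective d' ∧ ∀ b, ∃ a, d a = d' b := by
  refine ⟨fun a b hab => ?_, fun b => ?_⟩
  · have h1 : (Finset.univ.filter fun c => d c = d' b).card ≤ 1 :=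
      Finset.card_le_one.2 fun x hx y hy =>
        hd ((Finset.mem_filter.1 hx).2.trans (Finset.mem_filter.1 hy).2.symm)
    rw [h] at h1
    exact Finset.card_le_one.1 h1 a (Finset.mem_filter.2 ⟨Finset.mem_univ _, hab⟩) b
      (Finset.mem_filter.2 ⟨Finset.mem_univ _, rfl⟩)
  · have h1 : 0 < (Finset.univ.filter fun c => d' c = d' b).card :=
      Finset.card_pos.2 ⟨b, Finset.mem_filter.2 ⟨Finset.mem_univ _, rfl⟩⟩
    rw [← h] at h1
    obtain ⟨a, ha⟩ := Finset.card_pos.1 h1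
    exact ⟨a, (Finset.mem_filter.1 ha).2⟩

theorem diag_root {K : Type} [Field K] {d : I → ℤ} (v : I → K)
    (h : Polynomial.aeval (diagonal v) (∏ a, (Polynomial.X - Polynomial.C (d a : K))) = 0) (b : I) :
    ∃ a, v b = d a := by
  have h1 := Polynomial.aeval_algHom_apply (diagonalAlgHom (n := I) (α := K) K) v
    (∏ a, (Polynomial.X - Polynomial.C (d a : K)))
  rw [diagonalAlgHom_apply, h, diagonalAlgHom_apply, map_prod] at h1
  have h2 := congrFun (congrFun h1 b) b
  rw [diagonal_apply_eq, Finset.prod_apply] at h2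
  obtain ⟨a, -, ha⟩ := Finset.prod_eq_zero_iff.1 h2.symm
  refine ⟨a, sub_eq_zero.1 ?_⟩
  simpa using ha

end GenAux

variable {K : Type} [Field K] [Algebra ℚ K] {g : GL I K}

theorem exists_mono (hg : g ∈ Str (nZ K)) :
    ∃ u ∈ EG K, ∃ u' ∈ EG K, ∃ π : Equiv.Perm I, Mono π (u * g * u').1 := by
  have := algebraRat.charZero K
  have hd : Function.Injective fun a => 3 * lv a - 1 := fun a b h =>
    lv_injective (by simp only at h; omega)
  have hts : TS (fun a => 3 * lv a - 1) 0 := fun a b h => by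
    have := ts_lv a b h
    simp only
    omega
  obtain ⟨u, hu, u', hu', d', -, h1, h2⟩ := ab_main (k := K) (𝔤 := D0 (nZ K))
    (d := fun a => 3 * lv a - 1) (fun _ hX _ hY => D0_lie hX hY) (fun _ hX h => D0_nondeg hX h)
    (dgz_mem_D0 K hts) (fun _ hu _ hX => D0_conj (EG_le_Str hu) hX) (fun _ => True)
    (fun y _ h1 h2 => by
      have e : y = diagonal fun a => y a a := by
        ext a b
        rcases eq_or_ne a b with rfl | hab
        · rw [diagonal_apply_eq]
        · rw [diagonal_apply_ne _ hab, h1 a b (hd.ne hab)]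
      rw [e] at h2
      choose f hf using GenAux.diag_root _ h2
      exact ⟨fun a => 3 * lv (f a) - 1, trivial, e.trans (congrArg diagonal (funext hf))⟩)
    (fun d' _ h a b hab => (GenAux.sameV_inj hd h).1.ne fun e => hab (by rw [e]))
    (fun _ hX => D0_conj hg hX) (fun _ hX => by simpa using D0_conj (inv_mem hg) hX)
  obtain ⟨h3, h4⟩ := GenAux.sameV_inj hd h1
  choose f hf using h4
  have h5 : Function.Injective f := fun a b h => h3 (by rw [← hf, ← hf, h])
  exact ⟨u, hu, u', hu', Equiv.ofBijective f (Finite.injective_iff_bijective.1 h5),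
    fun a b h => hd ((h2 a b h).trans (hf b).symm)⟩

theorem Mono.exists_diag {π : Equiv.Perm I} (h : Mono π g.1) (hg : g ∈ Str (nZ K)) :
    ∃ u ∈ EG K, Mono 1 (g * u).1 := by
  obtain ⟨σ, ⟨u, hu, h1⟩, hmax⟩ := Set.exists_max_image
    {σ : Equiv.Perm I | ∃ u ∈ EG K, Mono σ (g * u).1} (fun σ => ∑ a, lv (σ a) * lv a)
    (Set.toFinite _) ⟨π, 1, one_mem _, by simpa using h⟩
  have hts := h1.ts (mul_mem hg (EG_le_Str hu))
  obtain rfl : σ = 1 := by
    refine chamber σ hts fun e a hr hlt => ?_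
    by_contra h2
    have h3 : lv (σ e) < lv (σ a) :=
      lt_of_le_of_ne (not_lt.1 h2) (lv_injective.ne (σ.injective.ne hr.1))
    obtain ⟨w, hw, s, -, h4, -⟩ := exists_wr (K := K) hr 1
    have h5 : Mono (Function.Involutive.toPerm (rf e a) (rf_rf hr)) w.1 := fun x y hxy => by
      rw [h4] at hxy
      have : y = rf e a x := by
        by_contra h6
        exact hxy (if_neg h6)
      rw [this, Function.Involutive.coe_toPerm, rf_rf hr]
    have h6 := hmax _ ⟨u * w, mul_mem hu hw, by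
      rw [← mul_assoc, Units.val_mul]
      exact h1.mul h5⟩
    have h7 : ∀ x, lv (σ (rf e a x)) * lv x =
        lv (σ x) * lv x - (lv (σ e) - lv (σ a)) * (cr e a x • lv x) := fun x => by
      have := hts.rf hr x
      simp only [smul_eq_mul] at this ⊢
      rw [this]
      ring
    simp only [Equiv.Perm.mul_apply, Function.Involutive.coe_toPerm, h7, Finset.sum_sub_distrib,
      ← Finset.mul_sum, ts_lv.sum_cr hr, nsmul_eq_mul] at h6
    push_cast at h6
    nlinarith [mul_pos (sub_pos.2 h3) (sub_pos.2 hlt)]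
  exact ⟨u, hu, h1⟩

theorem mem_EG_of_sim_one (h : Sim (nZ K) (nZ K) g.1 1) : g ∈ EG K := by
  have hg : g ∈ Inv1 (nZ K) := h
  obtain ⟨u, hu, u', hu', π, h1⟩ := exists_mono (Inv1_le_Str _ hg)
  have h2 : u * g * u' ∈ Inv1 (nZ K) := mul_mem (mul_mem (EG_le hu) hg) (EG_le hu')
  obtain ⟨w, hw, h3⟩ := h1.exists_diag (Inv1_le_Str _ h2)
  have h4 := diagonal_mem_EG h3.eq_diagonal (mul_mem h2 (EG_le hw))
  have e : g = u⁻¹ * (u * g * u' * w) * w⁻¹ * u'⁻¹ := by group
  rw [e]
  exact mul_mem (mul_mem (mul_mem (inv_mem hu) h4) (inv_mem hw)) (inv_mem hu')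

theorem mem_EG_of_sim {c : GL I K} {ν : Kˣ} (h : Sim (nZ K) (nZ K) g.1 ν)
    (hc : Sim (nZ K) (nZ K) c.1 ν) : g * c⁻¹ ∈ EG K :=
  mem_EG_of_sim_one (by simpa using h.mul hc.inv)

end Pool.Agent.P.MP_3c2f8c_gt.Ex
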