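import Pool.Agent.P.MP_3c2f8c_gt.Ex.Lo.HkE
import Pool.Agent.P.MP_3c2f8c_gt.Lo.Hk5

/-! EXL-HkF: the roots of the characteristic polynomial. -/

namespace Pool.Agent.P.MP_3c2f8c_gt.Ex

open Matrix Polynomial

variable {p : ℕ} [Fact p.Prime]

namespace HkFAux

theorem prod_cmp {ι : Type} [DecidableEq ι] {a : ι → ℝ} (ha : ∀ i, 0 ≤ a i) {S T : Finset ι}
    (hc : S.card = T.card) {b : ℝ} (hb : 0 ≤ b) (hT : ∀ i ∈ T, b ≤ a i) (hS : ∀ j ∉ T, a j ≤ b) :
    ∏ i ∈ S, a i ≤ ∏ i ∈ T, a i := by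
  rw [← Finset.prod_inter_mul_prod_sdiff S T, ← Finset.prod_inter_mul_prod_sdiff T S,
    Finset.inter_comm T S]
  refine mul_le_mul_of_nonneg_left ?_ (Finset.prod_nonneg fun i _ => ha i)
  calc ∏ i ∈ S \ T, a i ≤ ∏ _i ∈ S \ T, b :=
        Finset.prod_le_prod (fun i _ => ha i) fun i hi => hS i (Finset.mem_sdiff.1 hi).2
    _ = ∏ _i ∈ T \ S, b := by
        rw [Finset.prod_const, Finset.prod_const, Finset.card_sdiff_comm hc]
    _ ≤ _ := Finset.prod_le_prod (fun _ _ => hb) fun i hi => hT i (Finset.mem_sdiff.1 hi).1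

theorem prod_cmp_lt {ι : Type} [DecidableEq ι] {a : ι → ℝ} (ha : ∀ i, 0 < a i) {S T : Finset ι}
    (hc : S.card = T.card) (hne : S ≠ T) {b : ℝ} (hb : 0 ≤ b) (hT : ∀ i ∈ T, b ≤ a i)
    (hS : ∀ j ∉ T, a j < b) : ∏ i ∈ S, a i < ∏ i ∈ T, a i := by
  rw [← Finset.prod_inter_mul_prod_sdiff S T, ← Finset.prod_inter_mul_prod_sdiff T S,
    Finset.inter_comm T S]
  refine mul_lt_mul_of_pos_left ?_ (Finset.prod_pos fun i _ => ha i)
  have hn : (S \ T).Nonempty := by
    rw [Finset.sdiff_nonempty]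
    exact fun h => hne (Finset.eq_of_subset_of_card_le h hc.ge)
  calc ∏ i ∈ S \ T, a i < ∏ _i ∈ S \ T, b :=
        Finset.prod_lt_prod_of_nonempty (fun i _ => ha i)
          (fun i hi => hS i (Finset.mem_sdiff.1 hi).2) hn
    _ = ∏ _i ∈ T \ S, b := by
        rw [Finset.prod_const, Finset.prod_const, Finset.card_sdiff_comm hc]
    _ ≤ _ := Finset.prod_le_prod (fun _ _ => hb) fun i hi => hT i (Finset.mem_sdiff.1 hi).1

theorem zpow_sum' {ι : Type} {P : ℝ} (hP : P ≠ 0) (s : Finset ι) (v : ι → ℤ) :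
    P ^ (∑ i ∈ s, v i) = ∏ i ∈ s, P ^ v i := by
  classical
  induction s using Finset.induction_on with
  | empty => simp
  | insert a s ha ih => rw [Finset.sum_insert ha, Finset.prod_insert ha, zpow_add₀ hP, ih]

theorem sorted {K : Type} [NormedField K] [IsUltrametricDist K] {d : ℕ} (μ : Fin d → K)
    (hμ : Antitone fun i => ‖μ i‖) {w : Fin d → ℝ} (hw0 : ∀ i, 0 < w i) (hw : Antitone w)
    (h : ∀ (k : ℕ) (hk : k ≤ d), ‖∑ t ∈ Finset.univ.powersetCard k, ∏ i ∈ t, μ i‖ =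
      ∏ i ∈ Finset.univ.map (Fin.castLEEmb hk), w i) : ∀ i, ‖μ i‖ = w i := by
  have hmem : ∀ (k : ℕ) (hk : k ≤ d) (i : Fin d),
      i ∈ Finset.univ.map (Fin.castLEEmb hk) ↔ i.1 < k := fun k hk i => by
    rw [Finset.mem_map]
    constructor
    · rintro ⟨j, -, rfl⟩
      exact j.2
    · intro hi
      exact ⟨⟨i.1, hi⟩, Finset.mem_univ _, rfl⟩
  have hpos : ∀ i, 0 < ‖μ i‖ := by
    have h1 := h d le_rfl
    have h2 : Finset.univ.powersetCard d = {(Finset.univ : Finset (Fin d))} := by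
      simpa using Finset.powersetCard_self (Finset.univ : Finset (Fin d))
    rw [h2, Finset.sum_singleton, norm_prod] at h1
    have h3 : ∏ i, ‖μ i‖ ≠ 0 := h1 ▸ (Finset.prod_pos fun i _ => hw0 i).ne'
    exact fun i => (norm_nonneg _).lt_of_ne' (Finset.prod_ne_zero_iff.1 h3 i (Finset.mem_univ _))
  intro k
  induction k using WellFoundedLT.induction with
  | _ k ih =>
  refine le_antisymm (not_lt.1 fun hlt => ?_) (not_lt.1 fun hlt => ?_)
  · obtain ⟨j, hj, hj'⟩ := Finset.exists_max_image (Finset.univ.filter fun i => ‖μ k‖ ≤ ‖μ i‖) id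
      ⟨k, by simp⟩
    have hjk := (Finset.mem_filter.1 hj).2
    have hkj : k ≤ j := hj' k (by simp)
    have h1 := h (j.1 + 1) j.2
    have hT : ∀ i ∈ Finset.univ.map (Fin.castLEEmb j.2), ‖μ k‖ ≤ ‖μ i‖ := fun i hi =>
      hjk.trans (hμ (Fin.le_def.2 (Nat.lt_succ_iff.1 ((hmem _ _ i).1 hi))))
    rw [Hk5Aux.norm_sum_dom (i₀ := Finset.univ.map (Fin.castLEEmb j.2)) (by simp), norm_prod] at h1
    · refine (Finset.prod_lt_prod (fun i _ => hw0 i) (fun i hi => ?_)
        ⟨k, (hmem _ _ k).2 (Nat.lt_succ_of_le hkj), hlt⟩).ne' h1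
      rcases lt_or_ge i k with e | e
      · exact (ih i e).ge
      · exact ((hw e).trans hlt.le).trans (hT i hi)
    · intro S hS hne
      rw [norm_prod, norm_prod]
      refine prod_cmp_lt hpos (by simpa using (Finset.mem_powersetCard.1 hS).2) hne
        (norm_nonneg (μ k)) hT fun i hi => not_le.1 fun e => hi ((hmem _ _ i).2 ?_)
      exact Nat.lt_succ_of_le (hj' i (by simpa using e))
  · have h1 := h (k.1 + 1) k.2
    have h2 : ‖∑ t ∈ Finset.univ.powersetCard (k.1 + 1), ∏ i ∈ t, μ i‖ ≤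
        ∏ i ∈ Finset.univ.map (Fin.castLEEmb k.2), ‖μ i‖ := by
      refine IsUltrametricDist.norm_sum_le_of_forall_le_of_nonneg
        (Finset.prod_nonneg fun i _ => norm_nonneg _) fun S hS => ?_
      rw [norm_prod]
      refine prod_cmp (fun i => norm_nonneg _) (by simpa using (Finset.mem_powersetCard.1 hS).2)
        (norm_nonneg (μ k)) (fun i hi => hμ ?_) fun i hi => hμ ?_
      · exact Fin.le_def.2 (Nat.lt_succ_iff.1 ((hmem _ _ i).1 hi))
      · exact Fin.le_def.2 (Nat.le_of_succ_le (not_lt.1 fun e => hi ((hmem _ _ i).2 e)))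
    rw [h1] at h2
    refine (Finset.prod_lt_prod (fun i _ => hpos i) (fun i hi => ?_)
      ⟨k, (hmem _ _ k).2 (Nat.lt_succ_self _), hlt⟩).not_ge h2
    rcases (Fin.le_def.2 (Nat.lt_succ_iff.1 ((hmem _ _ i).1 hi))).lt_or_eq with e | e
    · exact (ih i e).le
    · rw [e]
      exact hlt.le

theorem exists_enum {K : Type} {d : ℕ} (s : Multiset K) (h : s.card = d) :
    ∃ μ : Fin d → K, Finset.univ.val.map μ = s := by
  induction s using Quotient.inductionOn with
  | _ l =>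
  obtain rfl : l.length = d := h
  exact ⟨l.get, (Fin.univ_val_map _).trans (congrArg _ (List.ofFn_get l))⟩

theorem exists_sort {ι : Type} [Fintype ι] {l : ι → ℤ} (hl : Function.Injective l) :
    ∃ (d : ℕ) (σ : Fin d ≃ ι), Fintype.card ι = d ∧ StrictAnti fun a => l (σ a) := by
  refine ⟨_, (Tuple.sort fun a => -l ((Fintype.equivFin ι).symm a)).trans
    (Fintype.equivFin ι).symm, rfl, fun a b hab => ?_⟩
  have h1 := Tuple.monotone_sort (fun a => -l ((Fintype.equivFin ι).symm a)) hab.le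
  simp only [Function.comp_apply, neg_le_neg_iff] at h1
  refine lt_of_le_of_ne h1 fun e => hab.ne' ?_
  exact (Equiv.injective _) (hl e)

end HkFAux

/-- A Newton polygon with distinct slopes. -/
theorem roots_of_norms {K : Type} [NormedField K] [IsUltrametricDist K] {P : ℝ} (hP : 1 < P)
    {d : ℕ} (μ : Fin d → K) {v : Fin d → ℤ} (hv : StrictAnti v)
    (h : ∀ (k : ℕ) (hk : k ≤ d), ‖(∏ i, (X - C (μ i))).coeff (d - k)‖ =
      P ^ (∑ i : Fin k, v (Fin.castLE hk i))) :
    ∃ π : Equiv.Perm (Fin d), ∀ i, ‖μ (π i)‖ = P ^ v i := by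
  have hP0 : 0 < P := by linarith
  refine ⟨Tuple.sort fun i => -‖μ i‖, fun i => ?_⟩
  set π := Tuple.sort fun i => -‖μ i‖
  rw [← norm_neg]
  refine HkFAux.sorted (fun i => -μ (π i)) (fun a b hab => ?_) (w := fun i => P ^ v i)
    (fun i => zpow_pos hP0 _) (fun a b hab => zpow_le_zpow_right₀ hP.le (hv.antitone hab))
    (fun k hk => ?_) i
  · have h1 := Tuple.monotone_sort (fun i => -‖μ i‖) hab
    simpa using h1
  · have h1 := h k hk
    rw [← Equiv.prod_comp π, HkFAux.zpow_sum' hP0.ne'] at h1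
    have h2 := Finset.prod_X_add_C_coeff Finset.univ (fun i => -μ (π i)) (k := d - k) (by simp)
    simp only [map_neg, ← sub_eq_add_neg, Finset.card_univ, Fintype.card_fin,
      Nat.sub_sub_self hk] at h2
    rw [← h2, h1, Finset.prod_map]
    rfl

theorem HkFAux.roots {ι : Type} [Fintype ι] [DecidableEq ι] {d : ℕ} (σ : Fin d ≃ ι)
    {v : Fin d → ℤ} (hv : StrictAnti v) {g : Matrix ι ι ℚ_[p]}
    (h : ∀ (k : ℕ) (hk : k ≤ d) (τ : Fin k → ι), (τ = fun a => σ (Fin.castLE hk a)) →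
      ‖(g.submatrix τ τ).det‖ = (p : ℝ) ^ (∑ i : Fin k, v (Fin.castLE hk i)) ∧
      ∀ f : Fin k → ι, Function.Injective f → Set.range f ≠ Set.range τ →
        ‖(g.submatrix f f).det‖ < ‖(g.submatrix τ τ).det‖) :
    ∃ lam : ι → PadicAlgCl p,
      g.charpoly.map (algebraMap ℚ_[p] (PadicAlgCl p)) = ∏ a, (X - C (lam a)) ∧
        ∀ a, ‖lam a‖ = (p : ℝ) ^ v (σ.symm a) := by
  have hP : (1 : ℝ) < p := by exact_mod_cast (Fact.out : p.Prime).one_lt
  obtain rfl : Fintype.card ι = d := by simpa using (Fintype.card_congr σ).symm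
  have hm := g.charpoly_monic.map (algebraMap ℚ_[p] (PadicAlgCl p))
  have hsp := IsAlgClosed.splits (g.charpoly.map (algebraMap ℚ_[p] (PadicAlgCl p)))
  obtain ⟨μ, hμ⟩ := HkFAux.exists_enum (d := Fintype.card ι)
    (g.charpoly.map (algebraMap ℚ_[p] (PadicAlgCl p))).roots (by
      rw [← hsp.natDegree_eq_card_roots, g.charpoly_monic.natDegree_map,
        g.charpoly_natDegree_eq_dim])
  have he : g.charpoly.map (algebraMap ℚ_[p] (PadicAlgCl p)) = ∏ i, (X - C (μ i)) := by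
    rw [hsp.eq_prod_roots_of_monic hm, ← hμ, Multiset.map_map]
    rfl
  obtain ⟨π, hπ⟩ := roots_of_norms hP μ hv (by
    intro k hk
    rw [← he, coeff_map, norm_algebraMap']
    obtain ⟨τ, hτ⟩ : ∃ τ : Fin k → ι, τ = fun a => σ (Fin.castLE hk a) := ⟨_, rfl⟩
    have hinj : Function.Injective τ := by
      rw [hτ]; exact σ.injective.comp (Fin.castLE_injective hk)
    obtain ⟨heq, hle⟩ := h k hk τ hτ
    have hr : Set.range τ = (Finset.univ.image τ : Finset ι) := by simp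
    rw [charpoly_coeff_eq_sum_minors g k hk, norm_mul, norm_pow, norm_neg, norm_one, one_pow,
      one_mul, Hk5Aux.norm_sum_dom (i₀ := Finset.univ.image τ), Hk5Aux.det_enum g hinj hr, heq]
    · rw [Finset.mem_powersetCard, Finset.card_image_of_injective _ hinj]
      simp
    · intro S hS hne
      have hcard := (Finset.mem_powersetCard.mp hS).2
      obtain ⟨f, hf⟩ : ∃ f : Fin k → ι, f = fun a => ((S.equivFinOfCardEq hcard).symm a).1 :=
        ⟨_, rfl⟩
      have hfi : Function.Injective f := by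
        rw [hf]; exact Subtype.val_injective.comp (Equiv.injective _)
      have hfr : Set.range f = S := by
        ext x
        rw [hf]
        constructor
        · rintro ⟨a, rfl⟩
          exact ((S.equivFinOfCardEq hcard).symm a).2
        · intro hx
          exact ⟨S.equivFinOfCardEq hcard ⟨x, hx⟩, by simp⟩
      rw [Hk5Aux.det_enum g hinj hr, Hk5Aux.det_enum g hfi hfr]
      exact hle f hfi (by rw [hfr, hr]; exact fun e => hne (Finset.coe_injective e)))
  refine ⟨fun a => μ (π (σ.symm a)), ?_, fun a => hπ _⟩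
  rw [he]
  exact (Equiv.prod_comp (σ.symm.trans π) fun i => X - C (μ i)).symm

theorem roots_of_inS {l : I → ℤ} (hl : Function.Injective l) {y : I → ℝ} {s t : ℝ} (hts : t < s)
    {c : ℕ} (hc : 0 < c) {g : Matrix I I ℚ_[p]} (hg : InS l y s t c g) :
    ∃ lam : I → PadicAlgCl p,
      g.charpoly.map (algebraMap ℚ_[p] (PadicAlgCl p)) = ∏ a, (X - C (lam a)) ∧
        ∀ a, ‖lam a‖ = (p : ℝ) ^ ((c : ℤ) * l a) := by
  have hP : (1 : ℝ) < p := by exact_mod_cast (Fact.out : p.Prime).one_lt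
  obtain ⟨d, σ, -, hσ⟩ := HkFAux.exists_sort hl
  obtain ⟨lam, h1, h2⟩ := HkFAux.roots σ (v := fun i => (c : ℤ) * l (σ i)) (g := g)
    (fun i j hij => mul_lt_mul_of_pos_left (hσ hij) (by exact_mod_cast hc)) (by
    intro k hk τ hτ
    have hinj : Function.Injective τ := by
      rw [hτ]; exact σ.injective.comp (Fin.castLE_injective hk)
    have htop : Top l τ := by
      refine ⟨hinj, fun a j hj => ?_⟩
      obtain ⟨b, rfl⟩ := σ.surjective j
      rw [hτ] at hj
      have hb : b < Fin.castLE hk a := hσ.lt_iff_gt.mp hj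
      exact ⟨⟨b, lt_trans hb a.2⟩, by rw [hτ]; rfl⟩
    obtain ⟨hle, heq⟩ := hg k τ htop
    refine ⟨?_, fun f hfi hne => ?_⟩
    · rw [heq, ← Real.rpow_intCast]
      congr 1
      rw [Finset.mul_sum, hτ]
      push_cast
      rfl
    · have hlt := htop.sum_lt hl hfi hne
      have hlt' : ∑ a, (l (f a) : ℝ) < ∑ a, (l (τ a) : ℝ) := by exact_mod_cast hlt
      rw [heq]
      refine (hle f f hfi hfi).trans_lt (Real.rpow_lt_rpow_of_exponent_lt hP ?_)
      nlinarith)
  exact ⟨lam, h1, fun a => by rw [h2, σ.apply_symm_apply]⟩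

end Pool.Agent.P.MP_3c2f8c_gt.Ex
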