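import Pool.Agent.P.MP_3c2f8c_gt.Ex.Lo.LDefs
import Pool.Agent.P.MP_3c2f8c_gt.Lo.Hk6
import Pool.Agent.P.MP_3c2f8c_gt.Ex.ADefs

/-! EXL-HkM: correspondences pass to quotients. -/

namespace Pool.Agent.P.MP_3c2f8c_gt.Ex

open Matrix

namespace HkMAux

variable {O O' : Type} [Group O] [Group O']

/-- The map between coset spaces. -/
def pm (f : O →* O') (A : Subgroup O) : O ⧸ A → O' ⧸ A.map f :=
  Quotient.map' f fun a b h => by
    rw [QuotientGroup.leftRel_apply] at h ⊢
    exact ⟨_, h, by rw [map_mul, map_inv]⟩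

theorem pm_coe (f : O →* O') (A : Subgroup O) (g : O) : pm f A g = (f g : O' ⧸ A.map f) := rfl

theorem pm_smul (f : O →* O') (A : Subgroup O) (g : O) (z : O ⧸ A) :
    pm f A (g • z) = f g • pm f A z := by
  obtain ⟨h, rfl⟩ := QuotientGroup.mk_surjective z
  rw [Hk6Aux.smul_coe, pm_coe, pm_coe, Hk6Aux.smul_coe, map_mul]

theorem pm_surj {f : O →* O'} (hf : Function.Surjective f) (A : Subgroup O) :
    Function.Surjective (pm f A) := fun z => by
  obtain ⟨h, rfl⟩ := QuotientGroup.mk_surjective z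
  obtain ⟨g, rfl⟩ := hf h
  exact ⟨g, rfl⟩

theorem pm_lift {f : O →* O'} {A : Subgroup O} {y : O ⧸ A} {g : O'} (h : pm f A y = g) :
    ∃ t : O, (t : O ⧸ A) = y ∧ f t = g := by
  obtain ⟨t, rfl⟩ := QuotientGroup.mk_surjective y
  obtain ⟨a, ha, e⟩ := QuotientGroup.eq.1 h
  exact ⟨t * a, QuotientGroup.mk_mul_of_mem t ha, by rw [map_mul, e, mul_inv_cancel_left]⟩

theorem pm_eq {f : O →* O'} {A : Subgroup O} {x y : O ⧸ A} (h : pm f A x = pm f A y) :
    ∃ n : O, f n = 1 ∧ n • x = y := by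
  obtain ⟨g, rfl⟩ := QuotientGroup.mk_surjective y
  obtain ⟨t, rfl, e⟩ := pm_lift h
  exact ⟨g * t⁻¹, by rw [map_mul, map_inv, e, mul_inv_cancel],
    by rw [Hk6Aux.smul_coe, inv_mul_cancel_right]⟩

theorem chain_map {Z Z' : Type} (κ : Z → Z → ℕ) (c : Z' → Z) (m : ℕ) :
    ∀ z z', Chain (fun a b => κ (c a) (c b)) m z z' → Chain κ m (c z) (c z') := by
  induction m with
  | zero => exact fun z z' h => congrArg c h
  | succ m ih => exact fun z z' ⟨y, h1, h2⟩ => ⟨c y, h1, ih _ _ h2⟩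

end HkMAux

open HkMAux

theorem corr_map {O O' : Type} [Group O] [Group O'] (f : O →* O') (hf : Function.Surjective f)
    {A B : Subgroup O} {𝒮 : Set O} (h : Corr A B 𝒮) : Corr (A.map f) (B.map f) (f '' 𝒮) := by
  classical
  obtain ⟨κ, h1, h2, h3, h4⟩ := h
  let S : O ⧸ A → O' ⧸ B.map f → ℕ := fun x z' => ∑ᶠ y, if pm f B y = z' then κ x y else 0
  have hS : ∀ (g : O) x z', S (g • x) (f g • z') = S x z' := fun g x z' => by
    simp only [S]
    rw [← Hk6Aux.finsum_smul B g]
    exact finsum_congr fun y => by simp only [pm_smul, h2, smul_left_cancel_iff]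
  have hS' : ∀ x z', S x z' = ∑ y ∈ (h1 x).toFinset, if pm f B y = z' then κ x y else 0 :=
    fun x z' => finsum_eq_sum_of_support_subset _ fun y hy => by
      rw [Set.Finite.coe_toFinset]
      exact fun h0 => hy (by simp only [h0, ite_self])
  have hne : ∀ x z', S x z' ≠ 0 → ∃ y, pm f B y = z' ∧ κ x y ≠ 0 := fun x z' h0 => by
    rw [hS'] at h0
    obtain ⟨y, -, hy⟩ := Finset.exists_ne_zero_of_sum_ne_zero h0
    exact ⟨y, ite_ne_right_iff.1 hy⟩
  have key : ∀ x z', S (Function.surjInv (pm_surj hf A) (pm f A x)) z' = S x z' := fun x z' => by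
    obtain ⟨n, hn, e⟩ := pm_eq (Function.surjInv_eq (pm_surj hf A) (pm f A x))
    conv_rhs => rw [← e, ← one_smul O' z', ← hn, hS]
  refine ⟨fun z z' => S (Function.surjInv (pm_surj hf A) z) z', fun z => ?_, fun g z z' => ?_,
    fun F hF => ?_, fun g g' h0 => ?_⟩
  · refine ((h1 (Function.surjInv (pm_surj hf A) z)).image (pm f B)).subset fun z' hz' => ?_
    obtain ⟨y, e, hy⟩ := hne _ _ hz'
    exact ⟨y, hy, e⟩
  · obtain ⟨x, rfl⟩ := pm_surj hf A z
    obtain ⟨g, rfl⟩ := hf g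
    beta_reduce
    rw [← pm_smul, key, key, hS]
  · have h5 := h3 (fun y => F (pm f B y)) fun x => by
      rw [← hF (pm f A x), finsum_eq_sum_of_support_subset (s := (h1 x).toFinset)]
      · have e : ∀ z', ((S (Function.surjInv (pm_surj hf A) (pm f A x)) z' : ℕ) : ℝ) * F z' =
            ∑ y ∈ (h1 x).toFinset, if pm f B y = z' then (κ x y : ℝ) * F z' else 0 := fun z' => by
          rw [key, hS', Nat.cast_sum, Finset.sum_mul]
          exact Finset.sum_congr rfl fun y _ => by split_ifs <;> simp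
        rw [finsum_congr e, finsum_sum_comm]
        · exact Finset.sum_congr rfl fun y _ => by
            rw [finsum_eq_single _ (pm f B y) fun z' hz' => if_neg hz'.symm, if_pos rfl]
        · exact fun y _ => (Set.finite_singleton (pm f B y)).subset fun z' hz' =>
            (ite_ne_right_iff.1 hz').1.symm
      · intro y hy
        rw [Set.Finite.coe_toFinset]
        exact Nat.cast_ne_zero.1 (left_ne_zero_of_mul hy)
    funext z
    obtain ⟨y, rfl⟩ := pm_surj hf B z
    exact congrFun h5 y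
  · obtain ⟨g, rfl⟩ := hf g
    beta_reduce at h0
    rw [← pm_coe, key] at h0
    obtain ⟨y, e, hy⟩ := hne _ _ h0
    obtain ⟨t, rfl, rfl⟩ := pm_lift e
    exact ⟨_, h4 _ _ hy, by rw [map_mul, map_inv]⟩

theorem normalizer_map {O O' : Type} [Group O] [Group O'] (f : O →* O') {A : Subgroup O} {g : O}
    (hg : g ∈ Subgroup.normalizer (A : Set O)) :
    f g ∈ Subgroup.normalizer (A.map f : Set O') :=
  Subgroup.le_normalizer_map f ⟨g, hg, rfl⟩

theorem HeckeData.transport {O O' : Type} [Group O] [TopologicalSpace O] [IsTopologicalGroup O]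
    [Group O'] [TopologicalSpace O'] [IsTopologicalGroup O'] (e : O ≃ₜ* O') {Rg : O → Prop}
    {Rg' : O' → Prop} (h : ∀ g, Rg g → Rg' (e g)) (H : HeckeData Rg) : HeckeData Rg' := by
  obtain ⟨K, κ, h1, h2, h3, h4, h5⟩ := H
  let c := Hk6Aux.cong e.symm.toMulEquiv K
  refine ⟨K.comap e.symm.toMulEquiv.toMonoidHom, fun z z' => κ (c z) (c z'), h1.comap e.symm,
    fun g => ?_, ⟨fun z => (h3.fin (c z)).preimage c.injective.injOn, fun F hF => ?_⟩,
    fun g z z' => ?_, fun m γ z hz => ?_⟩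
  · obtain ⟨a, ha, hn⟩ := h2 (e.symm g)
    refine ⟨e a, TopAux.mem_fiRes.2 fun H _ => TopAux.mem_fiRes.1 ha
      (H.comap e.toMulEquiv.toMonoidHom)
      ⟨by rw [Subgroup.index_comap]; exact Subgroup.FiniteIndex.index_ne_zero⟩,
      Subgroup.le_normalizer_comap _ ?_⟩
    change e.symm ((e a)⁻¹ * g) ∈ Subgroup.normalizer (K : Set O)
    rwa [map_mul, map_inv, e.symm_apply_apply]
  · have h6 := h3.inj (fun z => F (c.symm z)) fun z => by
      rw [← hF (c.symm z), ← finsum_comp_equiv c]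
      exact finsum_congr fun z' => by simp only [Equiv.apply_symm_apply, Equiv.symm_apply_apply]
    funext z
    have h7 := congrFun h6 (c z)
    rwa [Equiv.symm_apply_apply] at h7
  · simp only [c, Hk6Aux.cong_smul, h4]
  · have h6 := chain_map κ c _ _ _ hz
    rw [Hk6Aux.cong_smul] at h6
    have h7 := h _ (h5 m _ _ h6)
    exact (e.apply_symm_apply γ) ▸ h7

end Pool.Agent.P.MP_3c2f8c_gt.Ex
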