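import Pool.Agent.P.MP_3c2f8c_gt.Ex.Lo.HkH
import Pool.Agent.P.MP_3c2f8c_gt.Ex.Lo.HkF
import Pool.Agent.P.MP_3c2f8c_gt.Ex.Lo.HkM
import Pool.Agent.P.MP_3c2f8c_gt.Ex.Lo.Gen

/-! EXL-HkI: Hecke data for the split adjoint group. -/

namespace Pool.Agent.P.MP_3c2f8c_gt.Ex

open Matrix Polynomial

variable {p : ℕ} [Fact p.Prime]

namespace HkIAux

/-- The multipliers of the elements of a subgroup. -/
def mult (N : Subgroup (Sp p)) : Subgroup ℚ_[p]ˣ where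
  carrier := {ν | ∃ c ∈ N, Sim (nZ ℚ_[p]) (nZ ℚ_[p]) c.1.1 ν}
  one_mem' := ⟨1, one_mem _, by simpa using sim_one (nZ ℚ_[p])⟩
  mul_mem' := by
    rintro ν μ ⟨c, hc, h1⟩ ⟨d, hd, h2⟩
    exact ⟨c * d, mul_mem hc hd, by simpa using h1.mul h2⟩
  inv_mem' := by
    rintro ν ⟨c, hc, h1⟩
    exact ⟨c⁻¹, inv_mem hc, Sim.inv h1⟩

theorem charpoly_conj (g h : Sp p) : (h * g * h⁻¹).1.1.charpoly = g.1.1.charpoly := by
  have e : (h * g * h⁻¹).1.1 = h.1.1 * g.1.1 * (h.1⁻¹).1 := rfl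
  rw [e, Matrix.charpoly_mul_comm, ← Matrix.mul_assoc, Units.inv_mul, Matrix.one_mul]

end HkIAux

theorem exists_normalizer {x : I → ℝ} {n : Sp p} (hn : n ∈ Subgroup.normalizer (Gx p x : Set (Sp p)))
    (hs : Sim (nZ ℚ_[p]) (nZ ℚ_[p]) n.1.1 (p : ℚ_[p])⁻¹) (g : Sp p) :
    ∃ e ∈ fiRes (Sp p), e⁻¹ * g ∈ Subgroup.normalizer (Gx p x : Set (Sp p)) := by
  obtain ⟨ν, hν⟩ := g.2
  have hp0 : (p : ℚ_[p]) ≠ 0 := Nat.cast_ne_zero.2 (Fact.out : p.Prime).ne_zero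
  have hpR : (0 : ℝ) < p := Nat.cast_pos.2 (Fact.out : p.Prime).pos
  set P : ℚ_[p]ˣ := Units.mk0 (p : ℚ_[p]) hp0 with hP
  have h1 : P⁻¹ ∈ HkIAux.mult (Subgroup.normalizer (Gx p x : Set (Sp p))) :=
    ⟨n, hn, by simpa [hP] using hs⟩
  have h2 : ∀ u : ℚ_[p]ˣ, ‖u.1‖ = 1 →
      u ∈ HkIAux.mult (Subgroup.normalizer (Gx p x : Set (Sp p))) := fun u hu => by
    obtain ⟨d, hd, e⟩ := exists_dl_mem_Gx x hu
    exact ⟨d, Subgroup.le_normalizer hd, by rw [e]; exact sim_dlv u⟩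
  have h3 : ν ∈ HkIAux.mult (Subgroup.normalizer (Gx p x : Set (Sp p))) := by
    have a1 : ‖(ν * P⁻¹ ^ ν.1.valuation).1‖ = 1 := by
      rw [Units.val_mul, Units.val_zpow_eq_zpow_val, Units.val_inv_eq_inv_val, hP, Units.val_mk0,
        norm_mul, norm_zpow, norm_inv, Padic.norm_p, inv_inv, Padic.norm_eq_zpow_neg_valuation
        ν.ne_zero, ← zpow_add₀ hpR.ne', neg_add_cancel, zpow_zero]
    have a2 := mul_mem (h2 _ a1) (inv_mem (zpow_mem h1 ν.1.valuation))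
    rwa [mul_inv_cancel_right] at a2
  obtain ⟨c, hc, hc'⟩ := h3
  refine ⟨g * c⁻¹, EG_fiRes _ (mem_EG_of_sim hν hc'), ?_⟩
  have e : (g * c⁻¹)⁻¹ * g = c := by group
  rwa [e]

theorem hecke_UZ (hp : p ≠ 2) : HeckeData fun γ : UZ ℚ_[p] => ∃ (g : Sp p)
    (lam : I → PadicAlgCl p) (c : ℕ), QuotientGroup.mk g = γ ∧ 0 < c ∧
      g.1.1.charpoly.map (algebraMap ℚ_[p] (PadicAlgCl p)) = ∏ a, (X - C (lam a)) ∧
      ∀ a, ‖lam a‖ = (p : ℝ) ^ ((c : ℤ) * lv a) := by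
  obtain ⟨x, y, s, t, 𝒮, n, hts, hC, hS, hn, hs⟩ := hecke_Sp (p := p) hp
  let f : Sp p →* UZ ℚ_[p] := QuotientGroup.mk' _
  have hf : Function.Surjective f := QuotientGroup.mk'_surjective _
  obtain ⟨κ, k1, k2, k3⟩ := Corr.exists_hecke (A := (Gx p x).map f) (𝒮 := 𝒮.map f.toMulHom)
    (corr_map f hf hC)
  refine ⟨(Gx p x).map f, κ, co_map_mk _ (co_Gx x), fun γ => ?_, k1, k2, fun m γ z h => ?_⟩
  · obtain ⟨g, rfl⟩ := hf γ
    obtain ⟨e, he, he'⟩ := exists_normalizer hn hs g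
    refine ⟨f e, fiRes_map f he, ?_⟩
    rw [← map_inv, ← map_mul]
    exact normalizer_map f he'
  · obtain ⟨δ, g, hg, e⟩ := k3 m γ z h
    obtain ⟨h', rfl⟩ := hf δ
    obtain ⟨c, hc, hi⟩ := hS g hg
    obtain ⟨lam, l1, l2⟩ := roots_of_inS lv_injective hts hc hi
    refine ⟨h' * g * h'⁻¹, lam, c, ?_, hc, by rw [HkIAux.charpoly_conj, l1], l2⟩
    have e' : f g = (f h')⁻¹ * γ * f h' := e
    change f (h' * g * h'⁻¹) = γ
    rw [map_mul, map_mul, map_inv, e']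
    group

end Pool.Agent.P.MP_3c2f8c_gt.Ex
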