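import Pool.Agent.P.MP_3c2f8c_gt.Ex.Lo.Mod
import Pool.Agent.P.MP_3c2f8c_gt.Ex.Al.Tw

/-! EXL-SplP: splittings over the p-adic numbers. -/

namespace Pool.Agent.P.MP_3c2f8c_gt.Ex

open Matrix

theorem exists_blk (p : ℕ) [Fact p.Prime] : ∃ Q : GL I (Cub ℚ_[p]),
    Sim (nZ (Cub ℚ_[p])) (nJ (Cub ℚ_[p])) Q.1 1 ∧ Q.1.map Cub.sig = Q.1 ∧
      ∀ b : Cub ℚ_[p], phi b * Q.1 = Q.1 * phi b := by
  obtain ⟨q, hq⟩ := exists_sq_padic p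
  obtain ⟨f, S, e, -, -, hS, -⟩ := exists_split q hq
  have h4 := (Sim.inv (ν := 1) hS).map (Cub.C : ℚ_[p] →+* Cub ℚ_[p])
  rw [nJ_map, nZ_map] at h4
  have e' : (S⁻¹).1 = blk (f⁻¹).1 := Units.inv_eq_of_mul_eq_one_right (by
    rw [e, blk_mul, Units.mul_inv, blk_one])
  refine ⟨glmap Cub.C S⁻¹, h4, Matrix.ext fun a b => Cub.sig_C _, fun b => ?_⟩
  change phi b * (S⁻¹).1.map Cub.C = (S⁻¹).1.map Cub.C * phi b
  rw [e', blk_map, blk_phi]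

theorem exists_cob {R : Type} [CommRing R] [Algebra ℚ R] (c : (Cub R)ˣ) :
    ∃ m : GL (Fin 3) (Cub R), cpn (Cub.C (Cub.nrm c.1)) * m.1.map Cub.sig = c.1 • m.1 := by
  obtain ⟨d, hd, ud⟩ : ∃ d, c.1 * d = 1 ∧ IsUnit d := ⟨_, c.mul_inv, Units.isUnit _⟩
  have h1 : Cub.sig c.1 * Cub.sig d = 1 := by rw [← map_mul, hd, map_one]
  have h2 : Cub.sig (Cub.sig c.1) * Cub.sig (Cub.sig d) = 1 := by rw [← map_mul, h1, map_one]
  obtain ⟨x, hx⟩ : ∃ x : Cub R, (Cub.sig x - x) * (Cub.sig (Cub.sig x) - x) *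
      (Cub.sig (Cub.sig x) - Cub.sig x) = Cub.C (-7) :=
    ⟨Cub.eta, by ext <;> simp [Cub.eta] <;> norm_num⟩
  let m : Matrix (Fin 3) (Fin 3) (Cub R) := !![1, x, x ^ 2; d, d * Cub.sig x, d * Cub.sig x ^ 2;
    d * Cub.sig d, d * Cub.sig d * Cub.sig (Cub.sig x), d * Cub.sig d * Cub.sig (Cub.sig x) ^ 2]
  have hm : m.det = d * (d * Cub.sig d) * Cub.C (-7) := by
    rw [← hx]
    simp [m, det_fin_three]
    ring
  have h7 : IsUnit (-7 : R) := by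
    simpa [map_ofNat] using ((IsUnit.mk0 (7 : ℚ) (by norm_num)).map (algebraMap ℚ R)).neg
  have hu : IsUnit m := (isUnit_iff_isUnit_det m).2
    (hm ▸ (ud.mul (ud.mul (ud.map Cub.sig))).mul (h7.map Cub.C))
  refine ⟨hu.unit, ?_⟩
  rw [hu.unit_spec, Cub.C_nrm]
  refine Matrix.ext fun i j => ?_
  fin_cases i <;> fin_cases j <;>
    simp [m, cpn, Matrix.mul_apply, Fin.sum_univ_three, Cub.sig_sig_sig]
  · linear_combination c.1 * Cub.sig (Cub.sig c.1) * Cub.sig (Cub.sig d) * h1 + c.1 * h2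
  · linear_combination x * c.1 * Cub.sig (Cub.sig c.1) * Cub.sig (Cub.sig d) * h1 + x * c.1 * h2
  · linear_combination x ^ 2 * c.1 * Cub.sig (Cub.sig c.1) * Cub.sig (Cub.sig d) * h1 +
      x ^ 2 * c.1 * h2
  all_goals simp [← mul_assoc, hd]

theorem exists_split_P {b : ℚ} {p : ℕ} [Fact p.Prime] (hb : IsNrm p b) :
    ∃ (P : GL I (Cub ℚ_[p])) (μ c : (Cub ℚ_[p])ˣ),
      Sim (nZ (Cub ℚ_[p])) (nJ (Cub ℚ_[p])) P.1 μ ∧
      ph b (Cub ℚ_[p]) * P.1.map Cub.sig = c.1 • P.1 := by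
  obtain ⟨c, hc⟩ := hb
  obtain ⟨Q, h1, h2, h3⟩ := exists_blk p
  obtain ⟨m, hm⟩ := exists_cob c
  let M : GL I (Cub ℚ_[p]) := ⟨rhoZ m.1, rhoZ (m⁻¹).1,
    by rw [← rhoZ_mul, Units.mul_inv, rhoZ_one], by rw [← rhoZ_mul, Units.inv_mul, rhoZ_one]⟩
  have hs : Sim _ _ (Q * M).1 _ := h1.mul (sim_rhoZ m.1)
  refine ⟨Q * M, (Sim.isUnit (isAlb_nJ _) hs).unit, c ^ 2, hs, ?_⟩
  have e : ph b (Cub ℚ_[p]) = phi (Cub.C (Cub.nrm c.1)) := by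
    rw [hc]
    rfl
  have e1 : (Q.1 * rhoZ m.1).map Cub.sig = Q.1 * rhoZ (m.1.map Cub.sig) := by
    rw [Matrix.map_mul, h2]
    exact congrArg _ (rhoZ_map (Cub.sig : Cub ℚ_[p] ≃+* Cub ℚ_[p]).toRingHom m.1)
  change _ * (Q.1 * rhoZ m.1).map _ = _ • (Q.1 * rhoZ m.1)
  rw [e, e1, ← Matrix.mul_assoc, h3, Matrix.mul_assoc, phi_eq_rhoZ, ← rhoZ_mul, hm, rhoZ_smul,
    Matrix.mul_smul, Units.val_pow_eq_pow_val]

theorem exists_j13 : ∃ j : Cub ℚ_[13] →+* ℚ_[13], ∀ t, j (Cub.C t) = t :=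
  (exists_root_of_root (p := 13) (by norm_num) (t := 7) (by decide)).imp fun _ h => h.1

theorem isNrm_13 {b : ℚ} (hb : b ≠ 0) : IsNrm 13 b := by
  obtain ⟨j, hj⟩ := exists_j13
  obtain ⟨x, hx⟩ := (Cub.split_bijective j hj).2 ((b : ℚ_[13]), 1, 1)
  simp only [Prod.mk.injEq] at hx
  have h : Cub.nrm x = b := by
    rw [← hj (Cub.nrm x), Cub.C_nrm, map_mul, map_mul, hx.1, hx.2.1, hx.2.2, mul_one, mul_one]
  have hu : IsUnit x := (Cub.isUnit_iff x).2 (h ▸ IsUnit.mk0 _ (by exact_mod_cast hb))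
  exact ⟨hu.unit, h⟩

end Pool.Agent.P.MP_3c2f8c_gt.Ex
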