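import Pool.Agent.P.MP_3c2f8c_gt.Ex.Lo.Split
import Pool.Agent.P.MP_3c2f8c_gt.Ex.Lo.SplP
import Pool.Agent.P.MP_3c2f8c_gt.Ex.Lo.HkI

/-!
The Hecke operator at the prime 13.
-/

namespace Pool.Agent.P.MP_3c2f8c_gt.Ex

theorem hecke_UG {b : ℚ} (hb : b ≠ 0) : HeckeData (Reg : UG b ℚ_[l13] → Prop) := by
  change HeckeData (Reg : UG b ℚ_[13] → Prop)
  obtain ⟨e, P, he⟩ := exists_split_equiv (isNrm_13 hb)
  obtain ⟨j, hj⟩ := exists_j13
  refine HeckeData.transport e ?_ (hecke_UZ (p := 13) (by norm_num))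
  rintro _ ⟨g₀, lam, c, rfl, hc, h1, h2⟩
  obtain ⟨g, a1, a2⟩ := he g₀
  refine ⟨g, (algebraMap ℚ_[13] (PadicAlgCl 13)).comp j, a1.symm, lam, c, 1, hc, one_pos, ?_,
    fun a => by rw [h2, one_mul, Nat.cast_ofNat]⟩
  have e1 : g.1.1.charpoly = (g₀.1.1.map Cub.C).charpoly := by
    rw [a2, Units.val_mul, Units.val_mul, Matrix.coe_units_inv, Matrix.charpoly_units_conj]
    rfl
  rw [← h1, e1, Matrix.charpoly_map, Polynomial.map_map]
  congr 1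
  ext t
  simp [hj]

end Pool.Agent.P.MP_3c2f8c_gt.Ex
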