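import Pool.Agent.P.MP_3c2f8c_gt.Ex.Lo.T1
import Pool.Agent.P.MP_3c2f8c_gt.Ex.Al.Tw

/-! EXL-Cw: change of model for the twisted groups. -/

namespace Pool.Agent.P.MP_3c2f8c_gt.Ex

open Matrix

theorem mem_Gw_conj {k A : Type} [CommRing k] [CommRing A] [Algebra k A] {n n' : T3 A}
    {φ φ' : Matrix I I A} {σ : A ≃ₐ[k] A} {P : GL I A} {μ c : Aˣ} (hP : Sim n' n P.1 μ)
    (hφ : φ * P.1.map σ = c.1 • (P.1 * φ')) (g : GL I A) :
    g ∈ Gw n' φ' σ ↔ P * g * P⁻¹ ∈ Gw n φ σ := by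
  have h1 : P.1.map σ * (P⁻¹).1.map σ = 1 := by
    rw [← Matrix.map_mul, ← Units.val_mul, mul_inv_cancel]
    simp
  have h2 : (P⁻¹).1.map σ * P.1.map σ = 1 := by
    rw [← Matrix.map_mul, ← Units.val_mul, inv_mul_cancel]
    simp
  have h3 : (P⁻¹).1 * P.1 = 1 := by rw [← Units.val_mul, inv_mul_cancel, Units.val_one]
  have e1 : (P * g * P⁻¹).1 * φ * P.1.map σ = c.1 • (P.1 * (g.1 * φ')) := by
    rw [Matrix.mul_assoc, hφ, Matrix.mul_smul, Units.val_mul, Units.val_mul, Matrix.mul_assoc,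
      ← Matrix.mul_assoc (P⁻¹).1, h3, Matrix.one_mul, Matrix.mul_assoc]
  have e2 : φ * (P * g * P⁻¹).1.map σ * P.1.map σ = c.1 • (P.1 * (φ' * g.1.map σ)) := by
    rw [Units.val_mul, Units.val_mul, Matrix.map_mul, Matrix.map_mul, Matrix.mul_assoc,
      Matrix.mul_assoc, h2, Matrix.mul_one, ← Matrix.mul_assoc, hφ, Matrix.smul_mul,
      Matrix.mul_assoc]
  refine and_congr ⟨?_, ?_⟩ ⟨fun h => ?_, fun h => ?_⟩
  · rintro ⟨ν, hν⟩
    exact ⟨μ * ν * μ⁻¹, (hP.mul hν).mul hP.inv⟩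
  · rintro ⟨ν, hν⟩
    refine ⟨μ⁻¹ * ν * μ, ?_⟩
    have h4 := (hP.inv.mul hν).mul hP
    rwa [← Units.val_mul, ← Units.val_mul, show P⁻¹ * (P * g * P⁻¹) * P = g by group] at h4
  · rw [← Matrix.mul_one (_ * φ), ← Matrix.mul_one (φ * _), ← h1, ← Matrix.mul_assoc,
      ← Matrix.mul_assoc, e1, e2, h]
  · rw [h, e2] at e1
    have h4 := congrArg (fun Y => (c⁻¹).1 • ((P⁻¹).1 * Y)) e1
    simp only [Matrix.mul_smul, smul_smul, Units.inv_mul, one_smul, ← Matrix.mul_assoc, h3,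
      Matrix.one_mul] at h4
    exact h4.symm

variable {R : Type} [CommRing R] [Algebra ℚ R]

namespace CwAux

theorem unit_of_fixed {c : Cub R} (h : Cub.sig c = c) (hc : IsUnit c) :
    ∃ t : Rˣ, c = Cub.C t.1 := by
  obtain ⟨d, hd⟩ := hc.exists_right_inv
  rw [Cub.eq_C_of_sig h] at hd
  have h1 : c.c0 * d.c0 = 1 := by simpa using congrArg Cub.c0 hd
  exact ⟨Units.mkOfMulEqOne _ _ h1, Cub.eq_C_of_sig h⟩

omit [Algebra ℚ R] in
theorem C_smul (t : R) (X : Matrix I I (Cub R)) : Cub.C t • X = t • X :=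
  algebraMap_smul (Cub R) t X

omit [Algebra ℚ R] in
theorem map_smul_one (t : R) :
    (t • (1 : Matrix I I R)).map Cub.C = t • (1 : Matrix I I (Cub R)) := by
  ext1 i j
  by_cases h : i = j <;> ext <;> simp [h]

omit [Algebra ℚ R] in
theorem sig_smul_one (t : R) :
    (t • (1 : Matrix I I (Cub R))).map Cub.sig = t • (1 : Matrix I I (Cub R)) := by
  rw [← map_smul_one, Matrix.map_map]
  ext1 i j
  exact Cub.sig_C _

/-- The scalar matrices as elements of the twisted group. -/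
def sc (b : ℚ) (t : Rˣ) : Gt b R :=
  ⟨⟨t.1 • 1, (t⁻¹).1 • 1, by simp [smul_smul], by simp [smul_smul]⟩,
    ⟨Units.map (Cub.C : R →+* Cub R).toMonoidHom t ^ 3, by
      have := (sim_one (nJ (Cub R))).smul (Cub.C t.1)
      rw [C_smul, mul_one] at this
      exact this⟩, by
    change t.1 • 1 * _ = _ * (t.1 • (1 : Matrix I I (Cub R))).map Cub.sig
    rw [sig_smul_one, Matrix.smul_mul, Matrix.mul_smul, Matrix.one_mul, Matrix.mul_one]⟩

theorem map_c0 {n : T3 (Cub R)} {g : GL I (Cub R)} (hg : g ∈ Gw n 1 (sigA R)) :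
    (g.1.map Cub.c0).map Cub.C = g.1 := by
  have h := hg.2
  rw [Matrix.mul_one, Matrix.one_mul] at h
  ext1 i j
  exact (Cub.eq_C_of_sig (congrFun (congrFun h i) j).symm).symm

omit [Algebra ℚ R] in
theorem map_inj {X Y : Matrix I I R} (h : X.map Cub.C = Y.map Cub.C) : X = Y :=
  Matrix.map_injective Cub.C_injective h

theorem mul_c0 {n : T3 (Cub R)} {g h : GL I (Cub R)} (hg : g ∈ Gw n 1 (sigA R))
    (hh : h ∈ Gw n 1 (sigA R)) (e : g * h = 1) : g.1.map Cub.c0 * h.1.map Cub.c0 = 1 := by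
  apply map_inj
  rw [Matrix.map_mul, map_c0 hg, map_c0 hh, ← Units.val_mul, e]
  simp

/-- The matrix of the constant terms. -/
def dn (g : Gw (nZ (Cub R)) 1 (sigA R)) : Str (nZ R) :=
  ⟨⟨g.1.1.map Cub.c0, (g⁻¹).1.1.map Cub.c0, mul_c0 g.2 (g⁻¹).2 (mul_inv_cancel _),
    mul_c0 (g⁻¹).2 g.2 (inv_mul_cancel _)⟩, by
    obtain ⟨ν, hν⟩ := g.2.1
    have h1 := hν.map (Cub.sig : Cub R ≃+* Cub R).toRingHom
    have h2 := g.2.2
    rw [Matrix.mul_one, Matrix.one_mul] at h2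
    rw [nZ_map] at h1
    have h3 : Sim (nZ (Cub R)) (nZ (Cub R)) g.1.1 (Cub.sig ν.1) := h2 ▸ h1
    obtain ⟨t, ht⟩ := unit_of_fixed ((h3.nu_eq nZ_base).symm.trans (hν.nu_eq nZ_base)) ν.isUnit
    refine ⟨t, Sim.of_map Cub.C_injective ?_⟩
    rw [nZ_map, ← ht]
    exact (map_c0 g.2).symm ▸ hν⟩

/-- Base change to the cubic algebra. -/
def up (g : Str (nZ R)) : Gw (nZ (Cub R)) 1 (sigA R) :=
  ⟨glmap Cub.C g.1, by
    obtain ⟨ν, hν⟩ := g.2
    refine ⟨⟨Units.map (Cub.C : R →+* Cub R).toMonoidHom ν, ?_⟩, ?_⟩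
    · simpa using hν.map Cub.C
    · rw [Matrix.mul_one, Matrix.one_mul]
      ext1 i j
      exact (Cub.sig_C _).symm⟩

omit [Algebra ℚ R] in
theorem cont_C [TopologicalSpace R] : Continuous (Cub.C : R → Cub R) :=
  Cub.continuous_iff.2 ⟨continuous_id, continuous_const, continuous_const⟩

/-- The base change equivalence. -/
def eqv (R : Type) [CommRing R] [Algebra ℚ R] [TopologicalSpace R] :
    Str (nZ R) ≃ₜ* Gw (nZ (Cub R)) 1 (sigA R) where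
  toFun := up
  invFun := dn
  left_inv := fun _ => rfl
  right_inv := fun g => Subtype.ext (Units.ext (map_c0 g.2))
  map_mul' := fun g h => Subtype.ext (map_mul (glmap Cub.C) g.1 h.1)
  continuous_toFun := Continuous.subtype_mk (Units.continuous_iff.2
    ⟨(Units.continuous_val.comp continuous_subtype_val).matrix_map cont_C,
      (Units.continuous_coe_inv.comp continuous_subtype_val).matrix_map cont_C⟩) _
  continuous_invFun := Continuous.subtype_mk (Units.continuous_iff.2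
    ⟨(Units.continuous_val.comp continuous_subtype_val).matrix_map Cub.continuous_c0,
      (Units.continuous_coe_inv.comp continuous_subtype_val).matrix_map Cub.continuous_c0⟩) _

end CwAux

theorem Gw_scalar {n : T3 (Cub R)} {φ g : GL I (Cub R)} (hg : g ∈ Gw n φ.1 (sigA R)) {c : Cub R}
    (h : g.1 = c • (1 : Matrix I I (Cub R))) :
    ∃ t : Rˣ, g.1 = t.1 • (1 : Matrix I I (Cub R)) := by
  have h1 := hg.2
  have h2 : (c • (1 : Matrix I I (Cub R))).map (sigA R) = Cub.sig c • (1 : Matrix I I (Cub R)) := by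
    ext1 i j
    by_cases hij : i = j <;> simp [hij, sigA_apply]
  rw [h, h2, Matrix.smul_mul, Matrix.mul_smul, Matrix.one_mul, Matrix.mul_one] at h1
  have h3 := congrArg (fun Y => (Y * (φ⁻¹).1) (.inl 0) (.inl 0)) h1
  simp only [Matrix.smul_mul, Units.mul_inv, Matrix.smul_apply, Matrix.one_apply_eq, smul_eq_mul,
    mul_one] at h3
  have h4 := congrFun (congrFun g.mul_inv (.inl 0)) (.inl 0)
  rw [h, Matrix.smul_mul, Matrix.one_mul, Matrix.smul_apply, Matrix.one_apply_eq,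
    smul_eq_mul] at h4
  obtain ⟨t, ht⟩ := CwAux.unit_of_fixed h3.symm (IsUnit.of_mul_eq_one _ h4)
  exact ⟨t, by rw [h, ht, CwAux.C_smul]⟩

theorem Gt_scalar {b : ℚ} (hb : b ≠ 0) {g : GL I (Cub R)} (hg : g ∈ Gt b R) {c : Cub R}
    (h : g.1 = c • (1 : Matrix I I (Cub R))) :
    ∃ t : Rˣ, g.1 = t.1 • (1 : Matrix I I (Cub R)) := by
  obtain ⟨φ, hφ⟩ := exists_phU hb (Cub R)
  rw [Gt_eq, ← hφ] at hg
  exact Gw_scalar hg h

theorem Gt_nu {b : ℚ} (hb : b ≠ 0) (g : Gt b R) :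
    ∃ t : Rˣ, Sim (nJ (Cub R)) (nJ (Cub R)) g.1.1 (Cub.C t.1) := by
  obtain ⟨⟨ν, hν⟩, hg⟩ := g.2
  have h1 := hν.map (Cub.sig : Cub R ≃+* Cub R).toRingHom
  rw [nJ_map] at h1
  have h2 := (hν.mul (sim_phi (algebraMap ℚ (Cub R) b))).nu_eq nJ_base
  have h3 := ((sim_phi (algebraMap ℚ (Cub R) b)).mul h1).nu_eq nJ_base
  have h4 : ν.1 * algebraMap ℚ (Cub R) b ^ 2 = algebraMap ℚ (Cub R) b ^ 2 * Cub.sig ν.1 :=
    h2.symm.trans ((congrArg (nu (nJ (Cub R))) hg).trans h3)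
  rw [mul_comm] at h4
  obtain ⟨t, ht⟩ := CwAux.unit_of_fixed
    ((((IsUnit.mk0 b hb).map (algebraMap ℚ (Cub R))).pow 2).mul_left_cancel h4).symm ν.isUnit
  exact ⟨t, ht ▸ hν⟩

theorem exists_smul_Gt {b : ℚ} (g : Gt b R) (t : Rˣ) : ∃ g' : Gt b R, g'.1.1 = t.1 • g.1.1 ∧
    (g'⁻¹).1.1 = (t⁻¹).1 • (g⁻¹).1.1 ∧
    (QuotientGroup.mk g' : UG b R) = QuotientGroup.mk g := by
  refine ⟨CwAux.sc b t * g, ?_, ?_, ?_⟩
  · change t.1 • 1 * _ = _
    rw [Matrix.smul_mul, Matrix.one_mul]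
  · change _ * (t⁻¹).1 • 1 = _
    rw [Matrix.mul_smul, Matrix.mul_one]
    rfl
  · have h : CwAux.sc b t ∈ Scal R (Gt b R) := ⟨t, rfl⟩
    rw [QuotientGroup.mk_mul, (QuotientGroup.eq_one_iff _).2 h, one_mul]

theorem mk_eq_iff_Gt {b : ℚ} (g g' : Gt b R) :
    (QuotientGroup.mk g' : UG b R) = QuotientGroup.mk g ↔ ∃ t : Rˣ, g'.1.1 = t.1 • g.1.1 := by
  rw [eq_comm, QuotientGroup.eq]
  refine exists_congr fun t => ⟨fun h => ?_, fun h => ?_⟩
  · have h1 := congrArg (g.1.1 * ·) h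
    simp only [Subgroup.coe_mul, Subgroup.coe_inv, Units.val_mul, Units.mul_inv_cancel_left,
      Matrix.mul_smul, Matrix.mul_one] at h1
    exact h1
  · rw [Subgroup.coe_mul, Units.val_mul, h, Matrix.mul_smul, Subgroup.coe_inv, Units.inv_mul]

theorem exists_base_equiv (p : ℕ) [Fact p.Prime] :
    ∃ e : UZ ℚ_[p] ≃ₜ* Gw (nZ (Cub ℚ_[p])) 1 (sigA ℚ_[p]) ⧸
        Scal ℚ_[p] (Gw (nZ (Cub ℚ_[p])) 1 (sigA ℚ_[p])),
      ∀ g₀ : Str (nZ ℚ_[p]), ∃ g : Gw (nZ (Cub ℚ_[p])) 1 (sigA ℚ_[p]),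
        e (QuotientGroup.mk g₀) = QuotientGroup.mk g ∧ g.1 = glmap Cub.C g₀.1 := by
  obtain ⟨e, he⟩ := exists_quot_equiv (CwAux.eqv ℚ_[p]) (Scal ℚ_[p] _) (Scal ℚ_[p] _) fun g =>
    exists_congr fun t => ⟨fun h => by
      change g.1.1.map Cub.C = _
      rw [h, CwAux.map_smul_one], fun h => CwAux.map_inj (h.trans (CwAux.map_smul_one _).symm)⟩
  exact ⟨e, fun g₀ => ⟨_, he g₀, rfl⟩⟩

end Pool.Agent.P.MP_3c2f8c_gt.Ex
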