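import Pool.Agent.P.MP_3c2f8c_gt.Ex.Lo.T1

/-! EXL-T2: torsion-free levels. -/

namespace Pool.Agent.P.MP_3c2f8c_gt.Ex

open Matrix

variable {p : ℕ} [Fact p.Prime] {A : Type} [NormedCommRing A] [IsUltrametricDist A]
  [NormOneClass A] [ProperSpace A] [NormedAlgebra ℚ_[p] A] {G : Subgroup (GL I A)}

namespace T2Aux

variable {w : I → ℝ} {r s : ℝ} {X Y : Matrix I I A}

omit [Fact p.Prime] [NormOneClass A] [ProperSpace A] [NormedAlgebra ℚ_[p] A] in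
theorem wr_add (hX : Wr p w r X) (hY : Wr p w r Y) : Wr p w r (X + Y) := fun a b =>
  (IsUltrametricDist.norm_add_le_max _ _).trans (max_le (hX a b) (hY a b))

omit [Fact p.Prime] [IsUltrametricDist A] [NormOneClass A] [ProperSpace A]
  [NormedAlgebra ℚ_[p] A] in
theorem wr_mono (hX : Wr p w r X) (h : r ≤ s) : Wr p w s X := fun a b =>
  (hX a b).trans (mul_le_mul_of_nonneg_right h (by positivity))

omit [Fact p.Prime] [NormOneClass A] [ProperSpace A] [NormedAlgebra ℚ_[p] A] in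
theorem wr_nsmul (hX : Wr p w r X) (n : ℕ) : Wr p w r (n • X) := fun a b =>
  (IsUltrametricDist.norm_nsmul_le _ n).trans (hX a b)

theorem pos : (0 : ℝ) < p := by exact_mod_cast (Fact.out : p.Prime).pos

theorem inv_lt : (p : ℝ)⁻¹ < 1 :=
  inv_lt_one_of_one_lt₀ (by exact_mod_cast (Fact.out : p.Prime).one_lt)

omit [Fact p.Prime] in
theorem eps_nonneg : (0 : ℝ) ≤ (p : ℝ)⁻¹ * (p : ℝ)⁻¹ := by positivity

theorem eps_lt : (p : ℝ)⁻¹ * (p : ℝ)⁻¹ < 1 :=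
  mul_lt_one_of_nonneg_of_lt_one_left (by positivity) inv_lt inv_lt.le

omit [ProperSpace A] [NormedAlgebra ℚ_[p] A] in
theorem wr_one_of (h : Wr p w ((p : ℝ)⁻¹ * (p : ℝ)⁻¹) (X - 1)) : Wr p w 1 X := by
  have := wr_add (wr_mono h eps_lt.le) (wr_one w)
  rwa [sub_add_cancel] at this

variable (p) in
/-- The congruence subgroup. -/
def cong (G : Subgroup (GL I A)) (w : I → ℝ) : Subgroup G where
  carrier := {g | Wr p w ((p : ℝ)⁻¹ * (p : ℝ)⁻¹) (g.1.1 - 1)}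
  one_mem' := fun a b => by
    simp only [OneMemClass.coe_one, Units.val_one, sub_self, Matrix.zero_apply, norm_zero]
    positivity
  mul_mem' := fun {g h} hg hh => by
    have h0 := (wr_one_of hg).mul hh zero_le_one eps_nonneg
    rw [one_mul] at h0
    have h1 := wr_add h0 hg
    rw [Matrix.mul_sub, Matrix.mul_one, sub_add_sub_cancel] at h1
    exact h1
  inv_mem' := fun {g} hg => (Wr.inv hg eps_nonneg eps_lt).2

omit [NormedAlgebra ℚ_[p] A] in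
theorem co_cong (hc : IsClosed (G : Set (GL I A))) (w : I → ℝ) : CO (cong p G w) := by
  have h1 : IsClopen (cong p G w : Set G) :=
    isClopen_wr (f := fun g : G => g.1.1 - 1)
      ((Units.continuous_val.comp continuous_subtype_val).sub continuous_const) w
      (mul_pos (inv_pos.2 pos) (inv_pos.2 pos))
  obtain ⟨R, hR⟩ := Wr.exists_bd (A := A) p w 1
  exact ⟨(isCompact_bdd hc R).of_isClosed_subset h1.1 fun g hg =>
    ⟨hR _ (wr_one_of hg), hR _ (wr_one_of (inv_mem hg))⟩, h1.2⟩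

omit [ProperSpace A] [NormedAlgebra ℚ_[p] A] in
theorem conj_mem {g k : G} (hg : g.1 ∈ WS p w) (hk : k ∈ cong p G w) :
    g * k * g⁻¹ ∈ cong p G w := by
  obtain ⟨r, hr, h1, h2⟩ := hg
  have h3 := (h1.mul hk hr.le eps_nonneg).mul h2 (mul_nonneg hr.le eps_nonneg) (inv_pos.2 hr).le
  rw [mul_right_comm, mul_inv_cancel₀ hr.ne', one_mul, Matrix.mul_sub, Matrix.sub_mul,
    Matrix.mul_one, ← Units.val_mul g.1 g.1⁻¹, mul_inv_cancel] at h3
  exact h3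

omit [ProperSpace A] [NormedAlgebra ℚ_[p] A] in
theorem comm_pow {g : G} (hg : g ∈ cong p G w) (hs : 0 ≤ s)
    (hZ : Wr p w s (g.1.1 * X - X * g.1.1)) (i : ℕ) :
    Wr p w ((p : ℝ)⁻¹ * (p : ℝ)⁻¹ * s)
      (g.1.1 ^ i * X - X * g.1.1 ^ i - i • (g.1.1 * X - X * g.1.1)) := by
  induction i with
  | zero =>
    intro a b
    simp only [pow_zero, Matrix.one_mul, Matrix.mul_one, sub_self, zero_smul, Matrix.zero_apply,
      norm_zero]
    positivity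
  | succ i ih =>
    have hi : Wr p w ((p : ℝ)⁻¹ * (p : ℝ)⁻¹) (g.1.1 ^ i - 1) := pow_mem hg i
    have h1 := hi.mul hZ eps_nonneg hs
    have h2 := ih.mul (wr_one_of hg) (mul_nonneg eps_nonneg hs) zero_le_one
    have h3 := (wr_nsmul hZ i).mul hg hs eps_nonneg
    rw [mul_one] at h2
    rw [mul_comm s] at h3
    have h4 := wr_add (wr_add h1 h2) h3
    have e : (g.1.1 ^ i - 1) * (g.1.1 * X - X * g.1.1) +
        (g.1.1 ^ i * X - X * g.1.1 ^ i - i • (g.1.1 * X - X * g.1.1)) * g.1.1 +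
        (i • (g.1.1 * X - X * g.1.1)) * (g.1.1 - 1) =
        g.1.1 ^ (i + 1) * X - X * g.1.1 ^ (i + 1) - (i + 1) • (g.1.1 * X - X * g.1.1) := by
      rw [pow_succ, succ_nsmul]
      generalize i • (g.1.1 * X - X * g.1.1) = V
      noncomm_ring
    rwa [e] at h4

theorem norm_prime {l : ℕ} (hl : l.Prime) : (p : ℝ)⁻¹ ≤ ‖(l : ℚ_[p])‖ := by
  by_cases h : p = l
  · subst h
    exact Padic.norm_p.ge
  · rw [Padic.norm_natCast_eq_one_iff.2 ((Nat.coprime_primes Fact.out hl).2 h)]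
    exact inv_lt.le

omit [ProperSpace A] in
theorem comm_of_pow {g : G} (hg : g ∈ cong p G w) {l : ℕ} (hl : l.Prime) {t : ℚ_[p]}
    (h : g.1.1 ^ l = t • (1 : Matrix I I A)) (X : Matrix I I A) : X * g.1.1 = g.1.1 * X := by
  have hp : ∀ x : ℝ, (0 : ℝ) < (p : ℝ) ^ x := fun x => Real.rpow_pos_of_pos pos x
  obtain ⟨⟨a, b⟩, hab⟩ := Finite.exists_max fun x : I × I =>
    ‖(g.1.1 * X - X * g.1.1) x.1 x.2‖ / (p : ℝ) ^ (w x.1 - w x.2)
  set s := ‖(g.1.1 * X - X * g.1.1) a b‖ / (p : ℝ) ^ (w a - w b) with hs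
  have hs0 : 0 ≤ s := div_nonneg (norm_nonneg _) (hp _).le
  have hZ : Wr p w s (g.1.1 * X - X * g.1.1) := fun a' b' => (div_le_iff₀ (hp _)).1 (hab (a', b'))
  have h1 := comm_pow hg hs0 hZ l a b
  rw [h, Matrix.smul_mul, Matrix.mul_smul, Matrix.one_mul, Matrix.mul_one, sub_self, zero_sub,
    Matrix.neg_apply, norm_neg, Matrix.smul_apply, ← Nat.cast_smul_eq_nsmul ℚ_[p], norm_smul,
    ← div_le_iff₀ (hp _), mul_div_assoc, ← hs] at h1
  have h2 : (p : ℝ)⁻¹ * s ≤ (p : ℝ)⁻¹ * ((p : ℝ)⁻¹ * s) := by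
    rw [← mul_assoc]
    exact (mul_le_mul_of_nonneg_right (norm_prime hl) hs0).trans h1
  have h3 : s ≤ (p : ℝ)⁻¹ * s := le_of_mul_le_mul_left h2 (inv_pos.2 pos)
  have h4 : s = 0 := by
    have := inv_lt (p := p)
    nlinarith
  rw [eq_comm, ← sub_eq_zero]
  ext a' b'
  have h5 := hZ a' b'
  rw [h4, zero_mul] at h5
  exact norm_le_zero_iff.1 h5

omit [ProperSpace A] in
theorem tf (hz : ∀ g ∈ G, ∀ c : A, g.1 = c • (1 : Matrix I I A) →
      ∃ t : ℚ_[p]ˣ, g.1 = t.1 • (1 : Matrix I I A)) (w : I → ℝ) (n : ℕ) : n ≠ 0 →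
    ∀ γ ∈ (cong p G w).map (QuotientGroup.mk' (Scal ℚ_[p] G)), γ ^ n = 1 → γ = 1 := by
  induction n using induction_on_primes with
  | zero => exact fun h => absurd rfl h
  | one => exact fun _ γ _ h => by rwa [pow_one] at h
  | prime_mul l a hl ih =>
    intro h0 γ hγ h
    refine ih (right_ne_zero_of_mul h0) γ hγ ?_
    obtain ⟨g, hg, e⟩ := pow_mem hγ a
    rw [mul_comm, pow_mul, ← e, ← map_pow, QuotientGroup.mk'_apply, QuotientGroup.eq_one_iff] at h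
    obtain ⟨t, ht⟩ := h
    obtain ⟨c, hc⟩ := Matrix.mem_range_scalar_iff_commute_single'.2 fun i j =>
      comm_of_pow hg hl ht (Matrix.single i j 1)
    rw [← e, QuotientGroup.mk'_apply, QuotientGroup.eq_one_iff]
    exact hz g.1 g.2 c (by rw [← hc, Matrix.scalar_apply, Matrix.smul_one_eq_diagonal])

end T2Aux

/-- The weighted congruence subgroup of level `p²`. -/
theorem exists_cong (hc : IsClosed (G : Set (GL I A)))
    (hz : ∀ g ∈ G, ∀ c : A, g.1 = c • (1 : Matrix I I A) →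
      ∃ t : ℚ_[p]ˣ, g.1 = t.1 • (1 : Matrix I I A)) (w : I → ℝ) :
    ∃ L : Subgroup (G ⧸ Scal ℚ_[p] G), CO L ∧ (∀ γ ∈ L, IsOfFinOrder γ → γ = 1) ∧
      ∀ g : G, g.1 ∈ WS p w →
        QuotientGroup.mk g ∈ Subgroup.normalizer (L : Set (G ⧸ Scal ℚ_[p] G)) := by
  refine ⟨(T2Aux.cong p G w).map (QuotientGroup.mk' _), co_map_mk _ (T2Aux.co_cong hc w),
    fun γ hγ h => ?_, fun g hg => ?_⟩
  · obtain ⟨n, hn, h1⟩ := isOfFinOrder_iff_pow_eq_one.1 h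
    exact T2Aux.tf hz w n hn.ne' γ hγ h1
  · refine Subgroup.le_normalizer_map _ ⟨g, Subgroup.mem_normalizer_iff.2 fun k =>
      ⟨T2Aux.conj_mem hg, fun hk => ?_⟩, rfl⟩
    have := T2Aux.conj_mem (g := g⁻¹) (inv_mem hg) hk
    rwa [inv_inv, ← mul_assoc, ← mul_assoc, inv_mul_cancel, one_mul, inv_mul_cancel_right] at this

theorem goodLev_of_WS (hc : IsClosed (G : Set (GL I A)))
    (hz : ∀ g ∈ G, ∀ c : A, g.1 = c • (1 : Matrix I I A) →
      ∃ t : ℚ_[p]ˣ, g.1 = t.1 • (1 : Matrix I I A)) (w : I → ℝ)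
    (h : ∀ g : G, ∃ e ∈ fiRes G, (e⁻¹ * g).1 ∈ WS p w) :
    ∃ L : Subgroup (G ⧸ Scal ℚ_[p] G), GoodLev L := by
  obtain ⟨L, h1, h2, h3⟩ := exists_cong hc hz w
  refine ⟨L, h1, fun γ => ?_, h2⟩
  obtain ⟨g, rfl⟩ := QuotientGroup.mk_surjective γ
  obtain ⟨e, he, hg⟩ := h g
  exact ⟨QuotientGroup.mk e, fiRes_map (QuotientGroup.mk' _) he, h3 _ hg⟩

theorem exists_tf (hc : IsClosed (G : Set (GL I A)))
    (hz : ∀ g ∈ G, ∀ c : A, g.1 = c • (1 : Matrix I I A) →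
      ∃ t : ℚ_[p]ˣ, g.1 = t.1 • (1 : Matrix I I A))
    {K : Subgroup (G ⧸ Scal ℚ_[p] G)} (hK : CO K) :
    ∃ L : Subgroup (G ⧸ Scal ℚ_[p] G), L ≤ K ∧ CO L ∧ ∀ γ ∈ L, IsOfFinOrder γ → γ = 1 := by
  obtain ⟨L, h1, h2, -⟩ := exists_cong hc hz 0
  exact ⟨K ⊓ L, inf_le_left, hK.inf h1, fun γ hγ => h2 γ hγ.2⟩

end Pool.Agent.P.MP_3c2f8c_gt.Ex
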