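import Pool.Agent.P.MP_3c2f8c_gt.Ex.Lo.Dv5
import Pool.Agent.P.MP_3c2f8c_gt.Ex.Lo.T2
import Pool.Agent.P.MP_3c2f8c_gt.Ex.Lo.Cw

/-! EXL-DvC: good levels at a division prime. -/

namespace Pool.Agent.P.MP_3c2f8c_gt.Ex

open Matrix

variable {p : ℕ} [Fact p.Prime]

theorem DvCAux.cube (h : Inert p) (x : Cub ℚ_[p]) : ‖Cub.nrm x‖ = ‖x‖ ^ 3 := by
  rw [Cub.norm_def]
  exact h x

theorem Inert.norm_mul (h : Inert p) (x y : Cub ℚ_[p]) : ‖x * y‖ = ‖x‖ * ‖y‖ :=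
  (pow_left_inj₀ (norm_nonneg _) (by positivity) three_ne_zero).1 (by
    rw [mul_pow, ← DvCAux.cube h, ← DvCAux.cube h, ← DvCAux.cube h, Cub.nrm_mul,
      _root_.norm_mul])

theorem Inert.isField (h : Inert p) : IsField (Cub ℚ_[p]) :=
  ⟨⟨0, 1, fun e => zero_ne_one (congrArg Cub.c0 e)⟩, mul_comm, fun {a} ha =>
    ((Cub.isUnit_iff a).2 (h.three_dvd ha).1.isUnit).exists_right_inv⟩

theorem Inert.norm_sig (h : Inert p) (x : Cub ℚ_[p]) : ‖Cub.sig x‖ = ‖x‖ :=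
  (pow_left_inj₀ (norm_nonneg _) (norm_nonneg _) three_ne_zero).1 (by
    rw [← DvCAux.cube h, ← DvCAux.cube h, Cub.nrm_sig])

theorem Cub.exists_norm_eq {x : Cub ℚ_[p]} (hx : x ≠ 0) : ∃ n : ℤ, ‖x‖ = (p : ℝ) ^ n := by
  obtain ⟨i, hi⟩ : ∃ i, ‖Cub.co x i‖ = ‖x‖ := by
    rw [Cub.norm_def]
    rcases max_choice ‖x.c0‖ (max ‖x.c1‖ ‖x.c2‖) with e | e
    · exact ⟨0, e.symm⟩
    · rcases max_choice ‖x.c1‖ ‖x.c2‖ with e' | e'
      · exact ⟨1, (e.trans e').symm⟩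
      · exact ⟨2, (e.trans e').symm⟩
  have h0 : Cub.co x i ≠ 0 := by
    rw [← norm_ne_zero_iff, hi, norm_ne_zero_iff]
    exact hx
  exact ⟨_, hi.symm.trans (Padic.norm_eq_zpow_neg_valuation h0)⟩

theorem Div.decomp {b : ℚ} (h : Div p b) :
    ∃ w : I → ℝ, ∀ g : Gw (nZ (Cub ℚ_[p])) (ph b (Cub ℚ_[p])) (sigA ℚ_[p]),
      ∃ e ∈ fiRes (Gw (nZ (Cub ℚ_[p])) (ph b (Cub ℚ_[p])) (sigA ℚ_[p])), (e⁻¹ * g).1 ∈ WS p w := by
  have hb : b ≠ 0 := by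
    rintro rfl
    exact h.2 (by simp)
  have hn : ‖algebraMap ℚ (Cub ℚ_[p]) b‖ = (p : ℝ) ^ (-padicValRat p b) := by
    rw [Cub.algebraMap_eq, Cub.norm_def, Cub.C_c0, Cub.C_c1, Cub.C_c2, norm_zero, max_self,
      max_eq_left (norm_nonneg _), eq_ratCast, Padic.eq_padicNorm,
      padicNorm.eq_zpow_of_nonzero hb]
    push_cast
    rfl
  let F : NormedField (Cub ℚ_[p]) :=
    { Cub.normedCommRing, h.1.isField.toField with norm_mul := h.1.norm_mul }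
  let N : NormedAlgebra ℚ_[p] (Cub ℚ_[p]) := inferInstance
  have U : IsUltrametricDist (Cub ℚ_[p]) := inferInstance
  let Q : Algebra ℚ (Cub ℚ_[p]) := inferInstance
  have D : Module.Finite ℚ_[p] (Cub ℚ_[p]) := inferInstance
  have H : @DivF p _ (Cub ℚ_[p]) F N (sigA ℚ_[p]) (algebraMap ℚ (Cub ℚ_[p]) b)
      (-padicValRat p b) :=
    @DivF.mk p _ (Cub ℚ_[p]) F N (sigA ℚ_[p]) (algebraMap ℚ (Cub ℚ_[p]) b) (-padicValRat p b)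
      Cub.sig_sig_sig h.1.norm_sig (fun _ hx => Cub.exists_norm_eq hx) (Cub.sig_C _) hn
      (fun e => h.2 (dvd_neg.1 e))
  exact ⟨wD (-padicValRat p b), fun g => @DivF.decomp p _ (Cub ℚ_[p]) F N U (sigA ℚ_[p])
    (algebraMap ℚ (Cub ℚ_[p]) b) (-padicValRat p b) Q D H g⟩

end Pool.Agent.P.MP_3c2f8c_gt.Ex
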