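import Pool.Agent.P.MP_3c2f8c_gt.Ex.Lo.Gen
import Pool.Agent.P.MP_3c2f8c_gt.Ex.Lo.T2
import Pool.Agent.P.MP_3c2f8c_gt.Ex.Al.J1

/-! EXL-LevS: good levels of the split group. -/

namespace Pool.Agent.P.MP_3c2f8c_gt.Ex

open Matrix

variable {p : ℕ} [Fact p.Prime]

namespace LevSAux

/-- The exponents of the coefficients of `phi b`. -/
def ex : I → ℕ := Sum.elim ![0, 0, 2] fun j => ![1, 1, 0] j.1

theorem phc_eq {R : Type} [CommRing R] (b : R) (c : I) : phc b c = b ^ ex c := by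
  rcases c with i | ⟨i, u⟩ <;> fin_cases i <;> simp [phc, ex]

theorem wI_lin (k : ℤ) (c : I) : wI k c = wI 0 c + k * (wI 1 c - wI 0 c) := by
  unfold wI
  split_ifs <;> ring

theorem wI_sh : ∀ c, wI 0 (sh c) = wI 0 c ∧ wI 1 (sh c) = wI 1 c + 3 * ex c - 2 := by
  decide +kernel

theorem wD_sh (k : ℤ) (c : I) : 2 * (k : ℝ) / 3 + (wD k (sh c) - wD k c) = k * ex c := by
  rw [wD, wD, wI_lin k, wI_lin k c, (wI_sh c).1, (wI_sh c).2]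
  push_cast
  ring

theorem wr_smul {w : I → ℝ} {r : ℝ} {X : Matrix I I ℚ_[p]} (h : Wr p w r X) (t : ℚ_[p]) :
    Wr p w (‖t‖ * r) (t • X) := fun a b => by
  rw [Matrix.smul_apply, norm_smul, mul_assoc]
  exact mul_le_mul_of_nonneg_left (h a b) (norm_nonneg _)

theorem exists_scal (w : I → ℝ) (t : ℚ_[p]ˣ) :
    ∃ c ∈ WS (A := ℚ_[p]) p w, c.1 = t.1 • (1 : Matrix I I ℚ_[p]) := by
  refine ⟨⟨t.1 • 1, (t⁻¹).1 • 1, by simp [smul_smul], by simp [smul_smul]⟩,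
    ⟨‖t.1‖, norm_pos_iff.2 t.ne_zero, by simpa using wr_smul (wr_one w) t.1, ?_⟩, rfl⟩
  have h := wr_smul (wr_one w) (t⁻¹).1
  rwa [mul_one, Units.val_inv_eq_inv_val, norm_inv, ← Units.val_inv_eq_inv_val] at h

/-- The multipliers of the similitudes in the stabiliser. -/
def H (p : ℕ) [Fact p.Prime] (w : I → ℝ) : Subgroup ℚ_[p]ˣ where
  carrier := {ν | ∃ c ∈ WS (A := ℚ_[p]) p w, Sim (nZ ℚ_[p]) (nZ ℚ_[p]) c.1 ν}
  one_mem' := ⟨1, one_mem _, sim_one _⟩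
  mul_mem' := fun ⟨c, hc, h⟩ ⟨d, hd, h'⟩ => ⟨c * d, mul_mem hc hd, h.mul h'⟩
  inv_mem' := fun ⟨c, hc, h⟩ => ⟨c⁻¹, inv_mem hc, h.inv⟩

end LevSAux

open LevSAux

theorem phi_mem_WS {b : ℚ_[p]} {k : ℤ} (hb : ‖b‖ = (p : ℝ) ^ k) {φ : GL I ℚ_[p]}
    (hφ : φ.1 = phi b) : φ ∈ WS p (wD k) := by
  have hp : (0 : ℝ) < p := by exact_mod_cast (Fact.out : p.Prime).pos
  have hr : 0 < (p : ℝ) ^ (2 * (k : ℝ) / 3) := Real.rpow_pos_of_pos hp _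
  have h0 : b ≠ 0 := norm_pos_iff.1 (hb ▸ zpow_pos hp k)
  have h1 : Wr p (wD k) ((p : ℝ) ^ (2 * (k : ℝ) / 3)) (phi b) := fun a c => by
    rw [phi, of_apply]
    split_ifs with h
    · rw [h, ← Real.rpow_add hp, wD_sh, phc_eq, norm_pow, hb, Real.rpow_mul_natCast hp.le,
        Real.rpow_intCast]
    · rw [norm_zero]
      positivity
  have h2 : (φ⁻¹).1 = (b ^ 2)⁻¹ • (phi b * phi b) := by
    refine Units.inv_eq_of_mul_eq_one_left ?_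
    rw [hφ, smul_mul_assoc, phi_cube, smul_smul, inv_mul_cancel₀ (pow_ne_zero 2 h0), one_smul]
  refine ⟨_, hr, hφ ▸ h1, ?_⟩
  have h3 := wr_smul (h1.mul h1 hr.le hr.le) (b ^ 2)⁻¹
  rw [norm_inv, norm_pow, hb, ← Real.rpow_intCast, ← Real.rpow_mul_natCast hp.le,
    ← Real.rpow_neg hp.le, ← Real.rpow_add hp, ← Real.rpow_add hp] at h3
  rw [h2, ← Real.rpow_neg hp.le,
    show -(2 * (k : ℝ) / 3) = -(k * (2 : ℕ)) + (2 * k / 3 + 2 * k / 3) by push_cast; ring]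
  exact h3

theorem dl_mem_WS (w : I → ℝ) {u : ℚ_[p]ˣ} (hu : ‖u.1‖ = 1) : dlv u ∈ WS p w := by
  have key : ∀ l : I → ℤ, Wr p w 1 (diagonal fun a => ((u ^ l a : ℚ_[p]ˣ) : ℚ_[p])) :=
    fun l a b => by
      rw [diagonal_apply]
      split_ifs with h
      · simp [h, hu]
      · rw [norm_zero]
        positivity
  exact ⟨1, one_pos, key lv, by rw [inv_one]; exact key fun a => -lv a⟩

theorem exists_sim_WS (ν : ℚ_[p]ˣ) :
    ∃ c ∈ WS (A := ℚ_[p]) p (wD (-1)), Sim (nZ ℚ_[p]) (nZ ℚ_[p]) c.1 ν := by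
  have hp : (p : ℝ) ≠ 0 := by exact_mod_cast (Fact.out : p.Prime).ne_zero
  obtain ⟨π, hπ⟩ : ∃ π : ℚ_[p]ˣ, π.1 = p :=
    ⟨Units.mk0 p (Nat.cast_ne_zero.2 (Fact.out : p.Prime).ne_zero), rfl⟩
  obtain ⟨φ, hφ⟩ := exists_phiU π
  obtain ⟨c, hc, hc'⟩ := exists_scal (wD (-1)) π
  have h2 : π ^ 2 ∈ H p (wD (-1)) :=
    ⟨φ, phi_mem_WS (by rw [hπ, Padic.norm_p, _root_.zpow_neg_one]) hφ, hφ ▸ sim_phi' π.1⟩
  have h3 : π ^ 3 ∈ H p (wD (-1)) := ⟨c, hc, hc' ▸ by simpa using (sim_one _).smul π.1⟩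
  have h1 : π ∈ H p (wD (-1)) := by
    simpa only [pow_succ', mul_inv_cancel_right] using mul_mem h3 (inv_mem h2)
  have h4 : ν * π ^ (-ν.1.valuation) ∈ H p (wD (-1)) := ⟨_, dl_mem_WS _ (by
    rw [Units.val_mul, Units.val_zpow_eq_zpow_val, hπ, norm_mul, Padic.norm_p_zpow,
      Padic.norm_eq_zpow_neg_valuation ν.ne_zero, ← zpow_add₀ hp, add_neg_cancel, zpow_zero]),
    sim_dlv _⟩
  exact (Subgroup.mul_mem_cancel_right _ (zpow_mem h1 _)).1 h4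

theorem goodLev_UZ (p : ℕ) [Fact p.Prime] : ∃ L : Subgroup (UZ ℚ_[p]), GoodLev L := by
  refine goodLev_of_WS (isClosed_Str nZ_base) (fun g _ c hc => ?_) (wD (-1)) fun g => ?_
  · refine ⟨Units.mk0 c fun h => g.ne_zero ?_, hc⟩
    rw [hc, h, zero_smul]
  · obtain ⟨ν, hν⟩ := g.2
    obtain ⟨c, hc, hc'⟩ := exists_sim_WS ν
    have h := mem_EG_of_sim hν hc'
    refine ⟨⟨_, EG_le_Str h⟩, EG_fiRes _ h, ?_⟩
    simpa using hc

end Pool.Agent.P.MP_3c2f8c_gt.Ex
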