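import Pool.Agent.P.MP_3c2f8c_gt.Ex.Lo.Split
import Pool.Agent.P.MP_3c2f8c_gt.Ex.Lo.SplP
import Pool.Agent.P.MP_3c2f8c_gt.Ex.Lo.LevS
import Pool.Agent.P.MP_3c2f8c_gt.Ex.Lo.DvC

/-!
Good levels exist at every prime.
-/

namespace Pool.Agent.P.MP_3c2f8c_gt.Ex

theorem exists_goodLev {b : ℚ} (hb : Good b) (p : Nat.Primes) :
    ∃ L : Subgroup (UG b ℚ_[p]), GoodLev L := by
  rcases hb.loc p with h | h
  · obtain ⟨e, -⟩ := exists_split_equiv h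
    obtain ⟨L, hL⟩ := goodLev_UZ p
    exact ⟨_, hL.comap e.symm⟩
  · obtain ⟨w, hw⟩ := h.decomp
    obtain ⟨φ, hφ⟩ := exists_phU hb.ne (Cub ℚ_[p])
    obtain ⟨L, hL⟩ := goodLev_of_WS (p := p) (isClosed_Gw nZ_base _ _)
      (fun g hg c hc => Gw_scalar (φ := φ) (by rw [hφ]; exact hg) hc) w hw
    obtain ⟨Q, h1, h2, h3⟩ := exists_blk p
    obtain ⟨e, -⟩ := exists_conj_equiv ℚ_[p]
      (H := Gw (nZ (Cub ℚ_[p])) (ph b (Cub ℚ_[p])) (sigA ℚ_[p])) (H' := Gt b ℚ_[p]) Q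
      fun g => mem_Gw_conj (μ := 1) (c := 1) h1 (by
        rw [Units.val_one, one_smul]
        exact (congrArg (ph b (Cub ℚ_[p]) * ·) h2).trans (h3 _)) g
    exact ⟨_, hL.comap e.symm⟩

end Pool.Agent.P.MP_3c2f8c_gt.Ex
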