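import Pool.Agent.P.MP_3c2f8c_gt.Ex.Lo.OpDefs
import Pool.Agent.P.MP_3c2f8c_gt.Ex.Gl.Arith
import Pool.Agent.P.MP_3c2f8c_gt.Ex.Gl.Rho

/-! EXO-Comm: the elements of multiplier one above an arithmetic group. -/

namespace Pool.Agent.P.MP_3c2f8c_gt.Ex.Op

open Matrix

variable {b : ℚ} {K : ∀ p : Nat.Primes, Subgroup (UG b ℚ_[p])}

namespace OpCommAux

theorem intX_of (hK : ∀ p, K p ≤ Kst b p) (p : Nat.Primes) {g : Gt b ℚ} (hg : g ∈ G1 b K) :
    IntX (gmap b (algebraMap ℚ ℚ_[p]) g).1.1 := by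
  have h1 := hg.1.map (Cub.map (algebraMap ℚ ℚ_[p]))
  rw [nJ_map, map_one, ← map_one Cub.C] at h1
  obtain ⟨t, m, -, hm, e, e'⟩ :=
    ArithAux.loc (g := gmap b (algebraMap ℚ ℚ_[p]) g) (hK p ((mem_Gam _ _ _).1 hg.2 p)) h1
  rw [norm_one, eq_comm, pow_eq_one_iff_of_nonneg (norm_nonneg t) three_ne_zero] at e'
  intro a c
  rw [e]
  exact (intC_C.2 e'.le).mul (hm a c)

theorem toGL_injective (b : ℚ) (p : ℕ) [Fact p.Prime] : Function.Injective (toGL b p) := by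
  intro g h e
  have e1 : g.1.1.map (Cub.map (algebraMap ℚ ℚ_[p])) = h.1.1.map (Cub.map (algebraMap ℚ ℚ_[p])) :=
    congrArg Units.val e
  exact Subtype.ext (Units.ext
    (Matrix.map_injective (Cub.map_injective (algebraMap ℚ ℚ_[p]).injective) e1))

end OpCommAux

open OpCommAux

theorem G1_int (hK : ∀ p, K p ≤ Kst b p) (p : Nat.Primes) {g : Gt b ℚ} (hg : g ∈ G1 b K) :
    toGL b p g ∈ IntG p := by
  refine ⟨intX_of hK p hg, ?_⟩
  rw [← map_inv]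
  exact intX_of hK p (inv_mem hg)

theorem G1_infinite (hb : b ≠ 0) (hK : ∀ p, K p ≤ Kst b p) (hinf : Infinite (Gam (Phi b) K))
    (p : Nat.Primes) : Infinite ((G1 b K).map (toGL b p)) := by
  have h1 : Infinite (G1 b K) := by
    refine Infinite.of_surjective
      (fun g : G1 b K => (⟨QuotientGroup.mk g.1, g.2.2⟩ : Gam (Phi b) K)) ?_
    rintro ⟨γ, hγ⟩
    obtain ⟨g, rfl, hs⟩ := ArithAux.normalise hb
      ((mem_Gam _ _ _).2 fun q => hK q ((mem_Gam _ _ _).1 hγ q))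
    exact ⟨⟨g, hs, hγ⟩, rfl⟩
  exact Infinite.of_injective _ ((G1 b K).equivMapOfInjective _ (toGL_injective b p)).injective

theorem G1_comm (hK : Level (Kst b) K) (g : Gt b ℚ) :
    ∃ m : ℕ, 0 < m ∧ ∀ γ ∈ G1 b K, g * γ ^ m * g⁻¹ ∈ G1 b K := by
  obtain ⟨m, hm, h⟩ := hK.exists_pow (phi_mem_Ad b) (QuotientGroup.mk g)
  refine ⟨m, hm, fun γ hγ => ⟨?_, ?_⟩⟩
  · obtain ⟨ν, hν⟩ := g.2.1
    have h1 := (hν.mul (pow_mem hγ m).1).mul hν.inv
    rw [mul_one, Units.mul_inv] at h1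
    exact h1
  · have h1 := h _ hγ.2
    rw [← QuotientGroup.mk_pow, ← QuotientGroup.mk_mul, ← QuotientGroup.mk_inv,
      ← QuotientGroup.mk_mul] at h1
    exact h1

theorem level_inf (hK : Level (Kst b) K) : Level (Kst b) fun p => K p ⊓ Kst b p := by
  refine ⟨fun p => (hK.1 p).inf (co_K0 b p), hK.2.subset fun p hp h => hp ?_⟩
  show K p ⊓ Kst b p = Kst b p
  rw [h, inf_idem]

end Pool.Agent.P.MP_3c2f8c_gt.Ex.Op
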