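import Pool.Agent.P.MP_3c2f8c_gt.Ex.Lo.OpGal1

/-! EXO-Gal2: rational polynomials that interpolate equivariant characters. -/

namespace Pool.Agent.P.MP_3c2f8c_gt.Ex.Op

open Filter Topology Polynomial

namespace OpGal2Aux

theorem interp {F : Type} [Field F] [Algebra ℚ F] [FiniteDimensional ℚ F] [IsGalois ℚ F]
    [DecidableEq F] {T : Finset F} (hT : ∀ (s : F ≃ₐ[ℚ] F), ∀ μ ∈ T, s μ ∈ T) {x : F → F}
    (hx : ∀ (s : F ≃ₐ[ℚ] F), ∀ μ ∈ T, x (s μ) = s (x μ)) :
    ∃ Q : ℚ[X], Q.map (algebraMap ℚ F) = Lagrange.interpolate T id x := by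
  refine (mem_lifts _).1 ((lifts_iff_coeff_lifts _).2 fun n =>
    (IsGalois.mem_range_algebraMap_iff_fixed _).2 fun s => ?_)
  have e : (Lagrange.interpolate T id x).map (s : F →+* F) = Lagrange.interpolate T id x := by
    refine Lagrange.eq_interpolate_of_eval_eq _ (Set.injOn_id _) ?_ fun μ hμ => ?_
    · rw [degree_map]
      exact Lagrange.degree_interpolate_lt _ (Set.injOn_id _)
    · have h1 := Lagrange.eval_interpolate_at_node x (Set.injOn_id _) (hT s.symm μ hμ)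
      have h2 := hx s _ (hT s.symm μ hμ)
      have h3 := eval₂_at_apply (p := Lagrange.interpolate T id x) (s : F →+* F) (s.symm μ)
      rw [id] at h1
      rw [h1, RingHom.coe_coe, ← h2, s.apply_symm_apply] at h3
      rw [eval_map, id, h3]
  have e' := congrArg (fun q => coeff q n) e
  simpa only [coeff_map, RingHom.coe_coe] using e'

theorem coeff_eq {p : ℕ} [Fact p.Prime] {F : Type} [Field F] [Algebra ℚ F] [DecidableEq F]
    (v : F →+* PadicAlgCl p) {T : Finset F} {x : F → F} {Q : ℚ[X]}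
    (h : Q.map (algebraMap ℚ F) = Lagrange.interpolate T id x) (i : ℕ) :
    algebraMap ℚ_[p] (PadicAlgCl p) (Q.coeff i) =
      ∑ μ ∈ T, v (x μ) * v ((Lagrange.basis T id μ).coeff i) := by
  have e := congrArg (fun q => v (coeff q i)) h
  simp only [coeff_map, Lagrange.interpolate_apply, finsetSum_coeff, coeff_C_mul, map_sum,
    map_mul] at e
  rw [← e, map_ratCast]
  exact (eq_ratCast (v.comp (algebraMap ℚ F)) _).symm

theorem deg_lt {F : Type} [Field F] [Algebra ℚ F] [DecidableEq F] {T : Finset F} {x : F → F}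
    {Q : ℚ[X]} (h : Q.map (algebraMap ℚ F) = Lagrange.interpolate T id x) :
    Q.natDegree < T.card + 1 := by
  refine Nat.lt_succ_of_le (natDegree_le_iff_degree_le.2 ?_)
  rw [← degree_map Q (algebraMap ℚ F), h]
  exact (Lagrange.degree_interpolate_lt _ (Set.injOn_id _)).le

end OpGal2Aux

open OpGal2Aux in
theorem exists_polys (p : ℕ) [Fact p.Prime] {f : ℚ[X]} (hf : f.Separable) :
    ∃ (M : ℕ) (P : ℕ → ℚ[X]), 0 < M ∧
      (∀ k, ∀ μ ∈ f.rootSet f.SplittingField, aeval μ (P k) ≠ 0) ∧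
      (∀ k, ∀ μ₁ ∈ f.rootSet f.SplittingField, ∀ μ₂ ∈ f.rootSet f.SplittingField,
        ∀ μ₃ ∈ f.rootSet f.SplittingField, μ₁ + μ₂ + μ₃ = 0 →
          aeval μ₁ (P k) * aeval μ₂ (P k) * aeval μ₃ (P k) = 1) ∧
      ∀ (A : Type) [Ring A] [Algebra ℚ A] [Algebra ℚ_[p] A] [TopologicalSpace A] [ContinuousAdd A]
        [ContinuousSMul ℚ_[p] A] (Y : A), aeval Y f = 0 →
        Tendsto (fun k : ℕ => ((p : ℚ_[p]) ^ k)⁻¹ • (aeval Y (P k) - 1)) atTop
          (𝓝 ((M : ℚ_[p]) • Y)) := by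
  classical
  have f0 := hf.ne_zero
  have : IsSplittingField ℚ f.SplittingField f := IsSplittingField.splittingField f
  have : IsGalois ℚ f.SplittingField := IsGalois.of_separable_splitting_field hf
  let v : f.SplittingField →ₐ[ℚ] PadicAlgCl p := IsAlgClosed.lift
  obtain ⟨T, hm⟩ : ∃ T : Finset f.SplittingField, ∀ μ, μ ∈ T ↔ μ ∈ f.rootSet f.SplittingField :=
    ⟨(f.rootSet f.SplittingField).toFinset, fun _ => Set.mem_toFinset⟩
  have hc : T.card = f.natDegree := by
    rw [← card_rootSet_eq_natDegree hf (SplittingField.splits f), ← Set.toFinset_card]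
    exact congrArg _ (Finset.ext fun μ => (hm μ).trans Set.mem_toFinset.symm)
  have hT : ∀ (s : f.SplittingField ≃ₐ[ℚ] f.SplittingField), ∀ μ ∈ T, s μ ∈ T := fun s μ hμ =>
    (hm _).2 (rootSet_mapsTo (s : f.SplittingField →ₐ[ℚ] f.SplittingField) ((hm _).1 hμ))
  obtain ⟨M, χ, h0, h1, h2, h3, h4⟩ := exists_char p T hT v.toRingHom
  choose Q hQ using fun k => interp hT (x := fun μ => χ k μ - 1) fun s μ hμ => by
    rw [h2 k s μ hμ, map_sub, map_one]
  have ev : ∀ k, ∀ μ ∈ f.rootSet f.SplittingField, aeval μ (Q k + 1) = χ k μ := fun k μ hμ => by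
    have e := Lagrange.eval_interpolate_at_node (fun μ => χ k μ - 1) (Set.injOn_id _) ((hm μ).2 hμ)
    rw [← hQ, id, eval_map_algebraMap] at e
    rw [map_add, map_one, e, sub_add_cancel]
  have hR : (X % f).map (algebraMap ℚ f.SplittingField) = Lagrange.interpolate T id id := by
    refine Lagrange.eq_interpolate_of_eval_eq _ (Set.injOn_id _) ?_ fun μ hμ => ?_
    · rw [degree_map, hc, ← degree_eq_natDegree f0]
      exact degree_mod_lt _ f0
    · rw [id, eval_map_algebraMap, EuclideanDomain.mod_eq_sub_mul_div, map_sub, map_mul,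
        (mem_rootSet.1 ((hm μ).1 hμ)).2, zero_mul, sub_zero, aeval_X]
  have lim : ∀ i, Tendsto (fun k : ℕ => ((p : ℚ_[p]) ^ k)⁻¹ * ((Q k).coeff i : ℚ_[p])) atTop
      (𝓝 (M * ((X % f).coeff i : ℚ_[p]))) := fun i => by
    rw [(algebraMap_isometry ℚ_[p] (PadicAlgCl p)).isEmbedding.tendsto_nhds_iff]
    simp only [Function.comp_def, map_mul, map_inv₀, map_pow, map_natCast,
      coeff_eq v.toRingHom (hQ _), coeff_eq v.toRingHom hR, Finset.mul_sum, ← mul_assoc, map_sub,
      map_one]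
    exact tendsto_finsetSum _ fun μ hμ => (h4 μ hμ).mul_const _
  refine ⟨M, fun k => Q k + 1, h0, fun k μ hμ => (ev k μ hμ).symm ▸ h1 k μ,
    fun k μ₁ m₁ μ₂ m₂ μ₃ m₃ e => ?_, fun A _ _ _ _ _ _ Y hY => ?_⟩
  · rw [ev k _ m₁, ev k _ m₂, ev k _ m₃]
    exact h3 k _ ((hm _).2 m₁) _ ((hm _).2 m₂) _ ((hm _).2 m₃) e
  · have e : aeval Y (X % f) = Y := by
      rw [EuclideanDomain.mod_eq_sub_mul_div, map_sub, map_mul, hY, zero_mul, sub_zero, aeval_X]
    have c : ∀ (q : ℚ) (a : A), q • a = (q : ℚ_[p]) • a := fun q a =>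
      (Rat.cast_smul_eq_qsmul _ q a).symm
    conv => enter [3, 1, 2]; rw [← e]
    simp only [map_add, map_one, add_sub_cancel_right, aeval_eq_sum_range' (deg_lt (hQ _)),
      aeval_eq_sum_range' (deg_lt hR), c, Finset.smul_sum, smul_smul]
    exact tendsto_finsetSum _ fun i _ => (lim i).smul_const _

end Pool.Agent.P.MP_3c2f8c_gt.Ex.Op
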