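import Pool.Agent.P.MP_3c2f8c_gt.Ex.Al.Std

/-! EXO-Simp: the derivations of multiplier zero of the split model form a simple Lie algebra. -/

namespace Pool.Agent.P.MP_3c2f8c_gt.Ex.Op

open Matrix

namespace OpSimpAux

/-- The pairing of two weights, up to a constant. -/
def cc (e u : I) : ℤ := if u = e then 2 else if Adj e u then 0 else 1

theorem cc_symm : ∀ e u, cc e u = cc u e := by decide +kernel

theorem conn : ∀ a : I, a = .inl 0 ∨ Rt (.inl 0) a ∨ ∃ c, Rt (.inl 0) c ∧ Rt c a := by
  decide +kernel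

theorem card_thd : ∀ e t : I, (Finset.univ.filter fun x => Adj e x ∧ thd e x = t).card =
    if Adj e t then 1 else 0 := by decide +kernel

theorem adj_thd : ∀ e a u : I, Rt e a → Adj a u → u ≠ e ∧ (Adj e (thd a u) ↔ ¬ Adj e u) := by
  decide +kernel

theorem cc_sub : ∀ e a u : I, Rt e a →
    (if u = e ∨ (Adj a u ∧ ¬ Adj e u) then 1 else 0) -
      (if u = a ∨ (Adj e u ∧ ¬ Adj a u) then 1 else 0) = cc e u - cc a u := by decide +kernel

theorem rt_base : Rt (.inl 0) (.inr (1, 0)) := by decide +kernel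

theorem link : ∀ e a : I, Rt e a → ∃ x y, Rt x y ∧ cc e x - cc a x ≠ cc e y - cc a y ∧
    cc x (.inl 0) - cc y (.inl 0) ≠ cc x (.inr (1, 0)) - cc y (.inr (1, 0)) := by decide +kernel

variable {K : Type} [Field K] {e a : I}

theorem Er_self (h : Rt e a) : Er K e a e a = 1 := by simp [Er_apply h]

theorem row_sq (h : Rt e a) (u : I) : (Er K e a * Er K a e) u u =
    ((if u = e ∨ (Adj a u ∧ ¬ Adj e u) then 1 else 0 : ℤ) : K) := by
  have hs : ∀ x y, (sg x y : K) * (sg x y : K) = 1 := fun x y => by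
    rw [← Int.cast_mul, sg_sq, Int.cast_one]
  rw [mul_apply]
  by_cases hu : Adj a u
  · obtain ⟨h1, h2⟩ := adj_thd e a u h hu
    have h3 : ∀ x, Er K e a u x * Er K a e x u =
        if Adj e x ∧ thd e x = thd a u then 1 else 0 := fun x => by
      rw [Er_apply h, Er_apply h.symm]
      by_cases hx : Adj e x ∧ thd e x = thd a u
      · simp only [h1, hu, hx.1, hx.2, false_and, and_false, and_self, if_true, if_false]
        linear_combination (sg a u : K) * (sg a u : K) * hs e x + hs a u
      · rw [if_neg hx, if_neg (fun h => h1 h.1), if_neg (fun h => hx ⟨h.1, h.2.2⟩), zero_mul]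
    simp only [h3, Finset.sum_boole, card_thd, h2, h1, hu, false_or, true_and]
    split_ifs <;> simp
  · have h3 : ∀ x, Er K e a u x * Er K a e x u = if x = a then (if u = e then 1 else 0) else 0 :=
      fun x => by
        rw [Er_apply h, Er_apply h.symm]
        by_cases h1 : u = e <;> by_cases h2 : x = a <;> simp [h1, h2, hu, h.2, h.symm.2]
    simp only [h3, Finset.sum_ite_eq', Finset.mem_univ, if_true, hu, false_and, or_false]
    split_ifs <;> simp

variable [CharZero K]

theorem sum_cc {d : I → K} (hd : Der (nZ K) (diagonal d) 0) (u : I) :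
    ∑ e, d e * (cc e u : K) = 6 * d u := by
  have h0 : ∑ e, d e = 0 := by simpa using hd.trace (isAlb_nZ K)
  have h1 : ∑ e ∈ Finset.univ.filter fun e => Adj u e, d (thd u e) =
      ∑ e ∈ Finset.univ.filter fun e => Adj u e, d e :=
    Finset.sum_nbij' (thd u) (thd u) (fun e he => by simpa using (thd_spec u e (by simpa using he)).2.1)
      (fun e he => by simpa using (thd_spec u e (by simpa using he)).2.1)
      (fun e he => (thd_spec u e (by simpa using he)).2.2.1)
      (fun e he => (thd_spec u e (by simpa using he)).2.2.1) fun _ _ => rfl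
  have h2 : ∑ e ∈ Finset.univ.filter fun e => Adj u e, (d u + d e + d (thd u e)) = 0 :=
    Finset.sum_eq_zero fun e he => der_diagonal_iff.1 hd u e (by simpa using he)
  rw [Finset.sum_add_distrib, Finset.sum_add_distrib, h1, Finset.sum_const, card_adj] at h2
  have h3 : ∀ e, d e * (cc e u : K) =
      d e + (if e = u then d e else 0) - if Adj u e then d e else 0 := fun e => by
    rw [cc_symm, cc]
    by_cases h : e = u
    · simp [h, not_adj_self u]
      ring
    · by_cases h' : Adj u e <;> simp [h, h']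
  simp only [h3, Finset.sum_sub_distrib, Finset.sum_add_distrib, h0, Finset.sum_ite_eq',
    Finset.mem_univ, if_true, ← Finset.sum_filter]
  simp only [nsmul_eq_mul, Nat.cast_ofNat] at h2
  linear_combination (-1 / 2 : K) * h2

end OpSimpAux

open OpSimpAux

theorem der0_simple {K : Type} [Field K] [CharZero K] (W : Submodule K (Matrix I I K))
    (hW : ∀ X ∈ W, Der (nZ K) X 0) (hne : W ≠ ⊥)
    (hI : ∀ Y, Der (nZ K) Y 0 → ∀ X ∈ W, Y * X - X * Y ∈ W) {D : Matrix I I K}
    (hD : Der (nZ K) D 0) : D ∈ W := by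
  have s1 : ∀ X ∈ W, ∀ e a, Rt e a → X a e ≠ 0 → Er K e a ∈ W := fun X hX e a h h0 => by
    have h1 := hI _ (der_Er h) _ (hI _ (der_Er h) X hX)
    have h2 : Er K e a * (Er K e a * X - X * Er K e a) - (Er K e a * X - X * Er K e a) * Er K e a =
        (-2 * X a e) • Er K e a := by
      rw [mul_sub, sub_mul, ← mul_assoc, Er_mul_self h, ← mul_assoc, mul_assoc X, Er_mul_self h,
        (hW X hX).Er_mul_Er h]
      simp only [zero_mul, mul_zero]
      module
    rw [h2] at h1
    exact (W.smul_mem_iff (mul_ne_zero (by norm_num) h0)).1 h1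
  have sA : ∀ X ∈ W, ∀ e a, Rt e a → X e a ≠ 0 → Er K e a ∈ W := fun X hX e a h h0 =>
    s1 _ (s1 X hX a e h.symm h0) e a h (by rw [Er_self h.symm]; exact one_ne_zero)
  have sR : ∀ X : Matrix I I K, (∀ e a, Rt e a → X e a ≠ 0 → Er K e a ∈ W) →
      (1 / 6 : ℚ) • (∑ w : I × I, if Rt w.1 w.2 then X w.1 w.2 • Er K w.1 w.2 else 0) ∈ W :=
    fun X h => W.smul_of_tower_mem _ (W.sum_mem fun w _ => by
      split_ifs with hw
      · by_cases h0 : X w.1 w.2 = 0
        · simp [h0]
        · exact W.smul_mem _ (h _ _ hw h0)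
      · exact W.zero_mem)
  have sD : ∀ X ∈ W, (diagonal fun u => X u u) ∈ W := fun X hX => by
    rw [eq_sub_of_add_eq (hW X hX).decomp.symm]
    exact W.sub_mem hX (sR X (sA X hX))
  have s2 : ∀ d : I → K, diagonal d ∈ W → ∀ u v, Rt u v → d u ≠ d v → Er K u v ∈ W :=
    fun d hd u v h h0 => sA _ (hI _ (der_Er h) _ hd) u v h (by
      rw [Matrix.sub_apply, mul_diagonal, diagonal_mul, Er_self h, one_mul, mul_one]
      exact sub_ne_zero.2 h0.symm)
  have s3 : ∃ e a, Rt e a ∧ Er K e a ∈ W := by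
    by_contra hc
    push Not at hc
    refine hne ((Submodule.eq_bot_iff W).2 fun X hX => ?_)
    have h1 : ∀ u v, Rt u v → X u u = X v v := fun u v h => by
      by_contra h0
      exact hc u v h (s2 _ (sD X hX) u v h h0)
    have h2 : ∀ a, X a a = X (.inl 0) (.inl 0) := fun a => by
      rcases conn a with h | h | ⟨c, h, h'⟩
      · rw [h]
      · exact (h1 _ _ h).symm
      · exact ((h1 _ _ h).trans (h1 _ _ h')).symm
    have h3 := der_diagonal_iff.1 (hW X hX).diag (.inl 0) (.inl 1) (by decide +kernel)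
    simp only [h2] at h3
    have h4 : X (.inl 0) (.inl 0) = 0 := by linear_combination (1 / 3 : K) * h3
    ext u v
    by_cases huv : u = v
    · rw [huv, h2, h4, Matrix.zero_apply]
    · by_cases ha : Adj u v
      · exact (hW X hX).adj_eq_zero ha
      · by_contra h0
        exact hc u v ⟨huv, ha⟩ (sA X hX u v ⟨huv, ha⟩ h0)
  have sH : ∀ e a, Rt e a → Er K e a ∈ W →
      (diagonal fun u => ((cc e u - cc a u : ℤ) : K)) ∈ W := fun e a h he => by
    have h1 := sD _ (W.neg_mem (hI _ (der_Er h.symm) _ he))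
    simpa only [neg_sub, Matrix.sub_apply, row_sq h, row_sq h.symm, ← Int.cast_sub,
      cc_sub e a _ h] using h1
  have s4 : ∀ e a, Rt e a → Er K e a ∈ W → ∀ u v, Rt u v → cc e u - cc a u ≠ cc e v - cc a v →
      Er K u v ∈ W := fun e a h he u v h' h0 =>
    s2 _ (sH e a h he) u v h' fun h1 => h0 (Int.cast_injective h1)
  have s5 : ∀ e a, Rt e a → Er K e a ∈ W := by
    obtain ⟨e₀, a₀, h₀, h₀'⟩ := s3
    obtain ⟨x, y, h1, h2, h3⟩ := link e₀ a₀ h₀
    have hb := s4 x y h1 (s4 _ _ h₀ h₀' x y h1 h2) _ _ rt_base h3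
    intro e a h
    obtain ⟨x, y, h1, h2, h3⟩ := link e a h
    refine s4 x y h1 (s4 _ _ rt_base hb x y h1 ?_) e a h ?_
    · rw [cc_symm _ x, cc_symm _ x, cc_symm _ y, cc_symm _ y]
      omega
    · rw [cc_symm _ e, cc_symm _ e, cc_symm _ a, cc_symm _ a]
      omega
  have s6 : ∀ a, (diagonal fun u => ((cc (.inl 0) u - cc a u : ℤ) : K)) ∈ W := fun a => by
    rcases conn a with h | h | ⟨c, h, h'⟩
    · simp [h]
    · exact sH _ _ h (s5 _ _ h)
    · have h1 := W.add_mem (sH _ _ h (s5 _ _ h)) (sH _ _ h' (s5 _ _ h'))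
      simpa only [diagonal_add, ← Int.cast_add, sub_add_sub_cancel] using h1
  rw [hD.decomp]
  refine W.add_mem ?_ (sR D fun e a h _ => s5 e a h)
  have h0 : ∑ e, D e e = 0 := by simpa [trace] using hD.trace (isAlb_nZ K)
  have h1 : (diagonal fun u => D u u) = ∑ e, (-1 / 6 * D e e) •
      diagonal fun u => ((cc (.inl 0) u - cc e u : ℤ) : K) := by
    ext u v
    by_cases huv : u = v
    · have h2 := sum_cc hD.diag u
      simp only [← huv, Matrix.sum_apply, Matrix.smul_apply, diagonal_apply_eq, smul_eq_mul,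
        Int.cast_sub, mul_sub, mul_assoc, Finset.sum_sub_distrib, ← Finset.mul_sum, ← Finset.sum_mul, h0, h2]
      ring
    · simp only [Matrix.sum_apply, Matrix.smul_apply, diagonal_apply_ne _ huv, smul_zero,
        Finset.sum_const_zero]
  rw [h1]
  exact W.sum_mem fun e _ => W.smul_mem _ (s6 e)

end Pool.Agent.P.MP_3c2f8c_gt.Ex.Op
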