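import Pool.Agent.P.MP_3c2f8c_gt.Ex.Lo.OpSpan
import Pool.Agent.P.MP_3c2f8c_gt.Ex.Lo.OpSimp
import Pool.Agent.P.MP_3c2f8c_gt.Ex.Al.Spl
import Pool.Agent.P.MP_3c2f8c_gt.Ex.Al.Cub2

/-! EXO-Irr: a subspace stable under the rational Lie algebra is everything. -/

namespace Pool.Agent.P.MP_3c2f8c_gt.Ex.Op

open Matrix

namespace OpIrrAux

section
variable {K : Type} [Field K] (j : Cub K →+* K) (hj : ∀ t, j (Cub.C t) = t) (P : GL I K)

/-- The first component, conjugated to the split model. -/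
def psi : Matrix I I (Cub K) →ₗ[K] Matrix I I K where
  toFun Z := P.1 * Z.map j * (P⁻¹).1
  map_add' Z Z' := by rw [Matrix.map_add _ (map_add j), Matrix.mul_add, Matrix.add_mul]
  map_smul' t Z := by
    have e : (t • Z).map j = t • Z.map j := by
      ext a c
      have h : t • Z a c = Cub.C t * Z a c := by ext <;> simp
      rw [Matrix.map_apply, Matrix.smul_apply, Matrix.smul_apply, Matrix.map_apply, h, map_mul, hj,
        smul_eq_mul]
    rw [e, Matrix.mul_smul, Matrix.smul_mul, RingHom.id_apply]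

theorem psi_apply (Z : Matrix I I (Cub K)) : psi j hj P Z = P.1 * Z.map j * (P⁻¹).1 := rfl

theorem psi_mul (Z Z' : Matrix I I (Cub K)) :
    psi j hj P (Z * Z') = psi j hj P Z * psi j hj P Z' := by
  rw [psi_apply, psi_apply, psi_apply, Matrix.map_mul, Matrix.mul_assoc (P.1 * Z.map j),
    ← Matrix.mul_assoc (P⁻¹).1, ← Matrix.mul_assoc (P⁻¹).1, P.inv_mul, Matrix.one_mul]
  simp only [Matrix.mul_assoc]

theorem psi_zero {Z : Matrix I I (Cub K)} (h : psi j hj P Z = 0) : Z.map j = 0 := by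
  have h1 : (P⁻¹).1 * psi j hj P Z * P.1 = Z.map j := by
    rw [psi_apply, Matrix.mul_assoc, Matrix.mul_assoc, P.inv_mul, Matrix.mul_one,
      ← Matrix.mul_assoc, P.inv_mul, Matrix.one_mul]
  rw [← h1, h, Matrix.mul_zero, Matrix.zero_mul]

end

theorem exists_j (K : Type) [Field K] [IsAlgClosed K] :
    ∃ j : Cub K →+* K, ∀ t, j (Cub.C t) = t := by
  obtain ⟨θ, hθ⟩ := IsAlgClosed.exists_root
    (Polynomial.X ^ 3 + Polynomial.X ^ 2 - 2 * Polynomial.X - 1 : Polynomial K) (by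
      have h : (Polynomial.X ^ 3 + Polynomial.X ^ 2 - 2 * Polynomial.X - 1 :
          Polynomial K).degree = 3 := by compute_degree!
      rw [h]
      norm_num)
  have h : θ ^ 3 + θ ^ 2 - 2 * θ - 1 = 0 := by simpa using hθ
  exact ⟨Cub.lift (RingHom.id K) θ h, fun t => by simp [Cub.lift_apply]⟩

theorem bcM_bcM {k K : Type} [Field k] [Algebra ℚ k] [Field K] [Algebra ℚ K] (f : k →+* K)
    (Y : Matrix I I (Cub ℚ)) : bcM f (bcM (algebraMap ℚ k) Y) = bcM (algebraMap ℚ K) Y := by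
  ext1 a c
  have h : f.comp (algebraMap ℚ k) = algebraMap ℚ K := RingHom.ext_rat _ _
  rw [← h]
  rfl

theorem lie_span {b : ℚ} {k K : Type} [Field k] [Algebra ℚ k] [Field K] [Algebra ℚ K]
    (f : k →+* K) (V : Submodule k (Matrix I I (Cub k)))
    (hI : ∀ Y ∈ LieG b ℚ, ∀ X ∈ V,
      bcM (algebraMap ℚ k) Y * X - X * bcM (algebraMap ℚ k) Y ∈ V) {Z X : Matrix I I (Cub K)}
    (hZ : Z ∈ LieG b K) (hX : X ∈ Submodule.span K (bcM f '' V)) :
    Z * X - X * Z ∈ Submodule.span K (bcM f '' V) := by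
  have hZ' := mem_span_lie K hZ
  clear hZ
  induction hZ' using Submodule.span_induction with
  | zero => simp
  | add Z Z' _ _ h h' =>
    rw [Matrix.add_mul, Matrix.mul_add, add_sub_add_comm]
    exact Submodule.add_mem _ h h'
  | smul t Z _ h =>
    rw [Matrix.smul_mul, Matrix.mul_smul, ← smul_sub]
    exact Submodule.smul_mem _ _ h
  | mem Z hZ =>
    obtain ⟨Y, hY, rfl⟩ := hZ
    induction hX using Submodule.span_induction with
    | zero => simp
    | add X X' _ _ h h' =>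
      rw [Matrix.add_mul, Matrix.mul_add, add_sub_add_comm]
      exact Submodule.add_mem _ h h'
    | smul t X _ h =>
      rw [Matrix.smul_mul, Matrix.mul_smul, ← smul_sub]
      exact Submodule.smul_mem _ _ h
    | mem X hX =>
      obtain ⟨X, hX, rfl⟩ := hX
      refine Submodule.subset_span ⟨_, hI Y hY X hX, ?_⟩
      rw [← bcM_bcM f Y, bcM, Matrix.map_sub _ (map_sub _), Matrix.map_mul, Matrix.map_mul]

theorem irred {b : ℚ} (hb : b ≠ 0) {k : Type} (K : Type) [Field k] [Algebra ℚ k] [Field K]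
    [Algebra ℚ K] [Algebra k K] [IsAlgClosed K]
    (V : Submodule k (Matrix I I (Cub k))) (hV : V ≤ LieG b k) (hne : V ≠ ⊥)
    (hI : ∀ Y ∈ LieG b ℚ, ∀ X ∈ V,
      bcM (algebraMap ℚ k) Y * X - X * bcM (algebraMap ℚ k) Y ∈ V) : V = LieG b k := by
  have : CharZero K := algebraRat.charZero K
  obtain ⟨j, hj⟩ := exists_j K
  obtain ⟨i, hi⟩ := IsAlgClosed.exists_pow_nat_eq (-1 : K) two_pos
  obtain ⟨-, P, -, -, -, hP, -⟩ := exists_split (R := K) ![i, 0, 0, 0]
    (by simp [Fin.sum_univ_four, hi])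
  have hP1 : Sim (nJ K) (nZ K) P.1 (1 : Kˣ).1 := hP
  have hle : Submodule.span K (bcM (algebraMap k K) '' V) ≤ LieG b K := by
    rw [Submodule.span_le]
    rintro _ ⟨X, hX, rfl⟩
    exact bcM_mem _ (hV hX)
  have hder : ∀ Z ∈ LieG b K, Der (nZ K) (psi j hj P Z) 0 := fun Z hZ => by
    have h := hZ.1.map j
    rw [nJ_map, map_zero] at h
    exact hP1.conj_der h
  refine le_antisymm hV fun X hX => descend (K := K) V ?_
  obtain ⟨X', hX', e⟩ := der0_simple
    ((Submodule.span K (bcM (algebraMap k K) '' V)).map (psi j hj P))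
    (by
      rintro _ ⟨Z, hZ, rfl⟩
      exact hder Z (hle hZ))
    (by
      obtain ⟨X₀, h0, h1⟩ := (Submodule.ne_bot_iff V).1 hne
      refine (Submodule.ne_bot_iff _).2 ⟨_, ⟨_, Submodule.subset_span ⟨X₀, h0, rfl⟩, rfl⟩,
        fun h => h1 ?_⟩
      have h2 := lie_inj hb j hj (bcM_mem _ (hV h0)) (psi_zero j hj P h)
      refine Matrix.map_injective (Cub.map_injective (algebraMap k K).injective) (h2.trans ?_)
      exact (Matrix.map_zero _ (map_zero _)).symm)
    (by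
      rintro Y hY _ ⟨Z', hZ', rfl⟩
      obtain ⟨Z, hZ, e⟩ := lie_surj hb j hj (hP1.inv.conj_der hY)
      have e' : psi j hj P Z = Y := by
        rw [psi_apply, e, inv_inv, ← Matrix.mul_assoc, ← Matrix.mul_assoc, P.mul_inv,
          Matrix.one_mul, Matrix.mul_assoc, P.mul_inv, Matrix.mul_one]
      refine ⟨_, lie_span _ V hI hZ hZ', ?_⟩
      rw [map_sub, psi_mul, psi_mul, e'])
    (hder _ (bcM_mem (algebraMap k K) hX))
  have h3 := lie_inj hb j hj (Submodule.sub_mem _ (hle hX') (bcM_mem (algebraMap k K) hX))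
    (psi_zero j hj P (by rw [map_sub, e, sub_self]))
  rw [← sub_eq_zero.1 h3]
  exact hX'

end OpIrrAux

theorem lie_irred {b : ℚ} (hb : b ≠ 0) {k : Type} [Field k] [Algebra ℚ k]
    (V : Submodule k (Matrix I I (Cub k))) (hV : V ≤ LieG b k) (hne : V ≠ ⊥)
    (hI : ∀ Y ∈ LieG b ℚ, ∀ X ∈ V,
      bcM (algebraMap ℚ k) Y * X - X * bcM (algebraMap ℚ k) Y ∈ V) : V = LieG b k :=
  OpIrrAux.irred hb (AlgebraicClosure k) V hV hne hI

end Pool.Agent.P.MP_3c2f8c_gt.Ex.Op
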