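import Pool.Agent.P.MP_3c2f8c_gt.Ex.Lo.OpDefs
import Pool.Agent.P.MP_3c2f8c_gt.Ex.Gl.Nu

/-! EXO-Quad: the group is tangent to its Lie algebra to second order. -/

namespace Pool.Agent.P.MP_3c2f8c_gt.Ex.Op

open Matrix

variable {b : ℚ} {p : ℕ} [Fact p.Prime]

namespace OpQuadAux

theorem expand {R : Type} [CommRing R] {n : T3 R} {E : Matrix I I R} {s ν : R}
    (h : Sim n n (1 + s • E) ν) (x y z : I → R) :
    s * (tri n (E *ᵥ x) y z + tri n x (E *ᵥ y) z + tri n x y (E *ᵥ z) +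
      s * (tri n (E *ᵥ x) (E *ᵥ y) z + tri n (E *ᵥ x) y (E *ᵥ z) + tri n x (E *ᵥ y) (E *ᵥ z)) +
      s ^ 2 * tri n (E *ᵥ x) (E *ᵥ y) (E *ᵥ z)) = (ν - 1) * tri n x y z := by
  have h1 := h x y z
  simp only [Matrix.add_mulVec, Matrix.one_mulVec, Matrix.smul_mulVec, tri_add₁, tri_add₂,
    tri_add₃, tri_smul₁, tri_smul₂, tri_smul₃] at h1
  linear_combination h1

theorem exists_bound {K V W U : Type} [NontriviallyNormedField K] [CompleteSpace K]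
    [AddCommGroup V] [Module K V] [NormedAddCommGroup W] [NormedSpace K W] [FiniteDimensional K W]
    [NormedAddCommGroup U] [NormedSpace K U] (T : V →ₗ[K] W) (c : V →ₗ[K] U) :
    ∃ C : ℝ, 0 ≤ C ∧ ∀ v, ∃ z, T z = 0 ∧ ‖c (v - z)‖ ≤ C * ‖T v‖ := by
  obtain ⟨S₀, h0⟩ := T.rangeRestrict.exists_rightInverse_of_surjective T.range_rangeRestrict
  obtain ⟨S, hS⟩ := LinearMap.exists_extend S₀
  refine ⟨‖LinearMap.toContinuousLinearMap (c ∘ₗ S)‖, norm_nonneg _, fun v =>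
    ⟨v - S (T v), ?_, ?_⟩⟩
  · have h1 : S (T v) = S₀ (T.rangeRestrict v) := LinearMap.congr_fun hS (T.rangeRestrict v)
    have h2 : T (S₀ (T.rangeRestrict v)) = T v :=
      congrArg Subtype.val (LinearMap.congr_fun h0 (T.rangeRestrict v))
    rw [map_sub, h1, h2, sub_self]
  · rw [sub_sub_cancel]
    exact (LinearMap.toContinuousLinearMap (c ∘ₗ S)).le_opNorm (T v)

theorem co_mul (x y : Cub ℚ_[p]) : ‖Cub.co (x * y)‖ ≤ ‖Cub.co x‖ * ‖Cub.co y‖ := by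
  have h : ∀ i j, ‖Cub.co x i * Cub.co y j‖ ≤ ‖Cub.co x‖ * ‖Cub.co y‖ := fun i j => by
    rw [norm_mul]
    exact mul_le_mul (norm_le_pi_norm _ i) (norm_le_pi_norm _ j) (norm_nonneg _) (norm_nonneg _)
  have ad : ∀ {u v : ℚ_[p]} {r : ℝ}, ‖u‖ ≤ r → ‖v‖ ≤ r → ‖u + v‖ ≤ r := fun hu hv =>
    (Padic.nonarchimedean _ _).trans (max_le hu hv)
  have sb : ∀ {u v : ℚ_[p]} {r : ℝ}, ‖u‖ ≤ r → ‖v‖ ≤ r → ‖u - v‖ ≤ r := fun hu hv => by
    rw [sub_eq_add_neg]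
    exact ad hu (by rwa [norm_neg])
  rw [pi_norm_le_iff_of_nonneg (by positivity)]
  intro i
  fin_cases i
  · exact sb (ad (h 0 0) (ad (h 1 2) (h 2 1))) (h 2 2)
  · change ‖(x * y).c1‖ ≤ _
    rw [Cub.mul_c1, two_mul]
    exact sb (ad (ad (h 0 1) (h 1 0)) (ad (ad (h 1 2) (h 2 1)) (ad (h 1 2) (h 2 1)))) (h 2 2)
  · change ‖(x * y).c2‖ ≤ _
    rw [Cub.mul_c2, show (3 : ℚ_[p]) * (x.c2 * y.c2) = x.c2 * y.c2 + (x.c2 * y.c2 + x.c2 * y.c2) by
      ring]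
    exact ad (sb (ad (ad (h 0 2) (h 1 1)) (h 2 0)) (ad (h 1 2) (h 2 1)))
      (ad (h 2 2) (ad (h 2 2) (h 2 2)))

theorem co_add {x y : Cub ℚ_[p]} {r : ℝ} (hx : ‖Cub.co x‖ ≤ r) (hy : ‖Cub.co y‖ ≤ r) :
    ‖Cub.co (x + y)‖ ≤ r := by
  have e : Cub.co (x + y) = Cub.co x + Cub.co y := (Cub.coEquiv ℚ_[p]).map_add x y
  rw [e]
  exact (IsUltrametricDist.norm_add_le_max _ _).trans (max_le hx hy)

theorem co_sum {ι : Type} [Fintype ι] {f : ι → Cub ℚ_[p]} {r : ℝ} (hr : 0 ≤ r)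
    (h : ∀ i, ‖Cub.co (f i)‖ ≤ r) : ‖Cub.co (∑ i, f i)‖ ≤ r := by
  have e : Cub.co (∑ i, f i) = ∑ i, Cub.co (f i) := map_sum (Cub.coEquiv ℚ_[p]) f _
  rw [e]
  exact IsUltrametricDist.norm_sum_le_of_forall_le_of_nonneg hr fun i _ => h i

theorem co_int (m : ℤ) : ‖Cub.co (m : Cub ℚ_[p])‖ ≤ 1 := by
  rw [pi_norm_le_iff_of_nonneg zero_le_one]
  intro i
  fin_cases i
  · exact Padic.norm_int_le_one m
  · exact norm_zero.le.trans zero_le_one
  · exact norm_zero.le.trans zero_le_one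

theorem co_tri {x y z : I → Cub ℚ_[p]} {r s t : ℝ} (hr : 0 ≤ r) (hs : 0 ≤ s) (ht : 0 ≤ t)
    (hx : ∀ a, ‖Cub.co (x a)‖ ≤ r) (hy : ∀ a, ‖Cub.co (y a)‖ ≤ s) (hz : ∀ a, ‖Cub.co (z a)‖ ≤ t) :
    ‖Cub.co (tri (nJ (Cub ℚ_[p])) x y z)‖ ≤ r * s * t := by
  have h0 : 0 ≤ r * s * t := by positivity
  refine co_sum h0 fun a => co_sum h0 fun c => co_sum h0 fun d => (co_mul _ _).trans ?_
  refine (mul_le_of_le_one_left (norm_nonneg _) (co_int _)).trans ((co_mul _ _).trans ?_)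
  exact mul_le_mul ((co_mul _ _).trans (mul_le_mul (hx a) (hy c) (norm_nonneg _) hr)) (hz d)
    (norm_nonneg _) (mul_nonneg hr hs)

theorem co_single (a c : I) : ‖Cub.co ((Pi.single a 1 : I → Cub ℚ_[p]) c)‖ ≤ 1 := by
  by_cases h : c = a
  · rw [h, Pi.single_eq_same]
    simpa using co_int (p := p) 1
  · rw [Pi.single_eq_of_ne h]
    simpa using co_int (p := p) 0

/-- The linearised invariance of the cubic form. -/
def T1 {R : Type} [CommRing R] (n : T3 R) : Matrix I I R →ₗ[R] (I × I × I → R) where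
  toFun X q := tri n (X *ᵥ Pi.single q.1 1) (Pi.single q.2.1 1) (Pi.single q.2.2 1) +
    tri n (Pi.single q.1 1) (X *ᵥ Pi.single q.2.1 1) (Pi.single q.2.2 1) +
    tri n (Pi.single q.1 1) (Pi.single q.2.1 1) (X *ᵥ Pi.single q.2.2 1)
  map_add' X Y := by
    funext q
    simp only [Matrix.add_mulVec, tri_add₁, tri_add₂, tri_add₃, Pi.add_apply]
    ring
  map_smul' t X := by
    funext q
    simp only [Matrix.smul_mulVec, tri_smul₁, tri_smul₂, tri_smul₃, Pi.smul_apply, smul_eq_mul,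
      RingHom.id_apply]
    ring

/-- The commutation with the semilinear map. -/
def T2 (b : ℚ) (R : Type) [CommRing R] [Algebra ℚ R] :
    Matrix I I (Cub R) →ₗ[R] Matrix I I (Cub R) where
  toFun X := X * ph b (Cub R) - ph b (Cub R) * X.map Cub.sig
  map_add' X Y := by
    rw [Matrix.add_mul, Matrix.map_add _ (map_add _), Matrix.mul_add]
    abel
  map_smul' t X := by
    rw [Matrix.smul_mul, Matrix.map_smul _ _ (fun x => by
      rw [Algebra.smul_def, Algebra.smul_def, map_mul, Cub.algebraMap_eq, Cub.sig_C]),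
      Matrix.mul_smul, smul_sub, RingHom.id_apply]

theorem T2_gt {R : Type} [CommRing R] [Algebra ℚ R] {g : GL I (Cub R)} (hg : g ∈ Gt b R) :
    T2 b R g.1 = 0 := sub_eq_zero.2 hg.2

theorem T2_one {R : Type} [CommRing R] [Algebra ℚ R] : T2 b R 1 = 0 := by
  have h := T2_gt (b := b) (R := R) (g := 1) (one_mem _)
  rwa [Units.val_one] at h

theorem mem_lie {R : Type} [CommRing R] [Algebra ℚ R] {X : Matrix I I (Cub R)}
    (h1 : T1 (nJ (Cub R)) X = 0) (h2 : T2 b R X = 0) : X ∈ LieG b R :=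
  ⟨der_iff_single.2 fun a c d => by
    rw [← B2Aux.single_eq, zero_mul]
    exact congrFun h1 (a, c, d), sub_eq_zero.1 h2⟩

/-- The coordinates of a matrix. -/
def cM (R : Type) [CommRing R] : Matrix I I (Cub R) →ₗ[R] (I × I → Fin 3 → R) where
  toFun X q := Cub.co (X q.1 q.2)
  map_add' X Y := funext fun q => (Cub.coEquiv R).map_add (X q.1 q.2) (Y q.1 q.2)
  map_smul' t X := funext fun q => (Cub.coEquiv R).map_smul t (X q.1 q.2)

theorem cont_tri {A Y : Type} [CommRing A] [TopologicalSpace A] [IsTopologicalRing A]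
    [TopologicalSpace Y] (n : T3 A) {f g h : Y → I → A} (hf : Continuous f) (hg : Continuous g)
    (hh : Continuous h) : Continuous fun t => tri n (f t) (g t) (h t) := by
  unfold tri
  fun_prop

end OpQuadAux

open OpQuadAux Filter Topology

theorem quad (hb : b ≠ 0) : ∃ C : ℝ, ∀ (g : Gt b ℚ_[p]) (r : ℝ), 0 ≤ r → r ≤ 1 →
    BdX r (g.1.1 - 1) → ∃ Z ∈ LieG b ℚ_[p], ∃ t : ℚ_[p],
      BdX (C * r ^ 2) (g.1.1 - 1 - (Z + t • 1)) := by
  obtain ⟨C, hC, h⟩ := exists_bound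
    (((Cub.coEquiv ℚ_[p]).toLinearMap.compLeft (I × I × I) ∘ₗ
      (T1 (nJ (Cub ℚ_[p]))).restrictScalars ℚ_[p]).prod (cM ℚ_[p] ∘ₗ T2 b ℚ_[p])) (cM ℚ_[p])
  refine ⟨C, fun g r hr hr1 hg => ?_⟩
  obtain ⟨E, hE⟩ : ∃ E, E = g.1.1 - 1 := ⟨_, rfl⟩
  obtain ⟨t, ht⟩ : ∃ t, t = (Gt.nu g - 1) / 3 := ⟨_, rfl⟩
  obtain ⟨Z, hZ, hb'⟩ := h (E - t • 1)
  rw [← hE] at hg ⊢
  have z1 : T1 (nJ (Cub ℚ_[p])) Z = 0 := funext fun q =>
    (Cub.coEquiv ℚ_[p]).map_eq_zero_iff.1 (congrFun (congrArg Prod.fst hZ) q)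
  have z2 : T2 b ℚ_[p] Z = 0 := Matrix.ext fun a c =>
    (Cub.coEquiv ℚ_[p]).map_eq_zero_iff.1 (congrFun (congrArg Prod.snd hZ) (a, c))
  refine ⟨Z, mem_lie z1 z2, t, fun a c i => ?_⟩
  have e1 : E - (Z + t • 1) = E - t • 1 - Z := by abel
  rw [e1]
  refine (norm_le_pi_norm _ i).trans ((norm_le_pi_norm (cM ℚ_[p] (E - t • 1 - Z)) (a, c)).trans
    (hb'.trans (mul_le_mul_of_nonneg_left ?_ hC)))
  have e2 : T2 b ℚ_[p] (E - t • 1) = 0 := by
    rw [hE, map_sub, map_sub, map_smul, T2_gt g.2, T2_one, smul_zero, sub_zero, sub_zero]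
  have hs : Sim (nJ (Cub ℚ_[p])) (nJ (Cub ℚ_[p])) (1 + (1 : Cub ℚ_[p]) • E) (Cub.C (Gt.nu g)) := by
    rw [one_smul, hE, add_sub_cancel]
    exact Gt.sim hb g
  have e3 : Cub.C (Gt.nu g) - 1 = 3 * Cub.C t := by
    rw [← map_one Cub.C, ← map_sub, ← map_ofNat Cub.C, ← map_mul, ht]
    congr 1
    ring
  have hcol : ∀ a c, ‖Cub.co ((E *ᵥ Pi.single a 1) c)‖ ≤ r := fun a c => by
    rw [Matrix.mulVec_single_one]
    exact (pi_norm_le_iff_of_nonneg hr).2 (hg c a)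
  refine norm_prod_le_iff.2 ⟨(pi_norm_le_iff_of_nonneg (sq_nonneg r)).2 fun q => ?_, ?_⟩
  swap
  · show ‖cM ℚ_[p] (T2 b ℚ_[p] (E - t • 1))‖ ≤ r ^ 2
    rw [e2, map_zero, norm_zero]
    exact sq_nonneg r
  have e4 := expand hs (Pi.single q.1 1) (Pi.single q.2.1 1) (Pi.single q.2.2 1)
  have e5 : T1 (nJ (Cub ℚ_[p])) (E - t • 1) q = -(
      tri (nJ (Cub ℚ_[p])) (E *ᵥ Pi.single q.1 1) (E *ᵥ Pi.single q.2.1 1) (Pi.single q.2.2 1) +
      tri (nJ (Cub ℚ_[p])) (E *ᵥ Pi.single q.1 1) (Pi.single q.2.1 1) (E *ᵥ Pi.single q.2.2 1) +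
      tri (nJ (Cub ℚ_[p])) (Pi.single q.1 1) (E *ᵥ Pi.single q.2.1 1) (E *ᵥ Pi.single q.2.2 1) +
      tri (nJ (Cub ℚ_[p])) (E *ᵥ Pi.single q.1 1) (E *ᵥ Pi.single q.2.1 1)
        (E *ᵥ Pi.single q.2.2 1)) := by
    rw [NuAux.smul_eq, map_sub, map_smul, Pi.sub_apply, Pi.smul_apply, smul_eq_mul]
    simp only [T1, LinearMap.coe_mk, AddHom.coe_mk, Matrix.one_mulVec]
    rw [e3] at e4
    linear_combination e4
  show ‖Cub.coEquiv ℚ_[p] (T1 (nJ (Cub ℚ_[p])) (E - t • 1) q)‖ ≤ r ^ 2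
  rw [e5, map_neg, norm_neg]
  refine co_add (co_add (co_add ?_ ?_) ?_) ?_
  · exact (co_tri hr hr zero_le_one (hcol _) (hcol _) (co_single _)).trans_eq (by ring)
  · exact (co_tri hr zero_le_one hr (hcol _) (co_single _) (hcol _)).trans_eq (by ring)
  · exact (co_tri zero_le_one hr hr (co_single _) (hcol _) (hcol _)).trans_eq (by ring)
  · refine (co_tri hr hr hr (hcol _) (hcol _) (hcol _)).trans ?_
    rw [sq]
    exact mul_le_of_le_one_right (mul_nonneg hr hr) hr1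

theorem TanA.mem_lie {Γ : Subgroup (GL I (Cub ℚ_[p]))}
    (hΓ : ∀ g ∈ Γ, g ∈ Gt b ℚ_[p] ∧ Sim (nJ (Cub ℚ_[p])) (nJ (Cub ℚ_[p])) g.1 1)
    {X : Matrix I I (Cub ℚ_[p])} (h : TanA p Γ X) : X ∈ LieG b ℚ_[p] := by
  obtain ⟨c, hc, ht⟩ := h
  have : T2Space (Cub ℚ_[p]) := RhoAux.t2_cub
  have hp : (p : ℚ_[p]) ≠ 0 := Nat.cast_ne_zero.2 (Fact.out : p.Prime).ne_zero
  have cC : Continuous (Cub.C : ℚ_[p] → Cub ℚ_[p]) :=
    Cub.continuous_iff.2 ⟨continuous_id, continuous_const, continuous_const⟩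
  have cS : Continuous (Cub.sig : Cub ℚ_[p] → Cub ℚ_[p]) := by
    have h0 := Cub.continuous_c0 (R := ℚ_[p])
    have h1 := Cub.continuous_c1 (R := ℚ_[p])
    have h2 := Cub.continuous_c2 (R := ℚ_[p])
    refine Cub.continuous_iff.2 ⟨?_, ?_, ?_⟩ <;>
      simp only [Cub.sig_c0, Cub.sig_c1, Cub.sig_c2] <;> fun_prop
  have t0 : Tendsto (fun k : ℕ => Cub.C ((p : ℚ_[p]) ^ k)) atTop (𝓝 0) := by
    have h1 := (cC.tendsto 0).comp
      (tendsto_pow_atTop_nhds_zero_of_norm_lt_one (Padic.norm_p_lt_one (p := p)))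
    rwa [map_zero] at h1
  refine ⟨fun x y z => ?_, sub_eq_zero.1 ?_⟩
  · have m : ∀ v : I → Cub ℚ_[p],
        Continuous fun q : Cub ℚ_[p] × Matrix I I (Cub ℚ_[p]) => q.2 *ᵥ v := fun v =>
      continuous_snd.matrix_mulVec continuous_const
    have k : ∀ v : I → Cub ℚ_[p],
        Continuous fun _ : Cub ℚ_[p] × Matrix I I (Cub ℚ_[p]) => v := fun v => continuous_const
    have c1 := ((((cont_tri (nJ _) (m x) (k y) (k z)).add (cont_tri (nJ _) (k x) (m y) (k z))).add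
      (cont_tri (nJ _) (k x) (k y) (m z))).add (continuous_fst.mul
        (((cont_tri (nJ _) (m x) (m y) (k z)).add (cont_tri (nJ _) (m x) (k y) (m z))).add
          (cont_tri (nJ _) (k x) (m y) (m z))))).add
      ((continuous_fst.pow 2).mul (cont_tri (nJ _) (m x) (m y) (m z)))
    have c2 := (c1.tendsto (0, X)).comp (t0.prodMk_nhds ht)
    have c3 := tendsto_nhds_unique c2 (tendsto_const_nhds (x := (0 : Cub ℚ_[p])) |>.congr fun j => by
      have hs : Sim (nJ (Cub ℚ_[p])) (nJ (Cub ℚ_[p])) (1 + Cub.C ((p : ℚ_[p]) ^ j) •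
          (((p : ℚ_[p]) ^ j)⁻¹ • ((c j).1 - 1))) 1 := by
        rw [← NuAux.smul_eq, smul_inv_smul₀ (pow_ne_zero j hp), add_sub_cancel]
        exact (hΓ _ (hc j)).2
      have e := expand hs x y z
      rw [sub_self, zero_mul] at e
      exact ((((pow_ne_zero j hp).isUnit.map Cub.C).mul_right_eq_zero).1 e).symm)
    simpa using c3
  · have c1 : Continuous (T2 b ℚ_[p]) :=
      (continuous_id.matrix_mul continuous_const).sub
        (continuous_const.matrix_mul (continuous_id.matrix_map cS))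
    exact tendsto_nhds_unique ((c1.tendsto X).comp ht) (tendsto_const_nhds.congr fun j => by
      rw [Function.comp_apply, map_smul, map_sub, T2_gt (hΓ _ (hc j)).1, T2_one, sub_zero,
        smul_zero])

end Pool.Agent.P.MP_3c2f8c_gt.Ex.Op
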