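import Pool.Agent.P.MP_3c2f8c_gt.Ex.Lo.OpSs1

/-! EXO-Rat: rational points from semisimple elements of the Lie algebra. -/

namespace Pool.Agent.P.MP_3c2f8c_gt.Ex.Op

open Matrix Polynomial

namespace OpRatAux

theorem aeval_congr {F B : Type} [Field F] [Ring B] [Algebra F B] {Y : B} {T : Finset F}
    (h0 : aeval Y (∏ μ ∈ T, (X - C μ)) = 0) {P Q : F[X]} (h : ∀ μ ∈ T, eval μ P = eval μ Q) :
    aeval Y P = aeval Y Q := by
  obtain ⟨R, hR⟩ : (∏ μ ∈ T, (X - C μ)) ∣ P - Q :=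
    Finset.prod_dvd_of_coprime (fun a _ b _ hab => pairwise_coprime_X_sub_C
      Function.injective_id hab) fun μ hμ => dvd_iff_isRoot.2 (by simp [h μ hμ])
  rw [← sub_eq_zero, ← map_sub, hR, map_mul, h0, zero_mul]

theorem tri_sum {A ι : Type} [CommRing A] (n : T3 A) (T : Finset ι) (x y z : ι → I → A) :
    tri n (∑ a ∈ T, x a) (∑ a ∈ T, y a) (∑ a ∈ T, z a) =
      ∑ c ∈ T, ∑ b ∈ T, ∑ a ∈ T, tri n (x a) (y b) (z c) := by
  rw [← triL_apply]
  simp only [map_sum, LinearMap.sum_apply, triL_apply]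

end OpRatAux

open OpRatAux

theorem sim_aeval {F A : Type} [Field F] [CommRing A] [Algebra F A] {n : T3 A} {Y : Matrix I I A}
    (hY : Der n Y 0) (T : Finset F) (h0 : aeval Y (∏ μ ∈ T, (X - C μ)) = 0) {P : F[X]}
    (h1 : ∀ μ ∈ T, eval μ P ≠ 0) (h2 : ∀ μ₁ ∈ T, ∀ μ₂ ∈ T, ∀ μ₃ ∈ T, μ₁ + μ₂ + μ₃ = 0 →
      eval μ₁ P * eval μ₂ P * eval μ₃ P = 1) : IsUnit (aeval Y P) ∧ Sim n n (aeval Y P) 1 := by
  classical
  have hi : Set.InjOn (id : F → F) T := Function.injective_id.injOn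
  constructor
  · have h : aeval Y (P * Lagrange.interpolate T id fun μ => (eval μ P)⁻¹) = aeval Y (1 : F[X]) :=
      aeval_congr h0 fun μ hμ => by
        have h := Lagrange.eval_interpolate_at_node (fun μ => (eval μ P)⁻¹) hi hμ
        rw [id] at h
        rw [eval_mul, h, eval_one, mul_inv_cancel₀ (h1 μ hμ)]
    rw [map_mul, map_one] at h
    exact IsUnit.of_mul_eq_one _ h
  intro x y z
  let e : F → Matrix I I A := fun μ => aeval Y (Lagrange.basis T id μ)
  have hs : ∀ v : I → A, v = ∑ μ ∈ T, e μ *ᵥ v := fun v => by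
    rw [← sum_mulVec, ← map_sum, aeval_congr h0 (Q := 1) fun μ hμ => by
      rw [Lagrange.sum_basis hi ⟨μ, hμ⟩], map_one, one_mulVec]
  have he : ∀ (Q : F[X]), ∀ μ ∈ T, ∀ v : I → A,
      aeval Y Q *ᵥ (e μ *ᵥ v) = algebraMap F A (eval μ Q) • e μ *ᵥ v := fun Q μ hμ v => by
    rw [mulVec_mulVec, ← map_mul, aeval_congr h0 (Q := eval μ Q • Lagrange.basis T id μ), map_smul,
      smul_mulVec, algebraMap_smul]
    intro ν hν
    rw [eval_mul, eval_smul, smul_eq_mul]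
    rcases eq_or_ne μ ν with rfl | h
    · rfl
    · rw [show eval ν (Lagrange.basis T id μ) = 0 from
        Lagrange.eval_basis_of_ne (v := id) h hν, mul_zero, mul_zero]
  rw [hs x, hs y, hs z, mulVec_sum, mulVec_sum, mulVec_sum, tri_sum, tri_sum, one_mul]
  refine Finset.sum_congr rfl fun c hc => Finset.sum_congr rfl fun b hb =>
    Finset.sum_congr rfl fun a ha => ?_
  rw [he P a ha, he P b hb, he P c hc, tri_smul₁, tri_smul₂, tri_smul₃, ← mul_assoc, ← mul_assoc,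
    ← map_mul, ← map_mul]
  by_cases h : a + b + c = 0
  · rw [h2 a ha b hb c hc h, map_one, one_mul]
  · have h3 := hY (e a *ᵥ x) (e b *ᵥ y) (e c *ᵥ z)
    have hX := he X
    simp only [aeval_X, eval_X] at hX
    rw [hX a ha, hX b hb, hX c hc, tri_smul₁, tri_smul₂, tri_smul₃, ← add_mul, ← add_mul,
      ← map_add, ← map_add, zero_mul] at h3
    rw [((IsUnit.mk0 _ h).map (algebraMap F A)).mul_right_eq_zero.1 h3, mul_zero]

theorem exists_rat_pt {b : ℚ} {Y : Matrix I I (Cub ℚ)} (hY : Y ∈ LieG b ℚ) {f : ℚ[X]}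
    (hf : f.Separable) (h0 : aeval Y f = 0) {P : ℚ[X]}
    (h1 : ∀ μ ∈ f.rootSet f.SplittingField, aeval μ P ≠ 0)
    (h2 : ∀ μ₁ ∈ f.rootSet f.SplittingField, ∀ μ₂ ∈ f.rootSet f.SplittingField,
      ∀ μ₃ ∈ f.rootSet f.SplittingField, μ₁ + μ₂ + μ₃ = 0 →
        aeval μ₁ P * aeval μ₂ P * aeval μ₃ P = 1) : ∃ g : Gt b ℚ, g.1.1 = aeval Y P := by
  classical
  set F := f.SplittingField
  let j : Cub ℚ →+* Cub F := Cub.map (algebraMap ℚ F)
  have hj : Function.Injective j := Cub.map_injective (algebraMap ℚ F).injective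
  have hm : ∀ Q : ℚ[X], aeval (Y.map j) (Q.map (algebraMap ℚ F)) = (aeval Y Q).map j := fun Q => by
    rw [aeval_map_algebraMap]
    exact aeval_algHom_apply j.toRatAlgHom.mapMatrix Y Q
  have hT : ∀ μ, μ ∈ (f.aroots F).toFinset ↔ μ ∈ f.rootSet F := fun μ => by
    rw [rootSet_def, Finset.mem_coe]
  have h3 : aeval (Y.map j) (∏ μ ∈ (f.aroots F).toFinset, (X - C μ)) = 0 := by
    have hs : (f.map (algebraMap ℚ F)).Splits := SplittingField.splits f
    have hn : (f.aroots F).Nodup := nodup_roots hf.map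
    have e := hm f
    rw [hs.eq_prod_roots, map_mul, aeval_C, h0, Matrix.map_zero _ (map_zero j)] at e
    rw [Finset.prod_eq_multiset_prod, Multiset.toFinset_val, hn.dedup]
    exact ((IsUnit.mk0 _ (leadingCoeff_ne_zero.2 hf.map.ne_zero)).map
      (algebraMap F _)).mul_right_eq_zero.1 e
  have hD := hY.1.map j
  rw [map_zero] at hD
  obtain ⟨hu, hs⟩ := sim_aeval (P := P.map (algebraMap ℚ F)) hD _ h3
    (fun μ hμ => by rw [eval_map_algebraMap]; exact h1 μ ((hT μ).1 hμ))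
    fun a ha b hb c hc h => by
      simp only [eval_map_algebraMap]
      exact h2 a ((hT a).1 ha) b ((hT b).1 hb) c ((hT c).1 hc) h
  rw [hm] at hu hs
  have hu' : IsUnit (aeval Y P) := by
    rw [isUnit_iff_isUnit_det, isUnit_iff_ne_zero]
    intro h
    have : Nontrivial (Cub F) := hj.nontrivial
    have h4 := (isUnit_iff_isUnit_det _).1 hu
    rw [← RingHom.mapMatrix_apply, ← RingHom.map_det, h, map_zero] at h4
    exact not_isUnit_zero h4
  obtain ⟨g, hg⟩ := hu'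
  refine ⟨⟨g, ⟨1, ?_⟩, ?_⟩, hg⟩
  · rw [hg]
    exact Sim.of_map hj (by rwa [Units.val_one, map_one])
  · rw [hg]
    exact aeval_comm hY.2 P

end Pool.Agent.P.MP_3c2f8c_gt.Ex.Op
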