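import Pool.Agent.P.MP_3c2f8c_gt.Ex.Lo.OpSs1

/-! EXO-Ss2: the rational Lie algebra consists of semisimple elements. -/

namespace Pool.Agent.P.MP_3c2f8c_gt.Ex.Op

open Matrix Polynomial

namespace OpSs2Aux

theorem jc {K A : Type} [Field K] [PerfectField K] [Ring A] [Algebra K A] [FiniteDimensional K A]
    (Y : A) : ∃ q f : K[X], f.Separable ∧ aeval (aeval Y q) f = 0 ∧ IsNilpotent (Y - aeval Y q) := by
  obtain ⟨n, -, s, hs, h1, h2, h3⟩ :=
    Module.End.exists_isNilpotent_isSemisimple (f := Algebra.lmul K A Y)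
  rw [Algebra.adjoin_singleton_eq_range_aeval] at hs
  obtain ⟨q, rfl⟩ := hs
  have inj : Function.Injective (Algebra.lmul K A) := Algebra.lmul_injective
  refine ⟨q, _, PerfectField.separable_iff_squarefree.2 h2.minpoly_squarefree, inj ?_,
    (IsNilpotent.map_iff inj).1 ?_⟩
  · rw [← aeval_algHom_apply, ← aeval_algHom_apply, map_zero]
    exact minpoly.aeval _ _
  · rw [map_sub, ← aeval_algHom_apply]
    exact (sub_eq_of_eq_add h3).symm ▸ h1

theorem comp_eq_zero {L W : Type} [Field L] [AddCommGroup W] [Module L W] [FiniteDimensional L W]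
    {s n : Module.End L W} (hs : s.IsSemisimple) (hn : IsNilpotent n) (hc : Commute s n)
    (g : W →ₗ[L] L) (h : ∀ w, g ((s + n) w) = 0) (w : W) : g (n w) = 0 := by
  obtain ⟨a, b, e⟩ : ∃ a b : L[X], X = X * (a * X) + b * minpoly L s := by
    by_cases hX : X ∣ minpoly L s
    · obtain ⟨r, hr⟩ := hX
      obtain ⟨a, b, e⟩ := (IsRelPrime.of_squarefree_mul (hr ▸ hs.minpoly_squarefree)).isCoprime
      exact ⟨a, b, by rw [hr]; linear_combination (-X) * e⟩
    · obtain ⟨a, b, e⟩ := irreducible_X.coprime_iff_not_dvd.2 hX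
      exact ⟨a, X * b, by linear_combination (-X) * e⟩
  have e1 := congrArg (aeval s) e
  simp only [map_add, map_mul, aeval_X, minpoly.aeval, mul_zero, add_zero] at e1
  have m : ∀ x, Commute x s → Commute x (aeval s a) := fun x hx =>
    Algebra.commute_of_mem_adjoin_singleton_of_commute (aeval_mem_adjoin_singleton L s) hx
  have c1 := m _ hc.symm
  have c2 := m _ (Commute.refl s)
  generalize aeval s a = t at e1 c1 c2
  have e2 : s * (1 + n * t) = (s + n) * (t * s) := by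
    rw [mul_add, add_mul, ← e1, mul_one, ← mul_assoc, hc.eq, mul_assoc, c2.eq]
  obtain ⟨v, rfl⟩ := ((Module.End.isUnit_iff _).1 (c1.isNilpotent_mul_right hn).isUnit_one_add).2 w
  have h1 := h ((1 + n * t) v)
  have h2 := h ((t * s) v)
  rw [← Module.End.mul_apply, ← e2, Module.End.mul_apply] at h2
  rwa [LinearMap.add_apply, map_add g, h2, zero_add] at h1

theorem aux {L W : Type} [Field L] [PerfectField L] [AddCommGroup W] [Module L W]
    [FiniteDimensional L W] (f₁ f₂ f₃ : Matrix I I L →ₐ[L] Module.End L W) (g : W →ₗ[L] L)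
    (c₁ : ∀ P Q, Commute (f₁ P) (f₂ Q)) (c₂ : ∀ P Q, Commute (f₁ P) (f₃ Q))
    (c₃ : ∀ P Q, Commute (f₂ P) (f₃ Q)) {S N : Matrix I I L} (hc : Commute S N)
    (hN : IsNilpotent N) {f : L[X]} (hf : f.Separable) (hS : aeval S f = 0)
    (h : ∀ w, g ((f₁ (S + N) + f₂ (S + N) + f₃ (S + N)) w) = 0) (w : W) :
    g ((f₁ N + f₂ N + f₃ N) w) = 0 := by
  have ss : ∀ φ : Matrix I I L →ₐ[L] Module.End L W, (φ S).IsSemisimple := fun φ =>
    Module.End.isSemisimple_of_squarefree_aeval_eq_zero hf.squarefree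
      (by rw [aeval_algHom_apply, hS, map_zero])
  refine comp_eq_zero (s := f₁ S + f₂ S + f₃ S)
    (Module.End.IsSemisimple.add_of_commute ((c₂ S S).add_left (c₃ S S))
      (Module.End.IsSemisimple.add_of_commute (c₁ S S) (ss _) (ss _)) (ss _))
    (((c₂ N N).add_left (c₃ N N)).isNilpotent_add
      ((c₁ N N).isNilpotent_add (hN.map f₁) (hN.map f₂)) (hN.map f₃))
    ((((((hc.map f₁).add_right (c₁ S N)).add_right (c₂ S N)).add_left
      (((c₁ N S).symm.add_right (hc.map f₂)).add_right (c₃ S N))).add_left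
      (((c₂ N S).symm.add_right (c₃ N S).symm).add_right (hc.map f₃)))) g (fun w => ?_) w
  rw [← h w, map_add f₁, map_add f₂, map_add f₃]
  congr 2
  abel

theorem sub_comm {R : Type} [CommRing R] {P X Z : Matrix I I (Cub R)}
    (hX : X * P = P * X.map Cub.sig) (hZ : Z * P = P * Z.map Cub.sig) :
    (X - Z) * P = P * (X - Z).map Cub.sig := by
  rw [Matrix.sub_mul, hX, hZ, Matrix.map_sub _ (map_sub _), Matrix.mul_sub]

end OpSs2Aux

theorem exists_jc (Y : Matrix I I (Cub ℚ)) : ∃ q f : ℚ[X], f.Separable ∧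
    aeval (aeval Y q) f = 0 ∧ IsNilpotent (Y - aeval Y q) := OpSs2Aux.jc Y

theorem der_of_jc {L : Type} [Field L] [CharZero L] {n : T3 L} {S N : Matrix I I L}
    (h : Der n (S + N) 0) (hc : Commute S N) (hN : IsNilpotent N) {f : L[X]} (hf : f.Separable)
    (hS : aeval S f = 0) : Der n N 0 := by
  intro x y z
  let φ : Matrix I I L →ₐ[L] Module.End L (I → L) := Matrix.toLinAlgEquiv'.toAlgHom
  let f₁ : Matrix I I L →ₐ[L]
      Module.End L (TensorProduct L (TensorProduct L (I → L) (I → L)) (I → L)) :=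
    (Module.End.rTensorAlgHom L (TensorProduct L (I → L) (I → L)) (I → L)).comp
    ((Module.End.rTensorAlgHom L (I → L) (I → L)).comp φ)
  let f₂ : Matrix I I L →ₐ[L]
      Module.End L (TensorProduct L (TensorProduct L (I → L) (I → L)) (I → L)) :=
    (Module.End.rTensorAlgHom L (TensorProduct L (I → L) (I → L)) (I → L)).comp
    ((Module.End.lTensorAlgHom L (I → L) (I → L)).comp φ)
  let f₃ : Matrix I I L →ₐ[L]
      Module.End L (TensorProduct L (TensorProduct L (I → L) (I → L)) (I → L)) :=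
    (Module.End.lTensorAlgHom L (I → L) (TensorProduct L (I → L) (I → L))).comp φ
  have a₁ : ∀ P x y z, f₁ P (x ⊗ₜ y ⊗ₜ z) = (P *ᵥ x) ⊗ₜ y ⊗ₜ z := fun _ _ _ _ => rfl
  have a₂ : ∀ P x y z, f₂ P (x ⊗ₜ y ⊗ₜ z) = x ⊗ₜ (P *ᵥ y) ⊗ₜ z := fun _ _ _ _ => rfl
  have a₃ : ∀ P x y z, f₃ P (x ⊗ₜ y ⊗ₜ z) = x ⊗ₜ y ⊗ₜ (P *ᵥ z) := fun _ _ _ _ => rfl
  have k0 : TensorProduct.lift (TensorProduct.lift (triL n)) ∘ₗ
      (f₁ (S + N) + f₂ (S + N) + f₃ (S + N)) = 0 :=
    TensorProduct.ext_threefold fun x y z => by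
      simp only [LinearMap.comp_apply, LinearMap.add_apply, a₁, a₂, a₃,
        map_add (TensorProduct.lift _), TensorProduct.lift.tmul, triL_apply, LinearMap.zero_apply]
      rw [h, zero_mul]
  have c₁ : ∀ P Q, Commute (f₁ P) (f₂ Q) := fun P Q => TensorProduct.ext_threefold fun x y z => by
    simp only [Module.End.mul_apply, a₁, a₂]
  have c₂ : ∀ P Q, Commute (f₁ P) (f₃ Q) := fun P Q => TensorProduct.ext_threefold fun x y z => by
    simp only [Module.End.mul_apply, a₁, a₃]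
  have c₃ : ∀ P Q, Commute (f₂ P) (f₃ Q) := fun P Q => TensorProduct.ext_threefold fun x y z => by
    simp only [Module.End.mul_apply, a₂, a₃]
  have h1 := OpSs2Aux.aux (W := TensorProduct L (TensorProduct L (I → L) (I → L)) (I → L))
    f₁ f₂ f₃ (TensorProduct.lift (TensorProduct.lift (triL n))) c₁ c₂ c₃
    hc hN hf hS (LinearMap.congr_fun k0) (x ⊗ₜ y ⊗ₜ z)
  simp only [LinearMap.add_apply, a₁, a₂, a₃, map_add (TensorProduct.lift _),
    TensorProduct.lift.tmul, triL_apply] at h1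
  rw [h1, zero_mul]

theorem exists_separable {b : ℚ} (hb : Good b) {Y : Matrix I I (Cub ℚ)} (hY : Y ∈ LieG b ℚ) :
    ∃ f : ℚ[X], f.Separable ∧ aeval Y f = 0 := by
  obtain ⟨q, f, hf, h1, h2⟩ := exists_jc Y
  have c : Commute Y (aeval Y q) := Algebra.commute_of_mem_adjoin_singleton_of_commute
    (aeval_mem_adjoin_singleton ℚ Y) (Commute.refl Y)
  have h3 : Y - aeval Y q ∈ LieG b ℚ := by
    refine ⟨der_of_jc (S := aeval Y q) (f := f.map (algebraMap ℚ (Cub ℚ)))
      (by rw [add_sub_cancel]; exact hY.1) (c.symm.sub_right (Commute.refl _)) h2 hf.map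
      (by rw [aeval_map_algebraMap, h1]), ?_⟩
    exact OpSs2Aux.sub_comm hY.2 (aeval_comm hY.2 q)
  exact ⟨f, hf, by rwa [sub_eq_zero.1 (eq_zero_of_nilpotent hb h3 h2)]⟩

end Pool.Agent.P.MP_3c2f8c_gt.Ex.Op
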