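import Pool.Agent.P.MP_3c2f8c_gt.Ex.Lo.OpN
import Pool.Agent.P.MP_3c2f8c_gt.Ex.Lo.OpComm
import Pool.Agent.P.MP_3c2f8c_gt.Ex.Lo.OpGal2
import Pool.Agent.P.MP_3c2f8c_gt.Ex.Lo.OpSs2
import Pool.Agent.P.MP_3c2f8c_gt.Ex.Lo.OpRat
import Pool.Agent.P.MP_3c2f8c_gt.Ex.Lo.OpIrr
import Pool.Agent.P.MP_3c2f8c_gt.Ex.Lo.OpQuad

/-!
The closure of an arithmetic group in a local group is open.
-/

namespace Pool.Agent.P.MP_3c2f8c_gt.Ex

open Matrix Filter Topology Polynomial Op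

namespace OpenAux

variable {b : ℚ} {K : ∀ p : Nat.Primes, Subgroup (UG b ℚ_[p])}

theorem bcM_aeval (k : Type) [Field k] [Algebra ℚ k] (Y : Matrix I I (Cub ℚ)) (P : ℚ[X]) :
    bcM (algebraMap ℚ k) (aeval Y P) = aeval (bcM (algebraMap ℚ k) Y) P :=
  (aeval_algHom_apply (RingHom.mapMatrix (m := I) (Cub.map (algebraMap ℚ k))).toRatAlgHom Y P).symm

theorem tan_mono {p : ℕ} [Fact p.Prime] {Γ Γ' : Subgroup (GL I (Cub ℚ_[p]))} (h : Γ ≤ Γ')
    {X : Matrix I I (Cub ℚ_[p])} (hX : TanA p Γ X) : TanA p Γ' X := by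
  obtain ⟨c, hc, h'⟩ := hX
  exact ⟨c, fun k => h (hc k), h'⟩

theorem tan_lie (hb : Good b) (hK : Level (Kst b) K) (hle : ∀ p, K p ≤ Kst b p)
    (hinf : Infinite (Gam (Phi b) K)) (p : Nat.Primes) {X : Matrix I I (Cub ℚ_[p])}
    (hX : X ∈ LieG b ℚ_[p]) : TanA p ((G1 b K).map (toGL b p)) X := by
  obtain ⟨V, hV⟩ := tanC_submodule ((G1 b K).map (toGL b p))
  have hc : ∀ (g : Gt b ℚ), ∀ X ∈ V, (toGL b p g).1 * X * ((toGL b p g)⁻¹).1 ∈ V := by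
    intro g X hX
    obtain ⟨m, hm, h⟩ := G1_comm hK g
    refine (hV _).2 (tanC_conj ((hV X).1 hX) hm ?_)
    rintro _ ⟨γ, hγ, rfl⟩
    exact ⟨_, h γ hγ, by simp only [map_mul, map_pow, map_inv]⟩
  have hE : V = LieG b ℚ_[p] := by
    refine lie_irred hb.ne V (fun X hX => TanA.mem_lie ?_ ((hV X).1 hX)) ?_ fun Y hY X hX => ?_
    · rintro _ ⟨g, hg, rfl⟩
      refine ⟨(gmap b _ g).2, ?_⟩
      have h1 := hg.1.map (Cub.map (algebraMap ℚ ℚ_[p]))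
      rwa [nJ_map, map_one] at h1
    · obtain ⟨X, hX0, hX⟩ := tanC_ne_zero (Γ := (G1 b K).map (toGL b p))
        (by rintro _ ⟨g, hg, rfl⟩; exact G1_int hle p hg) (G1_infinite hb.ne hle hinf p)
      exact (Submodule.ne_bot_iff V).2 ⟨X, (hV X).2 hX, hX0⟩
    · obtain ⟨f, hf, h0⟩ := exists_separable hb hY
      obtain ⟨M, P, hM, h1, h2, h3⟩ := exists_polys p hf
      choose g hg using fun k => exists_rat_pt hY hf h0 (h1 k) (h2 k)
      have := contSMul (p := p)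
      have h4 := h3 (Matrix I I (Cub ℚ_[p])) (bcM (algebraMap ℚ ℚ_[p]) Y) (by
        rw [← bcM_aeval, h0]
        exact Matrix.map_zero _ (map_zero _))
      have h5 := lieC_mem (h := fun k => toGL b p (g k)) (h4.congr fun k => by
        rw [← bcM_aeval, ← hg k]
        rfl) hX fun k => hc (g k) X hX
      have hM' : (M : ℚ_[p]) ≠ 0 := by exact_mod_cast hM.ne'
      rwa [smul_mul_assoc, mul_smul_comm, ← smul_sub, V.smul_mem_iff hM'] at h5
  exact (hV X).1 (hE ▸ hX)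

theorem tan_one {p : ℕ} [Fact p.Prime] {Γ : Subgroup (GL I (Cub ℚ_[p]))}
    (h : ∀ g ∈ Scal ℚ_[p] (Gt b ℚ_[p]), g.1 ∈ Γ) : TanA p Γ (1 : Matrix I I (Cub ℚ_[p])) := by
  have h0 : ∀ k : ℕ, (1 : ℚ_[p]) + (p : ℚ_[p]) ^ k ≠ 0 := fun k => by
    exact_mod_cast (by omega : 1 + p ^ k ≠ 0)
  choose g hg _ using fun k => Gt.exists_smul (1 : Gt b ℚ_[p]) (Units.mk0 _ (h0 k))
  refine ⟨fun k => (g k).1, fun k => h _ ⟨_, hg k⟩, tendsto_const_nhds.congr fun k => ?_⟩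
  rw [hg k, Units.val_mk0]
  change _ = ((p : ℚ_[p]) ^ k)⁻¹ • ((1 + (p : ℚ_[p]) ^ k) • (1 : Matrix I I (Cub ℚ_[p])) - 1)
  rw [add_smul, one_smul, add_sub_cancel_left, smul_smul, inv_mul_cancel₀ (T1Aux.pk_ne k), one_smul]

theorem push {G : Type} [Group G] [TopologicalSpace G] [IsTopologicalGroup G] {N : Subgroup G}
    [N.Normal] {H : Subgroup (G ⧸ N)}
    (h : IsOpen ((H.comap (QuotientGroup.mk' N)).topologicalClosure : Set G)) :
    IsOpen (H.topologicalClosure : Set (G ⧸ N)) := by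
  refine Subgroup.isOpen_of_mem_nhds _ (g := 1) (mem_of_superset
    ((QuotientGroup.isOpenMap_coe _ h).mem_nhds ⟨1, one_mem _, rfl⟩) ?_)
  refine (image_closure_subset_closure_image QuotientGroup.continuous_mk).trans (closure_mono ?_)
  rintro _ ⟨g, hg, rfl⟩
  exact hg

theorem main (hb : Good b) (hK : Level (Kst b) K) (hle : ∀ p, K p ≤ Kst b p)
    (hinf : Infinite (Gam (Phi b) K)) (p : Nat.Primes) :
    IsOpen (((Gam (Phi b) K).map (cmp (Phi b) p)).topologicalClosure : Set (UG b ℚ_[p])) := by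
  refine push ?_
  obtain ⟨H, hH⟩ : ∃ H, H = ((Gam (Phi b) K).map (cmp (Phi b) p)).comap
    (QuotientGroup.mk' (Scal ℚ_[p] (Gt b ℚ_[p]))) := ⟨_, rfl⟩
  obtain ⟨C, hC⟩ := quad (p := p) hb.ne
  obtain ⟨V, hV⟩ := tanC_submodule (H.map (Gt b ℚ_[p]).subtype)
  have h1 : (1 : Matrix I I (Cub ℚ_[p])) ∈ V := (hV _).2 (tan_one (b := b) fun g hg => ⟨g, by
    rw [hH, SetLike.mem_coe, Subgroup.mem_comap, QuotientGroup.mk'_apply,
      (QuotientGroup.eq_one_iff g).2 hg]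
    exact one_mem _, rfl⟩)
  have h2 : LieG b ℚ_[p] ≤ V := fun X hX => (hV _).2 (tan_mono (by
    rintro _ ⟨g, hg, rfl⟩
    exact ⟨gmap b _ g, hH ▸ ⟨_, hg.2, rfl⟩, rfl⟩) (tan_lie hb hK hle hinf p hX))
  have h3 := open_of_tanC (Subgroup.map_subtype_le H) V (C := C) (fun g hg r h0 h1' hb' => by
    obtain ⟨Z, hZ, t, h⟩ := hC ⟨g, hg⟩ r h0 h1' hb'
    exact ⟨_, V.add_mem (h2 hZ) (V.smul_mem t h1), h⟩) fun X hX => (hV X).1 hX
  rwa [Subgroup.subgroupOf, Subgroup.comap_map_eq_self_of_injective (Subgroup.subtype_injective _),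
    hH] at h3

end OpenAux

theorem isOpen_closure {b : ℚ} (hb : Good b)
    (hinf : ∀ K, Level (Kst b) K → Infinite (Gam (Phi b) K))
    {K : ∀ p : Nat.Primes, Subgroup (UG b ℚ_[p])} (hK : Level (Kst b) K) (p : Nat.Primes) :
    IsOpen (((Gam (Phi b) K).map (cmp (Phi b) p)).topologicalClosure : Set (UG b ℚ_[p])) := by
  refine Subgroup.isOpen_mono (Subgroup.topologicalClosure_mono (Subgroup.map_mono ?_))
    (OpenAux.main hb (level_inf hK) (fun p => inf_le_right) (hinf _ (level_inf hK)) p)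
  exact fun g hg q hq => (hg q hq).1

end Pool.Agent.P.MP_3c2f8c_gt.Ex
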