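import Pool.Agent.P.MP_3c2f8c_gt.Ex.Lo.LDefs

/-! EXL-AB0: gradings of matrix algebras. -/

namespace Pool.Agent.P.MP_3c2f8c_gt.Ex

open Matrix

variable {κ M : Type} [Fintype κ] [DecidableEq κ] [CommRing M] {d : κ → ℤ} {i j : ℤ}
  {X Y : Matrix κ κ M}

theorem Fil.mul (hX : Fil d i X) (hY : Fil d j Y) : Fil d (i + j) (X * Y) := fun a b h => by
  rw [mul_apply]
  refine Finset.sum_eq_zero fun c _ => ?_
  by_cases h1 : d a - d c < i
  · rw [hX a c h1, zero_mul]
  · rw [hY c b (by omega), mul_zero]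

theorem Fil.add (hX : Fil d i X) (hY : Fil d i Y) : Fil d i (X + Y) := fun a b h => by
  rw [Matrix.add_apply, hX a b h, hY a b h, add_zero]

theorem Fil.sub (hX : Fil d i X) (hY : Fil d i Y) : Fil d i (X - Y) := fun a b h => by
  rw [Matrix.sub_apply, hX a b h, hY a b h, sub_zero]

theorem Fil.neg (hX : Fil d i X) : Fil d i (-X) := fun a b h => by
  rw [Matrix.neg_apply, hX a b h, neg_zero]

theorem Fil.smul {S : Type} [SMulZeroClass S M] (c : S) (hX : Fil d i X) : Fil d i (c • X) :=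
  fun a b h => by rw [Matrix.smul_apply, hX a b h, smul_zero]

theorem Fil.mono (hX : Fil d i X) (h : j ≤ i) : Fil d j X := fun a b h' => hX a b (h'.trans_le h)

theorem fil_diagonal (d : κ → ℤ) (v : κ → M) : Fil d 0 (diagonal v) := fun a b h =>
  diagonal_apply_ne _ (by rintro rfl; omega)

theorem fil_one (d : κ → ℤ) : Fil d 0 (1 : Matrix κ κ M) := fil_diagonal d _

theorem Fil.pow (hX : Fil d i X) (m : ℕ) : Fil d (m * i) (X ^ m) := by
  induction m with
  | zero => simpa using fil_one d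
  | succ m ih =>
    rw [pow_succ, Nat.cast_succ, add_mul, one_mul]
    exact ih.mul hX

theorem exists_fil_zero (d : κ → ℤ) : ∃ N : ℕ, ∀ j : ℤ, (N : ℤ) ≤ j → ∀ X : Matrix κ κ M,
    Fil d j X → X = 0 := by
  obtain ⟨B, hB⟩ := (Set.finite_range fun x : κ × κ => d x.1 - d x.2).bddAbove
  refine ⟨(B + 1).toNat, fun j hj X hX => Matrix.ext fun a b => hX a b ?_⟩
  have : d a - d b ≤ B := hB ⟨(a, b), rfl⟩
  omega

theorem Fil.isNilpotent (hX : Fil d 1 X) : IsNilpotent X := by
  obtain ⟨N, hN⟩ := exists_fil_zero (M := M) d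
  exact ⟨N, hN _ (by simp) _ (hX.pow N)⟩

theorem Fil.trace (hX : Fil d 1 X) : X.trace = 0 :=
  Finset.sum_eq_zero fun a _ => hX a a (by simp)

theorem Fil.exp [Algebra ℚ M] (hX : Fil d i X) (hi : 0 < i) :
    Fil d (2 * i) (IsNilpotent.exp X - 1 - X) := by
  obtain ⟨N, hN⟩ := (hX.mono (j := 1) hi).isNilpotent
  rw [IsNilpotent.exp_eq_sum (k := N + 2) (pow_eq_zero_of_le (by omega) hN), Finset.sum_range_succ',
    Finset.sum_range_succ']
  simp only [zero_add, Nat.factorial_one, Nat.factorial_zero, Nat.cast_one, inv_one, pow_one,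
    pow_zero, one_smul, add_sub_cancel_right]
  intro a b h
  rw [Matrix.sum_apply]
  refine Finset.sum_eq_zero fun m _ => ((hX.pow (m + 1 + 1)).mono ?_).smul _ a b h
  push_cast
  nlinarith [Int.natCast_nonneg m]

theorem fil_cmpn (d : κ → ℤ) (j : ℤ) (X : Matrix κ κ M) : Fil d j (cmpn d j X) := fun _ _ h =>
  if_neg h.ne

theorem Fil.sub_cmpn (hX : Fil d j X) : Fil d (j + 1) (X - cmpn d j X) := fun a b h => by
  rw [Matrix.sub_apply, cmpn, of_apply]
  split_ifs with h1
  · exact sub_self _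
  · rw [hX a b (by omega), sub_zero]

theorem Fil.cmpn_eq_zero (hX : Fil d i X) (h : j < i) : cmpn d j X = 0 := by
  ext a b
  rw [cmpn, of_apply, Matrix.zero_apply]
  split_ifs with h1
  · exact hX a b (by omega)
  · rfl

theorem fil_of_cmpn (h : ∀ j, j < i → cmpn d j X = 0) : Fil d i X := fun a b h1 => by
  simpa [cmpn] using congrFun (congrFun (h _ h1) a) b

theorem cmpn_add (d : κ → ℤ) (j : ℤ) (X Y : Matrix κ κ M) :
    cmpn d j (X + Y) = cmpn d j X + cmpn d j Y := by
  ext a b
  simp only [cmpn, of_apply, Matrix.add_apply]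
  split_ifs <;> simp

theorem cmpn_mul (hX : Fil d 0 X) (hY : Fil d 0 Y) :
    cmpn d 0 (X * Y) = cmpn d 0 X * cmpn d 0 Y := by
  ext a b
  simp only [cmpn, of_apply, mul_apply]
  split_ifs with h
  · refine Finset.sum_congr rfl fun c _ => ?_
    rcases lt_trichotomy (d a - d c) 0 with h1 | h1 | h1
    · rw [hX a c h1, ite_self, zero_mul, zero_mul]
    · rw [if_pos h1, if_pos (by omega)]
    · rw [hY c b (by omega), ite_self, mul_zero, mul_zero]
  · refine (Finset.sum_eq_zero fun c _ => ?_).symm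
    by_cases h1 : d a - d c = 0
    · rw [if_neg (c := d c - d b = 0) (by omega), mul_zero]
    · rw [if_neg h1, zero_mul]

theorem cmpn_diagonal (d : κ → ℤ) (v : κ → M) : cmpn d 0 (diagonal v) = diagonal v := by
  ext a b
  rw [cmpn, of_apply]
  split_ifs with h
  · rfl
  · exact (diagonal_apply_ne _ (by rintro rfl; omega)).symm

theorem cmpn_aeval (hX : Fil d 0 X) (q : Polynomial M) :
    cmpn d 0 (Polynomial.aeval X q) = Polynomial.aeval (cmpn d 0 X) q := by
  have h1 : ∀ m : ℕ, cmpn d 0 (X ^ m) = cmpn d 0 X ^ m := fun m => by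
    induction m with
    | zero => exact cmpn_diagonal d _
    | succ m ih => rw [pow_succ, pow_succ, cmpn_mul (by simpa using hX.pow m) hX, ih]
  induction q using Polynomial.induction_on' with
  | add p q hp hq => rw [map_add, map_add, cmpn_add, hp, hq]
  | monomial m c =>
    rw [Polynomial.aeval_monomial, Polynomial.aeval_monomial, ← h1, ← Algebra.smul_def,
      ← Algebra.smul_def]
    ext a b
    simp [cmpn]

theorem trace_cmpn (d : κ → ℤ) (X : Matrix κ κ M) : (cmpn d 0 X).trace = X.trace :=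
  Finset.sum_congr rfl fun _ _ => if_pos (sub_self _)

theorem trace_cmpn_mul (d : κ → ℤ) (j : ℤ) (X Y : Matrix κ κ M) :
    (cmpn d (-j) X * Y).trace = (X * cmpn d j Y).trace := by
  simp only [Matrix.trace, diag_apply, mul_apply, cmpn, of_apply]
  refine Finset.sum_congr rfl fun a _ => Finset.sum_congr rfl fun b _ => ?_
  by_cases h : d a - d b = -j
  · rw [if_pos h, if_pos (by omega)]
  · rw [if_neg h, if_neg (by omega), zero_mul, mul_zero]

theorem dgz_lie (d : κ → ℤ) (X : Matrix κ κ M) (a b : κ) :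
    (dgz M d * X - X * dgz M d) a b = ((d a - d b : ℤ) : M) * X a b := by
  rw [Matrix.sub_apply, dgz, diagonal_mul, mul_diagonal]
  push_cast
  ring

/-- A subspace stable under the bracket with `dgz M d` is graded. -/
theorem cmpn_mem {k : Type} [Field k] [CharZero k] [Algebra k M] {𝔤 : Submodule k (Matrix κ κ M)}
    (h : ∀ X ∈ 𝔤, dgz M d * X - X * dgz M d ∈ 𝔤) (hX : X ∈ 𝔤) (j : ℤ) : cmpn d j X ∈ 𝔤 := by
  have key : ∀ s : Finset ℤ,
      (Matrix.of fun a b => (∏ i ∈ s, ((d a - d b - i : ℤ) : k)) • X a b) ∈ 𝔤 := fun s => by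
    induction s using Finset.induction_on with
    | empty =>
      simp only [Finset.prod_empty, one_smul]
      exact hX
    | insert i s hi ih =>
      refine (congrArg (· ∈ 𝔤) ?_).mp (𝔤.sub_mem (h _ ih) (𝔤.smul_mem (i : k) ih))
      ext a b
      rw [Matrix.sub_apply, dgz_lie, Matrix.smul_apply, of_apply, of_apply, Finset.prod_insert hi, mul_smul,
        ← zsmul_eq_mul, ← Int.cast_smul_eq_zsmul k, ← sub_smul, ← Int.cast_sub]
  have h1 := 𝔤.smul_mem
    (∏ i ∈ (Finset.univ.image fun x : κ × κ => d x.1 - d x.2).erase j, ((j - i : ℤ) : k))⁻¹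
    (key ((Finset.univ.image fun x : κ × κ => d x.1 - d x.2).erase j))
  refine (congrArg (· ∈ 𝔤) ?_).mp h1
  ext a b
  rw [Matrix.smul_apply, of_apply, cmpn, of_apply, smul_smul]
  split_ifs with h2
  · rw [h2, inv_mul_cancel₀, one_smul]
    exact Finset.prod_ne_zero_iff.2 fun i hi =>
      Int.cast_ne_zero.2 (sub_ne_zero.2 (Finset.ne_of_mem_erase hi).symm)
  · rw [Finset.prod_eq_zero (i := d a - d b) (f := fun i => ((d a - d b - i : ℤ) : k))
      (Finset.mem_erase.2 ⟨h2, Finset.mem_image.2 ⟨(a, b), Finset.mem_univ _, rfl⟩⟩) (by simp),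
      mul_zero, zero_smul]

theorem sameV_of_sum_pow {d d' : κ → ℤ} (h : ∀ m : ℕ, ∑ a, d a ^ m = ∑ a, d' a ^ m) :
    SameV d d' := by
  intro j
  have h1 : ∀ q : Polynomial ℤ, ∑ a, q.eval (d a) = ∑ a, q.eval (d' a) := fun q => by
    induction q using Polynomial.induction_on' with
    | add p q hp hq => simp only [Polynomial.eval_add, Finset.sum_add_distrib, hp, hq]
    | monomial m c => simp only [Polynomial.eval_monomial, ← Finset.mul_sum, h m]
  have h2 : ∀ (s : Finset ℤ) (e : κ → ℤ), (∀ a, e a ∈ s) →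
      ∑ a, (∏ i ∈ s.erase j, (Polynomial.X - Polynomial.C i)).eval (e a) =
        (Finset.univ.filter fun a => e a = j).card * ∏ i ∈ s.erase j, (j - i) := fun s e he => by
    rw [← nsmul_eq_mul, ← Finset.sum_const, Finset.sum_filter]
    refine Finset.sum_congr rfl fun a _ => ?_
    simp only [Polynomial.eval_prod, Polynomial.eval_sub, Polynomial.eval_X, Polynomial.eval_C]
    split_ifs with h3
    · rw [h3]
    · exact Finset.prod_eq_zero (Finset.mem_erase.2 ⟨h3, he a⟩) (sub_self _)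
  have h3 := h1 (∏ i ∈ (Finset.univ.image d ∪ Finset.univ.image d').erase j,
    (Polynomial.X - Polynomial.C i))
  rw [h2 _ d (by simp), h2 _ d' (by simp)] at h3
  exact_mod_cast mul_right_cancel₀ (Finset.prod_ne_zero_iff.2 fun i hi =>
    sub_ne_zero.2 (Finset.ne_of_mem_erase hi).symm) h3

end Pool.Agent.P.MP_3c2f8c_gt.Ex
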