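import Pool.Agent.P.MP_3c2f8c_gt.Ex.Lo.AB0

/-! EXL-AB1: two parabolic subalgebras contain a common grading element. -/

namespace Pool.Agent.P.MP_3c2f8c_gt.Ex

open Matrix

variable {κ k M : Type} [Fintype κ] [DecidableEq κ] [Field k] [CharZero k] [Field M] [Algebra k M]
  [FiniteDimensional k M] {𝔤 : Submodule k (Matrix κ κ M)} {d : κ → ℤ}

namespace AB1Aux

/-- Duality for the trace form. -/
theorem dual (hnd : ∀ X ∈ 𝔤, X ≠ 0 → ∃ Y ∈ 𝔤, (X * Y).trace = 1) {τ : M →ₗ[k] k} (hτ : τ 1 = 1)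
    (U : Submodule k (Matrix κ κ M)) {h : Matrix κ κ M} (hh : h ∈ 𝔤)
    (H : ∀ Y ∈ 𝔤, (∀ X ∈ 𝔤, X ∈ U → τ (X * Y).trace = 0) → τ (Y * h).trace = 0) : h ∈ U := by
  let B : LinearMap.BilinForm k 𝔤 := LinearMap.mk₂ k (fun X Y => τ (X.1 * Y.1).trace)
    (fun X X' Y => by simp [add_mul]) (fun c X Y => by simp) (fun X Y Y' => by simp [mul_add])
    fun c X Y => by simp
  have hB : ∀ X Y : 𝔤, B X Y = τ (X.1 * Y.1).trace := fun _ _ => rfl
  have hs : ∀ X Y : 𝔤, B X Y = B Y X := fun X Y => by rw [hB, hB, trace_mul_comm]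
  have hl : ∀ X : 𝔤, (∀ Y, B X Y = 0) → X = 0 := fun X hX => by
    by_contra e
    obtain ⟨Y, hY, e'⟩ := hnd X.1 X.2 fun e' => e (Subtype.ext e')
    have := hX ⟨Y, hY⟩
    rw [hB, e', hτ] at this
    exact one_ne_zero this
  have key := LinearMap.BilinForm.orthogonal_orthogonal (B := B)
    ⟨hl, fun X hX => hl X fun Y => (hs X Y).trans (hX Y)⟩ (fun X Y e => (hs Y X).trans e)
    (U.comap 𝔤.subtype)
  have : (⟨h, hh⟩ : 𝔤) ∈ U.comap 𝔤.subtype := by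
    rw [← key]
    exact fun Y hY => H Y.1 Y.2 fun X hX hU => hY ⟨X, hX⟩ hU
  exact this

omit [FiniteDimensional k M] in
theorem perp (hlie : ∀ X ∈ 𝔤, ∀ Y ∈ 𝔤, X * Y - Y * X ∈ 𝔤)
    (hnd : ∀ X ∈ 𝔤, X ≠ 0 → ∃ Y ∈ 𝔤, (X * Y).trace = 1) (hd : dgz M d ∈ 𝔤) {τ : M →ₗ[k] k}
    (hτ : τ 1 = 1) {Y : Matrix κ κ M} (hY : Y ∈ 𝔤)
    (H : ∀ X ∈ 𝔤, Fil d 1 X → τ (X * Y).trace = 0) : Fil d 0 Y := by
  refine fil_of_cmpn fun j hj => ?_
  by_contra e
  obtain ⟨Z, hZ, e'⟩ := hnd _ (cmpn_mem (hlie _ hd) hY j) e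
  have h1 := trace_cmpn_mul d (-j) Y Z
  rw [neg_neg, e', trace_mul_comm] at h1
  have h2 := H _ (cmpn_mem (hlie _ hd) hZ (-j)) ((fil_cmpn d (-j) Z).mono (by omega))
  rw [← h1, hτ] at h2
  exact one_ne_zero h2

theorem trace_nil {u : Matrix κ κ M} (hu : Fil d 0 u) (hn : IsNilpotent u) :
    (dgz M d * u).trace = 0 := by
  have h1 : IsNilpotent (cmpn d 0 u) := by
    obtain ⟨m, hm⟩ := hn
    have e := cmpn_aeval hu (Polynomial.X ^ m)
    rw [map_pow, map_pow, Polynomial.aeval_X, Polynomial.aeval_X, hm] at e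
    refine ⟨m, e.symm.trans ?_⟩
    ext a b
    simp [cmpn]
  have h2 : Commute (dgz M d) (cmpn d 0 u) := by
    refine sub_eq_zero.1 ?_
    ext a b
    rw [dgz_lie]
    by_cases e : d a - d b = 0 <;> simp [cmpn, e]
  rw [← trace_cmpn d, dgz, cmpn_mul (fil_diagonal d _) hu, cmpn_diagonal]
  exact (isNilpotent_trace_of_isNilpotent (h2.isNilpotent_mul_left h1)).eq_zero

/-- The filtration as subspaces. -/
def Pf (k : Type) [Field k] [Algebra k M] (d : κ → ℤ) (j : ℤ) (g : GL κ M) :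
    Submodule k (Matrix κ κ M) where
  carrier := {X | Fil d j ((g⁻¹).1 * X * g.1)}
  zero_mem' := fun a b _ => by simp
  add_mem' := fun hX hY => by
    have := Fil.add hX hY
    rwa [← add_mul, ← mul_add] at this
  smul_mem' := fun c X hX => by
    have := Fil.smul c hX
    rwa [← smul_mul_assoc, ← mul_smul_comm] at this

theorem mem_one {j : ℤ} {X : Matrix κ κ M} : X ∈ Pf k d j 1 ↔ Fil d j X := by
  change Fil d j (((1 : GL κ M)⁻¹).1 * X * (1 : GL κ M).1) ↔ _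
  rw [inv_one, Units.val_one, one_mul, mul_one]

end AB1Aux

open AB1Aux in
theorem exists_common (hlie : ∀ X ∈ 𝔤, ∀ Y ∈ 𝔤, X * Y - Y * X ∈ 𝔤)
    (hnd : ∀ X ∈ 𝔤, X ≠ 0 → ∃ Y ∈ 𝔤, (X * Y).trace = 1) (hd : dgz M d ∈ 𝔤) {g : GL κ M}
    (hg : ∀ X ∈ 𝔤, g.1 * X * (g⁻¹).1 ∈ 𝔤) (hg' : ∀ X ∈ 𝔤, (g⁻¹).1 * X * g.1 ∈ 𝔤) :
    ∃ x ∈ 𝔤, Fil d 1 (x - dgz M d) ∧ Fil d 0 ((g⁻¹).1 * x * g.1) := by
  obtain ⟨τ, hτ⟩ := Module.Projective.exists_dual_eq_one k (one_ne_zero : (1 : M) ≠ 0)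
  have perp' : ∀ Y ∈ 𝔤, (∀ X ∈ 𝔤, X ∈ Pf k d 1 g → τ (X * Y).trace = 0) → Y ∈ Pf k d 0 g :=
    fun Y hY H => perp hlie hnd hd hτ (hg' Y hY) fun X hX hF => by
      have e : (g⁻¹).1 * (g.1 * X * (g⁻¹).1) * g.1 = X := by
        simp only [mul_assoc, Units.inv_mul, Units.inv_mul_cancel_left, mul_one]
      have := H _ (hg X hX) (show Fil d 1 _ from e.symm ▸ hF)
      rwa [mul_assoc, mul_assoc, trace_mul_comm, mul_assoc X] at this
  have key : dgz M d ∈ (𝔤 ⊓ Pf k d 0 1 ⊓ Pf k d 0 g) ⊔ Pf k d 1 1 := by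
    refine dual hnd hτ _ hd fun Y hY H => ?_
    have h0 : Fil d 0 Y := perp hlie hnd hd hτ hY fun X hX hF =>
      H X hX (Submodule.mem_sup_right (mem_one.2 hF))
    have h1 : Y ∈ Pf k d 1 1 ⊔ Pf k d 1 g := by
      refine dual hnd hτ _ hY fun Z hZ HZ => H Z hZ (Submodule.mem_sup_left ⟨⟨hZ, mem_one.2 ?_⟩, ?_⟩)
      · exact perp hlie hnd hd hτ hZ fun X hX hF => HZ X hX (Submodule.mem_sup_left (mem_one.2 hF))
      · exact perp' Z hZ fun X hX hF => HZ X hX (Submodule.mem_sup_right hF)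
    obtain ⟨u, hu, u', hu', rfl⟩ := Submodule.mem_sup.1 h1
    have hu := mem_one.1 hu
    have h2 : Fil d 0 u' := by
      have := h0.sub (hu.mono zero_le_one)
      rwa [add_sub_cancel_left] at this
    have h3 : IsNilpotent u' := by
      obtain ⟨m, hm⟩ := Fil.isNilpotent hu'
      rw [Units.conj_pow'] at hm
      exact ⟨m, (Units.mul_right_eq_zero g⁻¹).1 ((Units.mul_left_eq_zero g).1 hm)⟩
    have h4 : (dgz M d * u).trace = 0 := by
      have := (fil_diagonal d fun a => (d a : M)).mul hu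
      rw [zero_add] at this
      exact this.trace
    rw [trace_mul_comm, mul_add, trace_add, h4, trace_nil h2 h3, add_zero, map_zero]
  obtain ⟨x, hx, v, hv, e⟩ := Submodule.mem_sup.1 key
  refine ⟨x, hx.1.1, ?_, hx.2⟩
  rw [← e, sub_add_cancel_left]
  exact (mem_one.1 hv).neg

end Pool.Agent.P.MP_3c2f8c_gt.Ex
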