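import Pool.Agent.P.MP_3c2f8c_gt.Ex.Lo.AB0
import Pool.Agent.P.MP_3c2f8c_gt.Ex.Lo.UN1

/-! EXL-AB2: conjugation by unipotent elements. -/

namespace Pool.Agent.P.MP_3c2f8c_gt.Ex

open Matrix

variable {κ k M : Type} [Fintype κ] [DecidableEq κ] [Field k] [CharZero k] [Field M] [Algebra k M]
  [FiniteDimensional k M] {𝔤 : Submodule k (Matrix κ κ M)} {d : κ → ℤ}

omit [FiniteDimensional k M] in
theorem AB2Aux.exists_sol (hlie : ∀ X ∈ 𝔤, ∀ Y ∈ 𝔤, X * Y - Y * X ∈ 𝔤) {d' : κ → ℤ}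
    (hd' : dgz M d' ∈ 𝔤) (hne : ∀ a b, d a ≠ d b → d' a ≠ d' b) {j : ℤ} (hj : j ≠ 0)
    {w : Matrix κ κ M} (hv : cmpn d j w ∈ 𝔤) :
    ∃ z ∈ 𝔤, Fil d j z ∧ dgz M d' * z - z * dgz M d' = -cmpn d j w := by
  have hz : ∀ a b, (∑ i ∈ Finset.univ.image (fun p : κ × κ => d' p.1 - d' p.2),
      (-(i : k)⁻¹) • cmpn d' i (cmpn d j w)) a b =
        (-((d' a - d' b : ℤ) : k)⁻¹) • cmpn d j w a b := by
    intro a b
    rw [Matrix.sum_apply, Finset.sum_eq_single (d' a - d' b)]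
    · simp only [Matrix.smul_apply]
      congr 1
      simp [cmpn]
    · intro i _ hi
      rw [Matrix.smul_apply]
      have : cmpn d' i (cmpn d j w) a b = 0 := if_neg hi.symm
      rw [this, smul_zero]
    · intro hi
      exact absurd (Finset.mem_image_of_mem (fun p : κ × κ => d' p.1 - d' p.2)
        (Finset.mem_univ (a, b))) hi
  refine ⟨∑ i ∈ Finset.univ.image (fun p : κ × κ => d' p.1 - d' p.2),
    (-(i : k)⁻¹) • cmpn d' i (cmpn d j w), Submodule.sum_mem _ fun i _ => Submodule.smul_mem _ _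
      (cmpn_mem (fun X hX => hlie _ hd' X hX) hv i), fun a b hab => ?_, ?_⟩
  · rw [hz, fil_cmpn d j w a b hab, smul_zero]
  · ext a b
    rw [dgz_lie, hz, Matrix.neg_apply]
    by_cases hab : d' a = d' b
    · have h1 : d a = d b := by
        by_contra h1
        exact hne a b h1 hab
      have h2 : cmpn d j w a b = 0 := if_neg (by omega)
      simp [h2]
    · have h1 : ((d' a - d' b : ℤ) : k) ≠ 0 := Int.cast_ne_zero.2 (sub_ne_zero.2 hab)
      rw [← map_intCast (algebraMap k M), ← Algebra.smul_def, smul_smul, mul_neg,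
        mul_inv_cancel₀ h1, neg_smul, one_smul]

theorem exists_unip [Algebra ℚ M] (hlie : ∀ X ∈ 𝔤, ∀ Y ∈ 𝔤, X * Y - Y * X ∈ 𝔤) (hd : dgz M d ∈ 𝔤)
    (hN : ∀ u ∈ UN (𝔤 : Set (Matrix κ κ M)), ∀ X ∈ 𝔤, u.1 * X * (u⁻¹).1 ∈ 𝔤) {d' : κ → ℤ}
    (hd' : dgz M d' ∈ 𝔤) (hne : ∀ a b, d a ≠ d b → d' a ≠ d' b) {x : Matrix κ κ M} (hx : x ∈ 𝔤)
    (h : Fil d 1 (x - dgz M d')) :
    ∃ u ∈ UN (𝔤 : Set (Matrix κ κ M)), u.1 * dgz M d' = x * u.1 := by
  have key : ∀ j : ℕ, ∃ u ∈ UN (𝔤 : Set (Matrix κ κ M)),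
      Fil d (j + 1) ((u⁻¹).1 * x * u.1 - dgz M d') := by
    intro j
    induction j with
    | zero => exact ⟨1, one_mem _, by simpa using h⟩
    | succ j ih =>
      obtain ⟨u, hu, hw⟩ := ih
      have hy : (u⁻¹).1 * x * u.1 ∈ 𝔤 := by simpa using hN u⁻¹ (inv_mem hu) x hx
      have e : ∀ e : GL κ M, ((u * e)⁻¹).1 * x * (u * e).1 =
          (e⁻¹).1 * ((u⁻¹).1 * x * u.1) * e.1 := fun e => by
        simp only [_root_.mul_inv_rev, Units.val_mul, mul_assoc]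
      simp only [Nat.cast_succ]
      generalize (u⁻¹).1 * x * u.1 = y at hw hy e
      have hj : (0 : ℤ) < j + 1 := by omega
      generalize (j : ℤ) + 1 = i at hw hj
      obtain ⟨z, hz, hzf, hzv⟩ := AB2Aux.exists_sol hlie hd' hne hj.ne'
        (cmpn_mem (fun X hX => hlie _ hd X hX) (sub_mem hy hd') i)
      have hn : IsNilpotent z := (hzf.mono (by omega)).isNilpotent
      obtain ⟨g, hg, hg'⟩ := exists_exp hn
      refine ⟨u * g, mul_mem hu (mem_UN hz hn hg), ?_⟩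
      rw [e]
      have hA := hzf.exp hj
      have hB := hzf.neg.exp hj
      rw [← hg] at hA
      rw [← hg'] at hB
      have h0 : Fil d 0 (g⁻¹).1 := by
        have := ((hB.mono (j := 0) (by omega)).add (hzf.neg.mono hj.le)).add (fil_one d)
        simpa using this
      have hh : Fil d 0 (dgz M d') := fil_diagonal d _
      have h1 : (g⁻¹).1 * y * g.1 - dgz M d' = (g⁻¹).1 *
          ((y - dgz M d' - cmpn d i (y - dgz M d')) + dgz M d' * (g.1 - 1 - z) -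
            (g.1 - 1 - z) * dgz M d' + (y - dgz M d') * (z + (g.1 - 1 - z))) := by
        have h2 : dgz M d' = (g⁻¹).1 * (g.1 * dgz M d') := by
          rw [← mul_assoc, Units.inv_mul, one_mul]
        conv_lhs => rw [h2]
        rw [mul_assoc, ← mul_sub, ← neg_eq_iff_eq_neg.2 hzv]
        congr 1
        noncomm_ring
      rw [h1, ← zero_add (i + 1)]
      refine h0.mul (((hw.sub_cmpn.add ?_).sub ?_).add ?_)
      · exact (hh.mul hA).mono (by omega)
      · exact (hA.mul hh).mono (by omega)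
      · exact (hw.mul (hzf.add (hA.mono (by omega)))).mono (by omega)
  obtain ⟨N, hN0⟩ := exists_fil_zero (M := M) d
  obtain ⟨u, hu, hw⟩ := key N
  refine ⟨u, hu, ?_⟩
  rw [← sub_eq_zero.1 (hN0 _ (by omega) _ hw), ← mul_assoc, ← mul_assoc, Units.mul_inv, one_mul]

end Pool.Agent.P.MP_3c2f8c_gt.Ex
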