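import Pool.Agent.P.MP_3c2f8c_gt.Ex.Lo.AB1
import Pool.Agent.P.MP_3c2f8c_gt.Ex.Lo.AB2

/-! EXL-AB3: an abstract Bruhat decomposition. -/

namespace Pool.Agent.P.MP_3c2f8c_gt.Ex

open Matrix Polynomial

variable {κ k M : Type} [Fintype κ] [DecidableEq κ] [Field k] [CharZero k] [Field M] [Algebra k M]
  [FiniteDimensional k M] {𝔤 : Submodule k (Matrix κ κ M)} {d : κ → ℤ}

theorem AB3Aux.aeval_conj (u : GL κ M) (h : Matrix κ κ M) (q : M[X]) :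
    aeval (u.1 * h * (u⁻¹).1) q = u.1 * aeval h q * (u⁻¹).1 := by
  induction q using Polynomial.induction_on' with
  | add p q hp hq => rw [map_add, map_add, hp, hq, mul_add, add_mul]
  | monomial n c =>
    rw [aeval_monomial, aeval_monomial, Units.conj_pow, ← Algebra.smul_def, ← Algebra.smul_def,
      mul_smul_comm, smul_mul_assoc]

theorem AB3Aux.trace_pow (d : κ → ℤ) (m : ℕ) :
    (aeval (dgz M d) (X ^ m : M[X])).trace = ((∑ a, d a ^ m : ℤ) : M) := by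
  rw [aeval_X_pow, dgz, diagonal_pow, trace_diagonal]
  simp

theorem ab_main [Algebra ℚ M] (hlie : ∀ X ∈ 𝔤, ∀ Y ∈ 𝔤, X * Y - Y * X ∈ 𝔤)
    (hnd : ∀ X ∈ 𝔤, X ≠ 0 → ∃ Y ∈ 𝔤, (X * Y).trace = 1) (hd : dgz M d ∈ 𝔤)
    (hN : ∀ u ∈ UN (𝔤 : Set (Matrix κ κ M)), ∀ X ∈ 𝔤, u.1 * X * (u⁻¹).1 ∈ 𝔤)
    (Q : (κ → ℤ) → Prop)
    (h0 : ∀ y ∈ 𝔤, (∀ a b, d a ≠ d b → y a b = 0) →
      aeval y (∏ a, (X - C (d a : M))) = 0 → ∃ d', Q d' ∧ y = dgz M d')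
    (h1 : ∀ d', Q d' → SameV d d' → ∀ a b, d a ≠ d b → d' a ≠ d' b) {g : GL κ M}
    (hg : ∀ X ∈ 𝔤, g.1 * X * (g⁻¹).1 ∈ 𝔤) (hg' : ∀ X ∈ 𝔤, (g⁻¹).1 * X * g.1 ∈ 𝔤) :
    ∃ u ∈ UN (𝔤 : Set (Matrix κ κ M)), ∃ u' ∈ UN (𝔤 : Set (Matrix κ κ M)), ∃ d', Q d' ∧
      SameV d d' ∧ ∀ a b, (u * g * u').1 a b ≠ 0 → d a = d' b := by
  have : CharZero M := charZero_of_injective_algebraMap (algebraMap k M).injective
  obtain ⟨x, hx, f1, f0⟩ := exists_common hlie hnd hd hg hg'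
  obtain ⟨u₁, hu₁, e₁⟩ := exists_unip hlie hd hN hd (fun _ _ h => h) hx f1
  have hy := hg' x hx
  have ey : (g⁻¹).1 * x * g.1 = (g⁻¹ * u₁).1 * dgz M d * ((g⁻¹ * u₁)⁻¹).1 := by
    rw [Units.val_mul, _root_.mul_inv_rev, inv_inv, Units.val_mul, mul_assoc _ u₁.1, e₁]
    simp only [mul_assoc, Units.mul_inv_cancel_left]
  generalize (g⁻¹).1 * x * g.1 = y at f0 hy ey
  have hy₀ := cmpn_mem (fun X hX => hlie _ hd X hX) hy 0
  obtain ⟨d', hQ, e⟩ := h0 _ hy₀ (fun a b h => by simp [cmpn, sub_eq_zero, h]) (by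
    rw [← cmpn_aeval f0, ey, AB3Aux.aeval_conj, dgz, ← charpoly_diagonal, aeval_self_charpoly,
      mul_zero, zero_mul]
    ext a b
    simp [cmpn])
  have hS : SameV d d' := sameV_of_sum_pow fun m => by
    apply Int.cast_injective (α := M)
    rw [← AB3Aux.trace_pow, ← AB3Aux.trace_pow, ← e, ← cmpn_aeval f0, trace_cmpn, ey,
      AB3Aux.aeval_conj, trace_units_conj]
  obtain ⟨u₂, hu₂, e₂⟩ := exists_unip hlie hd hN (e ▸ hy₀) (h1 d' hQ hS) hy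
    (by simpa only [zero_add, e] using f0.sub_cmpn)
  refine ⟨u₁⁻¹, inv_mem hu₁, u₂, hu₂, d', hQ, hS, fun a b hab => ?_⟩
  have e₃ : (u₁⁻¹ * g * u₂).1 * dgz M d' = dgz M d * (u₁⁻¹ * g * u₂).1 := by
    have e₄ : u₁⁻¹ * g = (g⁻¹ * u₁)⁻¹ := by rw [_root_.mul_inv_rev, inv_inv]
    rw [e₄, Units.val_mul, mul_assoc, e₂, ey]
    simp only [mul_assoc, Units.inv_mul_cancel_left]
  have e₅ := congrFun (congrFun e₃ a) b
  rw [dgz, dgz, mul_diagonal, diagonal_mul, mul_comm] at e₅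
  exact (Int.cast_injective (mul_right_cancel₀ hab e₅)).symm

end Pool.Agent.P.MP_3c2f8c_gt.Ex
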