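import Pool.Agent.P.MP_3c2f8c_gt.Ex.Lo.Nd
import Pool.Agent.P.MP_3c2f8c_gt.Ex.Al.Tw

/-! EXL-Av: averaging over the twisted Galois action. -/

namespace Pool.Agent.P.MP_3c2f8c_gt.Ex

open Matrix

section General

variable {k A : Type} [CommRing k] [CommRing A] [Algebra k A] {n : T3 A} {φ : GL I A}
  {σ : A ≃ₐ[k] A} {X Y : Matrix I I A}

theorem tw_add (X Y : Matrix I I A) : tw φ σ (X + Y) = tw φ σ X + tw φ σ Y := by
  rw [tw, tw, tw, Matrix.map_add _ (map_add σ), Matrix.mul_add, Matrix.add_mul]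

theorem tw_mul (X Y : Matrix I I A) : tw φ σ (X * Y) = tw φ σ X * tw φ σ Y := by
  rw [tw, tw, tw, Matrix.map_mul]
  simp only [Matrix.mul_assoc, Units.inv_mul_cancel_left]

theorem tw_smul (c : A) (X : Matrix I I A) : tw φ σ (c • X) = σ c • tw φ σ X := by
  have h : (c • X).map σ = σ c • X.map σ := by
    ext a b
    simp
  rw [tw, tw, h, Matrix.mul_smul, Matrix.smul_mul]

theorem tw_trace (X : Matrix I I A) : (tw φ σ X).trace = σ X.trace := by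
  rw [tw, Matrix.trace_mul_cycle, Units.inv_mul, Matrix.one_mul]
  simp [Matrix.trace]

theorem tw_eq_iff : tw φ σ X = X ↔ X * φ.1 = φ.1 * X.map σ := by
  rw [tw, Units.mul_inv_eq_iff_eq_mul, eq_comm]

theorem TwD.tw_three (H : TwD n φ σ) (X : Matrix I I A) : tw φ σ (tw φ σ (tw φ σ X)) = X := by
  have h1 : (φ⁻¹).1.map σ = (φ⁻¹).1 := by
    have : φ.1 * (φ⁻¹).1.map σ = 1 := by
      conv_lhs => rw [← H.fix']
      rw [← Matrix.map_mul, Units.mul_inv]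
      simp
    exact (Units.inv_eq_of_mul_eq_one_right this).symm
  have h2 : ((X.map σ).map σ).map σ = X := by
    ext a b
    exact H.ord _
  obtain ⟨β, hβ⟩ := H.cube
  have h3 : φ.1 * (φ.1 * (φ.1 * X)) = X * (φ.1 * (φ.1 * φ.1)) := by
    rw [← Matrix.mul_assoc, ← Matrix.mul_assoc, ← Matrix.mul_assoc φ.1 φ.1 φ.1, hβ,
      Matrix.smul_mul, Matrix.mul_smul, Matrix.one_mul, Matrix.mul_one]
  simp only [tw, Matrix.map_mul, H.fix', h1, h2]
  rw [← Matrix.mul_assoc, ← Matrix.mul_assoc, ← Matrix.mul_assoc, ← Matrix.mul_assoc,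
    Matrix.mul_assoc (φ.1 * φ.1), Matrix.mul_assoc φ.1 φ.1, h3]
  simp only [Matrix.mul_assoc, Units.mul_inv_cancel_left, Units.mul_inv, Matrix.mul_one]

theorem TwD.tw_mem (H : TwD n φ σ) (hX : X ∈ D0 n) : tw φ σ X ∈ D0 n := by
  obtain ⟨ν, hν⟩ := H.str
  have h := Der.map hX (σ : A →+* A)
  rw [map_zero, show n.map (σ : A →+* A) = n from H.fix] at h
  exact hν.conj_der h

theorem TwD.av_mem (H : TwD n φ σ) (hX : X ∈ D0 n) : av φ σ X ∈ Lt n φ.1 σ := by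
  refine ⟨add_mem (add_mem hX (H.tw_mem hX)) (H.tw_mem (H.tw_mem hX)), tw_eq_iff.1 ?_⟩
  rw [av, tw_add, tw_add, H.tw_three]
  abel

theorem av_add (X Y : Matrix I I A) : av φ σ (X + Y) = av φ σ X + av φ σ Y := by
  simp only [av, tw_add]
  abel

theorem av_zero : av φ σ (0 : Matrix I I A) = 0 := by
  simp [av, tw]

theorem av_smul (hX : X ∈ Lt n φ.1 σ) (c : A) :
    av φ σ (c • X) = (c + σ c + σ (σ c)) • X := by
  have h := tw_eq_iff.2 hX.2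
  rw [av, tw_smul, tw_smul, h, h, add_smul, add_smul]

theorem AvAux.unit {b : A} (hφ : φ.1 = phi b) : IsUnit (b ^ 2) := by
  have h : (φ.1 * φ.1 * φ.1) * ((φ * φ * φ)⁻¹).1 = 1 := (φ * φ * φ).mul_inv
  rw [hφ, phi_cube, Matrix.smul_mul, Matrix.one_mul] at h
  have h1 := congrFun (congrFun h (.inl 0)) (.inl 0)
  rw [Matrix.smul_apply, Matrix.one_apply_eq, smul_eq_mul] at h1
  exact IsUnit.of_mul_eq_one _ h1

theorem AvAux.fix {b : A} (hφ : φ.1 = phi b) (hb : σ b = b) : φ.1.map σ = φ.1 := by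
  rw [hφ]
  exact (phi_map (σ : A →+* A) b).trans (congrArg phi hb)

theorem twD_nZ {b : A} (hφ : φ.1 = phi b) (hb : σ b = b) (h3 : ∀ x, σ (σ (σ x)) = x) :
    TwD (nZ A) φ σ :=
  ⟨nZ_map (σ : A →+* A), h3, AvAux.fix hφ hb, ⟨(AvAux.unit hφ).unit, hφ ▸ sim_phi' b⟩,
    b ^ 2, hφ ▸ phi_cube b⟩

theorem twD_nJ {b : A} (hφ : φ.1 = phi b) (hb : σ b = b) (h3 : ∀ x, σ (σ (σ x)) = x) :
    TwD (nJ A) φ σ :=
  ⟨nJ_map (σ : A →+* A), h3, AvAux.fix hφ hb, ⟨(AvAux.unit hφ).unit, hφ ▸ sim_phi b⟩,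
    b ^ 2, hφ ▸ phi_cube b⟩

end General

theorem TwD.nondeg {k K : Type} [CommRing k] [Field K] [Algebra k K] [Algebra ℚ K] {φ : GL I K}
    {σ : K ≃ₐ[k] K} (H : TwD (nZ K) φ σ) {X : Matrix I I K} (hX : X ∈ Lt (nZ K) φ.1 σ)
    (h0 : X ≠ 0) : ∃ Y ∈ Lt (nZ K) φ.1 σ, (X * Y).trace = 1 := by
  have : CharZero K := algebraRat.charZero K
  obtain ⟨Y, hY, h⟩ := D0_nondeg (X := X) hX.1 h0
  have hx := tw_eq_iff.2 hX.2
  have key : ∀ Z, (X * tw φ σ Z).trace = σ (X * Z).trace := fun Z => by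
    rw [← tw_trace (φ := φ), tw_mul, hx]
  have h3 : (X * (3 : K)⁻¹ • Y).trace = (3 : K)⁻¹ := by
    rw [Matrix.mul_smul, Matrix.trace_smul, h, smul_eq_mul, mul_one]
  refine ⟨_, H.av_mem ((D0 _).smul_mem (3 : K)⁻¹ hY), ?_⟩
  rw [av, Matrix.mul_add, Matrix.mul_add, Matrix.trace_add, Matrix.trace_add, key, key, key, h3]
  simp only [map_inv₀, map_ofNat]
  norm_num

section Cub

variable {R : Type} [CommRing R] [Algebra ℚ R]

theorem exists_eq_sum_av : ∃ c c' : Fin 3 → Cub R, ∀ (φ : GL I (Cub R)) (X : Matrix I I (Cub R)),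
    X = ∑ j, c' j • av φ (sigA R) (c j • X) := by
  have h7 : algebraMap ℚ R (1 / 7) * 7 = 1 := by
    rw [← map_ofNat (algebraMap ℚ R) 7, ← map_mul]
    norm_num
  generalize algebraMap ℚ R (1 / 7) = u at h7
  let c : Fin 3 → Cub R := ![⟨1, 0, 0⟩, ⟨0, 1, 0⟩, ⟨0, 0, 1⟩]
  let c' : Fin 3 → Cub R := ![⟨7 * u, -u, -3 * u⟩, ⟨-u, 2 * u, u⟩, ⟨-3 * u, u, 2 * u⟩]
  have h0 : ∑ j, c' j * c j = 1 := by
    ext <;> simp [c, c', Fin.sum_univ_three]
    · linear_combination h7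
    all_goals ring
  have h1 : ∑ j, c' j * sigA R (c j) = 0 := by
    ext <;> simp [c, c', Fin.sum_univ_three, sigA_apply] <;> ring
  have h2 : ∑ j, c' j * sigA R (sigA R (c j)) = 0 := by
    ext <;> simp [c, c', Fin.sum_univ_three, sigA_apply] <;> ring
  refine ⟨c, c', fun φ X => ?_⟩
  simp only [av, tw_smul, smul_add, smul_smul, Finset.sum_add_distrib, ← Finset.sum_smul, h0, h1,
    h2, one_smul, zero_smul, add_zero]

theorem exists_trace_ne {c : Cub R} (hc : c ≠ 0) : ∃ (y : Cub R) (t : R), t ≠ 0 ∧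
    c * y + Cub.sig (c * y) + Cub.sig (Cub.sig (c * y)) = Cub.C t := by
  have h7 : algebraMap ℚ R (1 / 7) * 7 = 1 := by
    rw [← map_ofNat (algebraMap ℚ R) 7, ← map_mul]
    norm_num
  have key : ∀ x : R, x ≠ 0 → 7 * x ≠ 0 := fun x hx h => hx (by
    rw [← one_mul x, ← h7, mul_assoc, h, mul_zero])
  by_cases h0 : c.c0 = 0
  · by_cases h1 : c.c1 = 0
    · refine ⟨⟨-3, 1, 2⟩, 7 * c.c2, key _ fun h2 => hc (Cub.ext h0 h1 h2), ?_⟩
      ext <;> simp <;> ring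
    · refine ⟨⟨-1, 2, 1⟩, 7 * c.c1, key _ h1, ?_⟩
      ext <;> simp <;> ring
  · refine ⟨⟨7, -1, -3⟩, 7 * c.c0, key _ h0, ?_⟩
    ext <;> simp <;> ring

theorem exists_trace_eq (c : Cub R) :
    ∃ t : R, c + Cub.sig c + Cub.sig (Cub.sig c) = Cub.C t :=
  ⟨3 * c.c0 - c.c1 + 5 * c.c2, by ext <;> simp <;> ring⟩

end Cub

end Pool.Agent.P.MP_3c2f8c_gt.Ex
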