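import Pool.Agent.P.MP_3c2f8c_gt.Ex.Lo.Mod

/-! EXL-Dv1: the norm of the cyclic division algebra. -/

namespace Pool.Agent.P.MP_3c2f8c_gt.Ex

open Matrix Polynomial

variable {p : ℕ} [Fact p.Prime] {M : Type} [NormedField M] [NormedAlgebra ℚ_[p] M]
  [IsUltrametricDist M] {σ : M ≃ₐ[ℚ_[p]] M} {b : M} {k : ℤ}

namespace Dv1Aux

theorem sh_iB : ∀ (B : Bk) (j : Fin 3), sh (iB B j) = iB B (j + 1) := by decide +kernel

theorem iB_eq : ∀ (B : Bk) (j : Fin 3), ∃ u, iB B j = .inr (j, u) := by decide +kernel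

theorem mul_cca {A : Type} [CommRing A] (b : A) (X : Matrix (Fin 3) (Fin 3) A) (i j : Fin 3) :
    (X * cca b) i j = X i (j + 1) * ![b, b, 1] j := by
  fin_cases j <;> simp [Matrix.mul_apply, Fin.sum_univ_three, cca]

theorem cca_mul {A : Type} [CommRing A] (b : A) (X : Matrix (Fin 3) (Fin 3) A) (i j : Fin 3) :
    (cca b * X) (i + 1) j = ![b, b, 1] i * X i j := by
  fin_cases i <;> simp [Matrix.mul_apply, Fin.sum_univ_three, cca]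

theorem ultra1 {t₁ t₂ t₃ u : M} (h2 : ‖t₂‖ ≤ ‖t₁‖) (h3 : ‖t₃‖ ≤ ‖t₁‖)
    (n2 : ‖t₁‖ = ‖t₂‖ → ‖t₁‖ = 0) (n3 : ‖t₁‖ = ‖t₃‖ → ‖t₁‖ = 0)
    (hu : ‖u‖ ^ 3 ≤ ‖t₁‖ * ‖t₂‖ * ‖t₃‖) : ‖t₁‖ ≤ ‖t₁ + t₂ + t₃ + u‖ := by
  rcases (norm_nonneg t₁).eq_or_lt with h0 | h0
  · rw [← h0]
    exact norm_nonneg _
  have l2 : ‖t₂‖ < ‖t₁‖ := lt_of_le_of_ne h2 fun h => h0.ne' (n2 h.symm)
  have l3 : ‖t₃‖ < ‖t₁‖ := lt_of_le_of_ne h3 fun h => h0.ne' (n3 h.symm)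
  have lu : ‖u‖ < ‖t₁‖ := by
    refine lt_of_pow_lt_pow_left₀ 3 h0.le (hu.trans_lt ?_)
    rw [pow_succ, pow_two]
    exact mul_lt_mul_of_le_of_lt_of_nonneg_of_pos (mul_le_mul_of_nonneg_left h2 h0.le) l3
      (norm_nonneg _) (mul_pos h0 h0)
  have l4 : ‖-(t₂ + t₃ + u)‖ < ‖t₁‖ := by
    rw [norm_neg]
    exact (IsUltrametricDist.norm_add_le_max _ _).trans_lt
      (max_lt ((IsUltrametricDist.norm_add_le_max _ _).trans_lt (max_lt l2 l3)) lu)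
  have l5 := IsUltrametricDist.norm_add_le_max (t₁ + t₂ + t₃ + u) (-(t₂ + t₃ + u))
  rw [show t₁ + t₂ + t₃ + u + -(t₂ + t₃ + u) = t₁ by ring, le_max_iff] at l5
  exact l5.resolve_right (not_le.2 l4)

theorem ultra3 {t₁ t₂ t₃ u : M} (n12 : ‖t₁‖ = ‖t₂‖ → ‖t₁‖ = 0) (n13 : ‖t₁‖ = ‖t₃‖ → ‖t₁‖ = 0)
    (n23 : ‖t₂‖ = ‖t₃‖ → ‖t₂‖ = 0) (hu : ‖u‖ ^ 3 ≤ ‖t₁‖ * ‖t₂‖ * ‖t₃‖) :
    ‖t₁‖ ≤ ‖t₁ + t₂ + t₃ + u‖ ∧ ‖t₂‖ ≤ ‖t₁ + t₂ + t₃ + u‖ ∧ ‖t₃‖ ≤ ‖t₁ + t₂ + t₃ + u‖ := by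
  have k1 := fun h2 h3 => ultra1 h2 h3 n12 n13 hu
  have k2 := fun h2 h3 => ultra1 (t₁ := t₂) (t₂ := t₁) (t₃ := t₃) (u := u) h2 h3
    (fun h => h.trans (n12 h.symm)) n23 (by rwa [mul_comm ‖t₂‖])
  have k3 := fun h2 h3 => ultra1 (t₁ := t₃) (t₂ := t₁) (t₃ := t₂) (u := u) h2 h3
    (fun h => h.trans (n13 h.symm)) (fun h => h.trans (n23 h.symm))
    (by rwa [mul_assoc, mul_comm ‖t₃‖])
  rw [add_comm t₂ t₁] at k2
  rw [show t₃ + t₁ + t₂ = t₁ + t₂ + t₃ by ring] at k3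
  rcases le_total ‖t₁‖ ‖t₂‖ with a | a <;> rcases le_total ‖t₁‖ ‖t₃‖ with c | c <;>
    rcases le_total ‖t₂‖ ‖t₃‖ with d | d
  all_goals first
    | (have := k1 (by linarith) (by linarith); refine ⟨?_, ?_, ?_⟩ <;> linarith)
    | (have := k2 (by linarith) (by linarith); refine ⟨?_, ?_, ?_⟩ <;> linarith)
    | (have := k3 (by linarith) (by linarith); refine ⟨?_, ?_, ?_⟩ <;> linarith)

omit [IsUltrametricDist M] in
theorem dist3 (H : DivF p σ b k) {e : ℤ} (he : ¬ (3 : ℤ) ∣ e) {x y : M}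
    (h : ‖x‖ ^ 3 = (p : ℝ) ^ e * ‖y‖ ^ 3) : ‖x‖ = 0 := by
  have hp : (1 : ℝ) < p := by exact_mod_cast (Fact.out : p.Prime).one_lt
  by_contra hx
  have hy : y ≠ 0 := by
    rintro rfl
    exact hx (by simpa using h)
  obtain ⟨m, hm⟩ := H.val x (norm_ne_zero_iff.1 hx)
  obtain ⟨n, hn⟩ := H.val y hy
  rw [hm, hn, ← zpow_natCast, ← zpow_natCast, ← _root_.zpow_mul, ← _root_.zpow_mul,
    ← zpow_add₀ (by positivity)] at h
  have := zpow_right_injective₀ (by positivity) hp.ne' h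
  push_cast at this
  omega

end Dv1Aux

open Dv1Aux in
theorem sub_comm {k' A : Type} [CommRing k'] [CommRing A] [Algebra k' A] {σ : A ≃ₐ[k'] A} {b : A}
    {m : Matrix I I A} (hm : m * phi b = phi b * m.map σ) (B' B : Bk) :
    sub m B' B * cca b = cca b * (sub m B' B).map σ := by
  ext i j
  obtain ⟨i, rfl⟩ : ∃ i', i = i' + 1 := ⟨i - 1, (sub_add_cancel i 1).symm⟩
  have h := congrFun (congrFun hm (iB B' (i + 1))) (iB B j)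
  rw [← sh_iB B' i] at h
  simp only [Matrix.mul_apply, phi, of_apply, J1Aux.sh_inj, mul_ite, mul_zero, ite_mul, zero_mul,
    Finset.sum_ite_eq, Finset.sum_ite_eq', Finset.mem_univ, if_true] at h
  have e : ∀ (B : Bk) (j : Fin 3), phc b (iB B j) = ![b, b, 1] j := fun B j => by
    obtain ⟨u, hu⟩ := iB_eq B j
    rw [hu]
    rfl
  rw [e, e, sh_iB, sh_iB] at h
  rw [mul_cca, cca_mul]
  exact h

theorem DivF.ne_zero (H : DivF p σ b k) : b ≠ 0 := by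
  have hp : (0 : ℝ) < p := by exact_mod_cast (Fact.out : p.Prime).pos
  rw [← norm_ne_zero_iff, H.nb]
  positivity

theorem DivF.norm_le (H : DivF p σ b k) {A : Matrix (Fin 3) (Fin 3) M}
    (hA : A * cca b = cca b * A.map σ) (i j : Fin 3) :
    ‖A i j‖ ^ 3 ≤ ‖A.det‖ * (p : ℝ) ^ (k * ((i : ℤ) - (j : ℤ))) := by
  have hp : (0 : ℝ) < p := by exact_mod_cast (Fact.out : p.Prime).pos
  have hb : 0 < ‖b‖ := norm_pos_iff.2 H.ne_zero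
  have r : ∀ i j, ‖A (i + 1) (j + 1)‖ * ‖![b, b, 1] j‖ = ‖![b, b, 1] i‖ * ‖A i j‖ := fun i j => by
    have h := congrFun (congrFun hA (i + 1)) j
    rw [Dv1Aux.mul_cca, Dv1Aux.cca_mul] at h
    rw [← norm_mul, h, norm_mul, Matrix.map_apply, H.isom]
  have e11 : ‖A 1 1‖ = ‖A 0 0‖ := mul_right_cancel₀ hb.ne' ((r 0 0).trans (mul_comm _ _))
  have e22 : ‖A 2 2‖ = ‖A 0 0‖ :=
    (mul_right_cancel₀ hb.ne' ((r 1 1).trans (mul_comm _ _))).trans e11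
  have e12 : ‖A 1 2‖ = ‖A 0 1‖ := mul_right_cancel₀ hb.ne' ((r 0 1).trans (mul_comm _ _))
  have e20 : ‖A 2 0‖ = ‖b‖ * ‖A 0 1‖ := by simpa [e12] using r 1 2
  have e10 : ‖A 1 0‖ = ‖b‖ * ‖A 0 2‖ := by simpa using r 0 2
  have e21 : ‖A 2 1‖ = ‖b‖ * ‖A 0 2‖ :=
    (mul_right_cancel₀ hb.ne' ((r 1 0).trans (mul_comm _ _))).trans e10
  have t1 : ‖A 0 0 * A 1 1 * A 2 2‖ = ‖A 0 0‖ ^ 3 := by
    rw [norm_mul, norm_mul, e11, e22]; ring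
  have t2 : ‖A 0 1 * A 1 2 * A 2 0‖ = ‖b‖ * ‖A 0 1‖ ^ 3 := by
    rw [norm_mul, norm_mul, e12, e20]; ring
  have t3 : ‖A 0 2 * A 1 0 * A 2 1‖ = ‖b‖ ^ 2 * ‖A 0 2‖ ^ 3 := by
    rw [norm_mul, norm_mul, e10, e21]; ring
  have hu : ‖-(A 0 0 * A 1 2 * A 2 1 + A 0 1 * A 1 0 * A 2 2 + A 0 2 * A 1 1 * A 2 0)‖ ≤
      ‖b‖ * ‖A 0 0‖ * ‖A 0 1‖ * ‖A 0 2‖ := by
    rw [norm_neg]
    refine (IsUltrametricDist.norm_add_le_max _ _).trans
      (max_le ((IsUltrametricDist.norm_add_le_max _ _).trans (max_le ?_ ?_)) ?_) <;>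
      simp only [norm_mul, e11, e22, e12, e20, e10, e21] <;> apply le_of_eq <;> ring
  have h2k : ‖b‖ ^ 2 = (p : ℝ) ^ (k * 2) := by rw [H.nb, _root_.zpow_mul]; rfl
  have nd := H.nd
  obtain ⟨a1, a2, a3⟩ := Dv1Aux.ultra3 (t₁ := A 0 0 * A 1 1 * A 2 2)
    (t₂ := A 0 1 * A 1 2 * A 2 0) (t₃ := A 0 2 * A 1 0 * A 2 1)
    (u := -(A 0 0 * A 1 2 * A 2 1 + A 0 1 * A 1 0 * A 2 2 + A 0 2 * A 1 1 * A 2 0))
    (fun h => by
      rw [t1, t2, H.nb] at h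
      rw [t1, Dv1Aux.dist3 H nd h, zero_pow three_ne_zero])
    (fun h => by
      rw [t1, t3, h2k] at h
      rw [t1, Dv1Aux.dist3 H (by omega) h, zero_pow three_ne_zero])
    (fun h => by
      rw [t2, t3, pow_two, mul_assoc] at h
      have h' := mul_left_cancel₀ hb.ne' h
      rw [H.nb] at h'
      rw [t2, Dv1Aux.dist3 H nd h', zero_pow three_ne_zero, mul_zero])
    ((pow_le_pow_left₀ (norm_nonneg _) hu 3).trans_eq (by rw [t1, t2, t3]; ring))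
  have ed : A.det = A 0 0 * A 1 1 * A 2 2 + A 0 1 * A 1 2 * A 2 0 + A 0 2 * A 1 0 * A 2 1 +
      -(A 0 0 * A 1 2 * A 2 1 + A 0 1 * A 1 0 * A 2 2 + A 0 2 * A 1 1 * A 2 0) := by
    rw [det_fin_three]; ring
  rw [← ed] at a1 a2 a3
  rw [t1] at a1
  rw [t2] at a2
  rw [t3] at a3
  rw [_root_.zpow_mul, ← H.nb]
  have g : ∀ {s : ℝ} {e : ℤ}, s * ‖b‖ ^ (-e) ≤ ‖A.det‖ → s ≤ ‖A.det‖ * ‖b‖ ^ e := fun h => by
    rwa [_root_.zpow_neg, ← div_eq_mul_inv, div_le_iff₀ (zpow_pos hb _)] at h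
  fin_cases i <;> fin_cases j <;> refine g ?_ <;>
    simp only [Fin.zero_eta, Fin.mk_one, Fin.reduceFinMk, e11, e22, e12, e20, e10, e21] <;>
    norm_num
  all_goals first
    | exact a1
    | (refine le_of_eq_of_le ?_ a2; field_simp; done)
    | (refine le_of_eq_of_le ?_ a3; field_simp)

theorem DivF.eq_zero (H : DivF p σ b k) {A : Matrix (Fin 3) (Fin 3) M}
    (hA : A * cca b = cca b * A.map σ) (h0 : A.det = 0) : A = 0 := by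
  ext i j
  have h := H.norm_le hA i j
  rw [h0, norm_zero, zero_mul] at h
  exact norm_eq_zero.1 (pow_eq_zero_iff three_ne_zero |>.1 (le_antisymm h (by positivity)))

theorem DivF.eq_scalar (H : DivF p σ b k) {A : Matrix (Fin 3) (Fin 3) M}
    (hA : A * cca b = cca b * A.map σ) {ι : Type} [Fintype ι] (d : ι → ℤ)
    (h : aeval A (∏ a, (X - C (d a : M))) = 0) :
    ∃ a, A = (d a : M) • (1 : Matrix (Fin 3) (Fin 3) M) := by
  let φ : M[X] →* M := detMonoidHom.comp (aeval A).toRingHom.toMonoidHom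
  have h1 : φ (∏ a, (X - C (d a : M))) = 0 := by
    change (aeval A (∏ a, (X - C (d a : M)))).det = 0
    rw [h, det_zero]
  rw [map_prod, Finset.prod_eq_zero_iff] at h1
  obtain ⟨a, -, ha⟩ := h1
  change (aeval A (X - C (d a : M))).det = 0 at ha
  rw [map_sub, aeval_X, aeval_C, Algebra.algebraMap_eq_smul_one] at ha
  refine ⟨a, sub_eq_zero.1 (H.eq_zero ?_ ha)⟩
  have e : ((d a : M) • (1 : Matrix (Fin 3) (Fin 3) M)).map σ = (d a : M) • 1 := by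
    ext i j
    by_cases hij : i = j <;> simp [hij]
  rw [Matrix.map_sub _ (map_sub σ), e, Matrix.sub_mul, Matrix.mul_sub, hA, Matrix.smul_mul,
    Matrix.mul_smul, Matrix.one_mul, Matrix.mul_one]

end Pool.Agent.P.MP_3c2f8c_gt.Ex
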