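import Pool.Agent.P.MP_3c2f8c_gt.Ex.Lo.Dv1
import Pool.Agent.P.MP_3c2f8c_gt.Ex.Lo.AB3
import Pool.Agent.P.MP_3c2f8c_gt.Ex.Lo.Av

/-! EXL-Dv2: the Bruhat decomposition at a division prime. -/

namespace Pool.Agent.P.MP_3c2f8c_gt.Ex

open Matrix Polynomial

namespace Dv2Aux

theorem blk_of_dv : ∀ (u : I) (B : Bk) (j : Fin 3), dv u = dv (iB B j) → ∃ i, u = iB B i := by
  decide +kernel

theorem thd_of_X : ∀ v : I, (c3 v).1 = 0 → ∀ r : Fin 3, ∃ j l,
    Adj (iB (0, r) j) (iB (1, r) l) ∧ thd (iB (0, r) j) (iB (1, r) l) = v := by decide +kernel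

theorem cases_I : ∀ a : I, (c3 a).1 = 0 ∨ ∃ B j, a = iB B j := by decide +kernel

theorem iB_inj : ∀ (B : Bk) (i j : Fin 3), iB B i = iB B j → i = j := by decide +kernel

theorem c3_sh : ∀ c : I, (c3 (sh c)).1 = (c3 c).1 ∧
    ((c3 c).1 = 0 ∨ (c3 (sh c)).2.2 = (c3 c).2.2) := by decide +kernel

theorem dv_mem : ∀ a : I, dv a ∈ [0, 1, -1, 3, -3, 4, -4] := by decide +kernel

theorem perm_of : ∀ x ∈ [(0 : ℤ), 1, -1, 3, -3, 4, -4], ∀ y ∈ [(0 : ℤ), 1, -1, 3, -3, 4, -4],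
    ∀ z ∈ [(0 : ℤ), 1, -1, 3, -3, 4, -4], x + y + z = 0 → (∀ j ∈ [(1 : ℤ), 3, 4], ∃ r : Fin 3,
      ![x, y, z] r = j ∨ ![x, y, z] r = -j) → ∃ (ε : Fin 2) (ρ : Equiv.Perm (Fin 3)),
        ∀ r, ![x, y, z] r = ![1, -1] ε * ![1, 3, -4] (ρ r) := by decide +kernel

theorem chk₁ : ∀ (ε : Fin 2) (ρ : Equiv.Perm (Fin 3)) (u v : I), dv u ≠ dv v →
    dgs (fun r => ![1, -1] ε * ![1, 3, -4] (ρ r)) u ≠
      dgs (fun r => ![1, -1] ε * ![1, 3, -4] (ρ r)) v := by decide +kernel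

/-- The allowed positions of a block monomial matrix. -/
def Pos (ε : Fin 2) (ρ : Equiv.Perm (Fin 3)) (u v : I) : Prop :=
  ((c3 u).1 = 0 ∧ (c3 v).1 = 0) ∨ ∃ B i j, v = iB B j ∧ u = iB (pB ε ρ B) i

instance (ε : Fin 2) (ρ : Equiv.Perm (Fin 3)) (u v : I) : Decidable (Pos ε ρ u v) :=
  inferInstanceAs (Decidable (_ ∨ _))

theorem chk₂ : ∀ (ε : Fin 2) (ρ : Equiv.Perm (Fin 3)) (u v : I),
    dv u = dgs (fun r => ![1, -1] ε * ![1, 3, -4] (ρ r)) v → Pos ε ρ u v := by decide +kernel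

theorem dg_X (s : Fin 3 → ℤ) {a : I} (h : (c3 a).1 = 0) : dgs s a = 0 := by simp [dgs, h]

theorem dg_Y (s : Fin 3 → ℤ) (r j : Fin 3) : dgs s (iB (0, r) j) = s r := by simp [dgs, iB, c3_i3]

theorem dg_Z (s : Fin 3 → ℤ) (r j : Fin 3) : dgs s (iB (1, r) j) = -s r := by simp [dgs, iB, c3_i3]

theorem val_iff {d d' : I → ℤ} (h : SameV d d') (j : ℤ) : (∃ a, d a = j) ↔ ∃ a, d' a = j := by
  have e : ∀ f : I → ℤ, (∃ a, f a = j) ↔ 0 < (Finset.univ.filter fun a => f a = j).card :=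
    fun f => by simp [Finset.card_pos, Finset.filter_nonempty_iff]
  rw [e, e, h j]

variable {R : Type} [CommRing R]

theorem sub_mul {x y : Matrix I I R} {B : Bk} (h : ∀ u j, (∀ i, u ≠ iB B i) → y u (iB B j) = 0) :
    sub (x * y) B B = sub x B B * sub y B B := by
  ext i j
  simp only [sub, submatrix_apply, mul_apply]
  rw [← Finset.sum_image (s := Finset.univ) (g := iB B) (f := fun u => x (iB B i) u * y u (iB B j))
    fun a _ c _ e => iB_inj B a c e]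
  refine (Finset.sum_subset (Finset.subset_univ _) fun u _ hu => ?_).symm
  rw [h u j fun l e => hu (Finset.mem_image.2 ⟨l, Finset.mem_univ _, e.symm⟩), mul_zero]

theorem sub_aeval {y : Matrix I I R} {B : Bk} (h : ∀ u j, (∀ i, u ≠ iB B i) → y u (iB B j) = 0)
    (q : R[X]) : aeval (sub y B B) q = sub (aeval y q) B B := by
  have hp : ∀ n : ℕ, sub y B B ^ n = sub (y ^ n) B B := fun n => by
    induction n with
    | zero => exact (submatrix_one _ (iB_inj B)).symm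
    | succ n ih => rw [pow_succ, pow_succ, ih, sub_mul h]
  induction q using Polynomial.induction_on' with
  | add p q hp hq => rw [map_add, map_add, hp, hq]; rfl
  | monomial n a =>
    rw [aeval_monomial, aeval_monomial, ← Algebra.smul_def, ← Algebra.smul_def, hp]
    rfl

theorem tri_pair {c c' : I} (h : Adj c c') (x : I → R) :
    tri (nZ R) (Pi.single c 1) (Pi.single c' 1) x = (sg c c' : R) * x (thd c c') := by
  rw [tri_eq_dot, crs_nZ_single, if_pos h, smul_dotProduct, single_one_dotProduct, smul_eq_mul]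

end Dv2Aux

open Dv2Aux

variable {p : ℕ} [Fact p.Prime] {M : Type} [NormedField M] [NormedAlgebra ℚ_[p] M]
  [IsUltrametricDist M] {σ : M ≃ₐ[ℚ_[p]] M} {b : M} {k : ℤ}

theorem DivF.levi [Algebra ℚ M] (H : DivF p σ b k) {y : Matrix I I M}
    (hy : y ∈ Lt (nZ M) (phi b) σ) (h0 : ∀ u v, dv u ≠ dv v → y u v = 0)
    (hp : aeval y (∏ a, (X - C (dv a : M))) = 0) :
    ∃ s : Fin 3 → ℤ, ∑ r, s r = 0 ∧ y = dgz M (dgs s) := by
  have := algebraRat.charZero M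
  have h1 : ∀ B u j, (∀ i, u ≠ iB B i) → y u (iB B j) = 0 ∧ y (iB B j) u = 0 := fun B u j hu => by
    have e : dv u ≠ dv (iB B j) := fun e => (blk_of_dv u B j e).elim hu
    exact ⟨h0 _ _ e, h0 _ _ e.symm⟩
  choose a ha using fun B => H.eq_scalar (sub_comm hy.2 B B) dv (by
    rw [sub_aeval fun u j hu => (h1 B u j hu).1, hp]
    rfl)
  have h2 : ∀ B j u, y u (iB B j) = (if u = iB B j then (dv (a B) : M) else 0) ∧
      y (iB B j) u = if u = iB B j then (dv (a B) : M) else 0 := fun B j u => by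
    by_cases hu : ∀ i, u ≠ iB B i
    · rw [if_neg (hu j)]
      exact h1 B u j hu
    · obtain ⟨i, rfl⟩ : ∃ i, u = iB B i := by simpa using hu
      have e1 : y (iB B i) (iB B j) = _ := congrFun (congrFun (ha B) i) j
      have e2 : y (iB B j) (iB B i) = _ := congrFun (congrFun (ha B) j) i
      by_cases e : i = j
      · subst e
        simpa using e1
      · rw [e1, e2, if_neg fun e' => e (iB_inj B i j e')]
        simp [e, Ne.symm e]
  have h3 : ∀ B j, y *ᵥ Pi.single (iB B j) 1 = (dv (a B) : M) • Pi.single (iB B j) 1 :=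
    fun B j => funext fun u => by
      simp [(h2 B j u).1, Pi.single_apply]
  have h4 : ∀ v, (c3 v).1 = 0 → ∀ r u, y v u =
      if v = u then -((dv (a (0, r)) : M) + dv (a (1, r))) else 0 := fun v hv r u => by
    obtain ⟨j, l, e1, e2⟩ := thd_of_X v hv r
    have e := hy.1 (Pi.single (iB (0, r) j) 1) (Pi.single (iB (1, r) l) 1) (Pi.single u 1)
    rw [h3, h3, tri_smul₁, tri_smul₂, tri_pair e1, tri_pair e1, e2] at e
    refine Z1Aux.sg_cancel (a := iB (0, r) j) (b := iB (1, r) l) ?_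
    simp only [mulVec_single_one, col_apply, Pi.single_apply] at e
    split_ifs at e ⊢ <;> linear_combination e
  have h5 : y = diagonal fun u => y u u := by
    ext u v
    by_cases e : u = v
    · rw [e, diagonal_apply_eq]
    · rw [diagonal_apply_ne _ e]
      rcases cases_I u with hu | ⟨B, j, rfl⟩
      · rw [h4 u hu 0, if_neg e]
      · rw [(h2 B j v).2, if_neg (Ne.symm e)]
  have h6 := der_diagonal_iff.1 (h5 ▸ hy.1)
  have h7 : ∀ r, dv (a (0, r)) + dv (a (1, r)) = 0 := fun r => by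
    have e := h6 (.inl 0) (.inl 1) (by decide +kernel)
    rw [h4 _ rfl r, h4 _ rfl r, h4 _ (by decide +kernel) r, if_pos rfl, if_pos rfl, if_pos rfl] at e
    have e' : ((3 * (dv (a (0, r)) + dv (a (1, r))) : ℤ) : M) = 0 := by
      push_cast
      linear_combination -e
    have := Int.cast_eq_zero.1 e'
    omega
  refine ⟨fun r => dv (a (0, r)), ?_, h5.trans (congrArg diagonal (funext fun u => ?_))⟩
  · have e := h6 (iB (0, 0) 0) (iB (0, 1) 1) (by decide +kernel)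
    rw [show thd (iB (0, 0) 0) (iB (0, 1) 1) = iB (0, 2) 2 by decide +kernel, (h2 _ _ _).1,
      (h2 _ _ _).1, (h2 _ _ _).1, if_pos rfl, if_pos rfl, if_pos rfl] at e
    rw [Fin.sum_univ_three]
    exact_mod_cast e
  · rcases cases_I u with hu | ⟨⟨t, r⟩, j, rfl⟩
    · rw [h4 u hu 0, if_pos rfl, dg_X _ hu, ← Int.cast_add, h7, Int.cast_zero, neg_zero]
    · rw [(h2 _ _ _).1, if_pos rfl]
      fin_cases t
      · exact congrArg _ (dg_Y (fun r => dv (a (0, r))) r j).symm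
      · exact congrArg _ ((eq_neg_of_add_eq_zero_right (h7 r)).trans
          (dg_Z (fun r => dv (a (0, r))) r j).symm)

theorem dg_of_sameV {s : Fin 3 → ℤ} (hs : ∑ r, s r = 0) (h : SameV dv (dgs s)) :
    (∀ u v, dv u ≠ dv v → dgs s u ≠ dgs s v) ∧ ∃ (ε : Fin 2) (ρ : Equiv.Perm (Fin 3)),
      ∀ u v, dv u = dgs s v → ((c3 u).1 = 0 ∧ (c3 v).1 = 0) ∨
        ∃ B i j, v = iB B j ∧ u = iB (pB ε ρ B) i := by
  have h1 : ∀ r, s r ∈ [(0 : ℤ), 1, -1, 3, -3, 4, -4] := fun r => by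
    obtain ⟨a, ha⟩ := (val_iff h (s r)).2 ⟨_, dg_Y s r 0⟩
    exact ha ▸ dv_mem a
  have e : ![s 0, s 1, s 2] = s := funext fun r => by fin_cases r <;> rfl
  obtain ⟨ε, ρ, h2⟩ := perm_of _ (h1 0) _ (h1 1) _ (h1 2) (by rwa [Fin.sum_univ_three] at hs)
    fun j hj => by
      obtain ⟨a, ha⟩ := (val_iff h j).1 ((by decide +kernel : ∀ j ∈ [(1 : ℤ), 3, 4],
        ∃ a, dv a = j) j hj)
      rw [e]
      rcases cases_I a with h0 | ⟨⟨t, r⟩, i, rfl⟩
      · rw [dg_X s h0] at ha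
        simp [← ha] at hj
      · fin_cases t
        · exact ⟨r, Or.inl ((dg_Y s r i).symm.trans ha)⟩
        · exact ⟨r, Or.inr (neg_eq_iff_eq_neg.1 ((dg_Z s r i).symm.trans ha))⟩
  rw [e] at h2
  obtain rfl := funext h2
  exact ⟨chk₁ ε ρ, ε, ρ, chk₂ ε ρ⟩

theorem dgz_mem_Lt {s : Fin 3 → ℤ} (hs : ∑ r, s r = 0) :
    dgz M (dgs s) ∈ Lt (nZ M) (phi b) σ := by
  refine ⟨dgz_mem_D0 M (ts_dg hs), ?_⟩
  ext a c
  simp only [dgz, diagonal_map (map_zero σ), map_intCast, diagonal_mul, mul_diagonal, phi, of_apply]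
  split_ifs with e
  · have e' : dgs s (sh c) = dgs s c := by
      obtain ⟨h1, h2 | h2⟩ := c3_sh c
      · rw [dg_X s h2, dg_X s (h1.trans h2)]
      · rw [dgs, dgs, h1, h2]
    rw [e, e', mul_comm]
  · rw [mul_zero, zero_mul]

theorem DivF.exists_BM [Algebra ℚ M] [FiniteDimensional ℚ_[p] M] (H : DivF p σ b k) {g : GL I M}
    (hg : g ∈ Gw (nZ M) (phi b) σ) :
    ∃ u ∈ UN (Lt (nZ M) (phi b) σ : Set (Matrix I I M)),
      ∃ u' ∈ UN (Lt (nZ M) (phi b) σ : Set (Matrix I I M)), ∃ ε ρ, BM ε ρ (u * g * u').1 := by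
  obtain ⟨φ, hφ⟩ := exists_phiU (Units.mk0 b H.ne_zero)
  rw [Units.val_mk0] at hφ
  obtain ⟨u, hu, u', hu', _, ⟨s, hs, rfl⟩, h1, h2⟩ := ab_main (k := ℚ_[p])
    (𝔤 := Lt (nZ M) (phi b) σ) (d := dv) (fun _ hX _ hY => Lt_lie hX hY)
    (fun X hX h0 => hφ ▸ (twD_nZ hφ H.fix H.ord).nondeg (hφ ▸ hX) h0)
    (dgz_mem_Lt (by decide)) (fun u hu X hX => Lt_conj (UN_Lt_le hu).1 hX)
    (fun d' => ∃ s, ∑ r, s r = 0 ∧ d' = dgs s)
    (fun y hy h0 hp => (H.levi hy h0 hp).elim fun s hs => ⟨_, ⟨s, hs.1, rfl⟩, hs.2⟩)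
    (by
      rintro _ ⟨s, hs, rfl⟩ h
      exact (dg_of_sameV hs h).1)
    (fun X hX => Lt_conj hg hX) fun X hX => Lt_conj (inv_mem hg) hX
  obtain ⟨ε, ρ, h3⟩ := (dg_of_sameV hs h1).2
  exact ⟨u, hu, u', hu', ε, ρ, fun a c h => h3 a c (h2 a c h)⟩

end Pool.Agent.P.MP_3c2f8c_gt.Ex
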