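import Pool.Agent.P.MP_3c2f8c_gt.Ex.Lo.Mod

/-! EXL-Dv3: block monomial similitudes. -/

namespace Pool.Agent.P.MP_3c2f8c_gt.Ex

open Matrix

variable {ε ε' : Fin 2} {ρ ρ' : Equiv.Perm (Fin 3)}

theorem pB_pB (B : Bk) : pB ε ρ (pB ε' ρ' B) = pB (ε + ε') (ρ * ρ') B := by
  refine Prod.ext ?_ rfl
  show B.1 + ε' + ε = B.1 + (ε + ε')
  rw [add_assoc, add_comm ε' ε]

theorem pB_inv (B : Bk) : pB ε ρ⁻¹ (pB ε ρ B) = B := by
  refine Prod.ext ?_ (ρ.symm_apply_apply B.2)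
  have h : ∀ a e : Fin 2, a + e + e = a := by decide
  exact h B.1 ε

namespace Dv3Aux

/-- The block of an index. -/
def bko (a : I) : Option Bk := ![none, some (0, (c3 a).2.2), some (1, (c3 a).2.2)] (c3 a).1

theorem bko_iB : ∀ B j, bko (iB B j) = some B := by decide +kernel

theorem bko_none : ∀ a, bko a = none ↔ (c3 a).1 = 0 := by decide +kernel

theorem bko_some : ∀ a B, bko a = some B → a = iB B (c3 a).2.1 := by decide +kernel

theorem iB_inj : ∀ B j j', iB B j = iB B j' → j = j' := by decide +kernel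

theorem pB_inj {B B' : Bk} (h : pB ε ρ B = pB ε ρ B') : B = B' := by
  rw [← pB_inv (ε := ε) (ρ := ρ) B, h, pB_inv]

theorem pB_surj (ε : Fin 2) (ρ : Equiv.Perm (Fin 3)) (B : Bk) : ∃ B', pB ε ρ B' = B :=
  ⟨pB ε ρ⁻¹ B, by simpa using pB_inv (ε := ε) (ρ := ρ⁻¹) B⟩

theorem bm_iff {R : Type} [CommRing R] {m : Matrix I I R} :
    BM ε ρ m ↔ ∀ a b, m a b ≠ 0 → bko a = (bko b).map (pB ε ρ) := by
  refine forall₃_congr fun a b _ => ⟨?_, fun h => ?_⟩
  · rintro (⟨h1, h2⟩ | ⟨B, i, j, rfl, rfl⟩)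
    · rw [(bko_none a).2 h1, (bko_none b).2 h2]
      rfl
    · rw [bko_iB, bko_iB]
      rfl
  · rcases hb : bko b with _ | B
    · rw [hb] at h
      exact Or.inl ⟨(bko_none a).1 h, (bko_none b).1 hb⟩
    · rw [hb] at h
      exact Or.inr ⟨B, _, _, bko_some b B hb, bko_some a _ h⟩

theorem sum_bko {R : Type} [CommRing R] (B : Bk) (f : I → R)
    (h : ∀ b, f b ≠ 0 → bko b = some B) : ∑ b, f b = ∑ j, f (iB B j) :=
  (Fintype.sum_of_injective (iB B) (iB_inj B) _ f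
    (fun b hb => by_contra fun h0 => hb ⟨_, (bko_some b B (h b h0)).symm⟩) fun _ => rfl).symm

theorem row_bko {R : Type} [CommRing R] {m : Matrix I I R} (h : BM ε ρ m) {B : Bk} {i : Fin 3}
    {b : I} (h0 : m (iB (pB ε ρ B) i) b ≠ 0) : bko b = some B := by
  have h1 := bm_iff.1 h _ _ h0
  rw [bko_iB] at h1
  rcases hb : bko b with _ | B'
  · rw [hb] at h1
    exact absurd h1 (by simp)
  · rw [hb] at h1
    exact congrArg some (pB_inj (Option.some.inj h1)).symm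

end Dv3Aux

open Dv3Aux

theorem BM.mul {R : Type} [CommRing R] {m m' : Matrix I I R} (h : BM ε ρ m) (h' : BM ε' ρ' m') :
    BM (ε + ε') (ρ * ρ') (m * m') ∧ ∀ B, sub (m * m') (pB ε ρ (pB ε' ρ' B)) B =
      sub m (pB ε ρ (pB ε' ρ' B)) (pB ε' ρ' B) * sub m' (pB ε' ρ' B) B := by
  refine ⟨bm_iff.2 fun a b hab => ?_, fun B => ?_⟩
  · rw [Matrix.mul_apply] at hab
    obtain ⟨c, -, hc⟩ := Finset.exists_ne_zero_of_sum_ne_zero hab
    rw [bm_iff.1 h a c (left_ne_zero_of_mul hc), bm_iff.1 h' c b (right_ne_zero_of_mul hc),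
      Option.map_map]
    congr 1
    exact funext pB_pB
  · ext i j
    exact sum_bko (pB ε' ρ' B) (fun c => m (iB (pB ε ρ (pB ε' ρ' B)) i) c * m' c (iB B j))
      fun c hc => row_bko h (left_ne_zero_of_mul hc)

theorem BM.inv {R : Type} [CommRing R] {g : GL I R} (h : BM ε ρ g.1) :
    BM ε ρ⁻¹ (g⁻¹).1 ∧ ∀ B, sub (g⁻¹).1 B (pB ε ρ B) * sub g.1 (pB ε ρ B) B = 1 := by
  refine ⟨bm_iff.2 fun a b hab => ?_, fun B => ?_⟩
  · let P : Option Bk → Matrix I I R := fun o => diagonal fun c => if bko c = o then (1 : R) else 0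
    have h1 : g.1 * P (bko a) = P ((bko a).map (pB ε ρ)) * g.1 := by
      ext c d
      rw [mul_diagonal, diagonal_mul, mul_comm]
      by_cases h0 : g.1 c d = 0
      · rw [h0, mul_zero, mul_zero]
      · rw [bm_iff.1 h c d h0]
        congr 1
        exact if_congr (Option.map_injective fun _ _ => pB_inj).eq_iff.symm rfl rfl
    have h2 : P (bko a) * (g⁻¹).1 = (g⁻¹).1 * P ((bko a).map (pB ε ρ)) := by
      calc P (bko a) * (g⁻¹).1 = (g⁻¹).1 * (g.1 * P (bko a)) * (g⁻¹).1 := by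
            rw [← Matrix.mul_assoc, Units.inv_mul, Matrix.one_mul]
        _ = _ := by rw [h1, Matrix.mul_assoc, Matrix.mul_assoc, Units.mul_inv, Matrix.mul_one]
    have h3 := congrFun (congrFun h2 a) b
    rw [mul_diagonal, diagonal_mul, if_pos rfl, one_mul] at h3
    have h4 : bko b = (bko a).map (pB ε ρ) := by
      by_contra h5
      rw [if_neg h5, mul_zero] at h3
      exact hab h3
    rw [h4, Option.map_map]
    have h5 : pB ε ρ⁻¹ ∘ pB ε ρ = id := funext pB_inv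
    rw [h5, Option.map_id]
    rfl
  · ext i j
    have h1 := congrFun (congrFun g.inv_mul (iB B i)) (iB B j)
    rw [Matrix.mul_apply, sum_bko (pB ε ρ B) _ fun c hc => by
      rw [bm_iff.1 h c _ (right_ne_zero_of_mul hc), bko_iB]
      rfl] at h1
    refine h1.trans ?_
    rw [one_apply, one_apply]
    exact if_congr ⟨iB_inj B i j, congrArg _⟩ rfl rfl

namespace Dv3Aux

section Ring

variable {R : Type} [CommRing R]

/-- The cubic form in terms of the first matrix and of the six columns. -/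
def NN (X : Matrix (Fin 3) (Fin 3) R) (c : Bk → Fin 3 → R) : R :=
  X.det + (of fun l => c (0, l)).det - (of fun l => c (1, l)).det +
    ∑ l, c (0, l) ⬝ᵥ X *ᵥ c (1, l)

theorem nn_eq (x : I → R) : (m3 x 0).det + (m3 x 1).det - (m3 x 2).det +
    ((m3 x 1)ᵀ * m3 x 0 * m3 x 2).trace = NN (m3 x 0) fun B j => x (iB B j) := by
  have e : ((m3 x 1)ᵀ * m3 x 0 * m3 x 2).trace =
      ∑ l, (fun j => x (iB (0, l) j)) ⬝ᵥ m3 x 0 *ᵥ fun j => x (iB (1, l) j) := by
    rw [Matrix.mul_assoc]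
    rfl
  rw [e, ← det_transpose (m3 x 1), ← det_transpose (m3 x 2)]
  rfl

theorem nn_col (X : Matrix (Fin 3) (Fin 3) R) {c : Bk → Fin 3 → R} {r : Fin 3}
    (h : ∀ B, B.2 ≠ r → c B = 0) : NN X c = X.det + c (0, r) ⬝ᵥ X *ᵥ c (1, r) := by
  obtain ⟨l, hl⟩ := exists_ne r
  have e : ∀ t, (of fun l => c (t, l)).det = 0 := fun t =>
    det_eq_zero_of_row_eq_zero l fun j => congrFun (h (t, l) hl) j
  rw [NN, e, e, add_zero, sub_zero, Finset.sum_eq_single r (fun l _ hl => by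
    rw [h (0, l) hl, zero_dotProduct]) fun hr => absurd (Finset.mem_univ r) hr]

theorem m3_congr {m : Matrix I I R} (h : BM ε ρ m) {x x' : I → R} (e : m3 x 0 = m3 x' 0) :
    m3 (m *ᵥ x) 0 = m3 (m *ᵥ x') 0 := by
  ext j l
  show ∑ b, m (i3 0 j l) b * x b = ∑ b, m (i3 0 j l) b * x' b
  refine Finset.sum_congr rfl fun b _ => ?_
  by_cases h0 : m (i3 0 j l) b = 0
  · rw [h0, zero_mul, zero_mul]
  · have h1 := bm_iff.1 h _ _ h0
    rw [(bko_none _).2 (by rw [c3_i3]), eq_comm, Option.map_eq_none_iff, bko_none] at h1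
    have h2 : x (i3 0 (c3 b).2.1 (c3 b).2.2) = x' (i3 0 (c3 b).2.1 (c3 b).2.2) :=
      congrFun (congrFun e _) _
    rw [← h1, i3_c3] at h2
    rw [h2]

theorem key [Algebra ℚ R] {m : Matrix I I R} {ν : R} (h : BM ε ρ m)
    (hs : Sim (nZ R) (nZ R) m ν) (X : Matrix (Fin 3) (Fin 3) R) :
    ∃ X' : Matrix (Fin 3) (Fin 3) R, (X = 0 → X' = 0) ∧ ∀ c : Bk → Fin 3 → R,
      ∃ c' : Bk → Fin 3 → R, (∀ B, c' (pB ε ρ B) = sub m (pB ε ρ B) B *ᵥ c B) ∧
        NN X' c' = ν * NN X c := by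
  obtain ⟨x₀, h₀⟩ := exists_m3 fun _ => X
  refine ⟨m3 (m *ᵥ x₀) 0, fun hX => ?_, fun c => ?_⟩
  · rw [m3_congr h (x' := 0) ((h₀ 0).trans hX), mulVec_zero]
    rfl
  · obtain ⟨x, hx⟩ := exists_m3 ![X, of fun j l => c (0, l) j, of fun j l => c (1, l) j]
    have h1 : (fun B j => x (iB B j)) = c := by
      funext ⟨t, l⟩ j
      fin_cases t
      · exact congrFun (congrFun (hx 1) j) l
      · exact congrFun (congrFun (hx 2) j) l
    have h2 := hs.m3_eq x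
    rw [nn_eq, nn_eq, h1, m3_congr h ((hx 0).trans (h₀ 0).symm), hx 0] at h2
    refine ⟨_, fun B => ?_, h2⟩
    rw [← h1]
    funext i
    exact sum_bko B (fun b => m (iB (pB ε ρ B) i) b * x b) fun b hb =>
      row_bko h (left_ne_zero_of_mul hb)

theorem det_of_form {A F B : Matrix (Fin 3) (Fin 3) R} {ν : R}
    (h : ∀ y z, A *ᵥ y ⬝ᵥ F *ᵥ B *ᵥ z = ν * y ⬝ᵥ z) : A.det * F.det * B.det = ν ^ 3 := by
  have e : Aᵀ * F * B = ν • (1 : Matrix (Fin 3) (Fin 3) R) := by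
    ext i j
    have h1 := h (Pi.single i 1) (Pi.single j 1)
    rw [← vecMul_transpose, ← dotProduct_mulVec, mulVec_mulVec, mulVec_mulVec, mulVec_single_one,
      single_one_dotProduct, single_one_dotProduct] at h1
    rw [Matrix.smul_apply, one_apply, smul_eq_mul, ← Pi.single_apply j (1 : R) i]
    exact h1
  have h1 := congrArg det e
  rwa [det_mul, det_mul, det_transpose, det_smul, det_one, mul_one, Fintype.card_fin] at h1

theorem scalar_of {M : Matrix (Fin 3) (Fin 3) R}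
    (h : ∀ v w : Fin 3 → R, (of ![v, M *ᵥ v, w]).det = 0) : M = M 0 0 • 1 := by
  have a1 := h ![1, 0, 0] ![0, 0, 1]
  have a2 := h ![1, 0, 0] ![0, 1, 0]
  have a3 := h ![0, 1, 0] ![0, 0, 1]
  have a4 := h ![0, 1, 0] ![1, 0, 0]
  have a5 := h ![0, 0, 1] ![1, 0, 0]
  have a6 := h ![0, 0, 1] ![0, 1, 0]
  have a7 := h ![1, 1, 0] ![0, 0, 1]
  have a8 := h ![1, 0, 1] ![0, 1, 0]
  simp [det_fin_three, mulVec, dotProduct, Fin.sum_univ_three] at a1 a2 a3 a4 a5 a6 a7 a8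
  ext i j
  fin_cases i <;> fin_cases j <;> simp [*]
  · linear_combination a7 + a3 - a1
  · linear_combination a6 - a2 - a8

end Ring

theorem core {K : Type} [Field K] {A : Fin 3 → Matrix (Fin 3) (Fin 3) K} {c : K}
    (hA : ∀ l, IsUnit (A l).det)
    (H : ∀ y : Fin 3 → Fin 3 → K, (of fun l => A l *ᵥ y l).det = c * (of y).det) :
    ∃ t : Fin 3 → K, (∀ l, t l ≠ 0) ∧ (∀ l, A l = t l • A 0) ∧ ∏ l, (A l).det = c ^ 3 := by
  have e : ∀ z : Fin 3 → Fin 3 → K,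
      (of fun l => A 0 *ᵥ z l).det = (A 0).det * (of z).det := fun z => by
    rw [mul_comm, ← det_transpose (A 0), ← det_mul]
    congr 1
    ext l j
    exact dotProduct_comm (A 0 j) (z l)
  have hs : ∀ l w, ∃ y, A l *ᵥ y = A 0 *ᵥ w := fun l w =>
    ⟨(A l)⁻¹ *ᵥ A 0 *ᵥ w, by rw [mulVec_mulVec, mul_nonsing_inv _ (hA l), one_mulVec]⟩
  have hm : ∀ l v, A 0 *ᵥ ((A 0)⁻¹ * A l) *ᵥ v = A l *ᵥ v := fun l v => by
    rw [mulVec_mulVec, mul_nonsing_inv_cancel_left _ _ (hA 0)]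
  have h1 : ∀ v w, (of ![v, ((A 0)⁻¹ * A 1) *ᵥ v, w]).det = 0 := fun v w => by
    obtain ⟨y, hy⟩ := hs 2 w
    have a1 := H ![v, v, y]
    rw [det_zero_of_row_eq (i := 0) (j := 1) (M := of ![v, v, y]) (by decide) rfl, mul_zero] at a1
    refine (hA 0).mul_right_eq_zero.1 (((e _).symm.trans ?_).trans a1)
    congr 2
    funext l
    fin_cases l
    exacts [rfl, hm 1 v, hy.symm]
  have h2 : ∀ v w, (of ![v, ((A 0)⁻¹ * A 2) *ᵥ v, w]).det = 0 := fun v w => by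
    obtain ⟨y, hy⟩ := hs 1 w
    have a1 := H ![v, y, v]
    rw [det_zero_of_row_eq (i := 0) (j := 2) (M := of ![v, y, v]) (by decide) rfl, mul_zero] at a1
    have a2 : (of ![v, w, ((A 0)⁻¹ * A 2) *ᵥ v]).det = 0 := by
      refine (hA 0).mul_right_eq_zero.1 (((e _).symm.trans ?_).trans a1)
      congr 2
      funext l
      fin_cases l
      exacts [rfl, hy.symm, hm 2 v]
    generalize ((A 0)⁻¹ * A 2) *ᵥ v = u at a2 ⊢
    simp only [det_fin_three, of_apply, cons_val_zero, cons_val_one, cons_val] at a2 ⊢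
    linear_combination -a2
  have h3 : ∀ l, ∃ t : K, A l = t • A 0 := fun l => by
    have a1 : ∀ t : K, (A 0)⁻¹ * A l = t • 1 → A l = t • A 0 := fun t ht => by
      rw [← mul_nonsing_inv_cancel_left _ (A l) (hA 0), ht, Matrix.mul_smul, Matrix.mul_one]
    fin_cases l
    exacts [⟨1, (one_smul _ _).symm⟩, ⟨_, a1 _ (scalar_of h1)⟩, ⟨_, a1 _ (scalar_of h2)⟩]
  choose t ht using h3
  refine ⟨t, fun l h0 => (hA l).ne_zero ?_, ht, ?_⟩
  · rw [ht l, h0, zero_smul, det_zero]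
  · have a1 := H (1 : Matrix (Fin 3) (Fin 3) K)
    have a2 : (of fun l => A l *ᵥ (1 : Matrix (Fin 3) (Fin 3) K) l) = diagonal t * (A 0)ᵀ := by
      ext l j
      rw [diagonal_mul, of_apply, ht l, smul_mulVec]
      simp [mulVec, dotProduct, one_apply]
    rw [a2, det_mul, det_diagonal, det_transpose] at a1
    replace a1 : (∏ l, t l) * (A 0).det = c := a1.trans (by
      rw [show (of (1 : Matrix (Fin 3) (Fin 3) K) : Matrix (Fin 3) (Fin 3) K) = 1 from rfl,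
        det_one, mul_one])
    rw [← a1, Finset.prod_congr rfl fun l _ => (congrArg det (ht l)).trans (det_smul _ _),
      Finset.prod_mul_distrib, Finset.prod_pow, Finset.prod_const, mul_pow]
    rfl

theorem core' {K : Type} [Field K] [Algebra ℚ K] {g : GL I K} {ν : K} (h : BM ε ρ g.1)
    (hs : Sim (nZ K) (nZ K) g.1 ν) : ∃ (c : K) (t : Fin 3 → K), c ^ 2 = ν ^ 2 ∧ (∀ l, t l ≠ 0) ∧
      (∀ l, sub g.1 (pB ε ρ (0, l)) (0, l) = t l • sub g.1 (pB ε ρ (0, 0)) (0, 0)) ∧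
      ∏ l, (sub g.1 (pB ε ρ (0, l)) (0, l)).det = c ^ 3 := by
  obtain ⟨X', h0, hX⟩ := key h hs 0
  obtain rfl := h0 rfl
  have hu : ∀ l, IsUnit (sub g.1 (pB ε ρ (0, l)) (0, l)).det := fun l =>
    isUnit_det_of_left_inverse (h.inv.2 (0, l))
  have hz : ∀ c : Bk → Fin 3 → K,
      NN 0 c = (of fun l => c (0, l)).det - (of fun l => c (1, l)).det := fun c => by
    simp [NN]
  have H : ∀ y : Fin 3 → Fin 3 → K, (of fun l => sub g.1 (pB ε ρ (0, l)) (0, l) *ᵥ y l).det =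
      ((Equiv.Perm.sign ρ : ℤ) * ![1, -1] ε * ν) * (of y).det := fun y => by
    obtain ⟨c', h1, h2⟩ := hX fun B => ![y B.2, 0] B.1
    have a1 : (of fun l => sub g.1 (pB ε ρ (0, l)) (0, l) *ᵥ y l) =
        (of fun l => c' (0 + ε, l)).submatrix ρ id := by
      ext l j
      exact (congrFun (h1 (0, l)) j).symm
    have a2 : (of fun l => c' (1 + ε, l)).det = 0 :=
      det_eq_zero_of_row_eq_zero (ρ 0) fun j =>
        congrFun ((h1 (1, 0)).trans (mulVec_zero _)) j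
    rw [hz, hz] at h2
    replace h2 : _ = ν * ((of y).det - (0 : Matrix (Fin 3) (Fin 3) K).det) := h2
    rw [det_zero, sub_zero] at h2
    rw [a1, det_permute, mul_assoc, mul_assoc, ← h2]
    congr 1
    fin_cases ε
    · have a3 : (of fun l => c' (1, l)).det = 0 := a2
      rw [a3]
      simp
    · have a3 : (of fun l => c' (0, l)).det = 0 := a2
      rw [a3]
      simp
  obtain ⟨t, h1, h2, h3⟩ := core hu H
  refine ⟨_, t, ?_, h1, h2, h3⟩
  have a1 : ((Equiv.Perm.sign ρ : ℤ) : K) ^ 2 = 1 := by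
    rw [← Int.cast_pow, ← Units.val_pow_eq_pow_val, Int.units_sq]
    simp
  have a2 : (![1, -1] ε : K) ^ 2 = 1 := by fin_cases ε <;> simp
  rw [mul_pow, mul_pow, a1, a2, one_mul, one_mul]

end Dv3Aux

variable {K : Type} [Field K] [Algebra ℚ K] {g : GL I K} {ν : K}

theorem BM.det_pair (h : BM ε ρ g.1) (hs : Sim (nZ K) (nZ K) g.1 ν) (r : Fin 3) :
    (sub g.1 (pB ε ρ (0, r)) (0, r)).det * (sub g.1 (pB ε ρ (1, r)) (1, r)).det = ν ^ 2 := by
  obtain ⟨F, -, hF⟩ := key h hs 1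
  have H : ∀ y z : Fin 3 → K, ∃ c' : Bk → Fin 3 → K,
      c' (pB ε ρ (0, r)) = sub g.1 (pB ε ρ (0, r)) (0, r) *ᵥ y ∧
      c' (pB ε ρ (1, r)) = sub g.1 (pB ε ρ (1, r)) (1, r) *ᵥ z ∧
      F.det + c' (0, ρ r) ⬝ᵥ F *ᵥ c' (1, ρ r) = ν * (1 + y ⬝ᵥ z) := fun y z => by
    obtain ⟨c', h1, h2⟩ := hF fun B => if B.2 = r then ![y, z] B.1 else 0
    refine ⟨c', (h1 _).trans (by simp), (h1 _).trans (by simp), ?_⟩
    rw [nn_col (r := ρ r) F fun B hB => ?_, nn_col (r := r) 1 fun B hB => if_neg hB] at h2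
    · simpa using h2
    · obtain ⟨B, rfl⟩ := pB_surj ε ρ B
      rw [h1, if_neg fun e => hB (congrArg ρ e), mulVec_zero]
  have hd : F.det = ν := by
    obtain ⟨c', h1, h2, h3⟩ := H 0 0
    have a : c' (0, ρ r) = 0 := by
      fin_cases ε
      · exact h1.trans (mulVec_zero _)
      · exact h2.trans (mulVec_zero _)
    simpa [a] using h3
  have hν : ν ≠ 0 := (hs.isUnit (isAlb_nZ K)).ne_zero
  refine mul_left_cancel₀ hν ?_
  fin_cases ε
  · have := det_of_form (A := sub g.1 (pB 0 ρ (0, r)) (0, r)) (F := F)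
      (B := sub g.1 (pB 0 ρ (1, r)) (1, r)) (ν := ν) fun y z => by
      obtain ⟨c', h1, h2, h3⟩ := H y z
      replace h1 : c' (0, ρ r) = sub g.1 (pB 0 ρ (0, r)) (0, r) *ᵥ y := h1
      replace h2 : c' (1, ρ r) = sub g.1 (pB 0 ρ (1, r)) (1, r) *ᵥ z := h2
      rw [h1, h2, hd] at h3
      linear_combination h3
    rw [hd] at this
    change ν * ((sub g.1 (pB 0 ρ (0, r)) (0, r)).det * (sub g.1 (pB 0 ρ (1, r)) (1, r)).det) = _
    linear_combination this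
  · have := det_of_form (A := sub g.1 (pB 1 ρ (1, r)) (1, r)) (F := F)
      (B := sub g.1 (pB 1 ρ (0, r)) (0, r)) (ν := ν) fun z y => by
      obtain ⟨c', h1, h2, h3⟩ := H y z
      replace h1 : c' (1, ρ r) = sub g.1 (pB 1 ρ (0, r)) (0, r) *ᵥ y := h1
      replace h2 : c' (0, ρ r) = sub g.1 (pB 1 ρ (1, r)) (1, r) *ᵥ z := h2
      rw [h1, h2, hd, dotProduct_comm y z] at h3
      linear_combination h3
    rw [hd] at this
    change ν * ((sub g.1 (pB 1 ρ (0, r)) (0, r)).det * (sub g.1 (pB 1 ρ (1, r)) (1, r)).det) = _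
    linear_combination this

theorem BM.prop (h : BM ε ρ g.1) (hs : Sim (nZ K) (nZ K) g.1 ν) (r r' : Fin 3) :
    ∃ t : K, t ≠ 0 ∧ sub g.1 (pB ε ρ (0, r)) (0, r) = t • sub g.1 (pB ε ρ (0, r')) (0, r') := by
  obtain ⟨-, t, -, h1, h2, -⟩ := core' h hs
  refine ⟨t r / t r', div_ne_zero (h1 r) (h1 r'), ?_⟩
  rw [h2 r, h2 r', smul_smul, div_mul_cancel₀ _ (h1 r')]

theorem BM.det_three (h : BM ε ρ g.1) (hs : Sim (nZ K) (nZ K) g.1 ν) :
    (∏ r, (sub g.1 (pB ε ρ (0, r)) (0, r)).det) ^ 2 = ν ^ 6 := by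
  obtain ⟨c, t, h0, -, -, h3⟩ := core' h hs
  rw [h3, ← pow_mul, mul_comm, pow_mul, h0, ← pow_mul]

end Pool.Agent.P.MP_3c2f8c_gt.Ex
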