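import Pool.Agent.P.MP_3c2f8c_gt.Ex.Lo.Rt1

/-! EXL-Rt2: vectors with constant sums over the triples. -/

namespace Pool.Agent.P.MP_3c2f8c_gt.Ex

open Matrix

namespace Rt2Aux

/-- The number of steps needed to reach an index from the six basis weights. -/
def rk1 (u : I) : ℕ :=
  [0, 0, 1, 0, 0, 0, 4, 1, 1, 3, 1, 0, 3, 3, 3, 2, 2, 3, 1, 1, 2, 2, 4, 2, 2, 3, 2].getD (enc u) 0

/-- The number of steps needed to reach an index from the eight extreme indices. -/
def rk2 (u : I) : ℕ :=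
  [1, 2, 0, 1, 0, 1, 2, 0, 1, 1, 1, 1, 2, 2, 0, 0, 1, 1, 2, 1, 0, 1, 1, 1, 0, 0, 2].getD (enc u) 0

theorem rk1_spec : ∀ u, (∃ j, u = wb j) ∨
    ∃ a, Adj a u ∧ rk1 a < rk1 u ∧ rk1 (thd a u) < rk1 u := by decide +kernel

theorem rk2_spec : ∀ u, (59 ≤ lv u ∨ 63 ≤ -lv u) ∨
    ∃ a, Adj a u ∧ rk2 a < rk2 u ∧ rk2 (thd a u) < rk2 u := by decide +kernel

theorem clos {rk : I → ℕ} {S P : I → Prop}
    (h : ∀ u, S u ∨ ∃ a, Adj a u ∧ rk a < rk u ∧ rk (thd a u) < rk u) (h0 : ∀ u, S u → P u)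
    (h1 : ∀ a b, Adj a b → P a → P b → P (thd a b)) (u : I) : P u := by
  induction hn : rk u using Nat.strong_induction_on generalizing u with
  | _ n ih =>
  subst hn
  rcases h u with h2 | ⟨a, h2, h3, h4⟩
  · exact h0 u h2
  · obtain ⟨-, h5, h6, -⟩ := thd_spec a u h2
    exact h6 ▸ h1 a _ h5 (ih _ h3 a rfl) (ih _ h4 _ rfl)

theorem cr_wt : ∀ u, cr (.inl 0) (.inr (1, 3)) u = wt u 0 ∧ cr (.inl 1) (.inr (0, 6)) u = wt u 1 ∧
    cr (.inr (0, 0)) (.inr (0, 6)) u = wt u 2 ∧ cr (.inr (0, 1)) (.inr (0, 3)) u = wt u 3 ∧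
    cr (.inr (0, 2)) (.inr (0, 3)) u = wt u 4 ∧
    cr (.inr (0, 0)) (.inr (0, 3)) u = wt u 2 - wt u 5 := by decide +kernel

/-- Three times the inner product of two weights. -/
def gr (c u : I) : ℤ := if u = c then 4 else if Adj c u then -2 else 1

theorem ts_gr : ∀ c a b, Adj a b → gr c a + gr c b + gr c (thd a b) = 0 := by decide +kernel

theorem cr_gr : ∀ e a, Rt e a → ∀ u, 3 * cr e a u = gr e u - gr a u := by decide +kernel

theorem up : ∀ c, 59 ≤ lv c → ∀ u, lv u < lv c → Rt c u ∨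
    ∃ w, Rt c w ∧ Rt w u ∧ lv w < lv c ∧ lv u < lv w := by decide +kernel

theorem down : ∀ c, 63 ≤ -lv c → ∀ u, lv c < lv u → Rt u c ∨
    ∃ w, Rt u w ∧ Rt w c ∧ lv w < lv u ∧ lv c < lv w := by decide +kernel

theorem fix_top {l : I → ℤ} (hl : Function.Injective l) (π : Equiv.Perm I) (m : ℤ)
    (H : ∀ c, m ≤ l c → ∀ u, l u < l c → l (π u) < l (π c)) (c : I) (hc : m ≤ l c) : π c = c := by
  by_contra hne
  obtain ⟨c, h1, h2⟩ := (Finset.univ.filter fun c => m ≤ l c ∧ π c ≠ c).exists_max_image l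
    ⟨c, Finset.mem_filter.2 ⟨Finset.mem_univ _, hc, hne⟩⟩
  obtain ⟨h3, h4⟩ := (Finset.mem_filter.1 h1).2
  rcases lt_trichotomy (l (π c)) (l c) with h5 | h5 | h5
  · have h6 : (Finset.univ.filter fun u => l u < l c).card ≤
        (Finset.univ.filter fun u => l u < l (π c)).card :=
      Finset.card_le_card_of_injOn π (fun u hu => by
        simpa using H c h3 u (by simpa using hu)) π.injective.injOn
    refine h6.not_gt (Finset.card_lt_card ⟨fun u hu => ?_, fun h => ?_⟩)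
    · simpa using (show l u < l (π c) by simpa using hu).trans h5
    · simpa using h (Finset.mem_filter.2 ⟨Finset.mem_univ (π c), h5⟩)
  · exact h4 (hl h5)
  · refine h5.not_ge (h2 _ (Finset.mem_filter.2 ⟨Finset.mem_univ _, h3.trans h5.le, fun h => ?_⟩))
    exact h4 (π.injective h)

theorem ts_dg1 : ∀ a b, Adj a b → dgs ![1, 0, -1] a + dgs ![1, 0, -1] b + dgs ![1, 0, -1] (thd a b) = 0 ∧
    dgs ![0, 1, -1] a + dgs ![0, 1, -1] b + dgs ![0, 1, -1] (thd a b) = 0 := by decide +kernel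

theorem ts_wI1 : ∀ a b, Adj a b → wI 0 a + wI 0 b + wI 0 (thd a b) = 0 ∧
    wI 1 a + wI 1 b + wI 1 (thd a b) = 0 := by decide +kernel

end Rt2Aux

open Rt2Aux

variable {Λ : Type} [AddCommGroup Λ] {v w : I → Λ} {s t : Λ} {e a : I}

theorem TS.add (hv : TS v s) (hw : TS w t) : TS (v + w) (s + t) := fun a b h => by
  rw [← hv a b h, ← hw a b h]
  simp only [Pi.add_apply]
  abel

theorem TS.sub (hv : TS v s) (hw : TS w t) : TS (v - w) (s - t) := fun a b h => by
  rw [← hv a b h, ← hw a b h]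
  simp only [Pi.sub_apply]
  abel

theorem TS.map {Λ' : Type} [AddCommGroup Λ'] (f : Λ →+ Λ') (hv : TS v s) :
    TS (fun u => f (v u)) (f s) := fun a b h => by
  rw [← hv a b h, map_add, map_add]

theorem TS.zsmul {n : I → ℤ} {m : ℤ} (h : TS n m) (c : Λ) : TS (fun u => n u • c) (m • c) :=
  fun a b h' => by rw [← h a b h', add_smul, add_smul]

theorem ts_const (c : Λ) : TS (fun _ : I => c) (3 • c) := fun _ _ _ => by
  simp only
  abel

theorem ts_lv : TS lv 1 := fun a b h => (lv_sum_iff a b _).2 ⟨h, rfl⟩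

theorem ts_cr (h : Rt e a) : TS (cr e a) 0 := fun b c hbc => by
  linarith [ts_gr e b c hbc, ts_gr a b c hbc, cr_gr e a h b, cr_gr e a h c, cr_gr e a h (thd b c)]

theorem ts_wt (c : Fin 7 → Λ) : TS (fun u => ∑ j, wt u j • c j) (c 6) := fun a b h => by
  simp only [← Finset.sum_add_distrib, ← add_smul, wt_tr a b h, ite_smul, one_smul, zero_smul,
    Finset.sum_ite_eq', Finset.mem_univ, if_true]

theorem TS.eq_sum (hv : TS v s) (u : I) :
    v u = ∑ j : Fin 6, wt u j.castSucc • v (wb j) + wt u 6 • s := by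
  have h1 := ts_wt (Fin.snoc (α := fun _ => Λ) (fun j : Fin 6 => v (wb j)) s)
  have h2 : ∀ u, ∑ j, wt u j • Fin.snoc (α := fun _ => Λ) (fun j : Fin 6 => v (wb j)) s j =
      ∑ j : Fin 6, wt u j.castSucc • v (wb j) + wt u 6 • s := fun u => by
    rw [Fin.sum_univ_castSucc]
    simp only [Fin.snoc_castSucc, Fin.snoc_last]
    rfl
  simp only [h2] at h1
  replace h1 : TS (fun u => ∑ j : Fin 6, wt u j.castSucc • v (wb j) + wt u 6 • s) s := h1
  refine clos (P := fun u => v u = ∑ j : Fin 6, wt u j.castSucc • v (wb j) + wt u 6 • s)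
    rk1_spec ?_ (fun a b h ha hb => ?_) u
  · rintro _ ⟨i, rfl⟩
    simp only [wt_wb, Fin.castSucc_inj, ite_smul, one_smul, zero_smul, Finset.sum_ite_eq',
      Finset.mem_univ, if_true]
    rw [if_neg (show (6 : Fin 7) ≠ i.castSucc from (Fin.castSucc_lt_last i).ne'), add_zero]
  · have h3 := h1 a b h
    simp only at h3
    rw [← ha, ← hb] at h3
    exact add_left_cancel ((hv a b h).trans h3.symm)

namespace Rt2Aux

theorem step (hv : TS v s) (h : Rt e a) {u : I} (hu : u ≠ e) (h1 : Adj a u) (h2 : ¬ Adj e u) :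
    v (thd e (thd a u)) = v u - (v e - v a) := by
  have h3 : Adj e (thd a u) := by
    rcases gq a u e h1 h.1 hu.symm (fun h' => h.2 (Adj.symm (h' ▸ (thd_spec a u h1).2.1))) with
      h' | h' | h'
    · exact (h.2 h'.1).elim
    · exact (h2 h'.2.1).elim
    · exact h'.2.2
  have h4 := (hv a u h1).trans (hv e _ h3).symm
  calc v (thd e (thd a u)) = v e + v (thd a u) + v (thd e (thd a u)) - (v e + v (thd a u)) := by
        abel
    _ = v u - (v e - v a) := by
        rw [← h4]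
        abel

theorem exists_c (hv : TS v s) : ∃ c : Fin 7 → Λ, ∀ u, v u = ∑ j, wt u j • c j :=
  ⟨Fin.snoc (α := fun _ => Λ) (fun j : Fin 6 => v (wb j)) s, fun u => by
    rw [Fin.sum_univ_castSucc, hv.eq_sum u]
    simp only [Fin.snoc_castSucc, Fin.snoc_last]
    rfl⟩

end Rt2Aux

theorem TS.rf (hv : TS v s) (h : Rt e a) (u : I) :
    v (rf e a u) = v u - cr e a u • (v e - v a) := by
  unfold Ex.rf cr
  split_ifs with h1 h2 h3 h4
  · rw [h1, one_smul, sub_sub_cancel]
  · rw [h2, neg_smul, one_smul, sub_neg_eq_add, add_sub_cancel]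
  · rw [one_smul, step hv h h1 h3.1 h3.2]
  · rw [step hv h.symm h2 h4.1 h4.2, neg_smul, one_smul, neg_sub]
  · rw [zero_smul, sub_zero]

theorem TS.sum_cr (hv : TS v s) (h : Rt e a) : ∑ u, cr e a u • v u = 6 • (v e - v a) := by
  have key : ∀ {n : I → ℤ} {m : ℤ}, TS n m → ∑ u, cr e a u * n u = 6 * (n e - n a) := by
    intro n m hn
    have h1 : ∑ u, cr e a (Ex.rf e a u) * n (Ex.rf e a u) = ∑ u, cr e a u * n u :=
      Equiv.sum_comp (Function.Involutive.toPerm _ (rf_rf h)) fun u => cr e a u * n u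
    have h2 : ∀ u, cr e a (Ex.rf e a u) * n (Ex.rf e a u) =
        cr e a u ^ 2 * (n e - n a) - cr e a u * n u := fun u => by
      rw [cr_rf h, hn.rf h, smul_eq_mul]
      ring
    simp only [h2, Finset.sum_sub_distrib, ← Finset.sum_mul, sum_cr_sq h] at h1
    linarith
  obtain ⟨c, hc⟩ := exists_c hv
  simp only [hc, Finset.smul_sum, smul_smul]
  rw [Finset.sum_comm, ← Finset.sum_sub_distrib, Finset.smul_sum]
  refine Finset.sum_congr rfl fun j _ => ?_
  rw [← Finset.sum_smul, key (n := fun u => wt u j) fun a b h => wt_tr a b h j, ← sub_smul,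
    mul_smul]
  exact ofNat_zsmul _ _

/-- The coroots generate the vectors with vanishing sums. -/
theorem TS.induction (P : (I → Λ) → Prop) (hadd : ∀ v w, P v → P w → P (v + w))
    (hcr : ∀ e a, Rt e a → ∀ c : Λ, P fun u => cr e a u • c) (hv : TS v 0) : P v := by
  have h := hadd _ _ (hadd _ _ (hadd _ _ (hadd _ _ (hadd _ _
    (hcr (.inl 0) (.inr (1, 3)) (by decide +kernel) (v (wb 0)))
    (hcr (.inl 1) (.inr (0, 6)) (by decide +kernel) (v (wb 1))))
    (hcr (.inr (0, 0)) (.inr (0, 6)) (by decide +kernel) (v (wb 2) + v (wb 5))))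
    (hcr (.inr (0, 1)) (.inr (0, 3)) (by decide +kernel) (v (wb 3))))
    (hcr (.inr (0, 2)) (.inr (0, 3)) (by decide +kernel) (v (wb 4))))
    (hcr (.inr (0, 0)) (.inr (0, 3)) (by decide +kernel) (-v (wb 5)))
  convert h using 1
  funext u
  obtain ⟨h0, h1, h2, h3, h4, h5⟩ := cr_wt u
  simp only [Pi.add_apply, h0, h1, h2, h3, h4, h5]
  rw [hv.eq_sum u, Fin.sum_univ_six, smul_zero, add_zero]
  change wt u 0 • _ + wt u 1 • _ + wt u 2 • _ + wt u 3 • _ + wt u 4 • _ + wt u 5 • _ = _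
  module

theorem ts_dg {s : Fin 3 → ℤ} (h : ∑ r, s r = 0) : TS (dgs s) 0 := fun a b hab => by
  have h1 : ∀ u, dgs s u = dgs ![1, 0, -1] u * s 0 + dgs ![0, 1, -1] u * s 1 := fun u => by
    rw [Fin.sum_univ_three] at h
    have h2 : ∀ r, s r = ![1, 0, -1] r * s 0 + ![0, 1, -1] r * s 1 := fun r => by
      fin_cases r <;> simp
      linarith
    unfold dgs
    rw [h2]
    ring
  obtain ⟨h2, h3⟩ := ts_dg1 a b hab
  simp only [h1]
  linear_combination s 0 * h2 + s 1 * h3

theorem ts_wI (k : ℤ) : TS (wI k) 0 := fun a b hab => by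
  have h1 : ∀ u, wI k u = wI 0 u + k * (wI 1 u - wI 0 u) := fun u => by
    unfold wI
    split_ifs <;> ring
  obtain ⟨h2, h3⟩ := ts_wI1 a b hab
  rw [h1 a, h1 b, h1 (thd a b)]
  linear_combination (1 - k) * h2 + k * h3

theorem ts_wD (k : ℤ) : TS (wD k) 0 := fun a b hab => by
  have h := congrArg (fun n : ℤ => (n : ℝ)) (ts_wI k a b hab)
  simp only [Int.cast_add, Int.cast_zero] at h
  unfold wD
  linear_combination h / 3

/-- An automorphism of the triples that preserves the chamber of `lv` is the identity. -/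
theorem chamber (π : Equiv.Perm I) (hπ : TS (fun u => lv (π u)) 1)
    (h : ∀ e a, Rt e a → lv a < lv e → lv (π a) < lv (π e)) : π = 1 := by
  refine Equiv.ext (clos (P := fun u => π u = u) rk2_spec ?_ fun a b hab ha hb => ?_)
  · rintro u (hu | hu)
    · refine fix_top lv_injective π 59 (fun c hc u hu => ?_) u hu
      rcases up c hc u hu with h1 | ⟨w, h1, h2, h3, h4⟩
      · exact h _ _ h1 hu
      · exact (h _ _ h2 h4).trans (h _ _ h1 h3)
    · refine fix_top (l := fun u => -lv u) (neg_injective.comp lv_injective) π 63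
        (fun c hc u hu => neg_lt_neg ?_) u hu
      rcases down c hc u (neg_lt_neg_iff.1 hu) with h1 | ⟨w, h1, h2, h3, h4⟩
      · exact h _ _ h1 (neg_lt_neg_iff.1 hu)
      · exact (h _ _ h2 h4).trans (h _ _ h1 h3)
  · have h1 := hπ a b hab
    simp only [ha, hb] at h1
    exact ((lv_sum_iff _ _ _).1 h1).2

end Pool.Agent.P.MP_3c2f8c_gt.Ex
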