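import Pool.Agent.P.MP_3c2f8c_gt.Ex.Lo.Dv1
import Pool.Agent.P.MP_3c2f8c_gt.Ex.Lo.Dv3
import Pool.Agent.P.MP_3c2f8c_gt.Ex.Lo.Rt2

/-! EXL-Dv4: block monomial elements that fix the barycentre. -/

namespace Pool.Agent.P.MP_3c2f8c_gt.Ex

open Matrix

variable {p : ℕ} [Fact p.Prime] {M : Type} [NormedField M] [NormedAlgebra ℚ_[p] M]
  [IsUltrametricDist M] {σ : M ≃ₐ[ℚ_[p]] M} {b : M} {k : ℤ}

namespace Dv4Aux

theorem exists_pair : ∀ v, (c3 v).1 = 0 → ∃ c, Adj c v ∧ (c3 c).1 ≠ 0 ∧ (c3 (thd c v)).1 ≠ 0 := by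
  decide +kernel

theorem wI_iB01 : ∀ (B : Bk) (j : Fin 3), wI 0 (iB B j) = xib B ∧
    wI 1 (iB B j) = xib B + ((j : ℕ) - 1) := by decide +kernel

theorem xi_pB : ∀ (e : Fin 2) (r r' : Fin 3), xib (1 + e, r') - xib (1, r) =
    -(xib (0 + e, r') - xib (0, r)) := by decide +kernel

theorem wI_iB (k : ℤ) (B : Bk) (j : Fin 3) : wI k (iB B j) = xib B + k * ((j : ℕ) - 1) := by
  have h1 : ∀ u, wI k u = wI 0 u + k * (wI 1 u - wI 0 u) := fun u => by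
    unfold wI
    split_ifs <;> ring
  rw [h1, (wI_iB01 B j).1, (wI_iB01 B j).2]
  ring

omit [IsUltrametricDist M] in
theorem norm_sg (a c : I) : ‖(sg a c : M)‖ = 1 := by
  rcases Int.isUnit_iff.1 (IsUnit.of_mul_eq_one _ (sg_sq a c)) with e | e <;> simp [e]

omit [NormedAlgebra ℚ_[p] M] in
theorem key [Algebra ℚ M] {w : I → ℝ} {s : ℝ} (hw : TS w s) {g : GL I M} {ν : Mˣ}
    (hs : Sim (nZ M) (nZ M) g.1 ν) {r : ℝ} (hr : 0 < r) (hν : r ^ 3 = ‖ν.1‖)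
    (h : ∀ c a, (c3 c).1 ≠ 0 → ‖(g⁻¹).1 c a‖ ≤ r⁻¹ * (p : ℝ) ^ (w c - w a)) (u : I) {v : I}
    (hv : (c3 v).1 = 0) : ‖g.1 u v‖ ≤ r * (p : ℝ) ^ (w u - w v) := by
  have hp : (0 : ℝ) < p := by exact_mod_cast (Fact.out : p.Prime).pos
  obtain ⟨c, hc, h1, h2⟩ := exists_pair v hv
  obtain ⟨-, t1, t2, -⟩ := thd_spec c v hc
  have e := congrFun (hs.crs' (isAlb_nZ M) (isAlb_nZ M) (Pi.single c 1) (Pi.single (thd c v) 1)) u
  rw [crs_nZ_single, if_pos t1, t2, crs_nZ, mulVec_smul, mulVec_single_one, mulVec_single_one,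
    mulVec_single_one] at e
  have e1 : ‖((ν⁻¹).1 • (sg c (thd c v) : M) • g.1.col v) u‖ = (r ^ 3)⁻¹ * ‖g.1 u v‖ := by
    rw [Pi.smul_apply, Pi.smul_apply, smul_eq_mul, smul_eq_mul, norm_mul, norm_mul, norm_sg,
      one_mul, Units.val_inv_eq_inv_val, norm_inv, hν]
    rfl
  have e2 : (r ^ 3)⁻¹ * ‖g.1 u v‖ ≤ r⁻¹ * r⁻¹ * (p : ℝ) ^ (w u - w v) := by
    rw [← e1, ← e]
    refine IsUltrametricDist.norm_sum_le_of_forall_le_of_nonneg (by positivity) fun a _ => ?_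
    split_ifs with ha
    · rw [norm_mul, norm_sg, one_mul, norm_mul]
      refine (mul_le_mul (h c a h1) (h (thd c v) (thd u a) h2) (norm_nonneg _)
        (by positivity)).trans_eq ?_
      rw [show w u - w v = (w c - w a) + (w (thd c v) - w (thd u a)) by
        linarith [hw c v hc, hw u a ha], Real.rpow_add hp]
      ring
    · rw [norm_zero]
      positivity
  rw [inv_mul_le_iff₀ (by positivity)] at e2
  refine e2.trans_eq ?_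
  field_simp

theorem entry (H : DivF p σ b k) {m : Matrix I I M} (hc : m * phi b = phi b * m.map σ)
    {ε : Fin 2} {ρ : Equiv.Perm (Fin 3)} (hm : BM ε ρ m) {t : ℝ} (ht : 0 < t)
    (hd : ∀ B, ‖(sub m (pB ε ρ B) B).det‖ = t ^ 3 * (p : ℝ) ^ (xib (pB ε ρ B) - xib B)) {u v : I}
    (huv : (c3 u).1 ≠ 0 ∨ (c3 v).1 ≠ 0) : ‖m u v‖ ≤ t * (p : ℝ) ^ (wD k u - wD k v) := by
  have hp : (0 : ℝ) < p := by exact_mod_cast (Fact.out : p.Prime).pos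
  by_cases h0 : m u v = 0
  · rw [h0, norm_zero]
    positivity
  rcases hm u v h0 with ⟨h1, h2⟩ | ⟨B, i, j, rfl, rfl⟩
  · exact (huv.elim (fun h => h h1) fun h => h h2).elim
  refine le_of_pow_le_pow_left₀ three_ne_zero (by positivity) ?_
  refine (H.norm_le (sub_comm hc (pB ε ρ B) B) i j).trans_eq ?_
  rw [hd, mul_pow, mul_assoc, ← zpow_add₀ hp.ne', ← Real.rpow_intCast, ← Real.rpow_natCast,
    ← Real.rpow_natCast, ← Real.rpow_mul hp.le, wD, wD, wI_iB, wI_iB]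
  congr 2
  push_cast
  ring

end Dv4Aux

open Dv4Aux

theorem WS_of_blocks [Algebra ℚ M] {w : I → ℝ} {s : ℝ} (hw : TS w s) {g : GL I M} {ν : M}
    (hs : Sim (nZ M) (nZ M) g.1 ν) {r : ℝ} (hr : 0 < r) (hν : r ^ 3 = ‖ν‖)
    (h : ∀ u v, (c3 u).1 ≠ 0 ∨ (c3 v).1 ≠ 0 → ‖g.1 u v‖ ≤ r * (p : ℝ) ^ (w u - w v) ∧
      ‖(g⁻¹).1 u v‖ ≤ r⁻¹ * (p : ℝ) ^ (w u - w v)) : g ∈ WS p w := by
  obtain ⟨ν, rfl⟩ := hs.isUnit (isAlb_nZ M)
  refine ⟨r, hr, fun u v => ?_, fun u v => ?_⟩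
  · by_cases hv : (c3 v).1 = 0
    · exact key hw hs hr hν (fun c a hc => (h c a (Or.inl hc)).2) u hv
    · exact (h u v (Or.inr hv)).1
  · by_cases hv : (c3 v).1 = 0
    · refine key hw hs.inv (inv_pos.2 hr) ?_ (fun c a hc => ?_) u hv
      · rw [Units.val_inv_eq_inv_val, norm_inv, inv_pow, hν]
      · rw [inv_inv, inv_inv]
        exact (h c a (Or.inl hc)).1
    · exact (h u v (Or.inr hv)).2

theorem DivF.mem_WS [Algebra ℚ M] (H : DivF p σ b k) {g : GL I M} (hg : g ∈ Gw (nZ M) (phi b) σ)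
    {ε : Fin 2} {ρ : Equiv.Perm (Fin 3)} (hm : BM ε ρ g.1) {ν : M} (hs : Sim (nZ M) (nZ M) g.1 ν)
    (h : ∀ r, ‖(sub g.1 (pB ε ρ (0, r)) (0, r)).det‖ =
      ‖ν‖ * (p : ℝ) ^ (xib (pB ε ρ (0, r)) - xib (0, r))) : g ∈ WS p (wD k) := by
  have hp : (0 : ℝ) < p := by exact_mod_cast (Fact.out : p.Prime).pos
  have h0 : 0 < ‖ν‖ := norm_pos_iff.2 (hs.isUnit (isAlb_nZ M)).ne_zero
  obtain ⟨r, hr, hν⟩ : ∃ r : ℝ, 0 < r ∧ r ^ 3 = ‖ν‖ :=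
    ⟨‖ν‖ ^ ((3 : ℕ) : ℝ)⁻¹, Real.rpow_pos_of_pos h0 _, Real.rpow_inv_natCast_pow h0.le three_ne_zero⟩
  have hd : ∀ B, ‖(sub g.1 (pB ε ρ B) B).det‖ = r ^ 3 * (p : ℝ) ^ (xib (pB ε ρ B) - xib B) := by
    rintro ⟨e, l⟩
    rw [hν]
    obtain rfl | rfl : e = 0 ∨ e = 1 := by omega
    · exact h l
    · have e1 := congrArg norm (hm.det_pair hs l)
      rw [norm_mul, h l, norm_pow] at e1
      have e2 : xib (pB ε ρ (1, l)) - xib (1, l) = -(xib (pB ε ρ (0, l)) - xib (0, l)) := xi_pB ε l _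
      have e3 : (0 : ℝ) < (p : ℝ) ^ (xib (pB ε ρ (0, l)) - xib (0, l)) := zpow_pos hp _
      rw [e2, _root_.zpow_neg]
      refine mul_left_cancel₀ (mul_pos h0 e3).ne' (e1.trans ?_)
      field_simp
  have hd' : ∀ B, ‖(sub (g⁻¹).1 (pB ε ρ⁻¹ B) B).det‖ =
      r⁻¹ ^ 3 * (p : ℝ) ^ (xib (pB ε ρ⁻¹ B) - xib B) := fun B => by
    obtain ⟨B, rfl⟩ := Dv3Aux.pB_surj ε ρ B
    have e1 := congrArg (fun A => ‖det A‖) (hm.inv.2 B)
    simp only [det_mul, norm_mul, det_one, norm_one, hd] at e1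
    rw [pB_inv, eq_inv_of_mul_eq_one_left e1, mul_inv, ← _root_.zpow_neg, neg_sub, inv_pow]
  exact WS_of_blocks (ts_wD k) hs hr hν fun u v huv =>
    ⟨entry H hg.2 hm hr hd huv, entry H (inv_mem hg).2 hm.inv.1 (inv_pos.2 hr) hd' huv⟩

end Pool.Agent.P.MP_3c2f8c_gt.Ex
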