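import Pool.Agent.P.MP_3c2f8c_gt.Ex.Lo.Mod
import Pool.Agent.P.MP_3c2f8c_gt.Ex.Lo.T1

/-! EXL-Kap: the subgroup of type SL3. -/

namespace Pool.Agent.P.MP_3c2f8c_gt.Ex

open Matrix

namespace KapAux

open Matrix.SpecialLinearGroup

theorem tv_pow {k : Type} [Field k] {i j : Fin 3} (h : i ≠ j) (a : k) (m : ℕ) :
    SpecialLinearGroup.transvection h a ^ m = SpecialLinearGroup.transvection h (m * a) := by
  induction m with
  | zero => rw [pow_zero, Nat.cast_zero, zero_mul, transvection_coeff_zero]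
  | succ m ih => rw [pow_succ, ih, ← SpecialLinearGroup.transvection_add, Nat.cast_succ, add_one_mul]

theorem diag_eq {k : Type} [Field k] {i j : Fin 3} (h : i ≠ j) {c : k} (hc : c ≠ 0) :
    diag2n h c hc = SpecialLinearGroup.transvection h c *
      SpecialLinearGroup.transvection h.symm (-c⁻¹) * SpecialLinearGroup.transvection h c *
      SpecialLinearGroup.transvection h (-1) * SpecialLinearGroup.transvection h.symm 1 *
      SpecialLinearGroup.transvection h (-1) := by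
  refine Subtype.ext ?_
  have e : diagonal (fun a => if a = i then c else if a = j then c⁻¹ else 1) =
      1 + single i i (c - 1) + single j j (c⁻¹ - 1) := by
    ext a b
    simp only [diagonal_apply, Matrix.add_apply, one_apply, single_apply]
    grind
  simp only [diag2n_coe, e, coe_mul, transvection_coe, mul_add, add_mul, Matrix.one_mul,
    Matrix.mul_one, single_mul_single_same, single_mul_single_of_ne _ _ _ _ h,
    single_mul_single_of_ne _ _ _ _ h.symm, add_zero]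
  ext a b
  simp only [Matrix.add_apply, single_apply]
  grind

/-- The embedding of the special linear group. -/
noncomputable def hom {k A : Type} [Field k] [CommRing A] [Algebra k A] [Algebra ℚ A]
    (σ : A ≃ₐ[k] A) (b : A) : SpecialLinearGroup (Fin 3) k →* Gw (nZ A) (phi b) σ :=
  MonoidHom.codRestrict (MonoidHom.toHomUnits
    { toFun := fun C => kap (C.1.map (algebraMap k A))
      map_one' := by rw [coe_one, Matrix.map_one _ (map_zero _) (map_one _), kap_one]
      map_mul' := fun C D => by rw [coe_mul, Matrix.map_mul, kap_mul] }) _ fun C => by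
    refine ⟨⟨1, sim_kap ?_⟩, ?_⟩
    · rw [← RingHom.mapMatrix_apply, ← RingHom.map_det, C.2, map_one]
    · change kap _ * _ = _ * (kap _).map (σ : A →+* A)
      rw [kap_map, phi_eq_rhoZ, kap_rhoZ, Matrix.map_map]
      congr 3
      exact funext fun x => (σ.commutes x).symm

end KapAux

theorem sl3_fiRes {k : Type} [Field k] [CharZero k] (C : SpecialLinearGroup (Fin 3) k) :
    C ∈ fiRes (SpecialLinearGroup (Fin 3) k) := by
  have h : ∀ (i j : Fin 3) (h : i ≠ j) (a : k),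
      SpecialLinearGroup.transvection h a ∈ fiRes (SpecialLinearGroup (Fin 3) k) :=
    fun i j h a => mem_fiRes_of_root fun m hm => ⟨SpecialLinearGroup.transvection h (a / m), by
      rw [KapAux.tv_pow, mul_div_cancel₀ _ (Nat.cast_ne_zero.2 hm.ne')]⟩
  refine SpecialLinearGroup.diagonal_transvection_induction' (· ∈ fiRes _) C
    (fun i j hij c hc => ?_) h fun _ _ => mul_mem
  rw [KapAux.diag_eq]
  exact mul_mem (mul_mem (mul_mem (mul_mem (mul_mem (h _ _ _ _) (h _ _ _ _)) (h _ _ _ _))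
    (h _ _ _ _)) (h _ _ _ _)) (h _ _ _ _)

theorem kap_mem_fiRes {k A : Type} [Field k] [CharZero k] [CommRing A] [Algebra k A] [Algebra ℚ A]
    (σ : A ≃ₐ[k] A) (b : A) {C : Matrix (Fin 3) (Fin 3) k} (hC : C.det = 1) :
    ∃ g : Gw (nZ A) (phi b) σ, g ∈ fiRes (Gw (nZ A) (phi b) σ) ∧
      g.1.1 = kap (C.map (algebraMap k A)) :=
  ⟨KapAux.hom σ b ⟨C, hC⟩, fiRes_map _ (sl3_fiRes _), rfl⟩

theorem exists_kap {p : ℕ} [Fact p.Prime] {M : Type} [NormedField M] [NormedAlgebra ℚ_[p] M]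
    [Algebra ℚ M] (σ : M ≃ₐ[ℚ_[p]] M) (b : M) (ρ : Equiv.Perm (Fin 3)) {n : Fin 3 → ℤ}
    (hn : ∑ r, n r = 0) : ∃ g : Gw (nZ M) (phi b) σ, g ∈ fiRes (Gw (nZ M) (phi b) σ) ∧
      Sim (nZ M) (nZ M) g.1.1 1 ∧ BM 0 ρ g.1.1 ∧
      ∀ r, ‖(sub g.1.1 (pB 0 ρ (0, r)) (0, r)).det‖ = (p : ℝ) ^ (3 * n r) := by
  have hp : (p : ℚ_[p]) ≠ 0 := Nat.cast_ne_zero.2 (Fact.out : p.Prime).ne_zero
  obtain ⟨s, hs, hs2⟩ : ∃ s : ℚ_[p], ((Equiv.Perm.sign ρ : ℤ) : ℚ_[p]) = s ∧ s * s = 1 :=
    ⟨_, rfl, by rw [← Int.cast_mul, ← Units.val_mul, Int.units_mul_self, Units.val_one,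
      Int.cast_one]⟩
  have s1 : ‖s‖ = 1 := by
    rcases mul_self_eq_one_iff.1 hs2 with h | h <;> simp [h]
  have s0 : s ≠ 0 := left_ne_zero_of_mul_eq_one hs2
  let C : Matrix (Fin 3) (Fin 3) ℚ_[p] :=
    Matrix.of fun i j => if i = ρ j then s * (p : ℚ_[p]) ^ (-n j) else 0
  have h1 : C.submatrix ρ id = diagonal fun j => s * (p : ℚ_[p]) ^ (-n j) := by
    ext i j
    simp only [C, submatrix_apply, of_apply, id, ρ.apply_eq_iff_eq, diagonal_apply]
    split_ifs with h
    · rw [h]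
    · rfl
  have hC : C.det = 1 := by
    have h2 := det_permute ρ C
    rw [h1, det_diagonal, hs, Fin.prod_univ_three] at h2
    rw [Fin.sum_univ_three] at hn
    have h3 : (p : ℚ_[p]) ^ (-n 0) * (p : ℚ_[p]) ^ (-n 1) * (p : ℚ_[p]) ^ (-n 2) = 1 := by
      rw [← zpow_add₀ hp, ← zpow_add₀ hp, ← neg_add, ← neg_add, hn, neg_zero, zpow_zero]
    refine mul_left_cancel₀ s0 ?_
    linear_combination -h2 + s ^ 3 * h3 + s * hs2
  obtain ⟨g, h2, h3⟩ := kap_mem_fiRes σ b hC
  have hD : (C.map (algebraMap ℚ_[p] M)).det = 1 := by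
    rw [← RingHom.mapMatrix_apply, ← RingHom.map_det, hC, map_one]
  have h4 : ∀ r, ‖C.map (algebraMap ℚ_[p] M) (ρ r) r‖ = (p : ℝ) ^ n r := fun r => by
    simp only [C, map_apply, of_apply, if_true, norm_algebraMap', norm_mul, s1, one_mul,
      Padic.norm_p_zpow, neg_neg]
  have h5 : ∀ i j, C.map (algebraMap ℚ_[p] M) i j ≠ 0 → i = ρ j := fun i j h => by
    by_contra e
    exact h (by simp only [C, map_apply, of_apply, if_neg e, map_zero])
  generalize C.map (algebraMap ℚ_[p] M) = D at h3 hD h4 h5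
  have h6 : ∀ i j, cof D i j ≠ 0 → i = ρ j := fun i j h => by
    obtain ⟨r, rfl⟩ := ρ.surjective i
    have e := congrFun (congrFun (adjugate_mul D) j) r
    rw [Matrix.mul_apply, Finset.sum_eq_single (ρ r) (fun i _ hi => by
      rw [of_not_not (mt (h5 i r) hi), mul_zero]) (by simp), hD, one_smul, one_apply] at e
    split_ifs at e with h7
    · rw [h7]
    · refine absurd e (mul_ne_zero h (norm_pos_iff.1 ?_))
      rw [h4]
      exact zpow_pos (Nat.cast_pos.2 (Fact.out : p.Prime).pos) _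
  refine ⟨g, h2, h3 ▸ sim_kap hD, fun u v => ?_, fun r => ?_⟩
  · obtain ⟨⟨t, j, l⟩, rfl⟩ := e3.surjective u
    obtain ⟨⟨t', j', l'⟩, rfl⟩ := e3.surjective v
    change g.1.1 (i3 t j l) (i3 t' j' l') ≠ 0 → ((c3 (i3 t j l)).1 = 0 ∧ (c3 (i3 t' j' l')).1 = 0) ∨
      ∃ B i m, i3 t' j' l' = iB B m ∧ i3 t j l = iB (pB 0 ρ B) i
    rw [h3, kap, kr3_apply, c3_i3, c3_i3]
    split_ifs with h
    · subst h
      intro h
      have h7 := right_ne_zero_of_mul h
      fin_cases t
      · exact .inl ⟨rfl, rfl⟩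
      · exact .inr ⟨(0, l'), j, j', rfl, congrArg (i3 1 j) (h5 _ _ h7)⟩
      · exact .inr ⟨(1, l'), j, j', rfl, congrArg (i3 2 j) (h6 _ _ h7)⟩
    · exact fun h => absurd rfl h
  · have e : sub g.1.1 (pB 0 ρ (0, r)) (0, r) = D (ρ r) r • (1 : Matrix (Fin 3) (Fin 3) M) := by
      ext i j
      change g.1.1 (i3 1 i (ρ r)) (i3 1 j r) = _
      rw [h3, kap, kr3_apply, if_pos rfl, mul_comm]
      rfl
    rw [e, det_smul, det_one, mul_one, norm_pow, h4, Fintype.card_fin, ← zpow_natCast,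
      ← _root_.zpow_mul, mul_comm]
    rfl

end Pool.Agent.P.MP_3c2f8c_gt.Ex
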