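import Pool.Agent.P.MP_3c2f8c_gt.Ex.Lo.Dv2
import Pool.Agent.P.MP_3c2f8c_gt.Ex.Lo.Dv4
import Pool.Agent.P.MP_3c2f8c_gt.Ex.Lo.Kap

/-! EXL-Dv5: the decomposition at a division prime. -/

namespace Pool.Agent.P.MP_3c2f8c_gt.Ex

open Matrix

variable {p : ℕ} [Fact p.Prime] {M : Type} [NormedField M] [NormedAlgebra ℚ_[p] M]
  [IsUltrametricDist M] {σ : M ≃ₐ[ℚ_[p]] M} {b : M} {k : ℤ}

theorem Dv5Aux.perm : ∀ (ε : Fin 2) (c : Fin 3), ∃ τ : Equiv.Perm (Fin 3),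
    ∑ r, (xib (pB ε τ (0, r)) - xib (0, r)) = 0 ∧
      ∀ r, (3 : ℤ) ∣ xib (pB ε τ (0, r)) - xib (0, r) - (c.1 : ℤ) := by
  decide +kernel

theorem exists_alcove (ε : Fin 2) (ρ : Equiv.Perm (Fin 3)) {α : Fin 3 → ℤ} (h0 : ∑ r, α r = 0)
    (h3 : ∀ r r', (3 : ℤ) ∣ α r - α r') : ∃ (ρ' : Equiv.Perm (Fin 3)) (n : Fin 3 → ℤ),
      ∑ r, n r = 0 ∧ ∀ r, α (ρ' r) + 3 * n r = xib (pB ε (ρ * ρ') (0, r)) - xib (0, r) := by
  have hlt : (α 0 % 3).toNat < 3 := by omega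
  obtain ⟨τ, hτ, hd⟩ := Dv5Aux.perm ε ⟨(α 0 % 3).toNat, hlt⟩
  have key : ∀ r, ∃ m : ℤ, α ((ρ⁻¹ * τ) r) + 3 * m = xib (pB ε τ (0, r)) - xib (0, r) := fun r => by
    obtain ⟨s, hs⟩ := hd r
    obtain ⟨t, ht⟩ := h3 ((ρ⁻¹ * τ) r) 0
    refine ⟨s - t - α 0 / 3, ?_⟩
    simp only at hs
    omega
  choose n hn using key
  refine ⟨ρ⁻¹ * τ, n, ?_, fun r => ?_⟩
  · have e := Finset.sum_congr rfl fun r (_ : r ∈ Finset.univ) => hn r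
    rw [hτ, Finset.sum_add_distrib, Equiv.sum_comp (ρ⁻¹ * τ) α, h0, ← Finset.mul_sum] at e
    omega
  · rw [mul_inv_cancel_left]
    exact hn r

theorem DivF.exists_exp [Algebra ℚ M] (H : DivF p σ b k) {g : GL I M} {ε : Fin 2}
    {ρ : Equiv.Perm (Fin 3)} (hm : BM ε ρ g.1) {ν : M} (hs : Sim (nZ M) (nZ M) g.1 ν) :
    ∃ α : Fin 3 → ℤ, ∑ r, α r = 0 ∧ (∀ r r', (3 : ℤ) ∣ α r - α r') ∧
      ∀ r, ‖(sub g.1 (pB ε ρ (0, r)) (0, r)).det‖ = ‖ν‖ * (p : ℝ) ^ α r := by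
  have hp : (1 : ℝ) < p := by exact_mod_cast (Fact.out : p.Prime).one_lt
  have hp0 : (p : ℝ) ≠ 0 := by positivity
  have hν : ν ≠ 0 := (hs.isUnit (isAlb_nZ M)).ne_zero
  have h3 := hm.det_three hs
  have hd : ∀ r, (sub g.1 (pB ε ρ (0, r)) (0, r)).det ≠ 0 := fun r h => by
    rw [Finset.prod_eq_zero (Finset.mem_univ r) h] at h3
    exact pow_ne_zero 6 hν (by rw [← h3]; norm_num)
  choose a ha using fun r => H.val _ (hd r)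
  obtain ⟨m, hm'⟩ := H.val _ hν
  refine ⟨fun r => a r - m, ?_, fun r r' => ?_, fun r => ?_⟩
  · have e := congrArg norm h3
    rw [norm_pow, norm_pow, norm_prod, Fin.prod_univ_three, ha, ha, ha, hm', ← zpow_add₀ hp0,
      ← zpow_add₀ hp0, ← zpow_natCast, ← zpow_natCast, ← _root_.zpow_mul, ← _root_.zpow_mul] at e
    have e' := zpow_right_injective₀ (zero_lt_one.trans hp) hp.ne' e
    rw [Fin.sum_univ_three]
    push_cast at e'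
    omega
  · obtain ⟨t, ht, e⟩ := hm.prop hs r r'
    obtain ⟨s, hs'⟩ := H.val _ ht
    have e1 := ha r
    rw [e, det_smul, norm_mul, norm_pow, ha, hs', Fintype.card_fin, ← zpow_natCast,
      ← _root_.zpow_mul, ← zpow_add₀ hp0] at e1
    have e' := zpow_right_injective₀ (zero_lt_one.trans hp) hp.ne' e1
    push_cast at e'
    exact ⟨s, by simp only; omega⟩
  · rw [ha, hm', ← zpow_add₀ hp0]
    congr 1
    ring

theorem DivF.decomp [Algebra ℚ M] [FiniteDimensional ℚ_[p] M] (H : DivF p σ b k)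
    (g : Gw (nZ M) (phi b) σ) :
    ∃ e ∈ fiRes (Gw (nZ M) (phi b) σ), (e⁻¹ * g).1 ∈ WS p (wD k) := by
  have hp0 : (p : ℝ) ≠ 0 := by exact_mod_cast (Fact.out : p.Prime).ne_zero
  obtain ⟨u, hu, u', hu', ε, ρ, hm⟩ := H.exists_BM g.2
  have hg₁ : u * g.1 * u' ∈ Gw (nZ M) (phi b) σ :=
    mul_mem (mul_mem (UN_Lt_le hu).1 g.2) (UN_Lt_le hu').1
  obtain ⟨ν, hν⟩ := (mem_Gw.1 hg₁).1
  obtain ⟨α, h0, h3, hα⟩ := H.exists_exp hm hν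
  obtain ⟨ρ', n, hn, hαn⟩ := exists_alcove ε ρ h0 h3
  obtain ⟨h, hh, hs, hb, hd⟩ := exists_kap σ b ρ' hn
  obtain ⟨hm₂, hsub⟩ := hm.mul hb
  rw [add_zero, ← Units.val_mul] at hm₂
  have hs₂ : Sim (nZ M) (nZ M) (u * g.1 * u' * h.1).1 ν := by
    simpa only [mul_one, Units.val_mul] using hν.mul hs
  have hW := H.mem_WS (mul_mem hg₁ h.2) hm₂ hs₂ fun r => by
    have e := hsub (0, r)
    have e0 : pB 0 ρ' (0, r) = (0, ρ' r) := rfl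
    have e1 : pB ε (ρ * ρ') (0, r) = pB ε ρ (0, ρ' r) := rfl
    have e2 := hd r
    rw [e0] at e e2
    rw [← hαn, e1, Units.val_mul, e, det_mul, norm_mul, hα, e2, zpow_add₀ hp0, mul_assoc]
  let v : Gw (nZ M) (phi b) σ := ⟨u, (UN_Lt_le hu).1⟩
  let v' : Gw (nZ M) (phi b) σ := ⟨u', (UN_Lt_le hu').1⟩
  refine ⟨(v * (g * (v' * h) * g⁻¹))⁻¹, inv_mem (mul_mem (UN_Lt_fiRes v hu)
    (fiRes_normal.conj_mem _ (mul_mem (UN_Lt_fiRes v' hu') hh) g)), ?_⟩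
  have e : (v * (g * (v' * h) * g⁻¹))⁻¹⁻¹ * g = v * g * v' * h := by group
  rw [e]
  exact hW

end Pool.Agent.P.MP_3c2f8c_gt.Ex
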