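import Pool.Agent.P.MP_3c2f8c_gt.Ex.Lo.T1
import Pool.Agent.P.MP_3c2f8c_gt.Ex.Lo.Wr

/-! EXL-HkA: stabilisers of norms. -/

namespace Pool.Agent.P.MP_3c2f8c_gt.Ex

open Matrix

variable {p : ℕ} [Fact p.Prime]

namespace HkAAux

theorem exists_int {a : ℚ_[p]} (ha : a ≠ 0) : ∃ n : ℤ, ∀ t : ℝ,
    (‖a‖ ≤ (p : ℝ) ^ t ↔ n ≤ t) ∧ (‖a‖ < (p : ℝ) ^ t ↔ n < t) := by
  have hp : (1 : ℝ) < p := by exact_mod_cast (Fact.out : p.Prime).one_lt
  refine ⟨-a.valuation, fun t => ?_⟩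
  rw [Padic.norm_eq_zpow_neg_valuation ha, ← Real.rpow_intCast]
  exact ⟨Real.rpow_le_rpow_left_iff hp, Real.rpow_lt_rpow_left_iff hp⟩

theorem le_of_floor {a : ℚ_[p]} {s t : ℝ} (h : ⌊s⌋ ≤ ⌊t⌋) (ha : ‖a‖ ≤ (p : ℝ) ^ s) :
    ‖a‖ ≤ (p : ℝ) ^ t := by
  obtain rfl | h0 := eq_or_ne a 0
  · rw [norm_zero]
    positivity
  obtain ⟨n, hn⟩ := exists_int h0
  exact (hn t).1.2 (Int.le_floor.1 ((Int.le_floor.2 ((hn s).1.1 ha)).trans h))

theorem cont (l : I → ℤ) (y : I → ℝ) (i j : I) :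
    Continuous fun u => pt l y u i - pt l y u j := by
  simp only [pt]
  fun_prop

theorem near (d c : ℝ) : ∀ᶠ ε in nhdsWithin (0 : ℝ) (Set.Ioi 0), ∀ a : ℚ_[p],
    ‖a‖ ≤ (p : ℝ) ^ (d + ε * c) ↔ ‖a‖ ≤ (p : ℝ) ^ d ∧ (c < 0 → ‖a‖ < (p : ℝ) ^ d) := by
  have hp : (0 : ℝ) < p := by exact_mod_cast (Fact.out : p.Prime).pos
  have h0 : Filter.Tendsto (fun ε : ℝ => d + ε * c) (nhdsWithin 0 (Set.Ioi 0)) (nhds d) :=
    (Continuous.tendsto' (by fun_prop) 0 d (by simp)).mono_left nhdsWithin_le_nhds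
  filter_upwards [h0.eventually (Ioo_mem_nhds (sub_lt_iff_lt_add.2 (Int.ceil_lt_add_one d))
    (Int.lt_floor_add_one d)), self_mem_nhdsWithin] with ε h1 (h2 : 0 < ε) a
  obtain rfl | ha := eq_or_ne a 0
  · simp only [norm_zero]
    exact iff_of_true (by positivity) ⟨by positivity, fun _ => by positivity⟩
  obtain ⟨n, hn⟩ := exists_int ha
  rw [(hn _).1, (hn _).1, (hn _).2]
  refine ⟨fun h => ⟨Int.le_floor.1 (Int.lt_add_one_iff.1 ?_), fun hc => ?_⟩, fun h => ?_⟩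
  · exact_mod_cast h.trans_lt h1.2
  · linarith [mul_neg_of_pos_of_neg h2 hc]
  · obtain hc | hc := lt_or_ge c 0
    · have h3 : (n : ℝ) + 1 ≤ ⌈d⌉ := by exact_mod_cast Int.lt_ceil.2 (h.2 hc)
      linarith [h1.1]
    · linarith [h.1, mul_nonneg h2.le hc]

theorem sz_lt (y : I → ℝ) (g : Matrix I I ℚ_[p]) (i j : I) :
    sz y g i j < 1 ↔ ‖g i j‖ < (p : ℝ) ^ (y i - y j) :=
  div_lt_one (Real.rpow_pos_of_pos (Nat.cast_pos.2 (Fact.out : p.Prime).pos) _)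

theorem wb_diagonal (x : I → ℝ) {d : I → ℚ_[p]} (h : ∀ i, ‖d i‖ ≤ 1) : Wb x (diagonal d) :=
  fun i j => by
    rw [diagonal_apply]
    split_ifs with e
    · simpa [e] using h j
    · rw [norm_zero]
      positivity

end HkAAux

theorem co_Gx (x : I → ℝ) : CO (Gx p x) := by
  have h1 : Continuous fun g : Sp p => g.1.1 := Units.continuous_val.comp continuous_subtype_val
  have h2 : ∀ {f : Sp p → Matrix I I ℚ_[p]}, Continuous f → IsClopen {g | Wb x (f g)} :=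
    fun {f} hf => by
      simp only [wb_iff]
      exact isClopen_wr hf x one_pos
  have h3 : IsClopen (Gx p x : Set (Sp p)) := (h2 h1).inter (h2 (h1.comp continuous_inv))
  obtain ⟨R, hR⟩ := Wr.exists_bd (A := ℚ_[p]) p x 1
  exact ⟨(isCompact_bdd (isClosed_Str nZ_base) R).of_isClosed_subset h3.1 fun g hg =>
    ⟨hR _ (wb_iff.1 hg.1), hR _ (wb_iff.1 hg.2)⟩, h3.2⟩

theorem Gx_mono {x x' : I → ℝ} (h : ∀ i j, ⌊x i - x j⌋ ≤ ⌊x' i - x' j⌋) : Gx p x ≤ Gx p x' :=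
  fun _ hg => ⟨fun i j => HkAAux.le_of_floor (h i j) (hg.1 i j),
    fun i j => HkAAux.le_of_floor (h i j) (hg.2 i j)⟩

theorem ts_pt {y : I → ℝ} {s : ℝ} (hy : TS y s) (t : ℝ) : TS (pt lv y t) (s + t) := by
  intro a b h
  have h1 : (lv a : ℝ) + lv b + lv (thd a b) = 1 := by exact_mod_cast ts_lv a b h
  simp only [pt]
  linear_combination hy a b h + t * h1

theorem Gx_pt_eq (l : I → ℤ) (y : I → ℝ) {t t' : ℝ} (h : t ≤ t')
    (hg : ∀ u, t ≤ u → u ≤ t' → Generic (pt l y u)) : Gx p (pt l y t) = Gx p (pt l y t') := by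
  have key : ∀ i j, ⌊pt l y t i - pt l y t j⌋ = ⌊pt l y t' i - pt l y t' j⌋ := fun i j => by
    by_cases hij : i = j
    · simp [hij]
    have h1 : ∀ k : ℤ, (k : ℝ) ∉ Set.uIcc (pt l y t i - pt l y t j) (pt l y t' i - pt l y t' j) :=
      fun k hk => by
        obtain ⟨u, hu, h2⟩ := intermediate_value_uIcc (f := fun u => pt l y u i - pt l y u j)
          (HkAAux.cont l y i j).continuousOn hk
        rw [Set.uIcc_of_le h] at hu
        exact hg u hu.1 hu.2 i j hij k h2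
    refine le_antisymm (not_lt.1 fun h2 => h1 _ (Set.mem_uIcc_of_ge (Int.floor_lt.1 h2).le
      (Int.floor_le _))) (not_lt.1 fun h2 => h1 _ (Set.mem_uIcc_of_le (Int.floor_lt.1 h2).le
      (Int.floor_le _)))
  exact le_antisymm (Gx_mono fun i j => (key i j).le) (Gx_mono fun i j => (key i j).ge)

theorem finite_not_generic {l : I → ℤ} (hl : Function.Injective l) (y : I → ℝ) (t t' : ℝ) :
    {u | t ≤ u ∧ u ≤ t' ∧ ¬ Generic (pt l y u)}.Finite := by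
  have key : ∀ q : {q : I × I // q.1 ≠ q.2}, ((fun u => pt l y u q.1.1 - pt l y u q.1.2) ⁻¹'
      (Int.cast '' (Int.cast ⁻¹' ((fun u => pt l y u q.1.1 - pt l y u q.1.2) ''
        Set.Icc t t')))).Finite := fun q => by
    refine Set.Finite.preimage (fun u _ v _ h => ?_) (Set.Finite.image _ (isCompact_iff_finite.1
      (Int.isClosedEmbedding_coe_real.isCompact_preimage
        (isCompact_Icc.image (HkAAux.cont l y _ _)))))
    have h1 : (l q.1.1 - l q.1.2 : ℝ) ≠ 0 :=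
      sub_ne_zero.2 (by exact_mod_cast fun h => q.2 (hl h))
    refine mul_right_cancel₀ h1 ?_
    simp only [pt] at h
    linarith
  refine (Set.finite_iUnion key).subset fun u hu => ?_
  obtain ⟨h1, h2, h3⟩ := hu
  simp only [Generic, not_forall, not_not] at h3
  obtain ⟨i, j, hij, k, hk⟩ := h3
  exact Set.mem_iUnion.2 ⟨⟨(i, j), hij⟩, k, ⟨u, ⟨h1, h2⟩, hk⟩, hk.symm⟩

theorem exists_shift : ∃ s : Sp p, (s.1.1 = diagonal fun i => (p : ℚ_[p]) ^ (-lv i)) ∧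
    Sim (nZ ℚ_[p]) (nZ ℚ_[p]) s.1.1 (p : ℚ_[p])⁻¹ ∧ ∀ (y : I → ℝ) (t : ℝ),
      Gx p (pt lv y (t + 1)) = (Gx p (pt lv y t)).map (MulAut.conj s).toMonoidHom := by
  have hp : (0 : ℝ) < p := by exact_mod_cast (Fact.out : p.Prime).pos
  have hq : (p : ℚ_[p]) ≠ 0 := by exact_mod_cast (Fact.out : p.Prime).ne_zero
  let s : Sp p := ⟨dlv (Units.mk0 _ hq)⁻¹, _, sim_dlv _⟩
  have e1 : s.1.1 = diagonal fun i => (p : ℚ_[p]) ^ (-lv i) := by simp [s, dlv]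
  have e2 : (s⁻¹).1.1 = diagonal fun i => (p : ℚ_[p]) ^ lv i := by
    change (diagonal fun i => (((Units.mk0 _ hq)⁻¹ ^ (-lv i) : ℚ_[p]ˣ) : ℚ_[p])) = _
    simp
  refine ⟨s, e1, sim_dlv (Units.mk0 _ hq)⁻¹, fun y t => ?_⟩
  have key : ∀ g : Sp p, Wb (pt lv y (t + 1)) g.1.1 ↔ Wb (pt lv y t) (s⁻¹ * g * s).1.1 :=
    fun g => forall₂_congr fun i j => by
      have h1 : (s⁻¹ * g * s).1.1 = (s⁻¹).1.1 * g.1.1 * s.1.1 := rfl
      rw [h1, e1, e2, mul_diagonal, diagonal_mul, norm_mul, norm_mul, Padic.norm_p_zpow,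
        Padic.norm_p_zpow, ← Real.rpow_intCast, ← Real.rpow_intCast, mul_right_comm,
        ← Real.rpow_add hp, ← le_inv_mul_iff₀ (Real.rpow_pos_of_pos hp _), ← Real.rpow_neg hp.le,
        ← Real.rpow_add hp]
      simp only [pt, Int.cast_neg]
      ring_nf
  ext g
  rw [Subgroup.mem_map_equiv, MulAut.conj_symm_apply]
  refine and_congr (key g) ((key g⁻¹).trans ?_)
  simp only [_root_.mul_inv_rev, inv_inv, mul_assoc]

/-- Just after and just before the point `y`. -/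
theorem exists_mem_Gx_pt (l : I → ℤ) (y : I → ℝ) :
    ∃ ε₀ : ℝ, 0 < ε₀ ∧ ∀ ε : ℝ, 0 < ε → ε < ε₀ → ∀ g : Sp p,
      (g ∈ Gx p (pt l y ε) ↔ g ∈ Gx p y ∧ ∀ i j, l i < l j →
        sz y g.1.1 i j < 1 ∧ sz y (g⁻¹).1.1 i j < 1) ∧
      (g ∈ Gx p (pt l y (-ε)) ↔ g ∈ Gx p y ∧ ∀ i j, l j < l i →
        sz y g.1.1 i j < 1 ∧ sz y (g⁻¹).1.1 i j < 1) := by
  obtain ⟨ε₀, h0, h⟩ := mem_nhdsGT_iff_exists_Ioo_subset.1 (Filter.eventually_all.2 fun i =>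
    Filter.eventually_all.2 fun j => (HkAAux.near (p := p) (y i - y j) (l i - l j)).and
      (HkAAux.near (p := p) (y i - y j) (l j - l i)))
  refine ⟨ε₀, h0, fun ε h1 h2 g => ?_⟩
  have k1 : ∀ m : Matrix I I ℚ_[p], Wb (pt l y ε) m ↔
      Wb y m ∧ ∀ i j, l i < l j → sz y m i j < 1 := fun m => by
    simp only [Wb, HkAAux.sz_lt, ← forall_and]
    refine forall₂_congr fun i j => ?_
    rw [← Int.cast_lt (R := ℝ), ← sub_neg, ← (h ⟨h1, h2⟩ i j).1]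
    simp only [pt]
    ring_nf
  have k2 : ∀ m : Matrix I I ℚ_[p], Wb (pt l y (-ε)) m ↔
      Wb y m ∧ ∀ i j, l j < l i → sz y m i j < 1 := fun m => by
    simp only [Wb, HkAAux.sz_lt, ← forall_and]
    refine forall₂_congr fun i j => ?_
    rw [← Int.cast_lt (R := ℝ), ← sub_neg, ← (h ⟨h1, h2⟩ i j).2]
    simp only [pt]
    ring_nf
  refine ⟨(and_congr (k1 _) (k1 _)).trans (and_and_and_comm.trans (and_congr_right' ?_)),
    (and_congr (k2 _) (k2 _)).trans (and_and_and_comm.trans (and_congr_right' ?_))⟩ <;>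
  simp only [imp_and, forall_and]

theorem exists_dl_mem_Gx (x : I → ℝ) {u : ℚ_[p]ˣ} (hu : ‖u.1‖ = 1) :
    ∃ g ∈ Gx p x, g.1 = dlv u :=
  ⟨⟨dlv u, u, sim_dlv u⟩, ⟨HkAAux.wb_diagonal x fun i => by simp [hu],
    HkAAux.wb_diagonal x fun i => by simp [hu]⟩, rfl⟩

end Pool.Agent.P.MP_3c2f8c_gt.Ex
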