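import Pool.Agent.P.MP_3c2f8c_gt.Ex.Lo.LDefs
import Pool.Agent.P.MP_3c2f8c_gt.Ex.Al.Z1

/-! EXL-HkN: normalised sizes of entries. -/

namespace Pool.Agent.P.MP_3c2f8c_gt.Ex

open Matrix

variable {p : ℕ} [Fact p.Prime]

variable {y : I → ℝ} {g h : Matrix I I ℚ_[p]}

theorem HkNAux.ppos : (0 : ℝ) < p := by exact_mod_cast (Fact.out : p.Prime).pos

theorem HkNAux.rp (t : ℝ) : (0 : ℝ) < (p : ℝ) ^ t := Real.rpow_pos_of_pos HkNAux.ppos t

theorem sz_nonneg (i j : I) : 0 ≤ sz y g i j := div_nonneg (norm_nonneg _) (HkNAux.rp _).le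

theorem sz_le {i j : I} : sz y g i j ≤ 1 ↔ ‖g i j‖ ≤ (p : ℝ) ^ (y i - y j) := div_le_one (HkNAux.rp _)

theorem sz_lt {i j : I} : sz y g i j < 1 ↔ ‖g i j‖ < (p : ℝ) ^ (y i - y j) := div_lt_one (HkNAux.rp _)

theorem sz_self (i : I) : sz y g i i = ‖g i i‖ := by simp [sz]

theorem Wb.sz_le (hg : Wb y g) (i j : I) : sz y g i j ≤ 1 := Ex.sz_le.2 (hg i j)

theorem sz_lt_of (hg : Wb y g) {i j : I} (hij : ¬ ∃ k : ℤ, y i - y j = k) : sz y g i j < 1 := by
  refine sz_lt.2 (lt_of_le_of_ne (hg i j) fun e => hij ?_)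
  have h0 : g i j ≠ 0 := fun h0 => by
    rw [h0, norm_zero] at e
    exact (HkNAux.rp _).ne e
  rw [Padic.norm_eq_zpow_neg_valuation h0, ← Real.rpow_intCast] at e
  have h1 : (1 : ℝ) < p := by exact_mod_cast (Fact.out : p.Prime).one_lt
  exact ⟨_, (Real.rpow_right_inj HkNAux.ppos h1.ne').1 e.symm⟩

namespace HkNAux

theorem norm_mul_eq (y : I → ℝ) (i j k l : I) :
    ‖g i j * h k l‖ = sz y g i j * sz y h k l * (p : ℝ) ^ (y i - y j + (y k - y l)) := by
  rw [norm_mul, sz, sz, Real.rpow_add ppos]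
  field_simp [(rp (p := p) (y i - y j)).ne', (rp (p := p) (y k - y l)).ne']

theorem norm_mul_lt {i k j : I} :
    ‖g i k * h k j‖ < (p : ℝ) ^ (y i - y j) ↔ sz y g i k * sz y h k j < 1 := by
  rw [norm_mul_eq y, sub_add_sub_cancel, mul_lt_iff_lt_one_left (rp _)]

theorem mul_lt (hg : Wb y g) (hh : Wb y h) {i j k l : I} (e : ¬ (sz y g i j = 1 ∧ sz y h k l = 1)) :
    sz y g i j * sz y h k l < 1 := by
  have a1 := hg.sz_le i j
  have a2 := hh.sz_le k l
  have a3 := sz_nonneg (y := y) (g := g) i j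
  have a4 := sz_nonneg (y := y) (g := h) k l
  rcases not_and_or.1 e with e | e
  · nlinarith [lt_of_le_of_ne a1 e]
  · nlinarith [lt_of_le_of_ne a2 e]

theorem add_lt {u v : ℚ_[p]} {r : ℝ} (hu : ‖u‖ < r) (hv : ‖v‖ < r) : ‖u + v‖ < r :=
  (IsUltrametricDist.norm_add_le_max u v).trans_lt (max_lt hu hv)

theorem rest_lt (S : Finset I) {f : I → ℚ_[p]} {r : ℝ} (hr : 0 < r) (hf : ∀ k ∉ S, ‖f k‖ < r) :
    ‖∑ k, f k - ∑ k ∈ S, f k‖ < r := by
  rw [← Finset.sum_sdiff_eq_sub S.subset_univ]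
  exact Finset.sum_induction f (fun u => ‖u‖ < r) (fun _ _ => add_lt) (by simpa using hr)
    fun k hk => hf k (Finset.mem_sdiff.1 hk).2

theorem norm_sg (a b : I) : ‖(sg a b : ℚ_[p])‖ = 1 := by
  rcases Int.isUnit_iff.1 (IsUnit.of_mul_eq_one _ (sg_sq a b)) with e | e <;> simp [e]

theorem thd_spec' {c a : I} (h : Adj c a) : Adj a (thd c a) ∧ thd a (thd c a) = c := by
  obtain ⟨h1, h2, h3, -⟩ := thd_spec a c h.symm
  exact h1 ▸ ⟨h2, h3⟩

theorem norm_term {s : ℝ} (hy : TS y s) {c a : I} (h : Adj c a) (u v : I) :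
    ‖(sg c a : ℚ_[p]) * (g a u * g (thd c a) v)‖ =
      sz y g a u * sz y g (thd c a) v * (p : ℝ) ^ (s - y c - y u - y v) := by
  rw [norm_mul, norm_sg, one_mul, norm_mul_eq y, ← hy c a h]
  congr 2
  ring

end HkNAux

open HkNAux

/-- Every row of an invertible matrix has an entry of size one. -/
theorem exists_row (hg : Wb y g) (hh : Wb y h) (e : g * h = 1) (i : I) :
    ∃ j, sz y g i j = 1 ∧ sz y h j i = 1 ∧ ∃ k : ℤ, y i - y j = k := by
  by_contra hn
  have := rest_lt ∅ (f := fun j => g i j * h j i) (rp (p := p) (y i - y i)) fun j _ =>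
    norm_mul_lt.2 (mul_lt hg hh fun a => hn ⟨j, a.1, a.2, by_contra fun b => (sz_lt_of hg b).ne a.1⟩)
  rw [← Matrix.mul_apply, e] at this
  simp at this

/-- If the class of `i` is contained in `{i, j}`, the diagonal entries of `g` and of its inverse
are small together. -/
theorem sz_dual (hg : Wb y g) (hh : Wb y h) (e : g * h = 1) {i j : I} (hij : i ≠ j)
    (hc : ∀ u, (∃ k : ℤ, y i - y u = k) → u = i ∨ u = j) (h1 : sz y g i i < 1) :
    sz y h j j < 1 := by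
  obtain ⟨k, a1, -, a3⟩ := exists_row hg hh e i
  obtain rfl : k = j := (hc k a3).resolve_left fun b => h1.ne (b ▸ a1)
  have := rest_lt {k} (f := fun l => g i l * h l k) (rp (p := p) (y i - y k)) fun l hl =>
    norm_mul_lt.2 (mul_lt hg hh fun a => (hc l (by_contra fun b => (sz_lt_of hg b).ne a.1)).elim
      (fun b => h1.ne (b ▸ a.1)) fun b => hl (Finset.mem_singleton.2 b))
  rwa [← Matrix.mul_apply, e, one_apply_ne hij, zero_sub, norm_neg, Finset.sum_singleton,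
    norm_mul_lt, a1, one_mul] at this

theorem crs_col (g : Sp p) {u v : I} (h : ¬ Adj u v) (c : I) :
    ∑ a, (if Adj c a then (sg c a : ℚ_[p]) * (g.1.1 a u * g.1.1 (thd c a) v) else 0) = 0 := by
  obtain ⟨ν, hν⟩ := g.2
  have := congrFun (hν.crs (Pi.single u 1) (Pi.single v 1)) c
  rw [crs_nZ_single, if_neg h, crs_nZ] at this
  simpa using this

theorem HkNAux.key {s : ℝ} (hy : TS y s) {g : Sp p} (hg : Wb y g.1.1) {u v : I} (h : ¬ Adj u v)
    (c : I) (S : Finset I)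
    (hS : ∀ a ∉ S, Adj c a → ¬ (sz y g.1.1 a u = 1 ∧ sz y g.1.1 (thd c a) v = 1)) :
    ‖∑ a ∈ S, if Adj c a then (sg c a : ℚ_[p]) * (g.1.1 a u * g.1.1 (thd c a) v) else 0‖ <
      (p : ℝ) ^ (s - y c - y u - y v) := by
  have := rest_lt S (rp (p := p) (s - y c - y u - y v)) (f := fun a =>
    if Adj c a then (sg c a : ℚ_[p]) * (g.1.1 a u * g.1.1 (thd c a) v) else 0) fun a ha => by
      split_ifs with e
      · rw [norm_term hy e, mul_lt_iff_lt_one_left (rp _)]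
        exact mul_lt hg hg (hS a ha e)
      · simpa using rp (p := p) _
  rwa [crs_col g h c, zero_sub, norm_neg] at this

/-- In the cross product of two non-adjacent columns a term of size one is not alone. -/
theorem crs_pair {s : ℝ} (hy : TS y s) {g : Sp p} (hg : Wb y g.1.1) {u v : I} (h : ¬ Adj u v)
    {a b : I} (hab : Adj a b) (h1 : sz y g.1.1 a u = 1) (h2 : sz y g.1.1 b v = 1) :
    ∃ a' b', a' ≠ a ∧ Adj a' b' ∧ thd a' b' = thd a b ∧ sz y g.1.1 a' u = 1 ∧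
      sz y g.1.1 b' v = 1 := by
  by_contra hn
  obtain ⟨-, c1, c2, -⟩ := thd_spec a b hab
  have c3 := (thd_spec _ _ c1).1.trans c2
  have := key hy hg h (thd a b) {a} fun a' ha e k => hn ⟨a', _, fun b => ha (by simp [b]),
    (thd_spec' e).1, (thd_spec' e).2, k⟩
  rw [Finset.sum_singleton, if_pos c1.symm, norm_term hy c1.symm, c3, h1, h2] at this
  simp at this

/-- The same for a single column. -/
theorem crs_self (hp : p ≠ 2) {s : ℝ} (hy : TS y s) {g : Sp p} (hg : Wb y g.1.1) {u a b : I}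
    (hab : Adj a b) (h1 : sz y g.1.1 a u = 1) (h2 : sz y g.1.1 b u = 1) :
    ∃ a' b', a' ≠ a ∧ a' ≠ b ∧ Adj a' b' ∧ thd a' b' = thd a b ∧ sz y g.1.1 a' u = 1 ∧
      sz y g.1.1 b' u = 1 := by
  by_contra hn
  obtain ⟨-, c1, c2, -⟩ := thd_spec a b hab
  have c3 := (thd_spec _ _ c1).1.trans c2
  obtain ⟨-, c4, c5, -, c6⟩ := thd_spec _ _ c1.symm
  rw [c3] at c4 c5 c6
  have := key hy hg (not_adj_self u) (thd a b) {a, b} fun a' ha e k => hn ⟨a', _,
    fun b => ha (by simp [b]), fun b => ha (by simp [b]), (thd_spec' e).1, (thd_spec' e).2, k⟩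
  have t : ‖(2 : ℚ_[p])‖ = 1 := by
    simpa using Padic.norm_natCast_eq_one_iff.2 ((Nat.coprime_primes Fact.out Nat.prime_two).2 hp)
  have n := norm_term (g := g.1.1) hy c1.symm u u
  rw [c3] at n
  rw [Finset.sum_pair fun e : a = b => not_adj_self b (e ▸ hab), if_pos c1.symm, if_pos c4, c3, c5, c6,
    mul_comm (g.1.1 b u), ← two_mul, norm_mul, t, n, h1, h2] at this
  simp at this

end Pool.Agent.P.MP_3c2f8c_gt.Ex
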