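import Pool.Agent.P.MP_3c2f8c_gt.Ex.Lo.HkA
import Pool.Agent.P.MP_3c2f8c_gt.Ex.Lo.HkN

/-! EXL-HkC: crossing a false wall. -/

namespace Pool.Agent.P.MP_3c2f8c_gt.Ex

open Matrix

variable {p : ℕ} [Fact p.Prime]

theorem HkCAux.key (hp : p ≠ 2) {y : I → ℝ} {s : ℝ} (hy : TS y s) {a b : I} (hw : FW y a b)
    {g : Sp p} (hg : g ∈ Gx p y) (h : sz y g.1.1 a b = 1) : False := by
  have cls : ∀ {u v : I}, sz y g.1.1 u v = 1 → u = v ∨ (u = a ∧ v = b) ∨ (u = b ∧ v = a) := by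
    intro u v h1
    by_cases h2 : u = v
    · exact Or.inl h2
    · exact Or.inr (hw.2 u v h2 (by_contra fun h3 => (sz_lt_of hg.1 h3).ne h1))
  have hab : a ≠ b := by
    rintro rfl
    exact not_adj_self _ hw.1
  have e : g.1.1 * (g⁻¹).1.1 = 1 := g.1.mul_inv
  have h1 : sz y g.1.1 b b ≠ 1 := fun h1 => by
    obtain ⟨a', b', n1, n2, -, -, h2, -⟩ := crs_self hp hy hg.1 hw.1 h h1
    rcases cls h2 with h3 | h3 | h3
    exacts [n2 h3, n1 h3.1, n2 h3.1]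
  have h2 : sz y g.1.1 b a = 1 := by
    obtain ⟨j, h2, -⟩ := exists_row hg.1 hg.2 e b
    rcases cls h2 with h3 | h3 | h3
    · exact (h1 (h3 ▸ h2)).elim
    · exact (hab h3.1.symm).elim
    · exact h3.2 ▸ h2
  obtain ⟨d, d1, d2, d3, d4⟩ := exists_far hw.1
  have h3 : sz y g.1.1 d d = 1 := by
    obtain ⟨j, h3, -⟩ := exists_row hg.1 hg.2 e d
    rcases cls h3 with h4 | h4 | h4
    · exact h4 ▸ h3
    · exact (d1 h4.1).elim
    · exact (d2 h4.1).elim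
  obtain ⟨a', b', n1, n2, -, h4, h5⟩ := crs_pair hy hg.1 (fun h => d4 h.symm) d3.symm h2 h3
  have e1 : a' = a := by
    rcases cls h4 with h6 | h6 | h6
    exacts [h6, h6.1, (n1 h6.1).elim]
  have e2 : b' = d := by
    rcases cls h5 with h6 | h6 | h6
    exacts [h6, (d2 h6.2).elim, (d1 h6.2).elim]
  rw [e1, e2] at n2
  exact d4 n2.symm

theorem sz_lt_of_FW (hp : p ≠ 2) {y : I → ℝ} {s : ℝ} (hy : TS y s) {a b : I} (hw : FW y a b)
    {g : Sp p} (hg : g ∈ Gx p y) {i j : I} (hij : i ≠ j) : sz y g.1.1 i j < 1 := by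
  refine (hg.1.sz_le i j).lt_of_ne fun h => ?_
  rcases hw.2 i j hij (by_contra fun h3 => (sz_lt_of hg.1 h3).ne h) with ⟨rfl, rfl⟩ | ⟨rfl, rfl⟩
  · exact HkCAux.key hp hy hw hg h
  · exact HkCAux.key hp hy ⟨hw.1.symm, fun u v h1 h2 => (hw.2 u v h1 h2).symm⟩ hg h

theorem false_step (hp : p ≠ 2) {y : I → ℝ} {s : ℝ} (hy : TS y s) {a b : I} (hw : FW y a b) :
    ∃ ε₀ : ℝ, 0 < ε₀ ∧ ∀ ε : ℝ, 0 < ε → ε < ε₀ → Gx p (pt lv y (-ε)) = Gx p (pt lv y ε) := by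
  obtain ⟨ε₀, h0, h⟩ := exists_mem_Gx_pt (p := p) lv y
  refine ⟨ε₀, h0, fun ε h1 h2 => Subgroup.ext fun g => ?_⟩
  rw [(h ε h1 h2 g).1, (h ε h1 h2 g).2]
  refine and_congr_right fun hg => iff_of_true (fun i j hij => ?_) fun i j hij => ?_
  · have n : i ≠ j := fun e => hij.ne' (congrArg lv e)
    exact ⟨sz_lt_of_FW hp hy hw hg n, sz_lt_of_FW hp hy hw (inv_mem hg) n⟩
  · have n : i ≠ j := fun e => hij.ne (congrArg lv e)
    exact ⟨sz_lt_of_FW hp hy hw hg n, sz_lt_of_FW hp hy hw (inv_mem hg) n⟩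

end Pool.Agent.P.MP_3c2f8c_gt.Ex
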