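import Pool.Agent.P.MP_3c2f8c_gt.Ex.Lo.HkA
import Pool.Agent.P.MP_3c2f8c_gt.Ex.Lo.HkN
import Pool.Agent.P.MP_3c2f8c_gt.Ex.Lo.HkB

/-! EXL-HkD: crossing a root wall. -/

namespace Pool.Agent.P.MP_3c2f8c_gt.Ex

open Matrix

variable {p : ℕ} [Fact p.Prime]

namespace HkDAux

variable {y : I → ℝ} {e a : I} {g : Matrix I I ℚ_[p]}

theorem cls (hw : RW y e a) (i j : I) (h : ∃ k : ℤ, y i - y j = k) : j = i ∨ j = rf e a i :=
  (eq_or_ne j i).imp_right fun hne => hw.2.2 i j hne.symm h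

theorem cls' (hw : RW y e a) (hg : Wb y g) {i j : I} (h : ¬ sz y g i j < 1) :
    i = j ∨ i = rf e a j := by
  rcases cls hw i j (by_contra fun h' => h (sz_lt_of hg h')) with rfl | rfl
  · exact Or.inl rfl
  · exact Or.inr (rf_rf hw.1 i).symm

theorem strict_iff (hw : RW y e a) (hlt : lv a < lv e) (hg : Wb y g) :
    (∀ i j, lv i < lv j → sz y g i j < 1) ↔ ∀ u, cr e a u = 1 → sz y g (rf e a u) u < 1 := by
  have key := ts_lv.rf hw.1
  refine ⟨fun h u hu => h _ _ (by rw [key, hu, one_smul]; omega), fun h i j hij => ?_⟩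
  by_contra hn
  rcases cls' hw hg hn with rfl | rfl
  · exact lt_irrefl _ hij
  · rw [key] at hij
    rcases cr_cases e a j with c | c | c
    · exact hn (h j c)
    all_goals
      rw [c, smul_eq_mul] at hij
      omega

theorem strict_iff' (hw : RW y e a) (hlt : lv a < lv e) (hg : Wb y g) :
    (∀ i j, lv j < lv i → sz y g i j < 1) ↔ ∀ u, cr e a u = 1 → sz y g u (rf e a u) < 1 := by
  have key := ts_lv.rf hw.1
  refine ⟨fun h u hu => h _ _ (by rw [key, hu, one_smul]; omega), fun h i j hij => ?_⟩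
  by_contra hn
  rcases cls hw i j (by_contra fun h' => hn (sz_lt_of hg h')) with rfl | rfl
  · exact lt_irrefl _ hij
  · rw [key] at hij
    rcases cr_cases e a i with c | c | c
    · exact hn (h i c)
    all_goals
      rw [c, smul_eq_mul] at hij
      omega

theorem mono (h : Rt e a) {m : Matrix I I ℚ_[p]} {c : I → ℚ_[p]}
    (hm : ∀ u v, m u v = if v = rf e a u then c u else 0)
    (hc : ∀ u, ‖c u‖ = (p : ℝ) ^ (y u - y (rf e a u))) :
    (∀ g i j, sz y (m * g) i j = sz y g (rf e a i) j) ∧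
      (∀ g i j, sz y (g * m) i j = sz y g i (rf e a j)) ∧ Wb y m := by
  have hp : (0 : ℝ) < p := by exact_mod_cast (Fact.out : p.Prime).pos
  have rp : ∀ t : ℝ, (p : ℝ) ^ t ≠ 0 := fun t => (Real.rpow_pos_of_pos hp t).ne'
  have hl : ∀ g i j, sz y (m * g) i j = sz y g (rf e a i) j := fun g i j => by
    have : (m * g) i j = c i * g (rf e a i) j := by simp [Matrix.mul_apply, hm]
    rw [sz, sz, this, norm_mul, hc, div_eq_div_iff (rp _) (rp _), mul_right_comm,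
      ← Real.rpow_add hp, mul_comm]
    congr 2
    ring
  refine ⟨hl, fun g i j => ?_, fun i j => sz_le.1 ?_⟩
  · have : (g * m) i j = g i (rf e a j) * c (rf e a j) := by
      rw [Matrix.mul_apply, Finset.sum_eq_single (rf e a j) (fun k _ hk => ?_) (by simp), hm,
        if_pos (rf_rf h j).symm]
      rw [hm, if_neg fun e => hk (by rw [e, rf_rf h]), mul_zero]
    rw [sz, sz, this, norm_mul, hc, rf_rf h, div_eq_div_iff (rp _) (rp _), mul_assoc,
      ← Real.rpow_add hp]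
    congr 2
    ring
  · rw [← Matrix.mul_one m, hl]
    exact (wb_one y).sz_le _ _

end HkDAux

open HkDAux

theorem RW.symm {y : I → ℝ} {e a : I} (hw : RW y e a) : RW y a e := by
  obtain ⟨h1, ⟨k, hk⟩, h3⟩ := hw
  exact ⟨h1.symm, ⟨-k, by push_cast; linarith⟩, fun u v huv h => rf_symm h1 u ▸ h3 u v huv h⟩

theorem diag_unit {y : I → ℝ} {s : ℝ} (hy : TS y s) {e a : I} (hw : RW y e a) {g : Sp p}
    (hg : g ∈ Gx p y) {u v : I} (hu : cr e a u = 1) (hv : cr e a v = 1) (h : ‖g.1.1 u u‖ = 1) :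
    ‖g.1.1 v v‖ = 1 := by
  rcases eq_or_ne u v with rfl | huv
  · exact h
  obtain ⟨h1, h2, h3, -⟩ := six_pairs hw.1 hu hv huv
  rw [← sz_self (y := y)] at h ⊢
  by_contra hn
  obtain ⟨j, -, h4, h5⟩ := exists_row hg.2 hg.1 g.1.inv_mul v
  rcases cls hw v j h5 with rfl | rfl
  · exact hn h4
  obtain ⟨a', b', c1, c2, -, c3, c4⟩ := crs_pair hy hg.1 h1.2 h3 h h4
  rcases cls' hw hg.1 c4.not_lt with rfl | rfl
  · exact hn c4
  · exact h2.2 ((cls' hw hg.1 c3.not_lt).resolve_left c1 ▸ c2)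

theorem exists_wall_elt {y : I → ℝ} {s : ℝ} (hy : TS y s) {e a : I} (hw : RW y e a) :
    ∃ w ∈ Gx p y, w.1 ∈ EG ℚ_[p] ∧ ∀ (g : Matrix I I ℚ_[p]) (i j : I),
      sz y (w.1.1 * g) i j = sz y g (rf e a i) j ∧ sz y ((w⁻¹).1.1 * g) i j = sz y g (rf e a i) j ∧
      sz y (g * w.1.1) i j = sz y g i (rf e a j) ∧
      sz y (g * (w⁻¹).1.1) i j = sz y g i (rf e a j) := by
  obtain ⟨k, hk⟩ := hw.2.1
  have p0 : (p : ℚ_[p]) ≠ 0 := Nat.cast_ne_zero.2 (Fact.out : p.Prime).ne_zero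
  obtain ⟨w, hw', r, r', h1, h2⟩ := exists_wr hw.1 (Units.mk0 _ p0 ^ (-k))
  have hc : ∀ (r : I → ℤˣ) u, ‖((r u : ℤ) : ℚ_[p]) * ((Units.mk0 _ p0 ^ (-k)) ^ cr e a u : ℚ_[p]ˣ)‖ =
      (p : ℝ) ^ (y u - y (rf e a u)) := fun r u => by
    have : ‖((r u : ℤ) : ℚ_[p])‖ = 1 := by rcases Int.units_eq_one_or (r u) with h | h <;> simp [h]
    rw [norm_mul, this, one_mul, ← _root_.zpow_mul, Units.val_zpow_eq_zpow_val,
      Units.val_mk0, Padic.norm_p_zpow, hy.rf hw.1, sub_sub_cancel, hk, ← Real.rpow_intCast]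
    congr 1
    simp [mul_comm]
  obtain ⟨a1, a2, a3⟩ := mono hw.1 h1 (hc r)
  obtain ⟨b1, b2, b3⟩ := mono hw.1 h2 (hc r')
  exact ⟨⟨w, EG_le_Str hw'⟩, ⟨a3, b3⟩, hw', fun g i j => ⟨a1 g i j, b1 g i j, a2 g i j, b2 g i j⟩⟩

theorem root_step {y : I → ℝ} {s : ℝ} (hy : TS y s) {e a : I} (hw : RW y e a) :
    ∃ ε₀ : ℝ, 0 < ε₀ ∧ ∀ ε : ℝ, 0 < ε → ε < ε₀ → ∃ w ∈ Gx p y, w.1 ∈ EG ℚ_[p] ∧
      w ∉ Gx p (pt lv y ε) ∧ Gx p (pt lv y ε) ≤ Gx p y ∧
      Gx p (pt lv y (-ε)) = (Gx p (pt lv y ε)).map (MulAut.conj w).toMonoidHom ∧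
      ∀ g ∈ Gx p y, w⁻¹ * g ∉ Gx p (pt lv y ε) → Big lv g.1.1 := by
  wlog hlt : lv a < lv e generalizing e a
  · exact this hw.symm (lt_of_le_of_ne (not_lt.1 hlt) (lv_injective.ne hw.1.1))
  obtain ⟨ε₀, h0, H⟩ := exists_mem_Gx_pt (p := p) lv y
  obtain ⟨w, hwG, hE, hs⟩ := exists_wall_elt (p := p) hy hw
  refine ⟨ε₀, h0, fun ε e1 e2 => ?_⟩
  have P : ∀ g : Sp p, g ∈ Gx p (pt lv y ε) ↔ g ∈ Gx p y ∧ ∀ u, cr e a u = 1 →
      sz y g.1.1 (rf e a u) u < 1 ∧ sz y (g⁻¹).1.1 (rf e a u) u < 1 := fun g => by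
    rw [(H ε e1 e2 g).1]
    refine and_congr_right fun hg => ?_
    simp only [imp_and, forall_and, strict_iff hw hlt hg.1, strict_iff hw hlt hg.2]
  have M : ∀ g : Sp p, g ∈ Gx p (pt lv y (-ε)) ↔ g ∈ Gx p y ∧ ∀ u, cr e a u = 1 →
      sz y g.1.1 u (rf e a u) < 1 ∧ sz y (g⁻¹).1.1 u (rf e a u) < 1 := fun g => by
    rw [(H ε e1 e2 g).2]
    refine and_congr_right fun hg => ?_
    simp only [imp_and, forall_and, strict_iff' hw hlt hg.1, strict_iff' hw hlt hg.2]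
  have wl := fun g i j => (hs g i j).1
  have wl' := fun g i j => (hs g i j).2.1
  have wr := fun g i j => (hs g i j).2.2.1
  refine ⟨w, hwG, hE, fun h => ?_, fun g hg => ((P g).1 hg).1, ?_, fun g hg h => ?_⟩
  · have := (((P w).1 h).2 e (cr_left e a)).1
    rw [← Matrix.mul_one w.1.1, wl, rf_rf hw.1, sz_self] at this
    simp at this
  · ext g
    rw [Subgroup.mem_map_equiv, M, P, MulAut.conj_symm_apply]
    simp only [_root_.mul_inv_rev, inv_inv, Subgroup.coe_mul, Units.val_mul, wr, wl', rf_rf hw.1,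
      Subgroup.mul_mem_cancel_right _ hwG, Subgroup.mul_mem_cancel_left _ (inv_mem hwG)]
  · rw [P] at h
    simp only [_root_.mul_inv_rev, inv_inv, Subgroup.coe_mul, Units.val_mul, wr, wl', rf_rf hw.1,
      mul_mem (inv_mem hwG) hg, true_and, not_forall] at h
    obtain ⟨u, hu, h⟩ := h
    have h1 : u ≠ rf e a u := fun h' => by
      rw [(cr_eq_zero_iff hw.1).2 h'.symm] at hu
      exact zero_ne_one hu
    have h2 : ¬ sz y g.1.1 u u < 1 := fun b =>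
      h ⟨b, sz_dual hg.1 hg.2 g.1.mul_inv h1 (cls hw u) b⟩
    exact big_of_root hw hlt hg fun v hv => diag_unit hy hw hg hu hv
      ((sz_self u).symm.trans (le_antisymm (hg.1.sz_le u u) (not_lt.1 h2)))

end Pool.Agent.P.MP_3c2f8c_gt.Ex
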