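import Pool.Agent.P.MP_3c2f8c_gt.Ex.Lo.LDefs
import Pool.Agent.P.MP_3c2f8c_gt.Lo.Hk4

/-! EXL-HkE: the semigroup defined by bounds on minors. -/

namespace Pool.Agent.P.MP_3c2f8c_gt.Ex

open Matrix

variable {p : ℕ} [Fact p.Prime]

theorem HkEAux.sum_add_le {l : I → ℤ} {k : ℕ} {τ f : Fin k → I} (hτ : Function.Injective τ)
    (hf : Function.Injective f) (d : ℤ)
    (h : ∀ i a, (∀ a', τ a' ≠ i) → l i + d ≤ l (τ a)) :
    ∑ a, l (f a) + (Finset.univ.image f \ Finset.univ.image τ).card * d ≤ ∑ a, l (τ a) := by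
  have c : (Finset.univ.image f).card = (Finset.univ.image τ).card := by
    rw [Finset.card_image_of_injective _ hf, Finset.card_image_of_injective _ hτ]
  have e := Finset.equivOfCardEq (Finset.card_sdiff_comm c)
  have h1 : ∑ i ∈ Finset.univ.image f \ Finset.univ.image τ, (l i + d) ≤
      ∑ i ∈ Finset.univ.image τ \ Finset.univ.image f, l i := by
    rw [← Finset.sum_coe_sort, ← Finset.sum_coe_sort _ l, ← e.sum_comp]
    refine Finset.sum_le_sum fun i _ => ?_
    obtain ⟨a, -, ha⟩ := Finset.mem_image.1 (Finset.mem_sdiff.1 (e i).2).1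
    rw [← ha]
    exact h i a fun a' h' => (Finset.mem_sdiff.1 i.2).2 (Finset.mem_image.2 ⟨a', by simp, h'⟩)
  rw [Finset.sum_add_distrib, Finset.sum_const, nsmul_eq_mul] at h1
  have h2 := Finset.sum_sdiff_sub_sum_sdiff (s₁ := Finset.univ.image f) (s₂ := Finset.univ.image τ)
    (f := l)
  rw [Finset.sum_image hf.injOn, Finset.sum_image hτ.injOn] at h2
  linarith

theorem inS_of_big {l : I → ℤ} {y : I → ℝ} {t : ℝ} {g : Matrix I I ℚ_[p]}
    (hg : Wb (pt l y t) g) (hb : Big l g) : InS l y t t 0 g := fun k τ hτ => by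
  refine ⟨fun f f' _ _ => ?_, by simpa using hb k τ hτ⟩
  rw [det_apply']
  refine IsUltrametricDist.norm_sum_le_of_forall_le_of_nonneg (Real.rpow_nonneg Hk4Aux.pos.le _)
    fun σ _ => ?_
  have h1 : ‖((Equiv.Perm.sign σ : ℤ) : ℚ_[p])‖ = 1 := by
    rcases Int.units_eq_one_or (Equiv.Perm.sign σ) with h | h <;> simp [h]
  rw [norm_mul, h1, one_mul, norm_prod]
  refine (Finset.prod_le_prod (fun _ _ => norm_nonneg _) fun a _ => hg (f (σ a)) (f' a)).trans
    (le_of_eq ?_)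
  rw [← Real.rpow_sum_of_pos Hk4Aux.pos, Finset.sum_sub_distrib,
    Equiv.sum_comp σ fun a => pt l y t (f a)]
  simp only [pt, Finset.sum_add_distrib, ← Finset.mul_sum]
  congr 1
  push_cast
  ring

theorem Top.sum_le {l : I → ℤ} {k : ℕ} {τ : Fin k → I} (hτ : Top l τ) {f : Fin k → I}
    (hf : Function.Injective f) : ∑ a, l (f a) ≤ ∑ a, l (τ a) := by
  simpa using HkEAux.sum_add_le (l := l) hτ.1 hf 0 fun i a h => by
    rw [add_zero]
    exact not_lt.1 fun h' => (hτ.2 a i h').elim h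

theorem Top.sum_lt {l : I → ℤ} (hl : Function.Injective l) {k : ℕ} {τ : Fin k → I}
    (hτ : Top l τ) {f : Fin k → I} (hf : Function.Injective f)
    (hne : Set.range f ≠ Set.range τ) : ∑ a, l (f a) < ∑ a, l (τ a) := by
  have h1 := HkEAux.sum_add_le (l := l) hτ.1 hf 1 fun i a h =>
    lt_of_le_of_ne (not_lt.1 fun h' => (hτ.2 a i h').elim h) fun h' => h a (hl h').symm
  have h2 : (Finset.univ.image f \ Finset.univ.image τ).card ≠ 0 := fun h => hne (by
    have := Finset.eq_of_subset_of_card_le (Finset.sdiff_eq_empty_iff_subset.1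
      (Finset.card_eq_zero.1 h)) (by
        rw [Finset.card_image_of_injective _ hf, Finset.card_image_of_injective _ hτ.1])
    simpa using congrArg (fun s : Finset I => (s : Set I)) this)
  omega

theorem HkEAux.sum_le {l : I → ℤ} {k : ℕ} {τ : Fin k → I} (hτ : Top l τ) {f : Fin k → I}
    (hf : Function.Injective f) : ∑ a, (l (f a) : ℝ) - ∑ a, (l (τ a) : ℝ) ≤ 0 := by
  rw [sub_nonpos]
  exact_mod_cast hτ.sum_le hf

theorem InS.mono {l : I → ℤ} {y : I → ℝ} {s t s' t' : ℝ} {c : ℕ} {g : Matrix I I ℚ_[p]}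
    (h : InS l y s t c g) (hs : s' ≤ s) (ht : t ≤ t') : InS l y s' t' c g := fun k τ hτ => by
  refine ⟨fun f f' hf hf' => ((h k τ hτ).1 f f' hf hf').trans
    (Real.rpow_le_rpow_of_exponent_le Hk4Aux.one_lt.le ?_), (h k τ hτ).2⟩
  linarith [mul_le_mul_of_nonpos_right hs (HkEAux.sum_le hτ hf),
    mul_le_mul_of_nonpos_right ht (HkEAux.sum_le hτ hf')]

theorem InS.mul {l : I → ℤ} (hl : Function.Injective l) {y : I → ℝ} {s t s' t' : ℝ} {c c' : ℕ}
    {g h : Matrix I I ℚ_[p]} (hg : InS l y s t c g) (hh : InS l y s' t' c' h) (hts : t < s') :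
    InS l y s t' (c + c') (g * h) := fun k τ hτ => by
  obtain ⟨T, hT, cb⟩ := Hk4Aux.cauchy_binet' (R := ℚ_[p]) hτ.1
  have cb' : ∀ f f' : Fin k → I, ((g * h).submatrix f f').det =
      (g.submatrix f τ).det * (h.submatrix τ f').det +
        ∑ e ∈ T, (g.submatrix f e).det * (h.submatrix e f').det := fun f f' =>
    cb (g.submatrix f id) (h.submatrix id f')
  have key : ∀ f e f' : Fin k → I, Function.Injective f → Function.Injective e →
      Function.Injective f' → ‖(g.submatrix f e).det * (h.submatrix e f').det‖ ≤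
        (p : ℝ) ^ (∑ a, y (f a) - ∑ a, y (f' a) + s * (∑ a, (l (f a) : ℝ) - ∑ a, (l (τ a) : ℝ)) -
          t' * (∑ a, (l (f' a) : ℝ) - ∑ a, (l (τ a) : ℝ)) + (c + c' : ℕ) * ∑ a, (l (τ a) : ℝ) +
          (s' - t) * (∑ a, (l (e a) : ℝ) - ∑ a, (l (τ a) : ℝ))) := fun f e f' hf he hf' => by
    rw [norm_mul]
    refine (mul_le_mul ((hg k τ hτ).1 f e hf he) ((hh k τ hτ).1 e f' he hf') (norm_nonneg _)
      (Real.rpow_nonneg Hk4Aux.pos.le _)).trans (le_of_eq ?_)
    rw [← Real.rpow_add Hk4Aux.pos]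
    congr 1
    push_cast
    ring
  refine ⟨fun f f' hf hf' => ?_, ?_⟩
  · have k2 := fun e he => (key f e f' hf he hf').trans (Real.rpow_le_rpow_of_exponent_le Hk4Aux.one_lt.le
      (add_le_of_nonpos_right (mul_nonpos_of_nonneg_of_nonpos (sub_nonneg.2 hts.le) (HkEAux.sum_le hτ he))))
    rw [cb']
    exact (IsUltrametricDist.norm_add_le_max _ _).trans (max_le (k2 τ hτ.1)
      (IsUltrametricDist.norm_sum_le_of_forall_le_of_nonneg (Real.rpow_nonneg Hk4Aux.pos.le _)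
        fun e he => k2 e (hT e he).1))
  · have h1 : ‖(g.submatrix τ τ).det * (h.submatrix τ τ).det‖ =
        (p : ℝ) ^ ((c + c' : ℕ) * ∑ a, (l (τ a) : ℝ)) := by
      rw [norm_mul, (hg k τ hτ).2, (hh k τ hτ).2, ← Real.rpow_add Hk4Aux.pos, Nat.cast_add, add_mul]
    have h2 : ‖∑ e ∈ T, (g.submatrix τ e).det * (h.submatrix e τ).det‖ <
        (p : ℝ) ^ ((c + c' : ℕ) * ∑ a, (l (τ a) : ℝ)) := by
      refine (IsUltrametricDist.norm_sum_le_of_forall_le_of_nonneg (C := (p : ℝ) ^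
        ((c + c' : ℕ) * ∑ a, (l (τ a) : ℝ) - (s' - t))) (Real.rpow_nonneg Hk4Aux.pos.le _)
        fun e he => (key τ e τ hτ.1 (hT e he).1 hτ.1).trans
          (Real.rpow_le_rpow_of_exponent_le Hk4Aux.one_lt.le ?_)).trans_lt
        (Real.rpow_lt_rpow_of_exponent_lt Hk4Aux.one_lt (by linarith))
      have : ∑ a, (l (e a) : ℝ) + 1 ≤ ∑ a, (l (τ a) : ℝ) := by
        exact_mod_cast hτ.sum_lt hl (hT e he).1 (hT e he).2
      nlinarith
    rw [cb', IsUltrametricDist.norm_add_eq_max_of_norm_ne_norm (h1 ▸ h2.ne'), h1,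
      max_eq_left h2.le]

theorem InS.mul_shift {l : I → ℤ} {y : I → ℝ} {s t : ℝ} {c : ℕ} {g : Matrix I I ℚ_[p]}
    (hg : InS l y s (t + 1) c g) :
    InS l y s t (c + 1) (g * diagonal fun i => (p : ℚ_[p]) ^ (-l i)) := fun k τ hτ => by
  have key : ∀ f f' : Fin k → I,
      ‖((g * diagonal fun i => (p : ℚ_[p]) ^ (-l i)).submatrix f f').det‖ =
        ‖(g.submatrix f f').det‖ * (p : ℝ) ^ ∑ a, (l (f' a) : ℝ) := fun f f' => by
    have : (g * diagonal fun i => (p : ℚ_[p]) ^ (-l i)).submatrix f f' =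
        g.submatrix f f' * diagonal fun a => (p : ℚ_[p]) ^ (-l (f' a)) := by
      ext a b
      simp only [submatrix_apply, mul_diagonal]
    rw [this, det_mul, det_diagonal, norm_mul, norm_prod, Real.rpow_sum_of_pos Hk4Aux.pos]
    simp only [Padic.norm_p_zpow, neg_neg, Real.rpow_intCast]
  refine ⟨fun f f' hf hf' => ?_, ?_⟩
  · rw [key]
    refine (mul_le_mul_of_nonneg_right ((hg k τ hτ).1 f f' hf hf')
      (Real.rpow_nonneg Hk4Aux.pos.le _)).trans (le_of_eq ?_)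
    rw [← Real.rpow_add Hk4Aux.pos]
    congr 1
    push_cast
    ring
  · rw [key, (hg k τ hτ).2, ← Real.rpow_add Hk4Aux.pos, Nat.cast_succ, add_one_mul]

end Pool.Agent.P.MP_3c2f8c_gt.Ex
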