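import Pool.Agent.P.MP_3c2f8c_gt.Ex.Lo.Rt2

/-! EXL-HkG: a line in general position. -/

namespace Pool.Agent.P.MP_3c2f8c_gt.Ex

open Matrix

namespace HkGAux

/-- The inverse of `lv`. -/
def inv (x : ℤ) : I := dec ((0x1900280000000000000000000182000000000d0000000010000000000000000018000000000110000004d2000000002a0580100000a0010000017282c3000000000000000000003000000000001a004800000000000000000001c2000000000f00000000e0 >>> (5 * (x + 80).toNat)) % 32)

theorem inv_lv : ∀ v, inv (lv v) = v := by decide +kernel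

theorem eq_inv {a b u v : I} (e : ∀ j, wt u j - wt v j = wt a j - wt b j) :
    v = inv (lv u - lv a + lv b) := by
  have h : lv v = lv u - lv a + lv b := by
    have e' : ∀ j, wt v j = wt u j - wt a j + wt b j := fun j => by linarith [e j]
    rw [ts_lv.eq_sum v, ts_lv.eq_sum u, ts_lv.eq_sum a, ts_lv.eq_sum b]
    simp only [e', add_smul, sub_smul, Finset.sum_add_distrib, Finset.sum_sub_distrib]
    ring
  rw [← h, inv_lv]

/-- The check for one quadruple. -/
def Ok (a b u v : I) : Prop :=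
  (∀ j, wt u j - wt v j = wt a j - wt b j) → (Adj a b → u = a) ∧ (¬ Adj a b → v = rf a b u)

instance (a b u v : I) : Decidable (Ok a b u v) := inferInstanceAs (Decidable (_ → _ ∧ _))

theorem chk : ∀ a b u, a ≠ b → Ok a b u (inv (lv u - lv a + lv b)) := by decide +kernel

end HkGAux

open HkGAux

theorem wt_primitive : ∀ a b : I, a ≠ b → ∃ j, wt a j - wt b j = 1 ∨ wt a j - wt b j = -1 := by
  decide +kernel

theorem eq_of_wt_adj {a b u v : I} (h : Adj a b) (e : ∀ j, wt u j - wt v j = wt a j - wt b j) :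
    u = a ∧ v = b := by
  have h1 := eq_inv e
  have h2 := (chk a b u (fun h' => not_adj_self a (h' ▸ h)) (h1 ▸ e)).1 h
  rw [h1, h2, sub_self, zero_add, inv_lv]
  exact ⟨rfl, rfl⟩

theorem eq_of_wt_rt {e a u v : I} (h : Rt e a) (h' : ∀ j, wt u j - wt v j = wt e j - wt a j) :
    v = rf e a u := by
  have h1 := eq_inv h'
  exact h1.trans ((chk e a u h.1 (h1 ▸ h')).2 h.2)

namespace HkGAux

open Polynomial

/-- The base point as a vector of polynomials. -/
noncomputable def Y (a : I) : ℤ[X] := ∑ j : Fin 7, wt a j • X ^ (j.1 + 1)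

theorem coeff_Y (a : I) (c : Fin 7) : (Y a).coeff (c + 1) = wt a c := by
  simp [Y, coeff_X_pow, Fin.val_inj]

theorem key {θ t : ℝ} (hθ : Transcendental ℤ θ) {a b u v : I} (h : a ≠ b) (h' : u ≠ v)
    (hk : ∃ k : ℤ, pt lv (fun i => aeval θ (Y i)) t a - pt lv (fun i => aeval θ (Y i)) t b = k)
    (hk' : ∃ k : ℤ, pt lv (fun i => aeval θ (Y i)) t u - pt lv (fun i => aeval θ (Y i)) t v = k) :
    (∀ j, wt u j - wt v j = wt a j - wt b j) ∨ ∀ j, wt v j - wt u j = wt a j - wt b j := by
  obtain ⟨k, hk⟩ := hk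
  obtain ⟨k', hk'⟩ := hk'
  have e : C (lv u - lv v) * (Y a - Y b - C k) = C (lv a - lv b) * (Y u - Y v - C k') := by
    apply transcendental_iff_injective.1 hθ
    simp only [pt] at hk hk'
    simp only [map_mul, map_sub, eq_intCast, map_intCast]
    linear_combination ((lv u : ℝ) - lv v) * hk - ((lv a : ℝ) - lv b) * hk'
  have e1 : ∀ c, (lv u - lv v) * (wt a c - wt b c) = (lv a - lv b) * (wt u c - wt v c) := fun c => by
    have := congrArg (fun P => Polynomial.coeff P (c + 1)) e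
    simpa only [coeff_C_mul, coeff_sub, coeff_Y, coeff_C_succ, sub_zero] using this
  have hL := sub_ne_zero.2 (lv_injective.ne h)
  generalize lv u - lv v = L' at e1
  generalize lv a - lv b = L at e1 hL
  obtain ⟨i, hi⟩ := wt_primitive a b h
  obtain ⟨j, hj⟩ := wt_primitive u v h'
  have d1 : L ∣ L' := by
    have := Dvd.intro _ (e1 i).symm
    rcases hi with hi | hi <;> simpa [hi] using this
  have d2 : L' ∣ L := by
    have := Dvd.intro _ (e1 j)
    rcases hj with hj | hj <;> simpa [hj] using this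
  rcases Int.natAbs_eq_natAbs_iff.1 (Int.natAbs_eq_of_dvd_dvd d2 d1) with rfl | rfl
  · exact Or.inl fun c => (mul_left_cancel₀ hL (e1 c)).symm
  · exact Or.inr fun c => mul_left_cancel₀ hL (by linarith [e1 c])

end HkGAux

theorem exists_line : ∃ (y : I → ℝ) (s : ℝ), TS y s ∧ ∀ t, Generic (pt lv y t) ∨
    (∃ a b, FW (pt lv y t) a b) ∨ ∃ e a, RW (pt lv y t) e a := by
  have hθ := transcendental_liouvilleNumber (m := 2) le_rfl
  generalize liouvilleNumber (2 : ℕ) = θ at hθ
  refine ⟨fun i => Polynomial.aeval θ (Y i), θ ^ 7, ?_, fun t => ?_⟩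
  · simpa [Y] using ts_wt fun j : Fin 7 => θ ^ (j.1 + 1)
  refine or_iff_not_imp_left.2 fun hG => ?_
  simp only [Generic, not_forall, not_not] at hG
  obtain ⟨a, b, h, hk⟩ := hG
  by_cases hab : Adj a b
  · exact Or.inl ⟨a, b, hab, fun u v h' hk' => (key hθ h h' hk hk').imp (eq_of_wt_adj hab)
      fun e => (eq_of_wt_adj hab e).symm⟩
  · refine Or.inr ⟨a, b, ⟨h, hab⟩, hk, fun u v h' hk' => ?_⟩
    rcases key hθ h h' hk hk' with e | e
    · exact eq_of_wt_rt ⟨h, hab⟩ e
    · rw [eq_of_wt_rt ⟨h, hab⟩ e, rf_rf ⟨h, hab⟩]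

end Pool.Agent.P.MP_3c2f8c_gt.Ex
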