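import Pool.Agent.P.MP_3c2f8c_gt.Ex.Lo.HkC
import Pool.Agent.P.MP_3c2f8c_gt.Ex.Lo.HkD
import Pool.Agent.P.MP_3c2f8c_gt.Ex.Lo.HkE
import Pool.Agent.P.MP_3c2f8c_gt.Ex.Lo.HkG
import Pool.Agent.P.MP_3c2f8c_gt.Ex.Lo.UN1
import Pool.Agent.P.MP_3c2f8c_gt.Lo.Hk6

/-! EXL-HkH: the Hecke operator of the split group. -/

namespace Pool.Agent.P.MP_3c2f8c_gt.Ex

open Matrix

variable {p : ℕ} [Fact p.Prime]

namespace HkHAux

theorem pt_pt (l : I → ℤ) (y : I → ℝ) (t u : ℝ) : pt l (pt l y t) u = pt l y (t + u) := by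
  funext i
  simp only [pt]
  ring

theorem generic_add_one {l : I → ℤ} {y : I → ℝ} {t : ℝ} (h : Generic (pt l y t)) :
    Generic (pt l y (t + 1)) := fun i j hij k hk => h i j hij (k - (l i - l j)) (by
  simp only [pt] at hk ⊢
  push_cast
  linarith)

theorem conj_conj {O : Type} [Group O] (A : Subgroup O) (w w' : O) :
    (A.map (MulAut.conj w').toMonoidHom).map (MulAut.conj w).toMonoidHom =
      A.map (MulAut.conj (w * w')).toMonoidHom := by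
  rw [Subgroup.map_map, map_mul]
  rfl

theorem conj_one {O : Type} [Group O] (A : Subgroup O) :
    A.map (MulAut.conj (1 : O)).toMonoidHom = A := by
  rw [map_one]
  exact A.map_id

theorem step (hp : p ≠ 2) {y : I → ℝ} {s : ℝ} (hy : TS y s)
    (hw : (∃ a b, FW y a b) ∨ ∃ e a, RW y e a) : ∃ ε₀ : ℝ, 0 < ε₀ ∧ ∀ ε : ℝ, 0 < ε → ε < ε₀ →
      Gx p (pt lv y (-ε)) = Gx p (pt lv y ε) ∨
        Corr (Gx p (pt lv y (-ε))) (Gx p (pt lv y ε)) {g | g ∈ Gx p y ∧ Big lv g.1.1} ∧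
          ∃ w : Sp p, w.1 ∈ EG ℚ_[p] ∧
            Gx p (pt lv y (-ε)) = (Gx p (pt lv y ε)).map (MulAut.conj w).toMonoidHom := by
  rcases hw with ⟨a, b, hw⟩ | ⟨e, a, hw⟩
  · obtain ⟨ε₀, e0, e1⟩ := false_step hp hy hw
    exact ⟨ε₀, e0, fun ε h1 h2 => .inl (e1 ε h1 h2)⟩
  · obtain ⟨ε₀, e0, e1⟩ := root_step (p := p) hy hw
    refine ⟨ε₀, e0, fun ε h1 h2 => .inr ?_⟩
    obtain ⟨w, w1, w0, w2, w3, w4, w5⟩ := e1 ε h1 h2
    refine ⟨?_, w, w0, w4⟩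
    rw [w4]
    exact (corr_wall w3 ((co_Gx _).relIndex_ne_zero (co_Gx _)) w1 w2).mono fun g hg =>
      ⟨hg.1, w5 g hg.1 hg.2⟩

theorem interval (hp : p ≠ 2) {y : I → ℝ} {s₀ : ℝ} (hy : TS y s₀)
    (hw : ∀ t, Generic (pt lv y t) ∨ (∃ a b, FW (pt lv y t) a b) ∨ ∃ e a, RW (pt lv y t) e a)
    {s : ℝ} (hs : Generic (pt lv y s)) (n : ℕ) : ∀ t, s ≤ t → Generic (pt lv y t) →
      {u | s ≤ u ∧ u ≤ t ∧ ¬ Generic (pt lv y u)}.ncard = n →
      Corr (Gx p (pt lv y s)) (Gx p (pt lv y t)) {g | InS lv y s t 0 g.1.1} ∧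
        ∃ w : Sp p, w.1 ∈ EG ℚ_[p] ∧
          Gx p (pt lv y s) = (Gx p (pt lv y t)).map (MulAut.conj w).toMonoidHom := by
  induction n using Nat.strong_induction_on with
  | _ n ih =>
  intro t hst ht hn
  have fin := finite_not_generic lv_injective y s t
  rcases {u | s ≤ u ∧ u ≤ t ∧ ¬ Generic (pt lv y u)}.eq_empty_or_nonempty with he | hne
  · rw [← Gx_pt_eq lv y hst fun u h1 h2 => by
      by_contra h
      exact Set.eq_empty_iff_forall_notMem.1 he u ⟨h1, h2, h⟩]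
    exact ⟨(corr_refl _).mono fun g hg =>
      (inS_of_big hg.1 (big_of_generic lv hs hg)).mono le_rfl hst, 1, one_mem _, (conj_one _).symm⟩
  obtain ⟨c, ⟨c1, c2, c3⟩, cmax⟩ := Set.exists_max_image _ id fin hne
  have c4 : s < c := lt_of_le_of_ne c1 fun h => c3 (h ▸ hs)
  have c5 : c < t := lt_of_le_of_ne c2 fun h => c3 (h ▸ ht)
  obtain ⟨ε₀, e0, e1⟩ := step hp (ts_pt hy c) ((hw c).resolve_left c3)
  obtain ⟨u, ⟨u1, u2⟩, u3⟩ := (Set.Ioo_infinite (show max s (max (c - ε₀) (c - (t - c))) < c by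
    simp only [max_lt_iff]
    exact ⟨c4, by linarith, by linarith⟩)).exists_notMem_finite fin
  simp only [max_lt_iff] at u1
  obtain ⟨u4, u5, u6⟩ := u1
  have u7 : Generic (pt lv y u) := by
    by_contra h
    exact u3 ⟨u4.le, by linarith, h⟩
  obtain ⟨k1, w, w1, w2⟩ := ih _ (hn ▸ Set.ncard_lt_ncard
    (s := {v | s ≤ v ∧ v ≤ u ∧ ¬ Generic (pt lv y v)})
    ⟨fun v hv => ⟨hv.1, hv.2.1.trans (by linarith), hv.2.2⟩,
      fun h => absurd (h ⟨c1, c2, c3⟩).2.1 (by linarith)⟩ fin) u u4.le u7 rfl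
  have k2 := e1 (c - u) (by linarith) (by linarith)
  rw [pt_pt, pt_pt, show c + -(c - u) = u by ring,
    Gx_pt_eq lv y (show c + (c - u) ≤ t by linarith) fun v h1 h2 => by
      by_contra h
      have := cmax v ⟨by linarith, h2, h⟩
      simp only [id] at this
      linarith] at k2
  rcases k2 with k2 | ⟨k2, w', w3, w4⟩
  · rw [← k2]
    exact ⟨k1.mono fun g hg => InS.mono hg le_rfl (by linarith), w, w1, w2⟩
  · refine ⟨k1.comp k2 fun g hg g' hg' =>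
      (InS.mul lv_injective hg (inS_of_big hg'.1.1 hg'.2) u2).mono le_rfl c2, w * w',
        mul_mem w1 w3, ?_⟩
    rw [w2, w4, conj_conj]

end HkHAux

open HkHAux

theorem corr_interval (hp : p ≠ 2) {y : I → ℝ} {s₀ : ℝ} (hy : TS y s₀)
    (hw : ∀ t, Generic (pt lv y t) ∨ (∃ a b, FW (pt lv y t) a b) ∨ ∃ e a, RW (pt lv y t) e a)
    {s t : ℝ} (hst : s ≤ t) (hs : Generic (pt lv y s)) (ht : Generic (pt lv y t)) :
    Corr (Gx p (pt lv y s)) (Gx p (pt lv y t)) {g | InS lv y s t 0 g.1.1} ∧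
      ∃ w : Sp p, w.1 ∈ EG ℚ_[p] ∧
        Gx p (pt lv y s) = (Gx p (pt lv y t)).map (MulAut.conj w).toMonoidHom :=
  interval hp hy hw hs _ t hst ht rfl

theorem hecke_Sp (hp : p ≠ 2) : ∃ (x y : I → ℝ) (s t : ℝ) (𝒮 : Subsemigroup (Sp p)) (n : Sp p),
    t < s ∧ Corr (Gx p x) (Gx p x) (𝒮 : Set (Sp p)) ∧
      (∀ g ∈ 𝒮, ∃ c, 0 < c ∧ InS lv y s t c g.1.1) ∧
      n ∈ Subgroup.normalizer (Gx p x : Set (Sp p)) ∧
      Sim (nZ ℚ_[p]) (nZ ℚ_[p]) n.1.1 (p : ℚ_[p])⁻¹ := by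
  obtain ⟨y, s₀, hy, hw⟩ := exists_line
  obtain ⟨δ, d0, d1, d3⟩ : ∃ δ : ℝ, 0 < δ ∧ δ ≤ 1 ∧ ∀ u, 0 < u → u < δ → Generic (pt lv y u) := by
    have fin : {u | 0 < u ∧ u ≤ 1 ∧ ¬ Generic (pt lv y u)}.Finite :=
      (finite_not_generic lv_injective y 0 1).subset fun u hu => ⟨hu.1.le, hu.2⟩
    obtain ⟨m, m1, m2⟩ := Set.exists_min_image _ id (fin.insert 1) (Set.insert_nonempty _ _)
    have m3 : m ≤ 1 := m2 1 (Set.mem_insert _ _)
    have m4 : 0 < m := by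
      rcases m1 with h | h
      · rw [h]; exact one_pos
      · exact h.1
    refine ⟨m, m4, m3, fun u h1 h2 => ?_⟩
    by_contra h
    exact absurd (m2 u (Set.mem_insert_of_mem _ ⟨h1, by linarith, h⟩)) (not_le.2 h2)
  obtain ⟨σ, s1, s0, s2⟩ := exists_shift (p := p)
  obtain ⟨k1, w, w1, w2⟩ := corr_interval hp hy hw (show 3 * δ / 4 ≤ δ / 4 + 1 by linarith)
    (d3 _ (by linarith) (by linarith)) (generic_add_one (d3 _ (by linarith) (by linarith)))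
  rw [← Gx_pt_eq lv y (show δ / 4 ≤ 3 * δ / 4 by linarith)
    fun u h1 h2 => d3 u (by linarith) (by linarith)] at k1 w2
  rw [s2, conj_conj] at w2
  refine ⟨pt lv y (δ / 4), y, 3 * δ / 4, δ / 2,
    ⟨{g | ∃ c, 0 < c ∧ InS lv y (3 * δ / 4) (δ / 2) c g.1.1}, ?_⟩, w * σ, by linarith, ?_,
    fun g hg => hg, Subgroup.mem_normalizer_iff_map_conj_eq.2 w2.symm, ?_⟩
  · rintro g h ⟨c, c1, c2⟩ ⟨c', -, c3⟩
    exact ⟨c + c', by omega, InS.mul lv_injective c2 c3 (by linarith)⟩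
  · have k2 := corr_shift (Gx p (pt lv y (δ / 4))) σ
    rw [← s2] at k2
    refine k1.comp k2 fun g hg g' hg' => ⟨0 + 0 + 1, by omega, ?_⟩
    have a1 : g' * σ⁻¹ ∈ Gx p (pt lv y (δ / 2 + 1)) := by
      rw [← Gx_pt_eq lv y (show δ / 4 + 1 ≤ δ / 2 + 1 by linarith) fun u h1 h2 => by
        have := generic_add_one (d3 (u - 1) (by linarith) (by linarith))
        rwa [sub_add_cancel] at this]
      exact hg'
    have a2 := inS_of_big a1.1
      (big_of_generic lv (generic_add_one (d3 _ (by linarith) (by linarith))) a1)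
    have a3 := (InS.mul lv_injective hg a2 (by linarith)).mul_shift
    have a4 : g * g' = g * (g' * σ⁻¹) * σ := by group
    rw [a4, ← s1] at *
    exact a3
  · have := Sim.mul (mem_Inv1.1 (EG_le w1)) s0
    rwa [one_mul] at this

end Pool.Agent.P.MP_3c2f8c_gt.Ex
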