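import Pool.Agent.P.MP_3c2f8c_gt.Ex.Lo.Nd

/-! EXL-Ir3: ideals of the split Lie algebra. -/

namespace Pool.Agent.P.MP_3c2f8c_gt.Ex

open Matrix

namespace Ir3Aux

variable {A : Type} [CommRing A] {e a u v : I}

theorem lie_diag {d : I → A} {s : A} (hd : TS d s) (h : Rt e a) :
    Er A e a * diagonal d - diagonal d * Er A e a = (d a - d e) • Er A e a := by
  ext u w
  have h1 : Er A e a u w = ((Er ℤ e a u w : ℤ) : A) := by
    rw [← Er_map (Int.castRingHom A)]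
    rfl
  rw [Matrix.sub_apply, mul_diagonal, diagonal_mul, Matrix.smul_apply, smul_eq_mul]
  by_cases h0 : Er ℤ e a u w = 0
  · rw [h1, h0]
    simp
  · obtain ⟨h2, h3⟩ := (Er_ne_iff h).1 h0
    rw [h3, hd.rf h u, h2, one_smul]
    ring

/-- Four roots that are not orthogonal to a fixed one. -/
def L : List I := [.inr (1, 4), .inr (1, 2), .inr (1, 1), .inr (1, 0)]

theorem L_spec : ∀ w ∈ L, Rt (.inl 0) w ∧ cr (.inl 0) w (.inl 0) ≠ cr (.inl 0) w (.inr (1, 3)) ∧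
    cr (.inl 0) (.inr (1, 3)) (.inl 0) ≠ cr (.inl 0) (.inr (1, 3)) w := by decide +kernel

theorem L_out : ∀ e a, Rt e a → ∃ w ∈ L, cr e a (.inl 0) ≠ cr e a w := by decide +kernel

theorem L_in : ∀ u v, Rt u v → ∃ w ∈ L, cr (.inl 0) w u ≠ cr (.inl 0) w v := by decide +kernel

theorem rt0 : Rt (.inl 0) (.inr (1, 3)) := by decide +kernel

variable [Algebra ℚ A] {W : Submodule A (Matrix I I A)} {c : A}

theorem to_dg (h : ∀ X ∈ D0 (nZ A), ∀ Y ∈ W, X * Y - Y * X ∈ W) (hr : Rt e a)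
    (hc : c • Er A e a ∈ W) : c • dgz A (cr e a) ∈ W := by
  have h1 := W.neg_mem (h _ (der_Er hr.symm) _ hc)
  rwa [Matrix.mul_smul, Matrix.smul_mul, ← smul_sub, ← smul_neg, neg_sub, Er_lie hr] at h1

theorem step (h : ∀ X ∈ D0 (nZ A), ∀ Y ∈ W, X * Y - Y * X ∈ W) (hr : Rt e a)
    (hc : c • Er A e a ∈ W) (hu : Rt u v) (hne : cr e a u ≠ cr e a v) : c • Er A u v ∈ W := by
  have h1 := h _ (der_Er hu) _ (to_dg h hr hc)
  have h2 : TS (fun x => ((cr e a x : ℤ) : A)) ((0 : ℤ) : A) :=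
    (ts_cr hr).map (Int.castAddHom A)
  rw [Matrix.mul_smul, Matrix.smul_mul, ← smul_sub, dgz, lie_diag h2 hu, smul_comm,
    ← Int.cast_sub] at h1
  have h3 : ((cr e a v - cr e a u : ℤ) : ℚ) ≠ 0 := by
    exact_mod_cast sub_ne_zero.2 hne.symm
  have h4 := W.smul_of_tower_mem ((cr e a v - cr e a u : ℤ) : ℚ)⁻¹ h1
  rwa [Int.cast_smul_eq_zsmul, ← Int.cast_smul_eq_zsmul ℚ, smul_smul, inv_mul_cancel₀ h3,
    one_smul] at h4

theorem all_roots (h : ∀ X ∈ D0 (nZ A), ∀ Y ∈ W, X * Y - Y * X ∈ W) (hr : Rt e a)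
    (hc : c • Er A e a ∈ W) (hu : Rt u v) : c • Er A u v ∈ W := by
  obtain ⟨w, hw, h1⟩ := L_out e a hr
  obtain ⟨w', hw', h2⟩ := L_in u v hu
  obtain ⟨a1, a2, -⟩ := L_spec w hw
  obtain ⟨b1, -, b3⟩ := L_spec w' hw'
  exact step h b1 (step h rt0 (step h a1 (step h hr hc a1 h1) rt0 a2) b1 b3) hu h2

end Ir3Aux

open Ir3Aux in
theorem ideal_D0 {A : Type} [CommRing A] [Algebra ℚ A] {W : Submodule A (Matrix I I A)}
    (hW : W ≤ D0 (nZ A)) (h0 : W ≠ ⊥) (h : ∀ X ∈ D0 (nZ A), ∀ Y ∈ W, X * Y - Y * X ∈ W) :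
    ∃ c : A, c ≠ 0 ∧ ∀ X ∈ D0 (nZ A), c • X ∈ W := by
  obtain ⟨X, hX, hX0⟩ := Submodule.exists_mem_ne_zero_of_ne_bot h0
  obtain ⟨e, a, hr, c, hc0, hc⟩ : ∃ e a, Rt e a ∧ ∃ c : A, c ≠ 0 ∧ c • Er A e a ∈ W := by
    obtain ⟨e, a, hr, h1 | ⟨h1, h2⟩⟩ := exists_entry_ne (hW hX) hX0
    · refine ⟨e, a, hr, X a e, h1, ?_⟩
      have h2 := h _ (der_Er hr) _ (h _ (der_Er hr) _ hX)
      have h3 := Der.Er_mul_Er (hW hX) hr
      have h4 : Er A e a * (Er A e a * X - X * Er A e a) - (Er A e a * X - X * Er A e a) *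
          Er A e a = (-2 : ℚ) • (X a e • Er A e a) := by
        rw [Matrix.mul_sub, Matrix.sub_mul, ← Matrix.mul_assoc, ← Matrix.mul_assoc,
          Matrix.mul_assoc X, Er_mul_self hr, h3, Matrix.zero_mul, Matrix.mul_zero, neg_smul,
          two_smul]
        abel
      have h5 := W.smul_of_tower_mem (-2 : ℚ)⁻¹ h2
      rwa [h4, smul_smul, inv_mul_cancel₀ (by norm_num), one_smul] at h5
    · refine ⟨e, a, hr, X a a - X e e, sub_ne_zero.2 h2.symm, ?_⟩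
      have h3 : TS (fun u => X u u) 0 := der_diagonal_iff.1 (Der.diag (hW hX))
      have h4 := h _ (der_Er hr) _ hX
      rwa [h1, lie_diag h3 hr] at h4
  refine ⟨c, hc0, fun Y hY => ?_⟩
  have h3 : TS (fun u => Y u u) 0 := der_diagonal_iff.1 (Der.diag hY)
  rw [Der.decomp hY, smul_add, smul_comm c, Finset.smul_sum]
  refine W.add_mem ?_ (W.smul_of_tower_mem _ (W.sum_mem fun w _ => ?_))
  · refine TS.induction (fun v => c • diagonal v ∈ W) (fun v w hv hw => ?_)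
      (fun u v hu t => ?_) h3
    · have : diagonal (v + w) = diagonal v + diagonal w := (diagonal_add v w).symm
      rw [this, smul_add]
      exact W.add_mem hv hw
    · have : diagonal (fun x => cr u v x • t) = t • dgz A (cr u v) := by
        rw [dgz, ← diagonal_smul]
        congr 1
        funext x
        simp [mul_comm]
      rw [this, smul_comm]
      exact W.smul_mem _ (to_dg h hu (all_roots h hr hc hu))
  · split_ifs with hw
    · rw [smul_comm]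
      exact W.smul_mem _ (all_roots h hr hc hw)
    · rw [smul_zero]
      exact W.zero_mem

theorem ideal_of_sim {A : Type} [CommRing A] [Algebra ℚ A] {n : T3 A} {Q : GL I A}
    (hQ : Sim (nZ A) n Q.1 1) {W : Submodule A (Matrix I I A)} (hW : W ≤ D0 n) (h0 : W ≠ ⊥)
    (h : ∀ X ∈ D0 n, ∀ Y ∈ W, X * Y - Y * X ∈ W) :
    ∃ c : A, c ≠ 0 ∧ ∀ X ∈ D0 n, c • X ∈ W := by
  have e1 : Q.1 * (Q⁻¹).1 = 1 := by rw [← Units.val_mul, mul_inv_cancel, Units.val_one]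
  have e2 : (Q⁻¹).1 * Q.1 = 1 := by rw [← Units.val_mul, inv_mul_cancel, Units.val_one]
  have c1 : ∀ X : Matrix I I A, Q.1 * ((Q⁻¹).1 * X * Q.1) * (Q⁻¹).1 = X := fun X => by
    rw [← Matrix.mul_assoc, ← Matrix.mul_assoc, e1, Matrix.one_mul, Matrix.mul_assoc, e1,
      Matrix.mul_one]
  have c2 : ∀ X : Matrix I I A, (Q⁻¹).1 * (Q.1 * X * (Q⁻¹).1) * Q.1 = X := fun X => by
    rw [← Matrix.mul_assoc, ← Matrix.mul_assoc, e2, Matrix.one_mul, Matrix.mul_assoc, e2,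
      Matrix.mul_one]
  have d1 : ∀ X ∈ D0 (nZ A), Q.1 * X * (Q⁻¹).1 ∈ D0 n := fun X hX =>
    Sim.conj_der (ν := 1) hQ hX
  have d2 : ∀ X ∈ D0 n, (Q⁻¹).1 * X * Q.1 ∈ D0 (nZ A) := fun X hX => by
    have := Sim.conj_der (Sim.inv (ν := 1) hQ) (show Der n X 0 from hX)
    rwa [inv_inv] at this
  let T : Matrix I I A →ₗ[A] Matrix I I A :=
    (LinearMap.mulRight A (Q⁻¹).1).comp (LinearMap.mulLeft A Q.1)
  have hT : ∀ X, X ∈ W.comap T ↔ Q.1 * X * (Q⁻¹).1 ∈ W := fun X => Iff.rfl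
  obtain ⟨c, hc0, hc⟩ := ideal_D0 (W := W.comap T) (fun X hX => by
      have := d2 _ (hW ((hT X).1 hX))
      rwa [c2] at this) (by
      obtain ⟨Y, hY, hY0⟩ := Submodule.exists_mem_ne_zero_of_ne_bot h0
      refine (Submodule.ne_bot_iff _).2 ⟨(Q⁻¹).1 * Y * Q.1, (hT _).2 (by rwa [c1]), fun h1 => hY0 ?_⟩
      rw [← c1 Y, h1, Matrix.mul_zero, Matrix.zero_mul]) (fun X hX Y hY => by
      have := h _ (d1 X hX) _ ((hT Y).1 hY)
      refine (hT _).2 ?_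
      convert this using 1
      simp only [Matrix.mul_sub, Matrix.sub_mul, Matrix.mul_assoc]
      rw [← Matrix.mul_assoc (Q⁻¹).1 Q.1, ← Matrix.mul_assoc (Q⁻¹).1 Q.1, e2, Matrix.one_mul,
        Matrix.one_mul])
  refine ⟨c, hc0, fun X hX => ?_⟩
  have := (hT _).1 (hc _ (d2 X hX))
  rwa [Matrix.mul_smul, Matrix.smul_mul, c1] at this

end Pool.Agent.P.MP_3c2f8c_gt.Ex
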