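import Pool.Agent.P.MP_3c2f8c_gt.Ex.Al.B2
import Pool.Agent.P.MP_3c2f8c_gt.Lo.Top

/-!
Definitions for the local theory: the norm on the cubic algebra, twisted groups and their Lie
algebras, gradings, reflections, the model with three `3 × 3` matrices, weighted norms.
-/

namespace Pool.Agent.P.MP_3c2f8c_gt.Ex

open Matrix

section Norm

variable {p : ℕ} [Fact p.Prime]

theorem Cub.norm_co (x : Cub ℚ_[p]) : ‖Cub.co x‖ = max ‖x.c0‖ (max ‖x.c1‖ ‖x.c2‖) := by
  refine le_antisymm ((pi_norm_le_iff_of_nonneg (by positivity)).2 fun i => ?_)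
    (max_le (norm_le_pi_norm (Cub.co x) 0)
      (max_le (norm_le_pi_norm (Cub.co x) 1) (norm_le_pi_norm (Cub.co x) 2)))
  fin_cases i
  · exact le_max_left _ _
  · exact (le_max_left _ _).trans (le_max_right _ _)
  · exact (le_max_right _ _).trans (le_max_right _ _)

theorem Cub.norm_co_mul (x y : Cub ℚ_[p]) : ‖Cub.co (x * y)‖ ≤ ‖Cub.co x‖ * ‖Cub.co y‖ := by
  have h : ∀ i j, ‖Cub.co x i * Cub.co y j‖ ≤ ‖Cub.co x‖ * ‖Cub.co y‖ := fun i j => by
    rw [norm_mul]
    exact mul_le_mul (norm_le_pi_norm _ i) (norm_le_pi_norm _ j) (norm_nonneg _) (norm_nonneg _)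
  have ad : ∀ {u v : ℚ_[p]} {r : ℝ}, ‖u‖ ≤ r → ‖v‖ ≤ r → ‖u + v‖ ≤ r := fun hu hv =>
    (Padic.nonarchimedean _ _).trans (max_le hu hv)
  have sb : ∀ {u v : ℚ_[p]} {r : ℝ}, ‖u‖ ≤ r → ‖v‖ ≤ r → ‖u - v‖ ≤ r := fun hu hv => by
    rw [sub_eq_add_neg]
    exact ad hu (by rwa [norm_neg])
  rw [pi_norm_le_iff_of_nonneg (by positivity)]
  intro i
  fin_cases i
  · exact sb (ad (h 0 0) (ad (h 1 2) (h 2 1))) (h 2 2)
  · change ‖(x * y).c1‖ ≤ _
    rw [Cub.mul_c1, two_mul]
    exact sb (ad (ad (h 0 1) (h 1 0)) (ad (ad (h 1 2) (h 2 1)) (ad (h 1 2) (h 2 1)))) (h 2 2)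
  · change ‖(x * y).c2‖ ≤ _
    rw [Cub.mul_c2, show (3 : ℚ_[p]) * (x.c2 * y.c2) = x.c2 * y.c2 + (x.c2 * y.c2 + x.c2 * y.c2) by
      ring]
    exact ad (sb (ad (ad (h 0 2) (h 1 1)) (h 2 0)) (ad (h 1 2) (h 2 1)))
      (ad (h 2 2) (ad (h 2 2) (h 2 2)))

/-- The maximum norm of the coordinates. -/
noncomputable instance Cub.normedCommRing : NormedCommRing (Cub ℚ_[p]) where
  __ := (inferInstance : CommRing (Cub ℚ_[p]))
  norm x := ‖Cub.co x‖
  toMetricSpace := (MetricSpace.induced Cub.co Cub.co_injective inferInstance).replaceTopology rfl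
  dist_eq x y := by
    change dist (Cub.co x) (Cub.co y) = ‖Cub.co (-x + y)‖
    rw [dist_eq_norm_neg_add]
    congr 1
    funext i
    fin_cases i <;> rfl
  norm_mul_le := Cub.norm_co_mul

theorem Cub.norm_def (x : Cub ℚ_[p]) : ‖x‖ = max ‖x.c0‖ (max ‖x.c1‖ ‖x.c2‖) := Cub.norm_co x

noncomputable instance : NormedAlgebra ℚ_[p] (Cub ℚ_[p]) where
  norm_smul_le t x := by
    change ‖Cub.co (t • x)‖ ≤ ‖t‖ * ‖Cub.co x‖
    exact ((congrArg norm ((Cub.coEquiv ℚ_[p]).map_smul t x)).trans (norm_smul t _)).le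

instance : NormOneClass (Cub ℚ_[p]) := ⟨by simp [Cub.norm_def]⟩

instance : IsUltrametricDist (Cub ℚ_[p]) :=
  ⟨fun x y z => IsUltrametricDist.dist_triangle_max (Cub.co x) (Cub.co y) (Cub.co z)⟩

instance : ProperSpace (Cub ℚ_[p]) := FiniteDimensional.proper ℚ_[p] _

example : (UniformSpace.toTopologicalSpace : TopologicalSpace (Cub ℚ_[p])) =
    Cub.instTopologicalSpace := by with_reducible_and_instances rfl

theorem intC_iff (x : Cub ℚ_[p]) : IntC x ↔ ‖x‖ ≤ 1 := by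
  simp only [IntC, Cub.norm_def, max_le_iff]

end Norm

section Twist

variable {k A : Type} [CommRing k] [CommRing A] [Algebra k A]

/-- The automorphism of the cubic algebra as an algebra automorphism. -/
def sigA (R : Type) [CommRing R] : Cub R ≃ₐ[R] Cub R :=
  { Cub.sig with commutes' := Cub.sig_C }

theorem sigA_apply {R : Type} [CommRing R] (x : Cub R) : sigA R x = Cub.sig x := rfl

/-- The similitudes that commute with the semilinear map `φ σ`. -/
def Gw (n : T3 A) (φ : Matrix I I A) (σ : A ≃ₐ[k] A) : Subgroup (GL I A) where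
  carrier := {g | g ∈ Str n ∧ g.1 * φ = φ * g.1.map σ}
  one_mem' := ⟨one_mem _, by simp⟩
  mul_mem' := by
    rintro g h ⟨hg, hg'⟩ ⟨hh, hh'⟩
    refine ⟨mul_mem hg hh, ?_⟩
    rw [Units.val_mul, Matrix.map_mul, Matrix.mul_assoc, hh', ← Matrix.mul_assoc, hg',
      Matrix.mul_assoc]
  inv_mem' := by
    rintro g ⟨hg, hg'⟩
    refine ⟨inv_mem hg, ?_⟩
    have h1 : (g⁻¹).1 * g.1 = 1 := by rw [← Units.val_mul, inv_mul_cancel, Units.val_one]
    have h2 : g.1.map σ * (g⁻¹).1.map σ = 1 := by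
      rw [← Matrix.map_mul, ← Units.val_mul, mul_inv_cancel]
      simp
    calc (g⁻¹).1 * φ = (g⁻¹).1 * φ * (g.1.map σ * (g⁻¹).1.map σ) := by rw [h2, Matrix.mul_one]
      _ = (g⁻¹).1 * (φ * g.1.map σ) * (g⁻¹).1.map σ := by simp only [Matrix.mul_assoc]
      _ = φ * (g⁻¹).1.map σ := by rw [← hg', ← Matrix.mul_assoc, h1, Matrix.one_mul]

theorem mem_Gw {n : T3 A} {φ : Matrix I I A} {σ : A ≃ₐ[k] A} {g : GL I A} :
    g ∈ Gw n φ σ ↔ g ∈ Str n ∧ g.1 * φ = φ * g.1.map σ := Iff.rfl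

theorem Gt_eq (b : ℚ) (R : Type) [CommRing R] [Algebra ℚ R] :
    Gt b R = Gw (nJ (Cub R)) (ph b (Cub R)) (sigA R) := rfl

/-- The similitudes with multiplier one. -/
def Inv1 (n : T3 A) : Subgroup (GL I A) where
  carrier := {g | Sim n n g.1 1}
  one_mem' := sim_one n
  mul_mem' := fun {g h} hg hh => by simpa using Sim.mul hg hh
  inv_mem' := fun {g} hg => by simpa using Sim.inv (ν := 1) hg

theorem mem_Inv1 {n : T3 A} {g : GL I A} : g ∈ Inv1 n ↔ Sim n n g.1 1 := Iff.rfl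

/-- The derivations with multiplier zero. -/
def D0 (n : T3 A) : Submodule A (Matrix I I A) where
  carrier := {X | Der n X 0}
  add_mem' := fun hX hY => by simpa using Der.add hX hY
  zero_mem' := by simpa using (der_one n).smul 0
  smul_mem' := fun t _ hX => by simpa using Der.smul hX t

theorem mem_D0 {n : T3 A} {X : Matrix I I A} : X ∈ D0 n ↔ Der n X 0 := Iff.rfl

/-- The derivations with multiplier zero that commute with `φ σ`. -/
def Lt (n : T3 A) (φ : Matrix I I A) (σ : A ≃ₐ[k] A) : Submodule k (Matrix I I A) where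
  carrier := {X | Der n X 0 ∧ X * φ = φ * X.map σ}
  add_mem' := fun {X Y} hX hY => ⟨(D0 n).add_mem hX.1 hY.1, by
    rw [Matrix.add_mul, hX.2, hY.2, ← Matrix.mul_add, Matrix.map_add _ (map_add σ)]⟩
  zero_mem' := ⟨(D0 n).zero_mem, by simp⟩
  smul_mem' := fun t X hX => ⟨(D0 n).smul_of_tower_mem t hX.1, by
    rw [Matrix.smul_mul, hX.2, ← Matrix.mul_smul, Matrix.map_smul _ _ (map_smul σ t)]⟩

theorem mem_Lt {n : T3 A} {φ : Matrix I I A} {σ : A ≃ₐ[k] A} {X : Matrix I I A} :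
    X ∈ Lt n φ σ ↔ Der n X 0 ∧ X * φ = φ * X.map σ := Iff.rfl

/-- Conjugation by `φ σ`. -/
def tw (φ : GL I A) (σ : A ≃ₐ[k] A) (X : Matrix I I A) : Matrix I I A := φ.1 * X.map σ * (φ⁻¹).1

/-- The sum over the group of order three generated by `tw`. -/
def av (φ : GL I A) (σ : A ≃ₐ[k] A) (X : Matrix I I A) : Matrix I I A :=
  X + tw φ σ X + tw φ σ (tw φ σ X)

/-- Twisting data of order three. -/
structure TwD (n : T3 A) (φ : GL I A) (σ : A ≃ₐ[k] A) : Prop where
  fix : n.map σ = n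
  ord : ∀ x, σ (σ (σ x)) = x
  fix' : φ.1.map σ = φ.1
  str : φ ∈ Str n
  cube : ∃ β : A, φ.1 * φ.1 * φ.1 = β • (1 : Matrix I I A)

end Twist

section Grading

variable {κ M : Type} [Fintype κ] [DecidableEq κ] [CommRing M]

/-- The group generated by the exponentials of the nilpotent elements of `𝔤`. -/
def UN [Algebra ℚ M] (𝔤 : Set (Matrix κ κ M)) : Subgroup (GL κ M) :=
  Subgroup.closure {u | ∃ X ∈ 𝔤, IsNilpotent X ∧ u.1 = IsNilpotent.exp X}

/-- The elementary subgroup of the split group. -/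
def EG (K : Type) [CommRing K] [Algebra ℚ K] : Subgroup (GL I K) := UN (D0 (nZ K) : Set _)

/-- The diagonal matrix of an integral vector. -/
def dgz (M : Type) [CommRing M] (d : κ → ℤ) : Matrix κ κ M := diagonal fun a => (d a : M)

/-- The component of degree `j`. -/
def cmpn (d : κ → ℤ) (j : ℤ) (X : Matrix κ κ M) : Matrix κ κ M :=
  Matrix.of fun a b => if d a - d b = j then X a b else 0

/-- The components of degree less than `j` vanish. -/
def Fil (d : κ → ℤ) (j : ℤ) (X : Matrix κ κ M) : Prop := ∀ a b, d a - d b < j → X a b = 0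

/-- Two vectors take every value equally often. -/
def SameV (d d' : κ → ℤ) : Prop :=
  ∀ j, (Finset.univ.filter fun a => d a = j).card = (Finset.univ.filter fun a => d' a = j).card

end Grading

section Roots

/-- The sums over all triples are equal to `s`. -/
def TS {Λ : Type} [Add Λ] (v : I → Λ) (s : Λ) : Prop :=
  ∀ a b, Adj a b → v a + v b + v (thd a b) = s

/-- The coroot attached to a pair of distinct non-adjacent indices. -/
def cr (e a u : I) : ℤ :=
  if u = e then 1 else if u = a then -1 else if Adj a u ∧ ¬ Adj e u then 1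
  else if Adj e u ∧ ¬ Adj a u then -1 else 0

/-- The reflection attached to a pair of distinct non-adjacent indices. -/
def rf (e a u : I) : I :=
  if u = e then a else if u = a then e else if Adj a u ∧ ¬ Adj e u then thd e (thd a u)
  else if Adj e u ∧ ¬ Adj a u then thd a (thd e u) else u

/-- Monomial matrices. -/
def Mono {K : Type} [Zero K] (π : Equiv.Perm I) (m : Matrix I I K) : Prop :=
  ∀ a b, m a b ≠ 0 → a = π b

/-- The diagonal similitude with multiplier `u`. -/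
def dlv {K : Type} [CommRing K] (u : Kˣ) : GL I K where
  val := diagonal fun a => (u ^ lv a : Kˣ)
  inv := diagonal fun a => (u ^ (-lv a) : Kˣ)
  val_inv := by
    rw [diagonal_mul_diagonal, ← diagonal_one]
    congr 1
    funext a
    rw [← Units.val_mul, ← _root_.zpow_add, add_neg_cancel, zpow_zero, Units.val_one]
  inv_val := by
    rw [diagonal_mul_diagonal, ← diagonal_one]
    congr 1
    funext a
    rw [← Units.val_mul, ← _root_.zpow_add, neg_add_cancel, zpow_zero, Units.val_one]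

end Roots

section Model

variable {R : Type} [CommRing R]

/-- The index of the entry `(j, l)` of the matrix number `t`. -/
def i3 (t j l : Fin 3) : I :=
  ![if j = l then .inl j else if l = j + 1 then .inr (j + 2, 0) else .inr (j + 1, 7),
    .inr (j, ![1, 2, 3] l), .inr (j, ![4, 5, 6] l)] t

/-- The inverse of `i3`. -/
def c3 : I → Fin 3 × Fin 3 × Fin 3
  | .inl j => (0, j, j)
  | .inr j => ![(0, j.1 + 1, j.1 + 2), (1, j.1, 0), (1, j.1, 1), (1, j.1, 2), (2, j.1, 0),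
      (2, j.1, 1), (2, j.1, 2), (0, j.1 + 2, j.1 + 1)] j.2

theorem c3_i3 : ∀ t j l, c3 (i3 t j l) = (t, j, l) := by decide +kernel

theorem i3_c3 : ∀ a, i3 (c3 a).1 (c3 a).2.1 (c3 a).2.2 = a := by decide +kernel

/-- The index set as a cube. -/
def e3 : Fin 3 × Fin 3 × Fin 3 ≃ I :=
  ⟨fun x => i3 x.1 x.2.1 x.2.2, c3, fun x => c3_i3 x.1 x.2.1 x.2.2, i3_c3⟩

/-- The matrix number `t` of a vector. -/
def m3 (x : I → R) (t : Fin 3) : Matrix (Fin 3) (Fin 3) R := Matrix.of fun j l => x (i3 t j l)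

/-- The cofactor matrix. -/
def cof (A : Matrix (Fin 3) (Fin 3) R) : Matrix (Fin 3) (Fin 3) R := A.adjugateᵀ

/-- The map `W ↦ A t * W * (B t)ᵀ` on the matrix number `t`. -/
def kr3 (A B : Fin 3 → Matrix (Fin 3) (Fin 3) R) : Matrix I I R :=
  Matrix.of fun a b => if (c3 a).1 = (c3 b).1 then
    A (c3 a).1 (c3 a).2.1 (c3 b).2.1 * B (c3 a).1 (c3 a).2.2 (c3 b).2.2 else 0

/-- The action `(X, Y, Z) ↦ (A X Aᵀ, cof A * Y, cof A * Z)`. -/
def rhoZ (A : Matrix (Fin 3) (Fin 3) R) : Matrix I I R := kr3 ![A, cof A, cof A] ![A, 1, 1]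

/-- The action `(X, Y, Z) ↦ (X, Y Cᵀ, Z (cof C)ᵀ)`. -/
def kap (C : Matrix (Fin 3) (Fin 3) R) : Matrix I I R := kr3 ![1, 1, 1] ![1, C, cof C]

/-- The companion matrix. -/
def cpn (b : R) : Matrix (Fin 3) (Fin 3) R := !![0, 0, b; 1, 0, 0; 0, 1, 0]

/-- The cofactor matrix of the companion matrix. -/
def cca (b : R) : Matrix (Fin 3) (Fin 3) R := !![0, 0, 1; b, 0, 0; 0, b, 0]

/-- The six columns of `Y` and `Z`. -/
abbrev Bk : Type := Fin 2 × Fin 3

/-- The entry number `j` of a column. -/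
def iB (B : Bk) (j : Fin 3) : I := i3 B.1.succ j B.2

/-- The block of a matrix from the column `B` to the column `B'`. -/
def sub (m : Matrix I I R) (B' B : Bk) : Matrix (Fin 3) (Fin 3) R := m.submatrix (iB B') (iB B)

/-- The permutations of the six columns. -/
def pB (ε : Fin 2) (ρ : Equiv.Perm (Fin 3)) (B : Bk) : Bk := (B.1 + ε, ρ B.2)

/-- Block monomial matrices. -/
def BM (ε : Fin 2) (ρ : Equiv.Perm (Fin 3)) (m : Matrix I I R) : Prop :=
  ∀ a b, m a b ≠ 0 → ((c3 a).1 = 0 ∧ (c3 b).1 = 0) ∨ ∃ B i j, b = iB B j ∧ a = iB (pB ε ρ B) i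

/-- The vector equal to `0` on `X`, to `s r` on the column `r` of `Y` and to `-s r` on the column
`r` of `Z`. -/
def dgs (s : Fin 3 → ℤ) (a : I) : ℤ := ![0, 1, -1] (c3 a).1 * s (c3 a).2.2

/-- The grading used at the primes where the cyclic algebra is a division algebra. -/
def dv : I → ℤ := dgs ![1, 3, -4]

/-- The barycentre of an alcove. -/
def xib (B : Bk) : ℤ := ![1, -1] B.1 * ![1, 0, -1] B.2

/-- Three times the weights used at the primes where the cyclic algebra is a division algebra. -/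
def wI (k : ℤ) (a : I) : ℤ := dgs ![1, 0, -1] a +
  if (c3 a).1 = 0 then -(k * ![-1, 0, 1] (c3 a).2.1 + k * ![-1, 0, 1] (c3 a).2.2)
  else k * ![-1, 0, 1] (c3 a).2.1

/-- The weights used at the primes where the cyclic algebra is a division algebra. -/
noncomputable def wD (k : ℤ) (a : I) : ℝ := (wI k a : ℝ) / 3

end Model

section Weights

variable {κ A : Type} [Fintype κ] [DecidableEq κ] [NormedCommRing A]

/-- All entries have norm at most `r`. -/
def Bd (r : ℝ) (X : Matrix κ κ A) : Prop := ∀ a b, ‖X a b‖ ≤ r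

/-- The norm of `X` with weights `w` is at most `r`. -/
def Wr (p : ℕ) (w : κ → ℝ) (r : ℝ) (X : Matrix κ κ A) : Prop :=
  ∀ a b, ‖X a b‖ ≤ r * (p : ℝ) ^ (w a - w b)

variable [IsUltrametricDist A] {p : ℕ} [Fact p.Prime]

omit [DecidableEq κ] in
theorem Wr.mul {w : κ → ℝ} {r s : ℝ} {X Y : Matrix κ κ A} (hX : Wr p w r X) (hY : Wr p w s Y)
    (hr : 0 ≤ r) (hs : 0 ≤ s) : Wr p w (r * s) (X * Y) := fun i j => by
  have hp : (0 : ℝ) < p := by exact_mod_cast (Fact.out : p.Prime).pos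
  rw [Matrix.mul_apply]
  refine IsUltrametricDist.norm_sum_le_of_forall_le_of_nonneg (by positivity) fun k _ => ?_
  refine (norm_mul_le _ _).trans ((mul_le_mul (hX i k) (hY k j) (norm_nonneg _)
    (by positivity)).trans_eq ?_)
  rw [show w i - w j = (w i - w k) + (w k - w j) by ring, Real.rpow_add hp]
  ring

omit [Fintype κ] [IsUltrametricDist A] [Fact p.Prime] in
theorem wr_one [NormOneClass A] (w : κ → ℝ) : Wr p w 1 (1 : Matrix κ κ A) := fun i j => by
  rw [Matrix.one_apply]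
  split_ifs with h
  · simp [h]
  · rw [norm_zero]
    positivity

/-- The stabiliser of the homothety class of the norm with weights `w`. -/
def WS (p : ℕ) [Fact p.Prime] [NormOneClass A] (w : κ → ℝ) : Subgroup (GL κ A) where
  carrier := {g | ∃ r, 0 < r ∧ Wr p w r g.1 ∧ Wr p w r⁻¹ (g⁻¹).1}
  one_mem' := ⟨1, one_pos, wr_one w, by simpa using wr_one w⟩
  mul_mem' := by
    rintro g h ⟨r, hr, h1, h2⟩ ⟨s, hs, h3, h4⟩
    refine ⟨r * s, mul_pos hr hs, h1.mul h3 hr.le hs.le, ?_⟩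
    rw [_root_.mul_inv_rev, _root_.mul_inv_rev, Units.val_mul]
    exact h4.mul h2 (inv_pos.2 hs).le (inv_pos.2 hr).le
  inv_mem' := by
    rintro g ⟨r, hr, h1, h2⟩
    exact ⟨r⁻¹, inv_pos.2 hr, h2, by simpa using h1⟩

variable [NormedAlgebra ℚ_[p] A]

/-- `X` is tangent to `Γ` at the identity. -/
def Tan (p : ℕ) [Fact p.Prime] [NormedAlgebra ℚ_[p] A] (Γ : Subgroup (GL κ A))
    (X : Matrix κ κ A) : Prop :=
  ∀ ε : ℝ, 0 < ε → ∃ k₀ : ℕ, ∀ k : ℕ, k₀ ≤ k → ∃ c ∈ Γ,
    Bd (ε * ‖(p : ℚ_[p]) ^ k‖) (c.1 - 1 - (p : ℚ_[p]) ^ k • X)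

/-- Near the identity `G` is approximated by `1 + 𝔤` to second order. -/
def Appr (G : Subgroup (GL κ A)) (𝔤 : Submodule ℚ_[p] (Matrix κ κ A)) : Prop :=
  ∃ C : ℝ, ∀ g ∈ G, ∀ r : ℝ, 0 ≤ r → r ≤ 1 → Bd r (g.1 - 1) →
    ∃ Y ∈ 𝔤, Bd (C * r ^ 2) (g.1 - 1 - Y)

end Weights

/-- An unramified extension with an automorphism of order three, and an element `b` of the fixed
field whose valuation is not divisible by three. -/
structure DivF (p : ℕ) [Fact p.Prime] {M : Type} [NormedField M] [NormedAlgebra ℚ_[p] M]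
    (σ : M ≃ₐ[ℚ_[p]] M) (b : M) (k : ℤ) : Prop where
  ord : ∀ x, σ (σ (σ x)) = x
  isom : ∀ x, ‖σ x‖ = ‖x‖
  val : ∀ x : M, x ≠ 0 → ∃ n : ℤ, ‖x‖ = (p : ℝ) ^ n
  fix : σ b = b
  nb : ‖b‖ = (p : ℝ) ^ k
  nd : ¬ (3 : ℤ) ∣ k

/-- The image in the local group of the rational similitudes with multiplier one whose class lies
in `Γ`. -/
noncomputable def gam1 (b : ℚ) (p : ℕ) [Fact p.Prime] (Γ : Subgroup (UG b ℚ)) :
    Subgroup (GL I (Cub ℚ_[p])) :=
  (Γ.comap (QuotientGroup.mk' _) ⊓ (Inv1 (nJ (Cub ℚ))).subgroupOf (Gt b ℚ)).map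
    ((Gt b ℚ_[p]).subtype.comp (gmap b (algebraMap ℚ ℚ_[p])))

section Hecke

variable {p : ℕ} [Fact p.Prime]

/-- The entries of `g` are bounded by the weights `x`. -/
def Wb (x : I → ℝ) (g : Matrix I I ℚ_[p]) : Prop := ∀ i j, ‖g i j‖ ≤ (p : ℝ) ^ (x i - x j)

theorem wb_iff {x : I → ℝ} {g : Matrix I I ℚ_[p]} : Wb x g ↔ Wr p x 1 g := by
  simp only [Wb, Wr, one_mul]

theorem Wb.mul {x : I → ℝ} {g h : Matrix I I ℚ_[p]} (hg : Wb x g) (hh : Wb x h) :
    Wb x (g * h) := by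
  rw [wb_iff] at hg hh ⊢
  simpa using hg.mul hh zero_le_one zero_le_one

theorem wb_one (x : I → ℝ) : Wb x (1 : Matrix I I ℚ_[p]) := wb_iff.2 (wr_one x)

/-- The split group over `ℚ_p`. -/
abbrev Sp (p : ℕ) [Fact p.Prime] : Type := Str (nZ ℚ_[p])

/-- The stabiliser of the norm with weights `x`. -/
def Gx (p : ℕ) [Fact p.Prime] (x : I → ℝ) : Subgroup (Sp p) where
  carrier := {g | Wb x g.1.1 ∧ Wb x (g⁻¹).1.1}
  one_mem' := ⟨wb_one x, by simpa using wb_one x⟩
  mul_mem' := fun {g h} hg hh => ⟨hg.1.mul hh.1, by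
    simpa only [Subgroup.coe_mul, _root_.mul_inv_rev, Units.val_mul] using hh.2.mul hg.2⟩
  inv_mem' := fun {g} hg => ⟨hg.2, by simpa using hg.1⟩

/-- No difference of weights is an integer. -/
def Generic (x : I → ℝ) : Prop := ∀ i j, i ≠ j → ∀ k : ℤ, x i - x j ≠ k

/-- The only integral difference of weights is that of the adjacent pair `a, b`. -/
def FW (y : I → ℝ) (a b : I) : Prop :=
  Adj a b ∧ ∀ u v, u ≠ v → (∃ k : ℤ, y u - y v = k) → (u = a ∧ v = b) ∨ (u = b ∧ v = a)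

/-- The only integral differences of weights are those of the six pairs of a root. -/
def RW (y : I → ℝ) (e a : I) : Prop :=
  Rt e a ∧ (∃ k : ℤ, y e - y a = k) ∧ ∀ u v, u ≠ v → (∃ k : ℤ, y u - y v = k) → v = rf e a u

/-- `τ` enumerates the `k` indices with the largest values of `l`. -/
def Top {k : ℕ} (l : I → ℤ) (τ : Fin k → I) : Prop :=
  Function.Injective τ ∧ ∀ a j, l (τ a) < l j → ∃ a', τ a' = j

/-- All leading principal minors are units. -/
def Big (l : I → ℤ) (g : Matrix I I ℚ_[p]) : Prop :=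
  ∀ (k : ℕ) (τ : Fin k → I), Top l τ → ‖(g.submatrix τ τ).det‖ = 1

/-- The bounds on all minors that define the semigroup. -/
def InS (l : I → ℤ) (y : I → ℝ) (s t : ℝ) (c : ℕ) (g : Matrix I I ℚ_[p]) : Prop :=
  ∀ (k : ℕ) (τ : Fin k → I), Top l τ →
    (∀ f f' : Fin k → I, Function.Injective f → Function.Injective f' →
      ‖(g.submatrix f f').det‖ ≤ (p : ℝ) ^ (∑ a, y (f a) - ∑ a, y (f' a) +
        s * (∑ a, (l (f a) : ℝ) - ∑ a, (l (τ a) : ℝ)) -
        t * (∑ a, (l (f' a) : ℝ) - ∑ a, (l (τ a) : ℝ)) + c * ∑ a, (l (τ a) : ℝ))) ∧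
    ‖(g.submatrix τ τ).det‖ = (p : ℝ) ^ (c * ∑ a, (l (τ a) : ℝ))

/-- The point `y + t l`. -/
def pt (l : I → ℤ) (y : I → ℝ) (t : ℝ) : I → ℝ := fun i => y i + t * l i

/-- The normalised size of an entry. -/
noncomputable def sz (y : I → ℝ) (g : Matrix I I ℚ_[p]) (i j : I) : ℝ :=
  ‖g i j‖ / (p : ℝ) ^ (y i - y j)

end Hecke

end Pool.Agent.P.MP_3c2f8c_gt.Ex
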