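import Pool.Agent.P.MP_3c2f8c_gt.Ex.Lo.LDefs
import Pool.Agent.P.MP_3c2f8c_gt.Ex.Al.J1

/-! EXL-Mod: the model with three 3 × 3 matrices. -/

set_option linter.unusedSectionVars false

namespace Pool.Agent.P.MP_3c2f8c_gt.Ex

open Matrix

variable {R S : Type} [CommRing R] [CommRing S]

theorem ModAux.sum_i3 (f : I → R) : ∑ a, f a = ∑ t, ∑ j, ∑ l, f (i3 t j l) := by
  rw [← e3.sum_comp]
  simp only [Fintype.sum_prod_type]
  rfl

theorem ModAux.sh_inj : ∀ a b : I, sh a = sh b ↔ a = b := by decide +kernel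

theorem ModAux.add_two : ∀ j : Fin 3, j + 2 + 1 = j := by decide

omit [CommRing R] in
theorem ModAux.m3_zero (x : I → R) : m3 x 0 = !![x (.inl 0), x (.inr (2, 0)), x (.inr (1, 7));
    x (.inr (2, 7)), x (.inl 1), x (.inr (0, 0)); x (.inr (1, 0)), x (.inr (0, 7)), x (.inl 2)] := by
  ext j l
  fin_cases j <;> fin_cases l <;> rfl

omit [CommRing R] in
theorem ModAux.m3_one (x : I → R) : m3 x 1 = !![x (.inr (0, 1)), x (.inr (0, 2)), x (.inr (0, 3));
    x (.inr (1, 1)), x (.inr (1, 2)), x (.inr (1, 3));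
    x (.inr (2, 1)), x (.inr (2, 2)), x (.inr (2, 3))] := by
  ext j l
  fin_cases j <;> fin_cases l <;> rfl

omit [CommRing R] in
theorem ModAux.m3_two (x : I → R) : m3 x 2 = !![x (.inr (0, 4)), x (.inr (0, 5)), x (.inr (0, 6));
    x (.inr (1, 4)), x (.inr (1, 5)), x (.inr (1, 6));
    x (.inr (2, 4)), x (.inr (2, 5)), x (.inr (2, 6))] := by
  ext j l
  fin_cases j <;> fin_cases l <;> rfl

theorem kr3_apply (A B : Fin 3 → Matrix (Fin 3) (Fin 3) R) (t j l t' j' l' : Fin 3) :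
    kr3 A B (i3 t j l) (i3 t' j' l') = if t = t' then A t j j' * B t l l' else 0 := by
  simp only [kr3, of_apply, c3_i3]

theorem m3_ext {x y : I → R} (h : ∀ t, m3 x t = m3 y t) : x = y := funext fun a => by
  rw [← i3_c3 a]
  exact congrFun (congrFun (h _) _) _

theorem ModAux.ext_m3 {g g' : Matrix I I R} (h : ∀ x t, m3 (g *ᵥ x) t = m3 (g' *ᵥ x) t) : g = g' :=
  Matrix.ext fun a b => by simpa using congrFun (m3_ext (h (Pi.single b 1))) a

theorem exists_m3 (W : Fin 3 → Matrix (Fin 3) (Fin 3) R) : ∃ x : I → R, ∀ t, m3 x t = W t :=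
  ⟨fun a => W (c3 a).1 (c3 a).2.1 (c3 a).2.2, fun t => by
    ext j l
    simp only [m3, of_apply, c3_i3]⟩

theorem m3_kr3 (A B : Fin 3 → Matrix (Fin 3) (Fin 3) R) (x : I → R) (t : Fin 3) :
    m3 (kr3 A B *ᵥ x) t = A t * m3 x t * (B t)ᵀ := by
  ext j l
  simp only [m3, of_apply, mulVec, dotProduct, ModAux.sum_i3, kr3_apply, mul_apply, transpose_apply,
    ite_mul, zero_mul, Finset.sum_ite_irrel, Finset.sum_const_zero, Finset.sum_ite_eq,
    Finset.mem_univ, if_true, Finset.sum_mul]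
  rw [Finset.sum_comm]
  exact Finset.sum_congr rfl fun _ _ => Finset.sum_congr rfl fun _ _ => by ring

theorem kr3_mul (A B A' B' : Fin 3 → Matrix (Fin 3) (Fin 3) R) :
    kr3 A B * kr3 A' B' = kr3 (A * A') (B * B') :=
  ModAux.ext_m3 fun x t => by
    rw [← mulVec_mulVec, m3_kr3, m3_kr3, m3_kr3, Pi.mul_apply, Pi.mul_apply, transpose_mul]
    simp only [Matrix.mul_assoc]

theorem kr3_one : kr3 (1 : Fin 3 → Matrix (Fin 3) (Fin 3) R) 1 = 1 :=
  ModAux.ext_m3 fun x t => by simp [m3_kr3]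

theorem kr3_map (f : R →+* S) (A B : Fin 3 → Matrix (Fin 3) (Fin 3) R) :
    (kr3 A B).map f = kr3 (fun t => (A t).map f) fun t => (B t).map f := by
  ext a b
  simp only [kr3, map_apply, of_apply]
  split_ifs <;> simp

theorem tri_nZ_m3 (x : I → R) : tri (nZ R) x x x = 6 * ((m3 x 0).det + (m3 x 1).det -
    (m3 x 2).det + ((m3 x 1)ᵀ * m3 x 0 * m3 x 2).trace) := by
  rw [tri_nZ, ModAux.m3_zero, ModAux.m3_one, ModAux.m3_two]
  simp [zb, zt, zm, ov, det_fin_three, trace, mul_apply, Fin.sum_univ_three]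
  ring

theorem cof_mul (A B : Matrix (Fin 3) (Fin 3) R) : cof (A * B) = cof A * cof B := by
  rw [cof, adjugate_mul_distrib, transpose_mul, cof, cof]

theorem cof_one : cof (1 : Matrix (Fin 3) (Fin 3) R) = 1 := by rw [cof, adjugate_one, transpose_one]

theorem cof_map (f : R →+* S) (A : Matrix (Fin 3) (Fin 3) R) : (cof A).map f = cof (A.map f) := by
  rw [cof, cof, transpose_map]
  exact congrArg transpose (f.map_adjugate A)

theorem cof_smul (c : R) (A : Matrix (Fin 3) (Fin 3) R) : cof (c • A) = c ^ 2 • cof A := by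
  rw [cof, adjugate_smul, transpose_smul, cof, Fintype.card_fin]

theorem det_cof (A : Matrix (Fin 3) (Fin 3) R) : (cof A).det = A.det ^ 2 := by
  rw [cof, det_transpose, det_adjugate, Fintype.card_fin]

theorem cof_cpn (b : R) : cof (cpn b) = cca b := by
  rw [cof, cpn, adjugate_fin_three_of]
  ext i j
  fin_cases i <;> fin_cases j <;> simp [cca]

theorem rhoZ_mul (A B : Matrix (Fin 3) (Fin 3) R) : rhoZ (A * B) = rhoZ A * rhoZ B := by
  rw [rhoZ, rhoZ, rhoZ, kr3_mul, cof_mul]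
  congr 1 <;> funext t <;> fin_cases t <;> simp

theorem rhoZ_one : rhoZ (1 : Matrix (Fin 3) (Fin 3) R) = 1 := by
  rw [rhoZ, cof_one, ← kr3_one]
  congr 1 <;> funext t <;> fin_cases t <;> rfl

theorem rhoZ_map (f : R →+* S) (A : Matrix (Fin 3) (Fin 3) R) :
    (rhoZ A).map f = rhoZ (A.map f) := by
  rw [rhoZ, rhoZ, kr3_map, ← cof_map]
  congr 1 <;> funext t <;> fin_cases t <;> simp

theorem rhoZ_smul (c : R) (A : Matrix (Fin 3) (Fin 3) R) : rhoZ (c • A) = c ^ 2 • rhoZ A := by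
  refine ModAux.ext_m3 fun x t => ?_
  have e : m3 ((c ^ 2 • rhoZ A) *ᵥ x) t = c ^ 2 • m3 (rhoZ A *ᵥ x) t := by
    rw [smul_mulVec]
    rfl
  rw [e, rhoZ, rhoZ, m3_kr3, m3_kr3, cof_smul]
  fin_cases t
  · change c • A * _ * (c • A)ᵀ = c ^ 2 • (A * _ * Aᵀ)
    rw [transpose_smul, Matrix.mul_smul, Matrix.smul_mul, Matrix.smul_mul, smul_smul, sq]
  all_goals
    change c ^ 2 • cof A * _ * 1ᵀ = c ^ 2 • (cof A * _ * 1ᵀ)
    rw [Matrix.smul_mul, Matrix.smul_mul]

theorem phi_eq_rhoZ (b : R) : phi b = rhoZ (cpn b) := by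
  refine ModAux.ext_m3 fun x t => ?_
  have e : ∀ c, (phi b *ᵥ x) (sh c) = phc b c * x c := fun c => by
    simp [phi, mulVec, dotProduct, ModAux.sh_inj]
  have e1 : ∀ j : Fin 3, (phi b *ᵥ x) (.inl j) = ![1, 1, b ^ 2] (j + 2) * x (.inl (j + 2)) :=
    fun j => by
      rw [← ModAux.add_two j]
      exact (e (.inl (j + 2))).trans (by rw [ModAux.add_two]; rfl)
  have e2 : ∀ (j : Fin 3) (u : Fin 8), (phi b *ᵥ x) (.inr (j, u)) =
      ![b, b, 1] (j + 2) * x (.inr (j + 2, u)) := fun j u => by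
    rw [← ModAux.add_two j]
    exact (e (.inr (j + 2, u))).trans (by rw [ModAux.add_two]; rfl)
  rw [rhoZ, m3_kr3, cof_cpn]
  fin_cases t
  · change m3 _ 0 = cpn b * m3 x 0 * (cpn b)ᵀ
    simp only [ModAux.m3_zero, e1, e2, Fin.reduceAdd]
    ext j l
    fin_cases j <;> fin_cases l <;> simp [cpn, mul_apply, Fin.sum_univ_three] <;> ring
  · change m3 _ 1 = cca b * m3 x 1 * 1ᵀ
    simp only [ModAux.m3_one, e2, Fin.reduceAdd]
    ext j l
    fin_cases j <;> fin_cases l <;> simp [cca]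
  · change m3 _ 2 = cca b * m3 x 2 * 1ᵀ
    simp only [ModAux.m3_two, e2, Fin.reduceAdd]
    ext j l
    fin_cases j <;> fin_cases l <;> simp [cca]

theorem kap_mul (C D : Matrix (Fin 3) (Fin 3) R) : kap (C * D) = kap C * kap D := by
  rw [kap, kap, kap, kr3_mul, cof_mul]
  congr 1 <;> funext t <;> fin_cases t <;> simp

theorem kap_one : kap (1 : Matrix (Fin 3) (Fin 3) R) = 1 := by
  rw [kap, cof_one, ← kr3_one]
  congr 1 <;> funext t <;> fin_cases t <;> rfl

theorem kap_map (f : R →+* S) (C : Matrix (Fin 3) (Fin 3) R) : (kap C).map f = kap (C.map f) := by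
  rw [kap, kap, kr3_map, ← cof_map]
  congr 1 <;> funext t <;> fin_cases t <;> simp

theorem kap_rhoZ (C A : Matrix (Fin 3) (Fin 3) R) : kap C * rhoZ A = rhoZ A * kap C := by
  rw [kap, rhoZ, kr3_mul, kr3_mul]
  congr 1 <;> funext t <;> fin_cases t <;> simp

variable [Algebra ℚ R]

theorem Sim.m3_eq {g : Matrix I I R} {ν : R} (h : Sim (nZ R) (nZ R) g ν) (x : I → R) :
    (m3 (g *ᵥ x) 0).det + (m3 (g *ᵥ x) 1).det - (m3 (g *ᵥ x) 2).det +
      ((m3 (g *ᵥ x) 1)ᵀ * m3 (g *ᵥ x) 0 * m3 (g *ᵥ x) 2).trace =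
    ν * ((m3 x 0).det + (m3 x 1).det - (m3 x 2).det + ((m3 x 1)ᵀ * m3 x 0 * m3 x 2).trace) := by
  refine (B1Aux.unit_cancel 6 (by norm_num)).mul_left_cancel ?_
  have e := h x x x
  rw [tri_nZ_m3, tri_nZ_m3] at e
  push_cast
  rw [e]
  ring

theorem sim_rhoZ (A : Matrix (Fin 3) (Fin 3) R) : Sim (nZ R) (nZ R) (rhoZ A) (A.det ^ 2) := by
  refine sim_of_diag (isAlb_nZ R).sym (isAlb_nZ R).sym fun x => ?_
  have e : (cof A * m3 x 1)ᵀ * (A * m3 x 0 * Aᵀ) * (cof A * m3 x 2) =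
      (m3 x 1)ᵀ * (A.adjugate * A) * m3 x 0 * (A.adjugate * A)ᵀ * m3 x 2 := by
    simp only [cof, transpose_mul, transpose_transpose, Matrix.mul_assoc]
  rw [tri_nZ_m3, tri_nZ_m3, rhoZ, m3_kr3, m3_kr3, m3_kr3]
  simp only [cons_val_zero, cons_val_one, cons_val_two, tail_cons, head_cons, transpose_one,
    Matrix.mul_one]
  rw [e, adjugate_mul]
  simp only [det_mul, det_cof, det_transpose, transpose_smul, transpose_one, Matrix.mul_smul,
    Matrix.smul_mul, Matrix.mul_one, trace_smul, smul_eq_mul]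
  ring

theorem sim_kap {C : Matrix (Fin 3) (Fin 3) R} (h : C.det = 1) : Sim (nZ R) (nZ R) (kap C) 1 := by
  refine sim_of_diag (isAlb_nZ R).sym (isAlb_nZ R).sym fun x => ?_
  have e : ((m3 x 1 * Cᵀ)ᵀ * m3 x 0 * (m3 x 2 * (cof C)ᵀ)).trace =
      ((C.adjugate * C) * ((m3 x 1)ᵀ * m3 x 0 * m3 x 2)).trace := by
    rw [← Matrix.mul_assoc, trace_mul_comm]
    simp only [cof, transpose_mul, transpose_transpose, Matrix.mul_assoc]
  rw [tri_nZ_m3, tri_nZ_m3, kap, m3_kr3, m3_kr3, m3_kr3]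
  simp only [cons_val_zero, cons_val_one, cons_val_two, tail_cons, head_cons, transpose_one,
    Matrix.mul_one, Matrix.one_mul]
  rw [e, adjugate_mul]
  simp only [det_mul, det_cof, det_transpose, h, one_smul, one_pow, mul_one, one_mul]

end Pool.Agent.P.MP_3c2f8c_gt.Ex
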