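import Pool.Agent.P.MP_3c2f8c_gt.Ex.MDefs
import Pool.Agent.P.MP_3c2f8c_gt.Ex.Al.B2

/-!
Definitions for the openness of the closure of an arithmetic group: Lie algebras, tangent vectors.
-/

namespace Pool.Agent.P.MP_3c2f8c_gt.Ex.Op

open Matrix Filter Topology

/-- The points of the Lie algebra of the twisted group. -/
def LieG (b : ℚ) (R : Type) [CommRing R] [Algebra ℚ R] : Submodule R (Matrix I I (Cub R)) where
  carrier := {X | Der (nJ (Cub R)) X 0 ∧ X * ph b (Cub R) = ph b (Cub R) * X.map Cub.sig}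
  zero_mem' := ⟨by simpa using (der_one (nJ (Cub R))).smul 0, by simp⟩
  add_mem' := fun {X Y} hX hY => ⟨by simpa using hX.1.add hY.1, by
    rw [Matrix.add_mul, hX.2, hY.2, Matrix.map_add _ (map_add _), Matrix.mul_add]⟩
  smul_mem' := fun t X hX => by
    have e : ∀ Z : Matrix I I (Cub R), t • Z = Cub.C t • Z := fun Z =>
      (algebraMap_smul (Cub R) t Z).symm
    refine ⟨by simpa [e] using hX.1.smul (Cub.C t), ?_⟩
    rw [Matrix.smul_mul, hX.2, ← Matrix.mul_smul, e, e]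
    congr 1
    ext1 a c
    simp only [Matrix.smul_apply, Matrix.map_apply, smul_eq_mul, map_mul, Cub.sig_C]

/-- Base change of matrices over the cubic algebra. -/
abbrev bcM {R S : Type} [CommRing R] [CommRing S] (f : R →+* S) (X : Matrix I I (Cub R)) :
    Matrix I I (Cub S) := X.map (Cub.map f)

/-- `X` is tangent to `Γ` at the identity. -/
def TanA (p : ℕ) [Fact p.Prime] {A : Type} [Ring A] [Algebra ℚ_[p] A] [TopologicalSpace A]
    (Γ : Subgroup Aˣ) (X : A) : Prop :=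
  ∃ c : ℕ → Aˣ, (∀ k, c k ∈ Γ) ∧
    Tendsto (fun k : ℕ => ((p : ℚ_[p]) ^ k)⁻¹ • ((c k).1 - 1)) atTop (𝓝 X)

/-- All coordinates have norm at most `r`. -/
def BdX {p : ℕ} [Fact p.Prime] (r : ℝ) (X : Matrix I I (Cub ℚ_[p])) : Prop :=
  ∀ a c i, ‖Cub.co (X a c) i‖ ≤ r

/-- The elements of multiplier one above an arithmetic group. -/
noncomputable def G1 (b : ℚ) (K : ∀ p : Nat.Primes, Subgroup (UG b ℚ_[p])) : Subgroup (Gt b ℚ) where
  carrier := {g | Sim (nJ (Cub ℚ)) (nJ (Cub ℚ)) g.1.1 1 ∧ QuotientGroup.mk g ∈ Gam (Phi b) K}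
  one_mem' := ⟨sim_one _, one_mem _⟩
  mul_mem' := fun {g h} hg hh => ⟨by simpa using hg.1.mul hh.1, mul_mem hg.2 hh.2⟩
  inv_mem' := fun {g} hg => ⟨by simpa using Sim.inv (ν := 1) hg.1, inv_mem hg.2⟩

/-- The map from the rational similitudes to the local general linear group. -/
noncomputable def toGL (b : ℚ) (p : ℕ) [Fact p.Prime] : Gt b ℚ →* GL I (Cub ℚ_[p]) :=
  (Gt b ℚ_[p]).subtype.comp (gmap b (algebraMap ℚ ℚ_[p]))

end Pool.Agent.P.MP_3c2f8c_gt.Ex.Op
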