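import Mathlib

/-! EXO-Gal1: equivariant characters that are tangent to the identity map. -/

namespace Pool.Agent.P.MP_3c2f8c_gt.Ex.Op

open Filter Topology

namespace OpGal1Aux

theorem exists_den {α ι : Type} [Fintype ι] (T : Finset α) (c : α → ι → ℚ) :
    ∃ (M : ℕ) (n : α → ι → ℤ), 0 < M ∧ ∀ μ ∈ T, ∀ j, (n μ j : ℚ) = M * c μ j := by
  refine ⟨∏ μ ∈ T, ∏ j, (c μ j).den,
    fun μ j => (((∏ μ ∈ T, ∏ j, (c μ j).den : ℕ) : ℚ) * c μ j).num,
    Finset.prod_pos fun μ _ => Finset.prod_pos fun j _ => (c μ j).den_pos, fun μ hμ j => ?_⟩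
  obtain ⟨e, he⟩ : (c μ j).den ∣ ∏ μ ∈ T, ∏ j, (c μ j).den :=
    (Finset.dvd_prod_of_mem (fun j => (c μ j).den) (Finset.mem_univ j)).trans
      (Finset.dvd_prod_of_mem (fun μ => ∏ j, (c μ j).den) hμ)
  have h : ((∏ μ ∈ T, ∏ j, (c μ j).den : ℕ) : ℚ) * c μ j = ((e * (c μ j).num : ℤ) : ℚ) := by
    rw [he]
    push_cast
    rw [← Rat.den_mul_eq_num]
    ring
  simp only [h, Rat.num_intCast]

theorem deriv_prod {K ι : Type} [NontriviallyNormedField K] (S : Finset ι) (a : ι → K)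
    (m : ι → ℤ) :
    HasDerivAt (fun t : K => ∏ i ∈ S, (1 + t * a i) ^ m i) (∑ i ∈ S, (m i : K) * a i) 0 := by
  classical
  induction S using Finset.induction_on with
  | empty => simpa using hasDerivAt_const (0 : K) (1 : K)
  | insert i S hi ih =>
    have h1 : HasDerivAt (fun t : K => 1 + t * a i) (a i) 0 := by
      simpa using ((hasDerivAt_id (0 : K)).mul_const (a i)).const_add 1
    have h2 := (hasDerivAt_zpow (m i) (1 : K) (Or.inl one_ne_zero)).comp_of_eq 0 h1 (by simp)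
    have h3 := h2.fun_mul ih
    simp only [Finset.prod_insert hi, Finset.sum_insert hi]
    simpa [Function.comp] using h3

theorem tendsto_pow (p : ℕ) [Fact p.Prime] :
    Tendsto (fun k : ℕ => (p : PadicAlgCl p) ^ k) atTop (𝓝[≠] 0) := by
  have h0 : (p : PadicAlgCl p) ≠ 0 := Nat.cast_ne_zero.2 (Fact.out : p.Prime).ne_zero
  have h1 : ‖(p : PadicAlgCl p)‖ < 1 := by
    rw [← map_natCast (algebraMap ℚ_[p] (PadicAlgCl p)), norm_algebraMap']
    exact Padic.norm_p_lt_one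
  exact tendsto_nhdsWithin_iff.2 ⟨tendsto_pow_atTop_nhds_zero_of_norm_lt_one h1,
    Eventually.of_forall fun k => pow_ne_zero k h0⟩

end OpGal1Aux

theorem exists_char (p : ℕ) [Fact p.Prime] {F : Type} [Field F] [Algebra ℚ F]
    [FiniteDimensional ℚ F] (T : Finset F) (hT : ∀ (s : F ≃ₐ[ℚ] F), ∀ μ ∈ T, s μ ∈ T)
    (v : F →+* PadicAlgCl p) : ∃ (M : ℕ) (χ : ℕ → F → F), 0 < M ∧ (∀ k μ, χ k μ ≠ 0) ∧
      (∀ k (s : F ≃ₐ[ℚ] F), ∀ μ ∈ T, χ k (s μ) = s (χ k μ)) ∧
      (∀ k, ∀ μ₁ ∈ T, ∀ μ₂ ∈ T, ∀ μ₃ ∈ T, μ₁ + μ₂ + μ₃ = 0 → χ k μ₁ * χ k μ₂ * χ k μ₃ = 1) ∧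
      ∀ μ ∈ T, Tendsto (fun k : ℕ => ((p : PadicAlgCl p) ^ k)⁻¹ * (v (χ k μ) - 1)) atTop
        (𝓝 (M * v μ)) := by
  classical
  have : CharZero F := algebraRat.charZero F
  let b := Module.finBasis ℚ F
  obtain ⟨M, n, hM, hn⟩ := OpGal1Aux.exists_den T fun μ j => b.repr μ j
  have hinv : ∀ (s : F ≃ₐ[ℚ] F), ∀ μ ∈ T, s⁻¹ μ ∈ T := fun s => hT s⁻¹
  let good : ℕ → Prop := fun k => ∀ (s : F ≃ₐ[ℚ] F) j, 1 + (p : F) ^ k * s (b j) ≠ 0
  let χ : ℕ → F → F := fun k μ => if good k then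
    ∏ s : F ≃ₐ[ℚ] F, ∏ j, (1 + (p : F) ^ k * s (b j)) ^ n (s⁻¹ μ) j else 1
  refine ⟨Fintype.card (F ≃ₐ[ℚ] F) * M, χ, Nat.mul_pos Fintype.card_pos hM, fun k μ => ?_,
    fun k s' μ _ => ?_, fun k μ₁ h₁ μ₂ h₂ μ₃ h₃ h => ?_, fun μ hμ => ?_⟩
  · simp only [χ]
    split_ifs with hk
    · exact Finset.prod_ne_zero_iff.2 fun s _ => Finset.prod_ne_zero_iff.2 fun j _ =>
        zpow_ne_zero _ (hk s j)
    · exact one_ne_zero
  · simp only [χ]
    split_ifs with hk
    · rw [← Equiv.prod_comp (Equiv.mulLeft s'), map_prod]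
      refine Finset.prod_congr rfl fun s _ => ?_
      rw [map_prod]
      refine Finset.prod_congr rfl fun j _ => ?_
      have h1 : (s' * s)⁻¹ (s' μ) = s⁻¹ μ := by
        rw [← AlgEquiv.mul_apply, mul_inv_rev, inv_mul_cancel_right]
      rw [Equiv.coe_mulLeft, h1, map_zpow₀, map_add, map_one, map_mul, map_pow, map_natCast,
        AlgEquiv.mul_apply]
    · rw [map_one]
  · simp only [χ]
    split_ifs with hk
    · rw [← Finset.prod_mul_distrib, ← Finset.prod_mul_distrib]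
      refine Finset.prod_eq_one fun s _ => ?_
      rw [← Finset.prod_mul_distrib, ← Finset.prod_mul_distrib]
      refine Finset.prod_eq_one fun j _ => ?_
      have h1 : n (s⁻¹ μ₁) j + n (s⁻¹ μ₂) j + n (s⁻¹ μ₃) j = 0 := by
        have h2 : b.repr (s⁻¹ μ₁) j + b.repr (s⁻¹ μ₂) j + b.repr (s⁻¹ μ₃) j = 0 := by
          rw [← Finsupp.add_apply, ← Finsupp.add_apply, ← map_add, ← map_add, ← map_add, ← map_add,
            h, map_zero, map_zero, Finsupp.zero_apply]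
        have h3 : ((n (s⁻¹ μ₁) j + n (s⁻¹ μ₂) j + n (s⁻¹ μ₃) j : ℤ) : ℚ) = 0 := by
          push_cast
          rw [hn _ (hinv s _ h₁), hn _ (hinv s _ h₂), hn _ (hinv s _ h₃), ← mul_add, ← mul_add, h2,
            mul_zero]
        exact_mod_cast h3
      rw [← zpow_add₀ (hk s j), ← zpow_add₀ (hk s j), h1, zpow_zero]
    · simp
  · have hp := OpGal1Aux.tendsto_pow p
    have hg : ∀ᶠ k in atTop, good k := by
      refine eventually_all.2 fun s => eventually_all.2 fun j => ?_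
      have h1 : Tendsto (fun k : ℕ => 1 + (p : PadicAlgCl p) ^ k * v (s (b j))) atTop
          (𝓝 (1 + 0 * v (s (b j)))) :=
        ((hp.mono_right nhdsWithin_le_nhds).mul_const _).const_add _
      rw [zero_mul, add_zero] at h1
      refine (h1.eventually_ne one_ne_zero).mono fun k hk h => hk ?_
      have := congrArg v h
      simpa using this
    have hd := OpGal1Aux.deriv_prod (Finset.univ : Finset ((F ≃ₐ[ℚ] F) × _))
      (fun x => v (x.1 (b x.2))) (fun x => n (x.1⁻¹ μ) x.2)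
    have hs : ∑ x : (F ≃ₐ[ℚ] F) × _, (n (x.1⁻¹ μ) x.2 : PadicAlgCl p) * v (x.1 (b x.2)) =
        ((Fintype.card (F ≃ₐ[ℚ] F) * M : ℕ) : PadicAlgCl p) * v μ := by
      rw [Fintype.sum_prod_type]
      have h1 : ∀ s : F ≃ₐ[ℚ] F, ∑ j, (n (s⁻¹ μ) j : PadicAlgCl p) * v (s (b j)) = M * v μ := by
        intro s
        have h2 : ∑ j, (n (s⁻¹ μ) j : F) * b j = M * s⁻¹ μ := by
          conv_rhs => rw [← b.sum_repr (s⁻¹ μ), Finset.mul_sum]
          refine Finset.sum_congr rfl fun j _ => ?_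
          have h3 := congrArg (algebraMap ℚ F) (hn _ (hinv s _ hμ) j)
          rw [map_intCast, map_mul, map_natCast] at h3
          rw [h3, Algebra.smul_def, mul_assoc]
        have h4 := congrArg (fun x => v (s x)) h2
        have h5 : s (s⁻¹ μ) = μ := by
          rw [← AlgEquiv.mul_apply, mul_inv_cancel, AlgEquiv.one_apply]
        simpa only [map_sum, map_mul, map_intCast, map_natCast, h5] using h4
      simp only [h1, Finset.sum_const, Finset.card_univ, nsmul_eq_mul]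
      push_cast
      ring
    rw [hs] at hd
    refine ((hasDerivAt_iff_tendsto_slope_zero.1 hd).comp hp).congr' ?_
    filter_upwards [hg] with k hk
    simp only [Function.comp, χ, if_pos hk, zero_add, zero_mul, add_zero, one_zpow,
      Finset.prod_const_one, smul_eq_mul, Fintype.prod_prod_type, map_prod, map_zpow₀, map_add,
      map_one, map_mul, map_pow, map_natCast]

end Pool.Agent.P.MP_3c2f8c_gt.Ex.Op
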