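import Pool.Agent.P.MP_3c2f8c_gt.Ex.Lo.OpT2
import Pool.Agent.P.MP_3c2f8c_gt.Ex.Gl.Rho

/-! The norm on matrices over the local cubic algebra. -/

namespace Pool.Agent.P.MP_3c2f8c_gt.Ex.Op

open Matrix Filter Topology

variable {p : ℕ} [Fact p.Prime]

namespace NAux

variable (p) in
/-- The norm on the local cubic algebra. -/
@[reducible] noncomputable def nC : NormedAddCommGroup (Cub ℚ_[p]) :=
  NormedAddCommGroup.induced _ _ (Cub.coEquiv ℚ_[p]).toLinearMap Cub.co_injective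

attribute [local instance] nC

variable (p) in
/-- The normed space structure on the local cubic algebra. -/
@[reducible] noncomputable def sC : NormedSpace ℚ_[p] (Cub ℚ_[p]) :=
  NormedSpace.induced _ _ _ (Cub.coEquiv ℚ_[p]).toLinearMap

attribute [local instance] sC

variable (p) in
/-- The norm on matrices. -/
@[reducible] noncomputable def nM : NormedAddCommGroup (Matrix I I (Cub ℚ_[p])) :=
  Matrix.normedAddCommGroup

attribute [local instance] nM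

theorem nle_iff {r : ℝ} (hr : 0 ≤ r) {X : Matrix I I (Cub ℚ_[p])} : ‖X‖ ≤ r ↔ BdX r X := by
  rw [Matrix.norm_le_iff hr]
  exact forall₂_congr fun a c => pi_norm_le_iff_of_nonneg hr

theorem co_mul {x y : Cub ℚ_[p]} {r s : ℝ} (hx : ∀ i, ‖Cub.co x i‖ ≤ r) (hy : ∀ i, ‖Cub.co y i‖ ≤ s)
    (i : Fin 3) : ‖Cub.co (x * y) i‖ ≤ r * s := by
  have k : ∀ i j, ‖Cub.co x i * Cub.co y j‖ ≤ r * s := fun i j => by
    rw [norm_mul]
    exact mul_le_mul (hx i) (hy j) (norm_nonneg _) ((norm_nonneg _).trans (hx i))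
  have ad : ∀ u v : ℚ_[p], ‖u‖ ≤ r * s → ‖v‖ ≤ r * s → ‖u + v‖ ≤ r * s := fun u v hu hv =>
    (Padic.nonarchimedean _ _).trans (max_le hu hv)
  have sb : ∀ u v : ℚ_[p], ‖u‖ ≤ r * s → ‖v‖ ≤ r * s → ‖u - v‖ ≤ r * s := fun u v hu hv => by
    rw [sub_eq_add_neg]
    exact ad _ _ hu (by rwa [norm_neg])
  have nt : ∀ (m : ℕ) (u : ℚ_[p]), ‖u‖ ≤ r * s → ‖(m : ℚ_[p]) * u‖ ≤ r * s := fun m u hu => by
    rw [norm_mul]
    exact (mul_le_of_le_one_left (norm_nonneg _)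
      (IsUltrametricDist.norm_natCast_le_one _ m)).trans hu
  fin_cases i
  · exact sb _ _ (ad _ _ (k 0 0) (ad _ _ (k 1 2) (k 2 1))) (k 2 2)
  · exact sb _ _ (ad _ _ (ad _ _ (k 0 1) (k 1 0)) (nt 2 _ (ad _ _ (k 1 2) (k 2 1)))) (k 2 2)
  · exact ad _ _ (sb _ _ (ad _ _ (ad _ _ (k 0 2) (k 1 1)) (k 2 0)) (ad _ _ (k 1 2) (k 2 1)))
      (nt 3 _ (k 2 2))

theorem co_add {x y : Cub ℚ_[p]} {r : ℝ} (hx : ∀ i, ‖Cub.co x i‖ ≤ r) (hy : ∀ i, ‖Cub.co y i‖ ≤ r)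
    (i : Fin 3) : ‖Cub.co (x + y) i‖ ≤ r := by
  have e : Cub.co (x + y) i = Cub.co x i + Cub.co y i := by fin_cases i <;> rfl
  rw [e]
  exact (Padic.nonarchimedean _ _).trans (max_le (hx i) (hy i))

theorem bd_self (X : Matrix I I (Cub ℚ_[p])) : BdX ‖X‖ X := (nle_iff (norm_nonneg _)).1 le_rfl

theorem mul_le (X Y : Matrix I I (Cub ℚ_[p])) : ‖X * Y‖ ≤ ‖X‖ * ‖Y‖ := by
  refine (nle_iff (by positivity)).2 fun a c => ?_
  rw [Matrix.mul_apply]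
  refine Finset.sum_induction _ (fun z : Cub ℚ_[p] => ∀ i, ‖Cub.co z i‖ ≤ ‖X‖ * ‖Y‖)
    (fun _ _ => co_add) (fun i => ?_) fun k _ => co_mul (bd_self X a k) (bd_self Y k c)
  fin_cases i <;> simp [Cub.co] <;> positivity

variable (p) in
/-- The normed ring of matrices. -/
@[reducible] noncomputable def rM : NormedRing (Matrix I I (Cub ℚ_[p])) :=
  { nM p, (inferInstance : Ring (Matrix I I (Cub ℚ_[p]))) with norm_mul_le := mul_le }

theorem smul_le (t : ℚ_[p]) (X : Matrix I I (Cub ℚ_[p])) : ‖t • X‖ ≤ ‖t‖ * ‖X‖ :=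
  (Matrix.normedSpace (R := ℚ_[p])).norm_smul_le t X

theorem ultra : IsUltrametricDist (Matrix I I (Cub ℚ_[p])) :=
  IsUltrametricDist.isUltrametricDist_of_forall_norm_add_le_max_norm fun X Y =>
    (nle_iff (le_max_of_le_left (norm_nonneg _))).2 fun a c => co_add
      (fun i => (bd_self X a c i).trans (le_max_left _ _))
      fun i => (bd_self Y a c i).trans (le_max_right _ _)

theorem norm_one' : ‖(1 : Matrix I I (Cub ℚ_[p]))‖ = 1 := by
  refine le_antisymm ((nle_iff zero_le_one).2 fun a c i => ?_) ?_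
  · rw [Matrix.one_apply]
    split_ifs <;> fin_cases i <;> simp [Cub.co]
  · simpa [Cub.co] using bd_self (1 : Matrix I I (Cub ℚ_[p])) (.inl 0) (.inl 0) 0

end NAux

open NAux

attribute [local instance] rM

namespace NAux

variable (p) in
/-- The normed algebra of matrices. -/
@[reducible] noncomputable def aM : NormedAlgebra ℚ_[p] (Matrix I I (Cub ℚ_[p])) :=
  { (inferInstance : Algebra ℚ_[p] (Matrix I I (Cub ℚ_[p]))) with norm_smul_le := smul_le }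

end NAux

attribute [local instance] aM

theorem NAux.proper : ProperSpace (Matrix I I (Cub ℚ_[p])) :=
  FiniteDimensional.proper ℚ_[p] _

theorem contSMul : ContinuousSMul ℚ_[p] (Matrix I I (Cub ℚ_[p])) :=
  @IsBoundedSMul.continuousSMul ℚ_[p] _ _ (rM p).toPseudoMetricSpace _ _ _
    NormedSpace.toIsBoundedSMul

theorem tanC_submodule (Γ : Subgroup (GL I (Cub ℚ_[p]))) :
    ∃ V : Submodule ℚ_[p] (Matrix I I (Cub ℚ_[p])), ∀ X, X ∈ V ↔ TanA p Γ X := tanA_submodule Γ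

theorem tanC_ne_zero {Γ : Subgroup (GL I (Cub ℚ_[p]))} (hΓ : Γ ≤ IntG p) (hinf : Infinite Γ) :
    ∃ X : Matrix I I (Cub ℚ_[p]), X ≠ 0 ∧ TanA p Γ X := by
  have := ultra (p := p)
  have := proper (p := p)
  refine tanA_ne_zero (fun g hg => (nle_iff zero_le_one).2 fun a c i => ?_) hinf
  obtain ⟨h0, h1, h2⟩ := (hΓ hg).1 a c
  fin_cases i
  exacts [h0, h1, h2]

theorem tanC_conj {Γ : Subgroup (GL I (Cub ℚ_[p]))} {X : Matrix I I (Cub ℚ_[p])} (h : TanA p Γ X)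
    {g : GL I (Cub ℚ_[p])} {m : ℕ} (hm : 0 < m) (hg : ∀ γ ∈ Γ, g * γ ^ m * g⁻¹ ∈ Γ) :
    TanA p Γ (g.1 * X * (g⁻¹).1) := h.conj hm hg

theorem lieC_mem {V : Submodule ℚ_[p] (Matrix I I (Cub ℚ_[p]))} {h : ℕ → GL I (Cub ℚ_[p])}
    {Y X : Matrix I I (Cub ℚ_[p])}
    (hh : Tendsto (fun k : ℕ => ((p : ℚ_[p]) ^ k)⁻¹ • ((h k).1 - 1)) atTop (𝓝 Y)) (hX : X ∈ V)
    (hc : ∀ k, (h k).1 * X * ((h k)⁻¹).1 ∈ V) : Y * X - X * Y ∈ V := by
  have := proper (p := p)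
  have := contSMul (p := p)
  have : T2Space (Cub ℚ_[p]) := RhoAux.t2_cub
  exact lie_mem_of_conj V.closed_of_finiteDimensional hh hX hc

theorem open_of_tanC {U Γ : Subgroup (GL I (Cub ℚ_[p]))} (hΓ : Γ ≤ U)
    (L : Submodule ℚ_[p] (Matrix I I (Cub ℚ_[p]))) {C : ℝ}
    (hL : ∀ g ∈ U, ∀ r : ℝ, 0 ≤ r → r ≤ 1 → BdX r (g.1 - 1) → ∃ Z ∈ L, BdX (C * r ^ 2) (g.1 - 1 - Z))
    (h : ∀ X ∈ L, TanA p Γ X) : IsOpen ((Γ.subgroupOf U).topologicalClosure : Set U) := by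
  have := ultra (p := p)
  have := proper (p := p)
  have := contSMul (p := p)
  have : T2Space (Cub ℚ_[p]) := RhoAux.t2_cub
  have : NormOneClass (Matrix I I (Cub ℚ_[p])) := ⟨norm_one'⟩
  refine open_of_tanA hΓ L.closed_of_finiteDimensional (C := C) (fun g hg r h0 h1 hb => ?_) h
  obtain ⟨Z, hZ, h2⟩ := hL g hg r h0 h1 ((nle_iff h0).1 hb)
  exact ⟨Z, hZ, (nle_iff ((norm_nonneg _).trans (h2 (.inl 0) (.inl 0) 0))).2 h2⟩

end Pool.Agent.P.MP_3c2f8c_gt.Ex.Op
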