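import Pool.Agent.P.MP_3c2f8c_gt.Ex.Lo.OpDefs
import Pool.Agent.P.MP_3c2f8c_gt.Ex.Al.Tw

/-! EXO-Span: base change of the Lie algebra. -/

namespace Pool.Agent.P.MP_3c2f8c_gt.Ex.Op

open Matrix

variable {b : ℚ}

namespace OpSpanAux

section Fun

variable {k K : Type} [CommRing k] [CommRing K] [Algebra k K]

/-- A linear functional applied to the coordinates. -/
def ls (l : K →ₗ[k] k) : Cub K →+ Cub k where
  toFun x := ⟨l x.c0, l x.c1, l x.c2⟩
  map_zero' := by ext <;> simp
  map_add' x y := by ext <;> simp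

@[simp] theorem ls_c0 (l : K →ₗ[k] k) (x : Cub K) : (ls l x).c0 = l x.c0 := rfl
@[simp] theorem ls_c1 (l : K →ₗ[k] k) (x : Cub K) : (ls l x).c1 = l x.c1 := rfl
@[simp] theorem ls_c2 (l : K →ₗ[k] k) (x : Cub K) : (ls l x).c2 = l x.c2 := rfl

theorem l_mul (l : K →ₗ[k] k) (a : k) (x : K) : l (algebraMap k K a * x) = a * l x := by
  rw [← Algebra.smul_def, map_smul, smul_eq_mul]

theorem ls_C (l : K →ₗ[k] k) (a : k) (x : Cub K) :
    ls l (Cub.C (algebraMap k K a) * x) = Cub.C a * ls l x := by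
  ext <;> simp [l_mul]

theorem l_two (l : K →ₗ[k] k) (x : K) : l (2 * x) = 2 * l x := by
  rw [two_mul, map_add, two_mul]

theorem l_three (l : K →ₗ[k] k) (x : K) : l (3 * x) = 3 * l x := by
  rw [show 3 * x = x + x + x by ring, map_add, map_add]
  ring

theorem ls_eta (l : K →ₗ[k] k) (x : Cub K) : ls l (Cub.eta * x) = Cub.eta * ls l x := by
  ext <;> simp [Cub.eta, l_two]

theorem ls_mul (l : K →ₗ[k] k) (a : Cub k) (x : Cub K) :
    ls l (Cub.map (algebraMap k K) a * x) = a * ls l x := by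
  have e : Cub.map (algebraMap k K) a * x = Cub.C (algebraMap k K a.c0) * x +
      Cub.C (algebraMap k K a.c1) * (Cub.eta * x) +
        Cub.C (algebraMap k K a.c2) * (Cub.eta * (Cub.eta * x)) := by
    ext <;> simp [Cub.eta] <;> ring
  rw [e, map_add, map_add, ls_C, ls_C, ls_C, ls_eta, ls_eta, ls_eta]
  ext <;> simp [Cub.eta] <;> ring

theorem ls_sig (l : K →ₗ[k] k) (x : Cub K) : ls l (Cub.sig x) = Cub.sig (ls l x) := by
  ext <;> simp [l_two, l_three]

theorem ls_smul (l : K →ₗ[k] k) (t : K) (a : Cub k) :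
    ls l (t • Cub.map (algebraMap k K) a) = l t • a := by
  ext <;> simp [mul_comm t, l_mul, mul_comm (l t)]

theorem ls_mem [Algebra ℚ k] [Algebra ℚ K] (l : K →ₗ[k] k) {X : Matrix I I (Cub K)}
    (hX : X ∈ LieG b K) : X.map (ls l) ∈ LieG b k := by
  refine ⟨der_iff_single.2 fun a c d => ?_, ?_⟩
  · have h := congrArg (ls l) (der_iff_single.1 hX.1 a c d)
    rw [← nJ_map (Cub.map (algebraMap k K))] at h
    simpa only [T3.map, map_sum, map_add, ls_mul, zero_mul, map_zero, Matrix.map_apply] using h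
  · ext1 a c
    have h := congrArg (ls l) (congrFun (congrFun hX.2 a) c)
    rw [← ph_map b (Cub.map (algebraMap k K))] at h
    simp only [Matrix.mul_apply, map_sum, Matrix.map_apply, mul_comm (X _ _), ls_mul, ls_sig] at h
    simp only [Matrix.mul_apply, Matrix.map_apply, mul_comm (ls l (X _ _))]
    exact h

end Fun

theorem exists_expand {k K ι : Type} [Field k] [CommRing K] [Algebra k K] [Fintype ι] (y : ι → K) :
    ∃ (n : Type) (s : Finset n) (t : n → K) (l : n → K →ₗ[k] k),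
      ∀ q, y q = ∑ j ∈ s, t j * algebraMap k K (l j (y q)) := by
  classical
  let B := Module.Basis.ofVectorSpace k K
  refine ⟨_, Finset.univ.biUnion fun q => (B.repr (y q)).support, B, B.coord, fun q => ?_⟩
  conv_lhs => rw [← B.linearCombination_repr (y q), Finsupp.linearCombination_apply,
    Finsupp.sum_of_support_subset _ (Finset.subset_biUnion_of_mem
      (fun q => (B.repr (y q)).support) (Finset.mem_univ q)) (fun j t => t • B j)
      fun j _ => zero_smul _ _]
  exact Finset.sum_congr rfl fun j _ => by rw [Algebra.smul_def, mul_comm]; rfl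

section Split

variable {K : Type} [Field K] [Algebra ℚ K]

/-- The next component. -/
noncomputable def nx (j : Cub K →+* K) : Cub K →+* K :=
  j.comp (Cub.sig : Cub K ≃+* Cub K).toRingHom

theorem mat_ext {j : Cub K →+* K} (hj : ∀ t, j (Cub.C t) = t) {X Y : Matrix I I (Cub K)}
    (h0 : X.map j = Y.map j) (h1 : X.map (nx j) = Y.map (nx j))
    (h2 : X.map (nx (nx j)) = Y.map (nx (nx j))) : X = Y := by
  ext1 a c
  exact (Cub.split_bijective j hj).1 (Prod.ext (congrFun (congrFun h0 a) c)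
    (Prod.ext (congrFun (congrFun h1 a) c) (congrFun (congrFun h2 a) c)))

theorem mat_surj {j : Cub K →+* K} (hj : ∀ t, j (Cub.C t) = t) (A B C : Matrix I I K) :
    ∃ X : Matrix I I (Cub K), X.map j = A ∧ X.map (nx j) = B ∧ X.map (nx (nx j)) = C := by
  choose x hx using fun a c => (Cub.split_bijective j hj).2 (A a c, B a c, C a c)
  refine ⟨Matrix.of x, ?_, ?_, ?_⟩ <;> ext a c
  · exact congrArg (·.1) (hx a c)
  · exact congrArg (·.2.1) (hx a c)
  · exact congrArg (·.2.2) (hx a c)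

omit [Algebra ℚ K] in
theorem sig_nx (j : Cub K →+* K) (X : Matrix I I (Cub K)) : (X.map Cub.sig).map j = X.map (nx j) :=
  rfl

omit [Algebra ℚ K] in
theorem sig_nx2 (j : Cub K →+* K) (X : Matrix I I (Cub K)) :
    (X.map Cub.sig).map (nx (nx j)) = X.map j := by
  ext a c
  exact congrArg j (Cub.sig_sig_sig (X a c))

theorem comp (j : Cub K →+* K) {X : Matrix I I (Cub K)} (hX : X ∈ LieG b K) :
    X.map j * ph b K = ph b K * X.map (nx j) := by
  have h := congrArg (fun X => X.map j) hX.2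
  simp only [Matrix.map_mul, ph_map] at h
  exact h

theorem der_of_three {j : Cub K →+* K} (hj : ∀ t, j (Cub.C t) = t) {X : Matrix I I (Cub K)}
    (h0 : Der (nJ K) (X.map j) 0) (h1 : Der (nJ K) (X.map (nx j)) 0)
    (h2 : Der (nJ K) (X.map (nx (nx j))) 0) : Der (nJ (Cub K)) X 0 := by
  have key : ∀ f : Cub K →+* K, Der (nJ K) (X.map f) 0 → ∀ a c d,
      f (∑ e, (nJ (Cub K) e c d * X e a + nJ (Cub K) a e d * X e c + nJ (Cub K) a c e * X e d)) =
        f (0 * nJ (Cub K) a c d) := fun f h a c d => by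
    have e := der_iff_single.1 h a c d
    rw [← nJ_map f] at e
    simpa only [T3.map, map_sum, map_add, map_mul, map_zero, Matrix.map_apply] using e
  exact der_iff_single.2 fun a c d => (Cub.split_bijective j hj).1
    (Prod.ext (key j h0 a c d) (Prod.ext (key _ h1 a c d) (key _ h2 a c d)))

end Split

end OpSpanAux

open OpSpanAux

theorem bcM_mem {R S : Type} [CommRing R] [Algebra ℚ R] [CommRing S] [Algebra ℚ S] (f : R →+* S)
    {X : Matrix I I (Cub R)} (hX : X ∈ LieG b R) : bcM f X ∈ LieG b S := by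
  refine ⟨by simpa only [nJ_map, map_zero] using hX.1.map (Cub.map f), ?_⟩
  have h := congrArg (fun X => X.map (Cub.map f)) hX.2
  simp only [Matrix.map_mul, ph_map] at h
  refine h.trans (congrArg _ ?_)
  ext1 a c
  exact Cub.map_sig f _

theorem mem_span_lie (k : Type) [Field k] [Algebra ℚ k] {X : Matrix I I (Cub k)}
    (hX : X ∈ LieG b k) : X ∈ Submodule.span k (bcM (algebraMap ℚ k) '' LieG b ℚ) := by
  obtain ⟨n, s, t, l, key⟩ := exists_expand (k := ℚ)
    fun q : I × I × Fin 3 => Cub.co (X q.1 q.2.1) q.2.2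
  have e : X = ∑ j ∈ s, t j • bcM (algebraMap ℚ k) (X.map (ls (l j))) := by
    ext1 a c
    rw [Matrix.sum_apply]
    refine (Cub.coEquiv k).injective (funext fun i => ?_)
    rw [map_sum, Finset.sum_apply]
    refine (key (a, c, i)).trans (Finset.sum_congr rfl fun j _ => ?_)
    fin_cases i <;> rfl
  rw [e]
  exact Submodule.sum_mem _ fun j _ => Submodule.smul_mem _ _
    (Submodule.subset_span ⟨_, ls_mem _ hX, rfl⟩)

theorem descend {k K : Type} [Field k] [Field K] [Algebra k K]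
    (V : Submodule k (Matrix I I (Cub k))) {X : Matrix I I (Cub k)}
    (h : bcM (algebraMap k K) X ∈ Submodule.span K (bcM (algebraMap k K) '' V)) : X ∈ V := by
  obtain ⟨l, hl⟩ := LinearMap.exists_leftInverse_of_injective (Algebra.linearMap k K)
    (LinearMap.ker_eq_bot.2 (algebraMap k K).injective)
  have h1 : l 1 = 1 := by simpa using LinearMap.congr_fun hl 1
  have e : ∀ (t : K) (Z : Matrix I I (Cub k)), (t • bcM (algebraMap k K) Z).map (ls l) = l t • Z :=
    fun t Z => by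
      ext1 a c
      exact ls_smul l t _
  have key : ∀ Z ∈ Submodule.span K (bcM (algebraMap k K) '' V), ∀ t : K,
      (t • Z).map (ls l) ∈ V := by
    intro Z hZ
    induction hZ using Submodule.span_induction with
    | mem Z hZ =>
      obtain ⟨Z, hZ, rfl⟩ := hZ
      exact fun t => e t Z ▸ V.smul_mem _ hZ
    | zero =>
      intro t
      rw [smul_zero, Matrix.map_zero _ (map_zero _)]
      exact V.zero_mem
    | add Z Z' _ _ h1 h2 =>
      intro t
      rw [smul_add, Matrix.map_add _ (map_add _)]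
      exact V.add_mem (h1 t) (h2 t)
    | smul r Z _ h1 =>
      intro t
      rw [smul_smul]
      exact h1 _
  have h2 := key _ h 1
  rwa [e, h1, one_smul] at h2

theorem lie_inj (hb : b ≠ 0) {K : Type} [Field K] [Algebra ℚ K] (j : Cub K →+* K)
    (hj : ∀ t, j (Cub.C t) = t) {X : Matrix I I (Cub K)} (hX : X ∈ LieG b K) (h : X.map j = 0) :
    X = 0 := by
  obtain ⟨φ, hφ⟩ := exists_phU hb K
  have key : ∀ f : Cub K →+* K, X.map f = 0 → X.map (nx f) = 0 := fun f hf => by
    have c := comp f hX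
    rw [← hφ, hf] at c
    rw [← φ.mul_right_inj, ← c, Matrix.zero_mul, Matrix.mul_zero]
  have z : ∀ f : Cub K →+* K, (0 : Matrix I I (Cub K)).map f = 0 := fun f =>
    Matrix.map_zero _ (map_zero f)
  exact mat_ext hj (h.trans (z _).symm) ((key _ h).trans (z _).symm)
    ((key _ (key _ h)).trans (z _).symm)

theorem lie_surj (hb : b ≠ 0) {K : Type} [Field K] [Algebra ℚ K] (j : Cub K →+* K)
    (hj : ∀ t, j (Cub.C t) = t) {D : Matrix I I K} (hD : Der (nJ K) D 0) :
    ∃ X ∈ LieG b K, X.map j = D := by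
  obtain ⟨φ, hφ⟩ := exists_phU hb K
  have hb' : (algebraMap ℚ K b) ^ 2 ≠ 0 :=
    pow_ne_zero _ ((map_ne_zero_iff _ (algebraMap ℚ K).injective).2 hb)
  have hs : Sim (nJ K) (nJ K) φ.1 (Units.mk0 _ hb').1 := by
    rw [hφ]
    exact sim_phi _
  have hconj : ∀ Z : Matrix I I K, Der (nJ K) Z 0 → Der (nJ K) ((φ⁻¹).1 * Z * φ.1) 0 :=
    fun Z hZ => by simpa only [inv_inv] using hs.inv.conj_der hZ
  have canc : ∀ Z : Matrix I I K, φ.1 * ((φ⁻¹).1 * Z * φ.1) = Z * φ.1 := fun Z => by
    rw [Matrix.mul_assoc, Units.mul_inv_cancel_left]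
  obtain ⟨X, x0, x1, x2⟩ := mat_surj hj D ((φ⁻¹).1 * D * φ.1)
    ((φ⁻¹).1 * ((φ⁻¹).1 * D * φ.1) * φ.1)
  have hcube : D * (φ.1 * φ.1 * φ.1) = φ.1 * φ.1 * φ.1 * D := by
    simp only [hφ, ph, phi_cube, Matrix.smul_mul, Matrix.mul_smul, Matrix.one_mul, Matrix.mul_one]
  refine ⟨X, ⟨der_of_three hj (x0 ▸ hD) (x1 ▸ hconj _ hD) (x2 ▸ hconj _ (hconj _ hD)),
    mat_ext hj ?_ ?_ ?_⟩, x0⟩
  · rw [Matrix.map_mul, Matrix.map_mul, ph_map, sig_nx, x0, x1, ← hφ, canc]
  · rw [Matrix.map_mul, Matrix.map_mul, ph_map, sig_nx, x1, x2, ← hφ, canc]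
  · rw [Matrix.map_mul, Matrix.map_mul, ph_map, sig_nx2, x2, x0, ← hφ]
    calc (φ⁻¹).1 * ((φ⁻¹).1 * D * φ.1) * φ.1 * φ.1
        = (φ⁻¹).1 * ((φ⁻¹).1 * (D * (φ.1 * φ.1 * φ.1))) := by simp only [Matrix.mul_assoc]
      _ = φ.1 * D := by
        rw [hcube]
        simp only [Matrix.mul_assoc, Units.inv_mul_cancel_left]

end Pool.Agent.P.MP_3c2f8c_gt.Ex.Op
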