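import Pool.Agent.P.MP_3c2f8c_gt.Ex.Lo.OpDefs
import Pool.Agent.P.MP_3c2f8c_gt.Ex.Al.Tw

/-! EXO-Ss1: the rational Lie algebra has no nilpotent element. -/

namespace Pool.Agent.P.MP_3c2f8c_gt.Ex.Op

open Matrix Polynomial

namespace OpSs1Aux

theorem leibniz {L : Type} [CommRing L] {n : T3 L} {N : Matrix I I L} (h : Der n N 0)
    (v w : I → L) (m : ℕ) : (-Nᵀ) ^ m *ᵥ crs n v w =
      ∑ ij ∈ Finset.HasAntidiagonal.antidiagonal m, m.choose ij.1 • crs n (N ^ ij.1 *ᵥ v) (N ^ ij.2 *ᵥ w) := by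
  induction m with
  | zero => simp
  | succ m ih =>
    rw [Finset.sum_antidiagonal_choose_succ_nsmul
      (fun i j => crs n (N ^ i *ᵥ v) (N ^ j *ᵥ w)), pow_succ', ← mulVec_mulVec, ih, mulVec_sum,
      ← Finset.sum_add_distrib]
    refine Finset.sum_congr rfl fun ij hij => ?_
    have e := h.crs (N ^ ij.1 *ᵥ v) (N ^ ij.2 *ᵥ w)
    rw [zero_smul, zero_sub, ← neg_mulVec, mulVec_mulVec, mulVec_mulVec, ← pow_succ',
      ← pow_succ'] at e
    rw [mulVec_smul, ← e, smul_add, add_comm,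
      Nat.choose_symm_of_eq_add (Finset.HasAntidiagonal.mem_antidiagonal.1 hij).symm]

end OpSs1Aux

theorem crs_pow_eq_zero {L : Type} [Field L] [CharZero L] {n : T3 L} {N : Matrix I I L}
    (h : Der n N 0) {k : ℕ} (hk : 0 < k) (h0 : N ^ (k + 1) = 0) (v w : I → L) :
    crs n (N ^ k *ᵥ v) (N ^ k *ᵥ w) = 0 := by
  have hz : ∀ j, k < j → N ^ j = 0 := fun j hj => pow_eq_zero_of_le hj h0
  have h1 := OpSs1Aux.leibniz h v w (k + k)
  rw [neg_pow, ← transpose_pow, hz _ (by omega), transpose_zero, mul_zero, zero_mulVec,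
    Finset.sum_eq_single (k, k) (fun ij hij hne => ?_) (fun h => absurd (by simp) h)] at h1
  · rw [← Nat.cast_smul_eq_nsmul L, eq_comm, smul_eq_zero] at h1
    exact h1.resolve_left (Nat.cast_ne_zero.2 (Nat.choose_pos (Nat.le_add_right k k)).ne')
  · have h2 := Finset.HasAntidiagonal.mem_antidiagonal.1 hij
    rcases lt_trichotomy k ij.1 with h3 | h3 | h3
    · rw [hz _ h3, zero_mulVec, crs_zero_left, smul_zero]
    · exact absurd (Prod.ext h3.symm (by simp only; omega)) hne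
    · rw [hz ij.2 (by omega), zero_mulVec, crs_zero_right, smul_zero]

theorem eq_zero_of_nilpotent {b : ℚ} (hb : Good b) {N : Matrix I I (Cub ℚ)} (hN : N ∈ LieG b ℚ)
    (h : IsNilpotent N) : N = 0 := by
  by_contra hne
  obtain ⟨m, hm⟩ := h
  classical
  have hex : ∃ m, N ^ (m + 1 + 1) = 0 := ⟨m, pow_eq_zero_of_le (by omega) hm⟩
  have h0 := Nat.find_spec hex
  have h1 : N ^ (Nat.find hex + 1) ≠ 0 := by
    cases hk : Nat.find hex with
    | zero => simpa using hne
    | succ j => exact Nat.find_min hex (by omega : j < Nat.find hex)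
  set k := Nat.find hex + 1 with hk
  obtain ⟨v, hv⟩ : ∃ v, N ^ k *ᵥ v ≠ 0 := by
    by_contra hc
    refine h1 (Matrix.ext fun a c => ?_)
    have := congrFun (not_not.1 (not_exists.1 hc (Pi.single c 1))) a
    simpa using this
  obtain ⟨φ, hφ⟩ := exists_phU hb.ne (Cub ℚ)
  have T := hb.tw hφ
  have hc : N * φ.1 = φ.1 * N.map Cub.sig := by
    rw [hφ]
    exact hN.2
  have hs : ∀ x, PhiV Cub.sig φ.1 (N *ᵥ x) = N *ᵥ PhiV Cub.sig φ.1 x := fun x => by
    rw [PhiV, PhiV, mulVec_mulVec, hc, ← mulVec_mulVec]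
    congr 1
    funext a
    exact RingHom.map_mulVec (Cub.sig : Cub ℚ ≃+* Cub ℚ).toRingHom N x a
  have hp : ∀ j x, PhiV Cub.sig φ.1 (N ^ j *ᵥ x) = N ^ j *ᵥ PhiV Cub.sig φ.1 x := fun j => by
    induction j with
    | zero => intro x; rw [pow_zero, one_mulVec, one_mulVec]
    | succ j ih => intro x; rw [pow_succ', ← mulVec_mulVec, ← mulVec_mulVec, hs, ih]
  have hz := crs_pow_eq_zero hN.1 (Nat.succ_pos _) h0
  refine T.tri_ne hv (hz v v) ?_
  rw [tri_eq_dot, hp, hz, zero_dotProduct]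

theorem aeval_comm {b : ℚ} {R : Type} [CommRing R] [Algebra ℚ R] {Y : Matrix I I (Cub R)}
    (hY : Y * ph b (Cub R) = ph b (Cub R) * Y.map Cub.sig) (q : ℚ[X]) :
    aeval Y q * ph b (Cub R) = ph b (Cub R) * (aeval Y q).map Cub.sig := by
  induction q using Polynomial.induction_on' with
  | add p q hp hq =>
    rw [map_add, Matrix.add_mul, hp, hq, Matrix.map_add _ (map_add _), Matrix.mul_add]
  | monomial m a =>
    have hp : Y ^ m * ph b (Cub R) = ph b (Cub R) * (Y ^ m).map Cub.sig := by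
      induction m with
      | zero => simp
      | succ m ih =>
        rw [pow_succ, Matrix.mul_assoc, hY, ← Matrix.mul_assoc, ih, Matrix.map_mul,
          Matrix.mul_assoc]
    rw [aeval_monomial, ← Algebra.smul_def, Matrix.smul_mul, hp, ← Matrix.mul_smul]
    congr 1
    ext1 x y
    simp only [Matrix.smul_apply, Matrix.map_apply, map_rat_smul]

end Pool.Agent.P.MP_3c2f8c_gt.Ex.Op
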