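import Pool.Agent.P.MP_3c2f8c_gt.Ex.Lo.OpDefs

/-! The tangent space of a subgroup of the units of a normed `p`-adic algebra. -/

namespace Pool.Agent.P.MP_3c2f8c_gt.Ex.Op

open Filter Topology

variable {p : ℕ} [Fact p.Prime] {A : Type} [NormedRing A] [NormedAlgebra ℚ_[p] A]

namespace T1Aux

theorem p_ne : (p : ℚ_[p]) ≠ 0 := by exact_mod_cast (Fact.out : p.Prime).ne_zero

theorem pk_ne (k : ℕ) : (p : ℚ_[p]) ^ k ≠ 0 := pow_ne_zero _ p_ne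

theorem pk_lim : Tendsto (fun k : ℕ => (p : ℚ_[p]) ^ k) atTop (𝓝 0) :=
  tendsto_pow_atTop_nhds_zero_of_norm_lt_one Padic.norm_p_lt_one

variable (p) in
/-- The rescaled difference from the identity. -/
noncomputable def sc (k : ℕ) (c : A) : A := ((p : ℚ_[p]) ^ k)⁻¹ • (c - 1)

theorem eq_sc (k : ℕ) (c : A) : c = 1 + (p : ℚ_[p]) ^ k • sc p k c := by
  rw [sc, smul_smul, mul_inv_cancel₀ (pk_ne k), one_smul, add_sub_cancel]

theorem sc_eq (k : ℕ) (Y : A) : sc p k (1 + (p : ℚ_[p]) ^ k • Y) = Y := by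
  rw [sc, add_sub_cancel_left, smul_smul, inv_mul_cancel₀ (pk_ne k), one_smul]

theorem sc_mul (k : ℕ) (c d : A) :
    sc p k (c * d) = sc p k c + sc p k d + (p : ℚ_[p]) ^ k • (sc p k c * sc p k d) := by
  conv_lhs => rw [eq_sc (p := p) k c, eq_sc (p := p) k d]
  rw [← sc_eq (p := p) k (sc p k c + sc p k d + (p : ℚ_[p]) ^ k • (sc p k c * sc p k d))]
  congr 1
  simp only [mul_add, add_mul, mul_one, one_mul, smul_add, smul_mul_assoc, mul_smul_comm]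
  abel

theorem tan_iff {Γ : Subgroup Aˣ} {X : A} : TanA p Γ X ↔
    ∀ ε : ℝ, 0 < ε → ∃ k₀ : ℕ, ∀ k : ℕ, k₀ ≤ k → ∃ c ∈ Γ, ‖sc p k c.1 - X‖ ≤ ε := by
  constructor
  · rintro ⟨c, hc, h⟩ ε hε
    obtain ⟨k₀, hk⟩ := Metric.tendsto_atTop.mp h ε hε
    exact ⟨k₀, fun k hk' => ⟨c k, hc k, by rw [← dist_eq_norm]; exact (hk k hk').le⟩⟩
  · intro h
    let B : ℕ → Set A := fun k => (fun c : Aˣ => sc p k c.1) '' Γ
    have hB : ∀ k, (B k).Nonempty := fun k => ⟨_, 1, Γ.one_mem, rfl⟩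
    have h1 : ∀ k : ℕ, ∃ c ∈ Γ,
        dist X (sc p k c.1) < Metric.infDist X (B k) + 1 / ((k : ℝ) + 1) := fun k => by
      obtain ⟨_, ⟨c, hc, rfl⟩, h2⟩ := (Metric.infDist_lt_iff (x := X) (hB k)).mp
        (lt_add_of_pos_right _ (Nat.one_div_pos_of_nat (n := k)))
      exact ⟨c, hc, h2⟩
    choose c hc hd using h1
    refine ⟨c, hc, ?_⟩
    have h2 : Tendsto (fun k => Metric.infDist X (B k)) atTop (𝓝 0) := by
      rw [Metric.tendsto_atTop]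
      intro ε hε
      obtain ⟨k₀, hk⟩ := h (ε / 2) (half_pos hε)
      refine ⟨k₀, fun k hk' => ?_⟩
      obtain ⟨d, hdΓ, hd⟩ := hk k hk'
      rw [Real.dist_0_eq_abs, abs_of_nonneg Metric.infDist_nonneg]
      have h3 : Metric.infDist X (B k) ≤ dist X (sc p k d.1) :=
        Metric.infDist_le_dist_of_mem ⟨d, hdΓ, rfl⟩
      rw [dist_comm, dist_eq_norm] at h3
      linarith
    have h3 := h2.add tendsto_one_div_add_atTop_nhds_zero_nat
    rw [add_zero] at h3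
    refine tendsto_iff_dist_tendsto_zero.mpr ?_
    exact squeeze_zero (fun _ => dist_nonneg) (fun k => by rw [dist_comm]; exact (hd k).le) h3

theorem lim_mul {c d : ℕ → A} {X Y : A} (hc : Tendsto (fun k => sc p k (c k)) atTop (𝓝 X))
    (hd : Tendsto (fun k => sc p k (d k)) atTop (𝓝 Y)) :
    Tendsto (fun k => sc p k (c k * d k)) atTop (𝓝 (X + Y)) := by
  have h := (hc.add hd).add ((pk_lim (p := p)).smul (hc.mul hd))
  rw [zero_smul, add_zero] at h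
  simpa only [sc_mul] using h

theorem lim_pow {c : ℕ → A} {X : A} (hc : Tendsto (fun k => sc p k (c k)) atTop (𝓝 X)) (m : ℕ) :
    Tendsto (fun k => sc p k (c k ^ m)) atTop (𝓝 ((m : ℚ_[p]) • X)) := by
  induction m with
  | zero => simp [sc]
  | succ m ih =>
    have h := lim_mul ih hc
    simpa only [pow_succ, Nat.cast_succ, add_smul, one_smul] using h

theorem tan_add {Γ : Subgroup Aˣ} {X Y : A} (hX : TanA p Γ X) (hY : TanA p Γ Y) :
    TanA p Γ (X + Y) := by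
  obtain ⟨c, hc, h⟩ := hX
  obtain ⟨d, hd, h'⟩ := hY
  exact ⟨fun k => c k * d k, fun k => Γ.mul_mem (hc k) (hd k), lim_mul (p := p) h h'⟩

theorem tan_nat {Γ : Subgroup Aˣ} {X : A} (hX : TanA p Γ X) (m : ℕ) :
    TanA p Γ ((m : ℚ_[p]) • X) := by
  obtain ⟨c, hc, h⟩ := hX
  refine ⟨fun k => c k ^ m, fun k => Γ.pow_mem (hc k) m, ?_⟩
  simpa only [Units.val_pow_eq_pow_val, sc] using lim_pow (p := p) h m

theorem tan_inv {Γ : Subgroup Aˣ} {X : A} (hX : TanA p Γ X) : TanA p Γ ((p : ℚ_[p])⁻¹ • X) := by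
  obtain ⟨c, hc, h⟩ := hX
  refine ⟨fun k => c (k - 1), fun k => hc _, ?_⟩
  rw [← tendsto_add_atTop_iff_nat 1]
  refine (h.const_smul (p : ℚ_[p])⁻¹).congr fun k => ?_
  simp only [Nat.add_sub_cancel, smul_smul, pow_succ, _root_.mul_inv_rev]

theorem tan_closed (Γ : Subgroup Aˣ) : IsClosed {X | TanA p Γ X} := by
  refine isClosed_of_closure_subset fun X hX => tan_iff.mpr fun ε hε => ?_
  obtain ⟨Y, hY, hd⟩ := Metric.mem_closure_iff.mp hX (ε / 2) (half_pos hε)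
  obtain ⟨k₀, hk⟩ := tan_iff.mp hY (ε / 2) (half_pos hε)
  refine ⟨k₀, fun k hk' => ?_⟩
  obtain ⟨c, hc, h⟩ := hk k hk'
  refine ⟨c, hc, ?_⟩
  rw [← dist_eq_norm] at h ⊢
  have := dist_triangle_right (sc p k c.1) X Y
  linarith

theorem tan_smul {Γ : Subgroup Aˣ} {X : A} (hX : TanA p Γ X) (a : ℚ_[p]) : TanA p Γ (a • X) := by
  have h1 : ∀ b : ℤ_[p], TanA p Γ ((b : ℚ_[p]) • X) := fun b => by
    refine PadicInt.denseRange_natCast.induction_on b ?_ fun m => ?_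
    · exact (tan_closed Γ).preimage (f := fun b : ℤ_[p] => (b : ℚ_[p]) • X)
        (continuous_subtype_val.smul continuous_const)
    · rw [PadicInt.coe_natCast]
      exact tan_nat hX m
  have h2 : ∀ (j : ℕ) (a : ℚ_[p]), ‖(p : ℚ_[p]) ^ j * a‖ ≤ 1 → TanA p Γ (a • X) := fun j => by
    induction j with
    | zero => exact fun a ha => h1 ⟨a, by simpa using ha⟩
    | succ j ih =>
      intro a ha
      have h3 := tan_inv (ih (p * a) (by rwa [← mul_assoc, ← pow_succ]))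
      rwa [smul_smul, inv_mul_cancel_left₀ p_ne] at h3
  have h3 := (pk_lim (p := p).mul_const a).norm
  rw [zero_mul, norm_zero] at h3
  obtain ⟨j, hj⟩ := (h3.eventually (ge_mem_nhds zero_lt_one)).exists
  exact h2 j a hj

variable [IsUltrametricDist A]

theorem norm_add_le {X Y : A} {r : ℝ} (hX : ‖X‖ ≤ r) (hY : ‖Y‖ ≤ r) : ‖X + Y‖ ≤ r :=
  (IsUltrametricDist.norm_add_le_max _ _).trans (max_le hX hY)

omit [IsUltrametricDist A] in
theorem norm_mul_le {X Y : A} (hX : ‖X‖ ≤ 1) (hY : ‖Y‖ ≤ 1) : ‖X * Y‖ ≤ 1 :=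
  (_root_.norm_mul_le _ _).trans (mul_le_one₀ hX (norm_nonneg _) hY)

omit [IsUltrametricDist A] in
theorem norm_smul_le_one {a : ℚ_[p]} {X : A} (ha : ‖a‖ ≤ 1) (hX : ‖X‖ ≤ 1) : ‖a • X‖ ≤ 1 := by
  rw [norm_smul]
  exact mul_le_one₀ ha (norm_nonneg _) hX

theorem pow_eq {t : ℚ_[p]} (ht : ‖t‖ ≤ 1) {Z : A} (hZ : ‖Z‖ ≤ 1) (m : ℕ) :
    ∃ W : A, ‖W‖ ≤ 1 ∧ (1 + t • Z) ^ m = 1 + ((m : ℚ_[p]) * t) • Z + (t * t) • W := by
  induction m with
  | zero => exact ⟨0, by simp, by simp⟩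
  | succ m ih =>
    obtain ⟨W, hW, e⟩ := ih
    refine ⟨W + (m : ℚ_[p]) • (Z * Z) + t • (W * Z), norm_add_le (norm_add_le hW
      (norm_smul_le_one (IsUltrametricDist.norm_natCast_le_one _ m) (norm_mul_le hZ hZ)))
      (norm_smul_le_one ht (norm_mul_le hW hZ)), ?_⟩
    rw [pow_succ, e]
    simp only [mul_add, add_mul, mul_one, one_mul, smul_mul_assoc, mul_smul_comm, Nat.cast_succ]
    module

theorem step {X c : A} (hX : ‖X‖ ≤ 1) {ε : ℝ} (hε : ε ≤ 1) {j : ℕ}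
    (hj : ‖(p : ℚ_[p]) ^ j‖ ≤ ε) (hc : ‖sc p (j + 1) c - X‖ ≤ ε) :
    ‖sc p (j + 2) (c ^ p) - X‖ ≤ ε := by
  have hZ : ‖sc p (j + 1) c‖ ≤ 1 := by
    have := norm_add_le (hc.trans hε) hX
    rwa [sub_add_cancel] at this
  have ht : ‖(p : ℚ_[p]) ^ (j + 1)‖ ≤ 1 := by
    rw [norm_pow]
    exact pow_le_one₀ (norm_nonneg _) Padic.norm_p_lt_one.le
  obtain ⟨W, hW, e⟩ := pow_eq ht hZ p
  rw [← eq_sc] at e
  have e2 : c ^ p = 1 + (p : ℚ_[p]) ^ (j + 2) • (sc p (j + 1) c + (p : ℚ_[p]) ^ j • W) := by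
    rw [e]
    module
  rw [e2, sc_eq, add_sub_right_comm]
  refine norm_add_le hc ?_
  rw [norm_smul]
  exact (mul_le_of_le_one_right (norm_nonneg _) hW).trans hj

variable [ProperSpace A]

omit [IsUltrametricDist A] in
theorem exists_near {Γ : Subgroup Aˣ} (hΓ : ∀ g ∈ Γ, ‖g.1‖ ≤ 1) (hinf : Infinite Γ) {ε : ℝ}
    (hε : 0 < ε) : ∃ c ∈ Γ, c ≠ 1 ∧ ‖c.1 - 1‖ < ε := by
  obtain ⟨t, ht, hc⟩ := Metric.totallyBounded_iff.1
    (isCompact_closedBall (0 : A) 1).totallyBounded (ε / 2) (half_pos hε)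
  have h2 : ∀ γ : Γ, ∃ x : t, γ.1.1 ∈ Metric.ball x.1 (ε / 2) := fun γ => by
    obtain ⟨x, hx, h⟩ := Set.mem_iUnion₂.mp (hc (mem_closedBall_zero_iff.2 (hΓ _ γ.2)))
    exact ⟨⟨x, hx⟩, h⟩
  choose f hf using h2
  have := ht.to_subtype
  obtain ⟨a, b, hab, e⟩ := Finite.exists_ne_map_eq_of_infinite f
  refine ⟨a.1⁻¹ * b.1, Γ.mul_mem (Γ.inv_mem a.2) b.2,
    fun h => hab (Subtype.ext (inv_mul_eq_one.mp h)), ?_⟩
  have e1 : (a.1⁻¹ * b.1).1 - 1 = (a.1⁻¹).1 * (b.1.1 - a.1.1) := by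
    rw [mul_sub, Units.inv_mul, Units.val_mul]
  have h3 : ‖b.1.1 - a.1.1‖ < ε := by
    have h4 := hf a
    have h5 := hf b
    rw [e, Metric.mem_ball] at h4
    rw [Metric.mem_ball] at h5
    rw [← dist_eq_norm]
    linarith [dist_triangle_right b.1.1 a.1.1 (f b).1]
  rw [e1]
  exact ((_root_.norm_mul_le _ _).trans
    (mul_le_of_le_one_left (norm_nonneg _) (hΓ _ (Γ.inv_mem a.2)))).trans_lt h3

end T1Aux

open T1Aux

theorem tanA_ne_zero [IsUltrametricDist A] [ProperSpace A] {Γ : Subgroup Aˣ}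
    (hΓ : ∀ g ∈ Γ, ‖g.1‖ ≤ 1) (hinf : Infinite Γ) : ∃ X, X ≠ 0 ∧ TanA p Γ X := by
  have hp0 : 0 < ‖(p : ℚ_[p])‖ := norm_pos_iff.mpr p_ne
  have hp1 : ‖(p : ℚ_[p])‖ < 1 := Padic.norm_p_lt_one
  have h1 : ∀ n : ℕ, ∃ c ∈ Γ, ∃ j : ℕ, n ≤ j ∧ ‖(p : ℚ_[p])‖ ≤ ‖sc p (j + 1) c.1‖ ∧
      ‖sc p (j + 1) c.1‖ ≤ 1 := fun n => by
    obtain ⟨c, hc, hc1, h⟩ := exists_near hΓ hinf (pow_pos hp0 (n + 1))
    have h0 : 0 < ‖c.1 - 1‖ := by
      rw [norm_pos_iff, sub_ne_zero]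
      exact fun h => hc1 (Units.ext h)
    obtain ⟨k, hk1, hk2⟩ := exists_nat_pow_near_of_lt_one h0
      (h.le.trans (pow_le_one₀ hp0.le hp1.le)) hp0 hp1
    have hk : n + 1 < k + 1 := (pow_lt_pow_iff_right_of_lt_one₀ hp0 hp1).mp (hk1.trans h)
    obtain ⟨j, rfl⟩ : ∃ j, k = j + 1 := ⟨k - 1, by omega⟩
    have hn : ‖sc p (j + 1) c.1‖ = (‖(p : ℚ_[p])‖ ^ (j + 1))⁻¹ * ‖c.1 - 1‖ := by
      rw [sc, norm_smul, norm_inv, norm_pow]
    refine ⟨c, hc, j, by omega, ?_, ?_⟩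
    · rw [hn, le_inv_mul_iff₀ (pow_pos hp0 _), ← pow_succ]
      exact hk1.le
    · rw [hn, inv_mul_le_iff₀ (pow_pos hp0 _), mul_one]
      exact hk2
  choose c hc j hj hl hu using h1
  obtain ⟨X, hX, φ, hφ, hlim⟩ := (isCompact_closedBall (0 : A) 1).tendsto_subseq
    (x := fun n => sc p (j n + 1) (c n).1) fun n => mem_closedBall_zero_iff.mpr (hu n)
  rw [mem_closedBall_zero_iff] at hX
  have hX0 : ‖(p : ℚ_[p])‖ ≤ ‖X‖ := ge_of_tendsto' hlim.norm fun n => hl (φ n)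
  refine ⟨X, norm_pos_iff.mp (hp0.trans_le hX0), tan_iff.mpr fun ε hε => ?_⟩
  have hε' : 0 < min ε 1 := lt_min hε zero_lt_one
  obtain ⟨n₁, hn₁⟩ := Metric.tendsto_atTop.mp hlim _ hε'
  obtain ⟨n₂, hn₂⟩ := Metric.tendsto_atTop.mp (pk_lim (p := p)) _ hε'
  let n := φ (max n₁ n₂)
  have hn : n₂ ≤ j n := ((le_max_right _ _).trans (hφ.id_le _)).trans (hj n)
  have key : ∀ i, j n ≤ i → ∃ d ∈ Γ, ‖sc p (i + 1) d.1 - X‖ ≤ min ε 1 := fun i hi => by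
    induction i, hi using Nat.le_induction with
    | base =>
      refine ⟨c n, hc n, ?_⟩
      rw [← dist_eq_norm]
      exact (hn₁ _ (le_max_left _ _)).le
    | succ i hi ih =>
      obtain ⟨d, hd, h⟩ := ih
      refine ⟨d ^ p, Γ.pow_mem hd p, ?_⟩
      rw [Units.val_pow_eq_pow_val]
      refine step hX (min_le_right _ _) ?_ h
      rw [← dist_zero_right]
      exact (hn₂ i (hn.trans hi)).le
  refine ⟨j n + 1, fun k hk => ?_⟩
  obtain ⟨i, rfl⟩ : ∃ i, k = i + 1 := ⟨k - 1, by omega⟩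
  obtain ⟨d, hd, h⟩ := key i (by omega)
  exact ⟨d, hd, h.trans (min_le_left _ _)⟩

theorem tanA_submodule (Γ : Subgroup Aˣ) : ∃ V : Submodule ℚ_[p] A, ∀ X, X ∈ V ↔ TanA p Γ X :=
  ⟨{ carrier := {X | TanA p Γ X}
     add_mem' := tan_add
     zero_mem' := ⟨fun _ => 1, fun _ => Γ.one_mem, by simp⟩
     smul_mem' := fun a _ h => tan_smul h a }, fun _ => Iff.rfl⟩

theorem TanA.conj {Γ : Subgroup Aˣ} {X : A} (h : TanA p Γ X) {g : Aˣ} {m : ℕ}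
    (hm : 0 < m) (hg : ∀ γ ∈ Γ, g * γ ^ m * g⁻¹ ∈ Γ) : TanA p Γ (g.1 * X * (g⁻¹).1) := by
  obtain ⟨c, hc, h⟩ := h
  have h1 := ((lim_pow (p := p) h m).const_mul g.1).mul_const (g⁻¹).1
  have h2 : TanA p Γ (g.1 * ((m : ℚ_[p]) • X) * (g⁻¹).1) := by
    refine ⟨fun k => g * c k ^ m * g⁻¹, fun k => hg _ (hc k), h1.congr fun k => ?_⟩
    simp only [sc, Units.val_mul, Units.val_pow_eq_pow_val,
      mul_smul_comm, smul_mul_assoc, mul_sub, sub_mul, mul_one, Units.mul_inv]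
  have h3 := tan_smul h2 (m : ℚ_[p])⁻¹
  have hm' : (m : ℚ_[p]) ≠ 0 := by exact_mod_cast hm.ne'
  rwa [mul_smul_comm, smul_mul_assoc, smul_smul, inv_mul_cancel₀ hm', one_smul] at h3

/-- A closed subspace that is stable under conjugation by a sequence tangent to `Y` is stable under
the bracket with `Y`. -/
theorem lie_mem_of_conj [CompleteSpace A] {V : Submodule ℚ_[p] A} (hV : IsClosed (V : Set A))
    {h : ℕ → Aˣ} {Y X : A}
    (hh : Tendsto (fun k : ℕ => ((p : ℚ_[p]) ^ k)⁻¹ • ((h k).1 - 1)) atTop (𝓝 Y)) (hX : X ∈ V)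
    (hc : ∀ k, (h k).1 * X * ((h k)⁻¹).1 ∈ V) : Y * X - X * Y ∈ V := by
  have h1 : Tendsto (fun k => (h k).1) atTop (𝓝 ((1 : Aˣ) : A)) := by
    have := ((pk_lim (p := p)).smul hh).const_add 1
    rw [zero_smul, add_zero] at this
    exact this.congr fun k => (eq_sc k _).symm
  have h2 : Tendsto (fun k => ((h k)⁻¹).1) atTop (𝓝 1) := by
    have := (NormedRing.inverse_continuousAt (1 : Aˣ)).tendsto.comp h1
    simpa [Function.comp_def] using this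
  have h3 := ((hh.mul_const X).sub (hh.const_mul X)).mul h2
  rw [mul_one] at h3
  refine hV.mem_of_tendsto h3 (Eventually.of_forall fun k => ?_)
  have e : (((p : ℚ_[p]) ^ k)⁻¹ • ((h k).1 - 1) * X - X * ((p : ℚ_[p]) ^ k)⁻¹ • ((h k).1 - 1)) *
      ((h k)⁻¹).1 = ((p : ℚ_[p]) ^ k)⁻¹ • ((h k).1 * X * ((h k)⁻¹).1 - X) := by
    rw [smul_mul_assoc, mul_smul_comm, ← smul_sub, smul_mul_assoc]
    congr 1
    simp only [sub_mul, mul_sub, one_mul, mul_one, mul_assoc, Units.mul_inv]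
    abel
  change _ ∈ V
  rw [e]
  exact V.smul_mem _ (V.sub_mem (hc k) hX)

end Pool.Agent.P.MP_3c2f8c_gt.Ex.Op
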