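import Pool.Agent.P.MP_3c2f8c_gt.Ex.Al.J1

/-! The action `X ↦ A X Aᵀ` of `3 × 3` matrices on hermitian matrices of octonions. -/

namespace Pool.Agent.P.MP_3c2f8c_gt.Ex

open Matrix

variable {R S : Type} [CommRing R] [CommRing S]

/-- The matrix of `X ↦ A X Aᵀ`. -/
def rho3 (A : Matrix (Fin 3) (Fin 3) R) : Matrix I I R :=
  Matrix.of fun a c => match a, c with
    | .inl i, .inl j => A i j ^ 2
    | .inl i, .inr j => if j.2 = 0 then 2 * (A i (j.1 + 1) * A i (j.1 + 2)) else 0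
    | .inr i, .inl j => if i.2 = 0 then A (i.1 + 1) j * A (i.1 + 2) j else 0
    | .inr i, .inr j => if i.2 = j.2 then A (i.1 + 1) (j.1 + 1) * A (i.1 + 2) (j.1 + 2) +
        (if i.2 = 0 then 1 else -1) * (A (i.1 + 1) (j.1 + 2) * A (i.1 + 2) (j.1 + 1)) else 0

theorem rho3_map (f : R →+* S) (A : Matrix (Fin 3) (Fin 3) R) :
    (rho3 A).map f = rho3 (A.map f) := by
  ext (i | i) (j | j) <;> simp only [rho3, map_apply, of_apply] <;> (try split_ifs) <;>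
    simp [map_ofNat]

theorem rho3_inl (A : Matrix (Fin 3) (Fin 3) R) (x : I → R) (i : Fin 3) :
    (rho3 A *ᵥ x) (.inl i) = ∑ j, (A i j ^ 2 * x (.inl j) +
      2 * (A i (j + 1) * A i (j + 2)) * x (.inr (j, 0))) := by
  simp [mulVec, dotProduct, rho3, Fintype.sum_sum_type, Fintype.sum_prod_type,
    Finset.sum_add_distrib]

theorem rho3_zero (A : Matrix (Fin 3) (Fin 3) R) (x : I → R) (i : Fin 3) :
    (rho3 A *ᵥ x) (.inr (i, 0)) = ∑ j, (A (i + 1) j * A (i + 2) j * x (.inl j) +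
      (A (i + 1) (j + 1) * A (i + 2) (j + 2) + A (i + 1) (j + 2) * A (i + 2) (j + 1)) *
        x (.inr (j, 0))) := by
  simp [mulVec, dotProduct, rho3, Fintype.sum_sum_type, Fintype.sum_prod_type,
    Finset.sum_add_distrib]

theorem rho3_ne (A : Matrix (Fin 3) (Fin 3) R) (x : I → R) (i : Fin 3) {u : Fin 8} (hu : u ≠ 0) :
    (rho3 A *ᵥ x) (.inr (i, u)) = ∑ j,
      (A (i + 1) (j + 1) * A (i + 2) (j + 2) - A (i + 1) (j + 2) * A (i + 2) (j + 1)) *
        x (.inr (j, u)) := by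
  simp [mulVec, dotProduct, rho3, Fintype.sum_sum_type, Fintype.sum_prod_type, hu, sub_eq_add_neg]

theorem NJ_rho3 (A : Matrix (Fin 3) (Fin 3) R) (x : I → R) :
    NJ (rho3 A *ᵥ x) = A.det ^ 2 * NJ x := by
  have e : ∀ i : Fin 3, (0 : Fin 3) + i = i ∧ (1 : Fin 3) + 1 = 2 ∧ (1 : Fin 3) + 2 = 0 ∧
    (2 : Fin 3) + 1 = 0 ∧ (2 : Fin 3) + 2 = 1 := by decide
  simp only [NJ, oc, onorm, otr, omul, Quaternion.normSq_def', Fin.sum_univ_three,
    Quaternion.re_sub, Quaternion.re_mul, Quaternion.imI_mul, Quaternion.imJ_mul,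
    Quaternion.imK_mul, Quaternion.re_add, Quaternion.imI_add, Quaternion.imJ_add,
    Quaternion.imK_add, Quaternion.imI_sub, Quaternion.imJ_sub, Quaternion.imK_sub,
    Quaternion.re_star, Quaternion.imI_star, Quaternion.imJ_star, Quaternion.imK_star,
    rho3_inl, rho3_zero, rho3_ne A x _ (show (1 : Fin 8) ≠ 0 by decide),
    rho3_ne A x _ (show (2 : Fin 8) ≠ 0 by decide), rho3_ne A x _ (show (3 : Fin 8) ≠ 0 by decide),
    rho3_ne A x _ (show (4 : Fin 8) ≠ 0 by decide), rho3_ne A x _ (show (5 : Fin 8) ≠ 0 by decide),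
    rho3_ne A x _ (show (6 : Fin 8) ≠ 0 by decide), rho3_ne A x _ (show (7 : Fin 8) ≠ 0 by decide),
    det_fin_three, (e _).1, (e 0).2.1, (e 0).2.2.1, (e 0).2.2.2.1, (e 0).2.2.2.2]
  ring

theorem sim_rho3 [Algebra ℚ R] (A : Matrix (Fin 3) (Fin 3) R) :
    Sim (nJ R) (nJ R) (rho3 A) (A.det ^ 2) := sim_iff_NJ.2 (NJ_rho3 A)

end Pool.Agent.P.MP_3c2f8c_gt.Ex
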