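import Pool.Agent.P.MP_3c2f8c_gt.Ex.Lo.LDefs

/-! EXL-Rt1: finite checks on coroots and reflections. -/

namespace Pool.Agent.P.MP_3c2f8c_gt.Ex

namespace Rt1Aux

/-- The signs of the entries of a root vector. -/
def sn (e a u : I) : ℤ :=
  if u = e ∨ u = a then 1 else if cr e a u = 1 then -(sg e (rf e a u) * sg a u)
  else if cr e a u = -1 then -(sg a (rf e a u) * sg e u) else 1

theorem k4 : ∀ e a, Rt e a → ∀ u, sn e a u * sn e a u = 1 ∧ sn e a (rf e a u) = sn e a u ∧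
    sn a e u = sn e a u := by decide +kernel

theorem k5 : ∀ e a, Rt e a → ∀ u, Adj a u → Adj e (thd a u) →
    cr e a u = 1 ∧ rf e a u = thd e (thd a u) ∧ u ≠ e ∧ u ≠ a := by decide +kernel

theorem k6 : ∀ e a, Rt e a → ∀ u, cr e a u = 1 → u ≠ e →
    Adj e (rf e a u) ∧ Adj a u ∧ thd e (rf e a u) = thd a u := by decide +kernel

theorem k8 : ∀ u v, Adj u v → ∃ d, d ≠ u ∧ d ≠ v ∧ Adj d v ∧ ¬ Adj d u := by decide +kernel

end Rt1Aux

end Pool.Agent.P.MP_3c2f8c_gt.Ex
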