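import Pool.Agent.P.MP_3c2f8c_gt.Ex.Lo.LDefs

/-! EXL-Rt1: finite checks on coroots and reflections. -/

namespace Pool.Agent.P.MP_3c2f8c_gt.Ex

namespace Rt1Aux

set_option synthInstance.maxSize 1024 in
theorem k7 : ∀ e a, Rt e a → ∀ u, cr e a u = 1 → ∀ v, cr e a v = 1 → u ≠ v →
    Rt u v ∧ Rt (rf e a u) (rf e a v) ∧ Adj u (rf e a v) ∧ Adj (rf e a u) v ∧
      thd u (rf e a v) = thd (rf e a u) v := by decide +kernel

end Rt1Aux

end Pool.Agent.P.MP_3c2f8c_gt.Ex
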