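import Pool.Agent.P.MP_3c2f8c_gt.Ex.Lo.Rt1a
import Pool.Agent.P.MP_3c2f8c_gt.Ex.Lo.Rt1b
import Pool.Agent.P.MP_3c2f8c_gt.Ex.Lo.Rt1c
import Pool.Agent.P.MP_3c2f8c_gt.Ex.Al.Std

/-! EXL-Rt1: coroots and reflections. -/

namespace Pool.Agent.P.MP_3c2f8c_gt.Ex

open Matrix

namespace Rt1Aux

theorem Er_eq {e a : I} (h : Rt e a) (u v : I) :
    Er ℤ e a u v = if cr e a u = 1 ∧ v = rf e a u then sn e a u else 0 := by
  rw [Er_apply h]
  by_cases h1 : u = e ∧ v = a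
  · obtain ⟨rfl, rfl⟩ := h1
    simp [cr, rf, sn]
  · rw [if_neg h1]
    by_cases h2 : Adj e v ∧ Adj a u ∧ thd e v = thd a u
    · obtain ⟨-, h3, h4, -⟩ := thd_spec e v h2.1
      rw [h2.2.2] at h3 h4
      obtain ⟨h5, h6, h7, h8⟩ := k5 e a h u h2.2.1 h3
      rw [h4] at h6
      rw [if_pos h2, if_pos ⟨h5, h6.symm⟩, sn, if_neg (not_or.2 ⟨h7, h8⟩), if_pos h5, h6]
      rfl
    · rw [if_neg h2, if_neg]
      rintro ⟨h3, rfl⟩
      by_cases h4 : u = e
      · exact h1 ⟨h4, by simp [h4, rf]⟩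
      · exact h2 (k6 e a h u h3 h4)

theorem Er_mul {e a : I} (h : Rt e a) (u w : I) :
    (Er ℤ e a * Er ℤ a e) u w = if cr e a u = 1 ∧ u = w then 1 else 0 := by
  rw [mul_apply, Finset.sum_eq_single (rf e a u) (fun v _ hv => by simp [Er_eq h, hv]) (by simp),
    Er_eq h, Er_eq h.symm, (k2 e a h _).1, (k2 e a h _).2.1, (k4 e a h _).2.2, (k1 e a h u).1,
    (k1 e a h u).2.2, (k4 e a h u).2.1, neg_neg]
  by_cases h1 : cr e a u = 1
  · by_cases h2 : u = w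
    · subst h2
      simp [h1, (k4 e a h u).1]
    · simp [h2, Ne.symm h2]
  · simp [h1]

end Rt1Aux

open Rt1Aux

variable {e a u v : I}

theorem cr_cases (e a u : I) : cr e a u = 1 ∨ cr e a u = 0 ∨ cr e a u = -1 := by
  unfold cr
  split_ifs <;> simp

theorem rf_rf (h : Rt e a) (u : I) : rf e a (rf e a u) = u := (k1 e a h u).1

theorem cr_eq_zero_iff (h : Rt e a) : cr e a u = 0 ↔ rf e a u = u := (k1 e a h u).2.1

theorem cr_rf (h : Rt e a) (u : I) : cr e a (rf e a u) = -cr e a u := (k1 e a h u).2.2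

theorem cr_symm (h : Rt e a) (u : I) : cr a e u = -cr e a u := (k2 e a h u).1

theorem rf_symm (h : Rt e a) (u : I) : rf a e u = rf e a u := (k2 e a h u).2.1

theorem cr_left (e a : I) : cr e a e = 1 := by simp [cr]

theorem rf_left (e a : I) : rf e a e = a := by simp [rf]

theorem sum_cr_sq (h : Rt e a) : ∑ u, cr e a u ^ 2 = 12 := k3 e a h

theorem Er_ne_iff (h : Rt e a) : Er ℤ e a u v ≠ 0 ↔ cr e a u = 1 ∧ v = rf e a u := by
  rw [Er_eq h]
  have h1 : sn e a u ≠ 0 := left_ne_zero_of_mul_eq_one (k4 e a h u).1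
  split_ifs with h2
  · exact iff_of_true h1 h2
  · exact iff_of_false (fun h3 => h3 rfl) h2

theorem Er_sign (h : Rt e a) : ∃ s : I → ℤˣ, (∀ u, s (rf e a u) = s u) ∧
    (∀ u v, Er ℤ e a u v = if cr e a u = 1 ∧ v = rf e a u then (s u : ℤ) else 0) ∧
    ∀ u v, Er ℤ a e u v = if cr e a u = -1 ∧ v = rf e a u then (s u : ℤ) else 0 := by
  refine ⟨fun u => Units.mkOfMulEqOne _ _ (k4 e a h u).1, fun u => Units.ext (k4 e a h u).2.1,
    Er_eq h, fun u v => ?_⟩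
  rw [Er_eq h.symm, cr_symm h, rf_symm h, (k4 e a h u).2.2]
  simp only [neg_eq_iff_eq_neg]
  rfl

theorem rt_rf (h : Rt e a) (hu : cr e a u ≠ 0) : Rt u (rf e a u) := (k2 e a h u).2.2 hu

theorem six_pairs (h : Rt e a) (hu : cr e a u = 1) (hv : cr e a v = 1) (huv : u ≠ v) :
    Rt u v ∧ Rt (rf e a u) (rf e a v) ∧ Adj u (rf e a v) ∧ Adj (rf e a u) v ∧
      thd u (rf e a v) = thd (rf e a u) v := k7 e a h u hu v hv huv

theorem exists_far (h : Adj u v) : ∃ d, d ≠ u ∧ d ≠ v ∧ Adj d v ∧ ¬ Adj d u := k8 u v h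

theorem Er_lie {R : Type} [CommRing R] (h : Rt e a) :
    Er R e a * Er R a e - Er R a e * Er R e a = dgz R (cr e a) := by
  rw [← Er_map (Int.castRingHom R) e a, ← Er_map (Int.castRingHom R) a e, ← Matrix.map_mul,
    ← Matrix.map_mul]
  ext u w
  rw [Matrix.sub_apply, map_apply, map_apply, Er_mul h, Er_mul h.symm, cr_symm h, dgz]
  by_cases h1 : u = w
  · subst h1
    rcases cr_cases e a u with h2 | h2 | h2 <;> simp [h2]
  · simp [h1]

end Pool.Agent.P.MP_3c2f8c_gt.Ex
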