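import Pool.Agent.P.MP_3c2f8c_gt.Ex.Lo.LDefs

/-! EXL-Rt1: finite checks on coroots and reflections. -/

namespace Pool.Agent.P.MP_3c2f8c_gt.Ex

namespace Rt1Aux

theorem k1 : ∀ e a, Rt e a → ∀ u, rf e a (rf e a u) = u ∧ (cr e a u = 0 ↔ rf e a u = u) ∧
    cr e a (rf e a u) = -cr e a u := by decide +kernel

theorem k2 : ∀ e a, Rt e a → ∀ u, cr a e u = -cr e a u ∧ rf a e u = rf e a u ∧
    (cr e a u ≠ 0 → Rt u (rf e a u)) := by decide +kernel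

theorem k3 : ∀ e a, Rt e a → ∑ u, cr e a u ^ 2 = 12 := by decide +kernel

end Rt1Aux

end Pool.Agent.P.MP_3c2f8c_gt.Ex
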