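import Pool.Agent.P.MP_3c2f8c_gt.Ex.Gl.Link
import Pool.Agent.P.MP_3c2f8c_gt.Ex.Lo.Rho3

/-!
The local group at a prime where `b` is a norm is the split group.
-/

namespace Pool.Agent.P.MP_3c2f8c_gt.Ex

open Matrix

namespace SplitAux

/-- The conjugates of the power basis. -/
def vA : Matrix (Fin 3) (Fin 3) (Cub ℚ) :=
  !![1, ⟨0, 1, 0⟩, ⟨0, 0, 1⟩; 1, ⟨-2, 0, 1⟩, ⟨3, -1, -1⟩; 1, ⟨1, -1, -1⟩, ⟨2, 1, 0⟩]

theorem vA_succ (i j : Fin 3) : vA (i + 1) j = Cub.sig (vA i j) := by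
  fin_cases i <;> fin_cases j <;> ext <;> simp [vA] <;> norm_num

theorem vA_det : vA.det ^ 2 = 49 := by
  rw [det_fin_three, show (49 : Cub ℚ) = ⟨49, 0, 0⟩ from rfl, sq]
  ext <;> simp [vA] <;> norm_num

theorem exists_one : ∃ P : GL I (Cub ℚ), Sim (nJ _) (nJ _) P.1 49 ∧
    ph 1 (Cub ℚ) * P.1.map Cub.sig = P.1 := by
  have hs : Sim (nJ _) (nJ _) (rho3 vA) 49 := vA_det ▸ sim_rho3 vA
  have hu : IsUnit (rho3 vA) := by
    rw [← mulVec_injective_iff_isUnit]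
    refine (injective_iff_map_eq_zero (mulVecLin (rho3 vA))).2 fun x hx => ?_
    refine (isAlb_nJ _).eq_zero fun y => B1Aux.dot_ext fun z => ?_
    have h := hs x y z
    rw [show rho3 vA *ᵥ x = 0 from hx, tri_eq_dot, crs_zero_left, zero_dotProduct, tri_eq_dot] at h
    rw [zero_dotProduct]
    exact (mul_eq_zero.1 h.symm).resolve_left (by norm_num)
  refine ⟨hu.unit, hs, ?_⟩
  ext1 c d
  obtain ⟨c, rfl⟩ : ∃ c', c = sh c' := ⟨_, (sh_sh_sh c).symm⟩
  have h := phi_mulVec (algebraMap ℚ (Cub ℚ) 1) (fun a => (rho3 vA).map Cub.sig a d) c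
  have h1 : phc (algebraMap ℚ (Cub ℚ) 1) c = 1 := by
    rw [map_one]
    rcases c with i | ⟨i, u⟩ <;> fin_cases i <;> simp [phc]
  rw [h1, one_mul] at h
  refine Eq.trans h ?_
  change ((rho3 vA).map (Cub.sig : Cub ℚ ≃+* Cub ℚ).toRingHom) c d = rho3 vA (sh c) d
  rw [rho3_map]
  have e : ∀ i j, vA.map (Cub.sig : Cub ℚ ≃+* Cub ℚ).toRingHom i j = vA (i + 1) j :=
    fun i j => (vA_succ i j).symm
  rcases c with i | i <;> rcases d with j | j <;>
    simp only [rho3, of_apply, sh, Sum.map_inl, Sum.map_inr, e, add_right_comm _ (1 : Fin 3)]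

theorem exists_P {b : ℚ} {p : ℕ} [Fact p.Prime] (hb : IsNrm p b) :
    ∃ (P : GL I (Cub ℚ_[p])) (ν u : (Cub ℚ_[p])ˣ), Sim (nZ _) (nJ _) P.1 ν.1 ∧
      ph b _ * P.1.map Cub.sig = u.1 • P.1 := by
  obtain ⟨c, hc⟩ := hb
  obtain ⟨P₁, h1, h2⟩ := exists_one
  obtain ⟨q, hq⟩ := exists_sq_padic p
  obtain ⟨-, S, -, -, -, hS, -⟩ := exists_split q hq
  have hm := (LinkAux.rel_rdU (b := b) (b' := 1) c (by rw [map_one, one_mul, hc]; rfl)).inv
  obtain ⟨μ, hμ⟩ := inv_mem (LinkAux.rdU_mem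
    ![1, c, c * Units.map (Cub.sig : Cub ℚ_[p] ≃+* Cub ℚ_[p]).toMonoidHom c])
  generalize (LinkAux.rdU
    ![1, c, c * Units.map (Cub.sig : Cub ℚ_[p] ≃+* Cub ℚ_[p]).toMonoidHom c])⁻¹ = m at hm hμ
  let f := Cub.map (algebraMap ℚ ℚ_[p])
  have h3 := h1.map f
  have h4 := (Sim.inv (ν := 1) hS).map (Cub.C : ℚ_[p] →+* Cub ℚ_[p])
  rw [nJ_map] at h3 h4
  rw [nZ_map] at h4
  have h5 := (hμ.mul h3).mul h4
  have hu := Sim.isUnit (isAlb_nJ _) (g := m * glmap f P₁ * glmap Cub.C S⁻¹) h5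
  refine ⟨m * glmap f P₁ * glmap Cub.C S⁻¹, hu.unit, c ^ 2, h5, ?_⟩
  have e1 : ph 1 _ * (P₁.1.map f).map Cub.sig = P₁.1.map f := by
    have h := congrArg (fun X => X.map f) h2
    simp only [Matrix.map_mul, ph_map] at h
    rw [← h]
    congr 1
    rw [h]
    ext1 i j
    exact (Cub.map_sig _ _).symm
  have e2 : ((S⁻¹).1.map (Cub.C : ℚ_[p] →+* Cub ℚ_[p])).map Cub.sig = (S⁻¹).1.map Cub.C := by
    ext1 i j
    exact Cub.sig_C _
  have e3 : ph b _ * m.1.map Cub.sig = (c ^ 2).1 • (m.1 * ph 1 _) := by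
    rw [show m.1 * ph 1 _ = _ from hm, smul_smul, Units.mul_inv, one_smul]
  change ph b _ * (m.1 * P₁.1.map f * (S⁻¹).1.map Cub.C).map Cub.sig =
    _ • (m.1 * P₁.1.map f * (S⁻¹).1.map Cub.C)
  rw [Matrix.map_mul, Matrix.map_mul, e2, ← Matrix.mul_assoc, ← Matrix.mul_assoc, e3,
    Matrix.smul_mul, Matrix.smul_mul, Matrix.mul_assoc m.1, e1]

variable {R : Type} [CommRing R] [Algebra ℚ R]

theorem eq_map {X : Matrix I I (Cub R)} (h : X.map Cub.sig = X) : (X.map Cub.c0).map Cub.C = X := by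
  ext1 i j
  exact (Cub.eq_C_of_sig (congrFun (congrFun h i) j)).symm

omit [Algebra ℚ R] in
theorem map_inj : Function.Injective fun X : Matrix I I R => X.map (Cub.C : R →+* Cub R) :=
  Matrix.map_injective Cub.C_injective

theorem exists_pre (g : GL I (Cub R)) (h : g.1.map Cub.sig = g.1) :
    ∃ g₀ : GL I R, glmap Cub.C g₀ = g := by
  have h' : (g⁻¹).1.map Cub.sig = (g⁻¹).1 := by
    have : LinkAux.sg g = g := Units.ext h
    change (LinkAux.sg g⁻¹).1 = _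
    rw [map_inv, this]
  refine ⟨⟨g.1.map Cub.c0, (g⁻¹).1.map Cub.c0, map_inj ?_, map_inj ?_⟩, Units.ext (eq_map h)⟩
  · simp only [Matrix.map_mul, eq_map h, eq_map h', Units.mul_inv]
    simp
  · simp only [Matrix.map_mul, eq_map h, eq_map h', Units.inv_mul]
    simp

omit [Algebra ℚ R] in
theorem smul_C (t : R) : (t • (1 : Matrix I I R)).map (Cub.C : R →+* Cub R) =
    t • (1 : Matrix I I (Cub R)) := by
  ext1 i j
  by_cases h : i = j <;> ext <;> simp [h]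

end SplitAux

open SplitAux

theorem exists_split_equiv {b : ℚ} {p : ℕ} [Fact p.Prime] (hb : IsNrm p b) :
    ∃ (e : UZ ℚ_[p] ≃ₜ* UG b ℚ_[p]) (P : GL I (Cub ℚ_[p])), ∀ g₀ : Str (nZ ℚ_[p]),
      ∃ g : Gt b ℚ_[p], e (QuotientGroup.mk g₀) = QuotientGroup.mk g ∧
        g.1 = P * glmap Cub.C g₀.1 * P⁻¹ := by
  obtain ⟨P, ν, u, hP, hu⟩ := exists_P hb
  have hu' : ph b _ * (LinkAux.sg P).1 = u.1 • P.1 := hu
  have e1 : ph b _ = u.1 • (P.1 * ((LinkAux.sg P)⁻¹).1) := by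
    rw [← Matrix.smul_mul, ← hu', Units.mul_inv_cancel_right]
  have key : ∀ h : GL I (Cub ℚ_[p]), (P * h * P⁻¹).1 * ph b _ =
      ph b _ * (P * h * P⁻¹).1.map Cub.sig ↔ LinkAux.sg h = h := fun h => by
    change _ = _ * (LinkAux.sg (P * h * P⁻¹)).1 ↔ _
    rw [e1, Matrix.mul_smul, Matrix.smul_mul, u.isUnit.smul_left_cancel, ← Units.val_mul,
      ← Units.val_mul, ← Units.val_mul, Units.val_inj, map_mul, map_mul, map_inv]
    simp only [mul_assoc, inv_mul_cancel_left, mul_right_inj, mul_left_inj]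
    exact eq_comm
  have m1 : ∀ g₀ : Str (nZ ℚ_[p]), P * glmap Cub.C g₀.1 * P⁻¹ ∈ Gt b ℚ_[p] := fun g₀ => by
    obtain ⟨μ, hμ⟩ := g₀.2
    have h1 := hμ.map (Cub.C : ℚ_[p] →+* Cub ℚ_[p])
    rw [nZ_map] at h1
    refine ⟨⟨ν * Units.map Cub.C.toMonoidHom μ * ν⁻¹, (hP.mul h1).mul (Sim.inv hP)⟩,
      (key _).2 (Units.ext ?_)⟩
    ext1 i j
    exact Cub.sig_C _
  let F : Str (nZ ℚ_[p]) →* Gt b ℚ_[p] :=
    (((MulAut.conj P).toMonoidHom.comp (glmap Cub.C)).comp (Subgroup.subtype _)).codRestrict _ m1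
  have hF : ∀ g₀, (F g₀).1 = P * glmap Cub.C g₀.1 * P⁻¹ := fun _ => rfl
  have inj : Function.Injective F := fun g h e => by
    have e' := congrArg Subtype.val e
    rw [hF, hF, mul_left_inj, mul_right_inj] at e'
    exact Subtype.ext (Units.ext (map_inj (congrArg Units.val e')))
  have sur : Function.Surjective F := fun g => by
    obtain ⟨⟨μ, hμ⟩, hg⟩ := g.2
    have e2 : P * (P⁻¹ * g.1 * P) * P⁻¹ = g.1 := by group
    have h1 := (key (P⁻¹ * g.1 * P)).1 (by rw [e2]; exact hg)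
    obtain ⟨g₀, hg₀⟩ := exists_pre _ (congrArg Units.val h1)
    have h2 : Sim (nZ _) (nZ _) (glmap Cub.C g₀).1 ((ν⁻¹).1 * μ.1 * ν.1) := by
      rw [hg₀]
      exact ((Sim.inv hP).mul hμ).mul hP
    have h3 : Cub.C (nu (nZ ℚ_[p]) g₀.1) = (ν⁻¹).1 * μ.1 * ν.1 := by
      rw [← h2.nu_eq nZ_base]
      have := T3.pull_map (Cub.C : ℚ_[p] →+* Cub ℚ_[p]) (nZ _) g₀.1
      rw [nZ_map] at this
      exact (congrFun (congrFun (congrFun this _) _) _).symm
    have h4 : Sim (nZ _) (nZ _) g₀.1 (nu (nZ ℚ_[p]) g₀.1) :=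
      Sim.of_map Cub.C_injective (by rw [nZ_map, h3]; exact h2)
    exact ⟨⟨g₀, (h4.isUnit (isAlb_nZ _)).unit, h4⟩, Subtype.ext (by rw [hF, hg₀, e2])⟩
  let f := MulEquiv.ofBijective F ⟨inj, sur⟩
  have hf : (Scal ℚ_[p] (Str (nZ ℚ_[p]))).map f = Scal ℚ_[p] (Gt b ℚ_[p]) := by
    ext g
    obtain ⟨g₀, rfl⟩ := f.surjective g
    refine (Subgroup.mem_map_iff_mem f.injective).trans (exists_congr fun t => ?_)
    change _ ↔ (P * glmap Cub.C g₀.1 * P⁻¹).1 = _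
    rw [Units.val_mul, Units.mul_inv_eq_iff_eq_mul, Matrix.smul_mul, Matrix.one_mul,
      ← Matrix.mul_one P.1, ← Matrix.mul_smul, Units.val_mul, Units.mul_right_inj, ← smul_C]
    exact map_inj.eq_iff.symm
  have cC : Continuous (Cub.C : ℚ_[p] → Cub ℚ_[p]) :=
    Cub.continuous_iff.2 ⟨continuous_id, continuous_const, continuous_const⟩
  have c1 : Continuous f := Continuous.subtype_mk ((continuous_const.mul (Units.continuous_iff.2
    ⟨(Units.continuous_val.comp continuous_subtype_val).matrix_map cC,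
      (Units.continuous_coe_inv.comp continuous_subtype_val).matrix_map cC⟩)).mul
    continuous_const) _
  have e3 : ∀ g, (f.symm g).1.1 = (P⁻¹ * g.1 * P).1.map Cub.c0 := fun g => by
    obtain ⟨g₀, rfl⟩ := f.surjective g
    rw [MulEquiv.symm_apply_apply]
    change _ = (P⁻¹ * (P * glmap Cub.C g₀.1 * P⁻¹) * P).1.map Cub.c0
    rw [show P⁻¹ * (P * glmap Cub.C g₀.1 * P⁻¹) * P = glmap Cub.C g₀.1 by group]
    rfl
  have c3 : Continuous fun g => (f.symm g).1.1 := by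
    simp only [e3]
    exact (Units.continuous_val.comp ((continuous_const.mul continuous_subtype_val).mul
      continuous_const)).matrix_map Cub.continuous_c0
  have c2 : Continuous f.symm := by
    refine continuous_induced_rng.2 (Units.continuous_iff.2 ⟨c3, ?_⟩)
    refine (c3.comp continuous_inv).congr fun g => ?_
    simp
  exact ⟨{ QuotientGroup.congr _ _ f hf with
    continuous_toFun := (QuotientGroup.isQuotientMap_mk _).continuous_iff.2
      (QuotientGroup.continuous_mk.comp c1)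
    continuous_invFun := (QuotientGroup.isQuotientMap_mk _).continuous_iff.2
      (QuotientGroup.continuous_mk.comp c2) }, P, fun g₀ => ⟨F g₀, rfl, rfl⟩⟩

end Pool.Agent.P.MP_3c2f8c_gt.Ex
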